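import Pool.Agent.HamTrans.Seq

set_option linter.unusedSectionVars false

namespace Pool.Agent.HamTrans

open List

variable {Γ : Type*} [AddCommGroup Γ]

/-- blocks of constant entries -/
def blks (m : Γ → ℕ) (zs : List Γ) : List Γ := zs.flatMap (fun z => List.replicate (m z) z)

theorem blks_nil (m : Γ → ℕ) : blks m [] = [] := rfl

theorem blks_cons (m : Γ → ℕ) (z : Γ) (zs : List Γ) :
    blks m (z :: zs) = List.replicate (m z) z ++ blks m zs := rfl

theorem count_blks [DecidableEq Γ] (m : Γ → ℕ) (z : Γ) (zs : List Γ) :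
    (blks m zs).count z = m z * zs.count z := by
  induction zs with
  | nil => simp [blks]
  | cons a zs ih =>
    rw [blks_cons, List.count_append, ih, List.count_replicate, List.count_cons]
    by_cases h : a = z
    · subst h; simp; ring
    · simp [h]

theorem rep_chain {S : Set Γ} (h0 : (0 : Γ) ∈ S) {z : Γ} {l : List Γ} (k : ℕ)
    (h : (z :: l).IsChain (Rel S)) : (z :: (List.replicate k z ++ l)).IsChain (Rel S) := by
  induction k with
  | zero => simpa using h
  | succ k ih =>
    rw [List.replicate_succ, List.cons_append, List.isChain_cons_cons]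
    exact ⟨by unfold Rel; simpa using h0, ih⟩

theorem blks_chain {S : Set Γ} (h0 : (0 : Γ) ∈ S) (m : Γ → ℕ) (w : Γ) :
    ∀ (zs : List Γ) (z : Γ), (∀ x ∈ zs, 1 ≤ m x) → (z :: (zs ++ [w])).IsChain (Rel S) →
      (z :: (blks m zs ++ [w])).IsChain (Rel S) := by
  intro zs
  induction zs with
  | nil => intro z _ h; simpa [blks] using h
  | cons z' zs ih =>
    intro z hm h
    rw [List.cons_append, List.isChain_cons_cons] at h
    obtain ⟨k, hk⟩ : ∃ k, m z' = k + 1 := ⟨m z' - 1, by
      have := hm z' (by simp); omega⟩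
    have h1 := ih z' (fun x hx => hm x (by simp [hx])) h.2
    rw [blks_cons, hk, List.replicate_succ, List.append_assoc, List.cons_append,
      List.isChain_cons_cons]
    exact ⟨h.1, rep_chain h0 k h1⟩

theorem CW_of_chain {S : Set Γ} {x : Γ} {l : List Γ}
    (h : (x :: (l ++ [x])).IsChain (Rel S)) : CW S (x :: l) := by
  rw [← List.cons_append, List.isChain_append] at h
  refine ⟨h.1, ?_⟩
  intro u hu v hv
  simp only [List.head?_cons, Option.mem_def, Option.some.injEq] at hu
  subst hu
  exact h.2.2 v hv _ (by simp)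

theorem AG_rep {S : Set Γ} (h0 : (0 : Γ) ∈ S) (z : Γ) (k : ℕ) : AG S (List.replicate k z) := by
  apply AG_of_windows
  intro i hi
  simpa using h0

theorem AG_blks {S : Set Γ} (hS : ∀ s ∈ S, -s ∈ S) (h0 : (0 : Γ) ∈ S) {h : ℕ} (hh : 3 ≤ h)
    (w : Γ) : ∀ (zs : List Γ) (z : Γ), (z :: (zs ++ [w])).IsChain (Rel S) →
      AG S (z :: z :: z :: (blks (fun _ => h) zs ++ [w, w, w])) := by
  intro zs
  induction zs with
  | nil =>
    intro z hz
    simp only [List.nil_append, List.isChain_cons_cons] at hz
    have h1 := hz.1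
    unfold Rel at h1
    simp [blks, AG_cons4, h1, AG_three]
  | cons z' zs ih =>
    intro z hz
    rw [List.cons_append, List.isChain_cons_cons] at hz
    have h1 := hz.1
    unfold Rel at h1
    obtain ⟨k, rfl⟩ : ∃ k, h = k + 3 := ⟨h - 3, by omega⟩
    have e : z :: z :: z :: (blks (fun _ => k + 3) (z' :: zs) ++ [w, w, w])
        = [z, z, z] ++ z' :: z' :: z' :: (List.replicate k z' ++
          (blks (fun _ => k + 3) zs ++ [w, w, w])) := by
      rw [blks_cons]
      simp [List.replicate_succ]
    have e2 : z' :: z' :: z' :: (List.replicate k z' ++ (blks (fun _ => k + 3) zs ++ [w, w, w]))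
        = List.replicate k z' ++ z' :: z' :: z' :: (blks (fun _ => k + 3) zs ++ [w, w, w]) := by
      have e3 : List.replicate (k + 3) z' = List.replicate k z' ++ [z', z', z'] := by
        rw [List.replicate_add]; rfl
      have e4 : List.replicate (k + 3) z' = [z', z', z'] ++ List.replicate k z' := by
        rw [add_comm, List.replicate_add]; rfl
      have e5 : [z', z', z'] ++ List.replicate k z' = List.replicate k z' ++ [z', z', z'] := by
        rw [← e3, e4]
      have e6 := congrArg (fun l => l ++ (blks (fun _ => k + 3) zs ++ [w, w, w])) e5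
      simpa using e6
    rw [e, AG_append]
    refine ⟨by simp [AG_cons4, h1, AG_three], ?_⟩
    rw [e2, AG_append]
    refine ⟨?_, ih z' hz.2⟩
    have e3 : List.replicate k z' ++ [z', z', z'] = List.replicate (k + 3) z' := by
      rw [List.replicate_add]; rfl
    rw [e3]; exact AG_rep h0 _ _

/-- **Case alpha**: everything nonzero is in `S`. -/
theorem alpha_two [Finite Γ] {S : Set Γ} (hG : Good S) (H : AddSubgroup Γ)
    (hcard : 3 ≤ Nat.card H) (hfull : ∀ x ∈ H, x ≠ 0 → x ∈ S)
    (hper : ∀ t ∈ S, t ∉ H → ∀ h ∈ H, t + h ∈ S) : ∀ x : Γ, x ≠ 0 → x ∈ S := by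
  classical
  by_cases htop : ∀ x : Γ, x ∈ H
  · intro x hx; exact hfull x (htop x) hx
  push Not at htop
  -- some element of `S` outside `H`
  obtain ⟨t₀, ht₀S, ht₀H⟩ : ∃ t ∈ S, t ∉ H := by
    by_contra hcon
    push Not at hcon
    have h1 : AddSubgroup.closure S ≤ H := by
      rw [AddSubgroup.closure_le]; exact hcon
    rw [hG.gen] at h1
    obtain ⟨x, hx⟩ := htop
    exact hx (h1 (AddSubgroup.mem_top x))
  obtain ⟨g, hgH, hg0⟩ : ∃ g ∈ H, g ≠ 0 := by
    by_contra hcon
    push Not at hcon
    have : H = ⊥ := (AddSubgroup.eq_bot_iff_forall H).2 hcon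
    rw [this] at hcard
    simp at hcard
  have hcardΓ : 4 ≤ Nat.card Γ := by
    have h1 : (Nat.card H) ∣ Nat.card Γ := AddSubgroup.card_addSubgroup_dvd_card H
    have h2 : Nat.card H ≠ Nat.card Γ := by
      intro h
      have := AddSubgroup.eq_top_of_card_eq H h
      obtain ⟨x, hx⟩ := htop
      rw [this] at hx
      exact hx (AddSubgroup.mem_top x)
    obtain ⟨c, hc⟩ := h1
    have h3 : 0 < Nat.card Γ := Nat.card_pos
    have h4 : c ≠ 0 := by rintro rfl; omega
    have h5 : c ≠ 1 := by rintro rfl; omega
    nlinarith [Nat.pos_of_ne_zero h4, show 2 ≤ c by omega]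
  have hP : ∀ x : Γ, x ≠ 0 → (x : Γ ⧸ H) ∈ qS S H → x ∈ S := by
    rintro x hx ⟨s, hs, hsx⟩
    have h1 : x - s ∈ H := by
      rw [← QuotientAddGroup.eq_zero_iff, QuotientAddGroup.mk_sub, sub_eq_zero]
      exact hsx.symm
    by_cases hsH : s ∈ H
    · apply hfull x _ hx
      have := H.add_mem h1 hsH
      simpa using this
    · have := hper s hs hsH _ h1
      simpa using this
  have hneg := qS_neg hG.neg H
  have h0S : (0 : Γ ⧸ H) ∈ qS S H := ⟨g, hfull g hgH hg0, (QuotientAddGroup.eq_zero_iff _).2 hgH⟩
  -- Hamiltonian cycle of the quotient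
  have ht₀0 : (t₀ : Γ ⧸ H) ≠ 0 := fun h => ht₀H ((QuotientAddGroup.eq_zero_iff _).1 h)
  obtain ⟨l, hl, hu, hv, -⟩ := gp_subgroup hneg (⊤ : AddSubgroup (Γ ⧸ H))
    (by simpa using qS_closure hG.gen H) (g := (t₀ : Γ ⧸ H)) ⟨t₀, ht₀S, rfl⟩
    (AddSubgroup.mem_top _) ht₀0
  obtain ⟨zs, rfl⟩ : ∃ zs, l = 0 :: zs := by
    cases l with
    | nil => simp at hu
    | cons a l' => simp at hu; exact ⟨l', by rw [hu]⟩
  have hch : ((0 : Γ ⧸ H) :: (zs ++ [0])).IsChain (Rel (qS S H)) := by
    rw [← List.cons_append, List.isChain_append]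
    refine ⟨hl.chain, by simp, ?_⟩
    intro u hu' v hv'
    rw [hv] at hu'
    simp only [List.head?_cons, Option.mem_def, Option.some.injEq] at hu' hv'
    subst hu'; subst hv'
    unfold Rel
    rw [zero_sub]
    exact hneg _ ⟨t₀, ht₀S, rfl⟩
  have hcnt : ∀ z : Γ ⧸ H, ((0 : Γ ⧸ H) :: zs).count z = 1 := by
    intro z
    exact List.count_eq_one_of_mem hl.nodup ((hl.mem z).2 (AddSubgroup.mem_top z))
  set h := Nat.card H with hh
  have hclosed : ∀ x ∈ qS S H, ∀ y ∈ qS S H, x + y ∈ qS S H := by
    intro t ht t' ht'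
    by_cases h1 : t = 0
    · rw [h1, zero_add]; exact ht'
    by_cases h2 : t' = 0
    · rw [h2, add_zero]; exact ht
    by_cases h3 : t + t' = 0
    · rw [h3]; exact h0S
    have h4 : t + t' ≠ t := fun h => h2 (by simpa using h)
    set m : Γ ⧸ H → ℕ := fun z => if z = t then h - 2 else if z = t + t' then h - 1 else h
      with hm
    have hW0 : CW (qS S H) (blks (fun _ => h) ((0 : Γ ⧸ H) :: zs)) := by
      obtain ⟨k, hk⟩ : ∃ k, h = k + 1 := ⟨h - 1, by omega⟩
      rw [blks_cons, hk, List.replicate_succ, List.cons_append]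
      apply CW_of_chain
      rw [List.append_assoc]
      apply rep_chain h0S
      exact blks_chain h0S _ 0 zs 0 (fun x _ => by omega) hch
    have hAG : AG (qS S H) (blks (fun _ => h) ((0 : Γ ⧸ H) :: zs) ++
        (blks (fun _ => h) ((0 : Γ ⧸ H) :: zs)).take 3) := by
      obtain ⟨k, hk⟩ : ∃ k, h = k + 3 := ⟨h - 3, by omega⟩
      have e1 : (blks (fun _ => h) ((0 : Γ ⧸ H) :: zs)).take 3 = [0, 0, 0] := by
        rw [blks_cons, hk, List.replicate_succ, List.replicate_succ, List.replicate_succ]
        simp
      rw [e1, blks_cons]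
      have e2 : List.replicate h (0 : Γ ⧸ H) = List.replicate k 0 ++ [0, 0, 0] := by
        rw [hk, List.replicate_add]; rfl
      have e3 : List.replicate h (0 : Γ ⧸ H) ++ blks (fun _ => h) zs ++ [0, 0, 0]
          = List.replicate k 0 ++ 0 :: 0 :: 0 :: (blks (fun _ => h) zs ++ [0, 0, 0]) := by
        rw [e2]; simp
      rw [e3, AG_append, ← e2]
      exact ⟨AG_rep h0S _ _, AG_blks hneg h0S hcard 0 zs 0 hch⟩
    have hW1 : CW (qS S H) (0 :: 0 :: t :: (t + t') :: (t :: (List.replicate (h - 2) 0 ++
        blks m zs))) := by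
      apply CW_of_chain
      have h5 : ((0 : Γ ⧸ H) :: (blks m zs ++ [0])).IsChain (Rel (qS S H)) := by
        apply blks_chain h0S m 0 zs 0 _ hch
        intro x _
        simp only [hm]
        split_ifs <;> omega
      have h6 := rep_chain h0S (h - 3) h5
      have e4 : List.replicate (h - 2) (0 : Γ ⧸ H) = 0 :: List.replicate (h - 3) 0 := by
        rw [← List.replicate_succ]; congr 1; omega
      rw [e4]
      simp only [List.cons_append, List.append_assoc, List.isChain_cons_cons]
      refine ⟨?_, ?_, ?_, ?_, ?_, h6⟩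
      · unfold Rel; simpa using h0S
      · unfold Rel; simpa using ht
      · unfold Rel; simpa using ht'
      · unfold Rel
        have : t - (t + t') = -t' := by abel
        rw [this]; exact hneg _ ht'
      · unfold Rel; rw [zero_sub]; exact hneg _ ht
    have hfin := seq_window hG.const H hP hcardΓ hW0 (by
      intro z
      rw [count_blks, hcnt z, mul_one]) hAG hW1 (by
      intro z
      have hz := hcnt z
      simp only [List.count_cons, List.count_append, count_blks, List.count_replicate] at hz ⊢
      by_cases hz0 : z = 0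
      · subst hz0
        have e1 : (t == 0) = false := by simpa using h1
        have e2 : (t + t' == 0) = false := by simpa using h3
        simp only [beq_self_eq_true, if_true] at hz ⊢
        have e3 : List.count 0 zs = 0 := by omega
        rw [e1, e2, e3]
        simp
        omega
      · have e0 : ((0 : Γ ⧸ H) == z) = false := by simpa using fun h => hz0 h.symm
        rw [e0] at hz ⊢
        simp only [Bool.false_eq_true, if_false, add_zero] at hz ⊢
        rw [hz]
        by_cases hzt : z = t
        · subst hzt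
          have e2 : (z + t' == z) = false := by simpa using h2
          rw [e2]
          simp [hm]
          omega
        · have e1 : (t == z) = false := by simpa using fun h => hzt h.symm
          rw [e1]
          by_cases hzt' : z = t + t'
          · rw [← hzt']
            simp [hm, hzt, ← hzt']
            omega
          · have e2 : (t + t' == z) = false := by simpa using fun h => hzt' h.symm
            rw [e2]
            simp [hm, hzt, hzt', ← hh])
    simpa using hfin
  intro x hx
  apply hP x hx
  have hle : AddSubgroup.closure (qS S H) ≤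
      { carrier := qS S H, zero_mem' := h0S, add_mem' := fun {a b} ha hb => hclosed a ha b hb,
        neg_mem' := fun {a} ha => hneg a ha } := by
    rw [AddSubgroup.closure_le]
    exact fun y hy => hy
  rw [qS_closure hG.gen H] at hle
  exact hle (AddSubgroup.mem_top _)

end Pool.Agent.HamTrans
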