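import Pool.Agent.HamTrans.Gen

set_option linter.unusedSectionVars false

namespace Pool.Agent.HamTrans

open List

variable {Γ : Type*} [AddCommGroup Γ]

/-- image of the connection set in a quotient -/
def qS (S : Set Γ) (H : AddSubgroup Γ) : Set (Γ ⧸ H) := (fun x : Γ => (x : Γ ⧸ H)) '' S

theorem qS_neg {S : Set Γ} (hS : ∀ s ∈ S, -s ∈ S) (H : AddSubgroup Γ) :
    ∀ s ∈ qS S H, -s ∈ qS S H := by
  rintro _ ⟨s, hs, rfl⟩
  exact ⟨-s, hS s hs, rfl⟩

theorem qS_closure {S : Set Γ} (hgen : AddSubgroup.closure S = ⊤) (H : AddSubgroup Γ) :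
    AddSubgroup.closure (qS S H) = ⊤ := by
  have h1 : qS S H = (QuotientAddGroup.mk' H) '' S := rfl
  rw [h1, ← AddMonoidHom.map_closure, hgen]
  exact AddSubgroup.map_top_of_surjective _ (QuotientAddGroup.mk'_surjective H)

theorem lift_chain {S : Set Γ} (H : AddSubgroup Γ) :
    ∀ (zs : List (Γ ⧸ H)) (y : Γ), ((y : Γ ⧸ H) :: zs).IsChain (Rel (qS S H)) →
      ∃ ys : List Γ, ys.map (fun x : Γ => (x : Γ ⧸ H)) = zs ∧ (y :: ys).IsChain (Rel S) := by
  intro zs
  induction zs with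
  | nil => intro y _; exact ⟨[], rfl, by simp⟩
  | cons z zs ih =>
    intro y h
    rw [List.isChain_cons_cons] at h
    obtain ⟨⟨s, hs, hsz⟩, h2⟩ := h
    have hz : ((y + s : Γ) : Γ ⧸ H) = z := by
      have : (s : Γ ⧸ H) = z - (y : Γ ⧸ H) := hsz
      rw [QuotientAddGroup.mk_add, this]; abel
    rw [← hz] at h2
    obtain ⟨ys, hys, hc⟩ := ih (y + s) h2
    refine ⟨(y + s) :: ys, by rw [List.map_cons, hys, hz], ?_⟩
    rw [List.isChain_cons_cons]
    refine ⟨?_, hc⟩
    unfold Rel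
    simpa using hs

/-- a Hamiltonian path of the quotient from `0` to the class of `t`, lifted -/
theorem quotient_path [Finite Γ] {S : Set Γ} (hS : ∀ s ∈ S, -s ∈ S)
    (hgen : AddSubgroup.closure S = ⊤) (H : AddSubgroup Γ) {t : Γ} (ht : t ∈ S) (htH : t ∉ H) :
    ∃ ys : List Γ, (0 :: ys).IsChain (Rel S) ∧ (0 :: ys).Pairwise (fun a b => b - a ∉ H) ∧
      (∀ x : Γ, (∃ w ∈ ys, x - w ∈ H) ↔ (x ∉ H ∧ x - t ∉ H)) ∧
      (∀ v ∈ (0 :: ys).getLast?, Rel (qS S H) (v : Γ ⧸ H) (t : Γ ⧸ H)) := by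
  have ht0 : (t : Γ ⧸ H) ≠ 0 := fun h => htH ((QuotientAddGroup.eq_zero_iff _).1 h)
  obtain ⟨l, hl, hu, hv, -⟩ := gp_subgroup (qS_neg hS H) (⊤ : AddSubgroup (Γ ⧸ H))
    (by simpa using qS_closure hgen H) (g := (t : Γ ⧸ H)) ⟨t, ht, rfl⟩ (AddSubgroup.mem_top _) ht0
  -- decompose `l = 0 :: mid ++ [t]`
  obtain ⟨l', rfl⟩ : ∃ l', l = 0 :: l' := by
    cases l with
    | nil => simp at hu
    | cons a l' => simp at hu; exact ⟨l', by rw [hu]⟩
  obtain ⟨mid, rfl⟩ : ∃ mid, l' = mid ++ [(t : Γ ⧸ H)] := by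
    rcases List.eq_nil_or_concat l' with h | ⟨mid, b, h⟩
    · subst h; simp at hv; exact absurd hv.symm ht0
    · refine ⟨mid, ?_⟩
      rw [h, List.concat_eq_append] at hv
      have : b = (t : Γ ⧸ H) := by
        rw [← List.cons_append, List.getLast?_append] at hv; simpa using hv
      rw [h, List.concat_eq_append, this]
  have hchain : ((0 : Γ) : Γ ⧸ H) :: mid ++ [(t : Γ ⧸ H)] = 0 :: (mid ++ [(t : Γ ⧸ H)]) := by simp
  have hc0 : (((0 : Γ) : Γ ⧸ H) :: mid ++ [(t : Γ ⧸ H)]).IsChain (Rel (qS S H)) := by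
    rw [hchain]; exact hl.chain
  have hc1 := (List.isChain_append.1 hc0)
  obtain ⟨ys, hys, hc⟩ := lift_chain H mid 0 hc1.1
  have hmap : (0 :: ys).map (fun x : Γ => (x : Γ ⧸ H)) = ((0 : Γ) : Γ ⧸ H) :: mid := by
    rw [List.map_cons, hys]
  have hnd : (((0 : Γ) : Γ ⧸ H) :: mid ++ [(t : Γ ⧸ H)]).Nodup := by
    rw [hchain]; exact hl.nodup
  refine ⟨ys, hc, ?_, ?_, ?_⟩
  · have h1 : ((0 :: ys).map (fun x : Γ => (x : Γ ⧸ H))).Nodup := by
      rw [hmap]; exact (List.nodup_append.1 hnd).1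
    have h2 := List.pairwise_map.1 h1
    refine h2.imp ?_
    intro a b hab hmem
    apply hab
    have : ((b - a : Γ) : Γ ⧸ H) = 0 := (QuotientAddGroup.eq_zero_iff _).2 hmem
    rw [QuotientAddGroup.mk_sub, sub_eq_zero] at this
    exact this.symm
  · intro x
    have hx := hl.mem (x : Γ ⧸ H)
    have h1 : (∃ w ∈ ys, x - w ∈ H) ↔ (x : Γ ⧸ H) ∈ mid := by
      rw [← hys, List.mem_map]
      constructor
      · rintro ⟨w, hw, h⟩
        refine ⟨w, hw, ?_⟩
        have : ((x - w : Γ) : Γ ⧸ H) = 0 := (QuotientAddGroup.eq_zero_iff _).2 h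
        rw [QuotientAddGroup.mk_sub, sub_eq_zero] at this
        exact this.symm
      · rintro ⟨w, hw, h⟩
        refine ⟨w, hw, ?_⟩
        rw [← QuotientAddGroup.eq_zero_iff, QuotientAddGroup.mk_sub, sub_eq_zero]
        exact h.symm
    have h2 : x ∈ H ↔ (x : Γ ⧸ H) = 0 := (QuotientAddGroup.eq_zero_iff _).symm
    have h3 : x - t ∈ H ↔ (x : Γ ⧸ H) = (t : Γ ⧸ H) := by
      rw [← QuotientAddGroup.eq_zero_iff, QuotientAddGroup.mk_sub, sub_eq_zero]
    rw [h1, h2, h3]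
    have hnd' := hl.nodup
    rw [List.nodup_cons] at hnd'
    have h0mid : (0 : Γ ⧸ H) ∉ mid := fun h => hnd'.1 (by simp [h])
    have htmid : (t : Γ ⧸ H) ∉ mid := by
      intro h
      have := List.nodup_append.1 hnd'.2
      exact this.2.2 _ h _ (by simp) rfl
    constructor
    · intro h
      exact ⟨fun h' => h0mid (h' ▸ h), fun h' => htmid (h' ▸ h)⟩
    · rintro ⟨h4, h5⟩
      have h6 : (x : Γ ⧸ H) ∈ 0 :: (mid ++ [(t : Γ ⧸ H)]) := by
        rw [hx]; trivial
      simp only [List.mem_cons, List.mem_append, List.not_mem_nil, or_false] at h6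
      rcases h6 with h6 | h6 | h6
      · exact absurd h6 h4
      · exact h6
      · exact absurd h6 h5
  · intro v hv'
    have h1 : (((0 : Γ) : Γ ⧸ H) :: mid).getLast? = some (v : Γ ⧸ H) := by
      rw [← hmap, List.getLast?_map]
      rw [Option.mem_def] at hv'
      rw [hv']; rfl
    exact hc1.2.2 _ h1 _ (by simp)

/-- a detour through all cosets of `H` other than `H` and `t + H` -/
theorem attach [Finite Γ] {S : Set Γ} (hS : ∀ s ∈ S, -s ∈ S)
    (hgen : AddSubgroup.closure S = ⊤) (H : AddSubgroup Γ)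
    (hH : AddSubgroup.closure (S ∩ H) = H) {t g : Γ} (ht : t ∈ S) (htH : t ∉ H)
    (hg : g ∈ S) (hgH : g ∈ H) (hg0 : g ≠ 0) :
    ∃ M : List Γ, (0 :: (M ++ [g])).IsChain (Rel S) ∧ M.Nodup ∧
      ∀ x, x ∈ M ↔ (x ∉ H ∧ x - t ∉ H) := by
  obtain ⟨ys, hc, hp, hmem, -⟩ := quotient_path hS hgen H ht htH
  cases ys with
  | nil =>
    refine ⟨[], ?_, by simp, ?_⟩
    · simp [Rel, hg]
    · intro x
      rw [← hmem x]; simp
  | cons y ys =>
    rw [List.isChain_cons_cons] at hc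
    obtain ⟨M, hM, hMu, hMv, -⟩ := stack hS H (gp_subgroup hS H hH hg hgH hg0) y ys hc.2
      (List.Pairwise.of_cons hp)
    refine ⟨M, ?_, hM.nodup, ?_⟩
    · rw [List.isChain_cons]
      have hMne : M ≠ [] := by intro h; rw [h] at hMu; simp at hMu
      refine ⟨?_, ?_⟩
      · intro z hz
        have : (M ++ [g]).head? = M.head? := by
          cases M with
          | nil => exact absurd rfl hMne
          | cons a M => rfl
        rw [this, hMu] at hz
        simp at hz; subst hz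
        exact hc.1
      · rw [List.isChain_append]
        refine ⟨hM.chain, by simp, ?_⟩
        intro u hu v hv
        rw [hMv] at hu
        simp at hu hv; subst hu; subst hv
        unfold Rel
        have h1 := hc.1
        unfold Rel at h1
        have : g - (y + g) = -(y - 0) := by abel
        rw [this]; exact hS _ h1
    · intro x
      rw [hM.mem, ← hmem x]; rfl

end Pool.Agent.HamTrans
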