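import Mathlib

/-!
# Lists of vertices in abelian Cayley graphs

`Rel S x y` : `y - x ∈ S`. `lin3 S l` counts the windows of four consecutive entries of `l`
whose ends differ by an element of `S`; `cyc3` is the cyclic version.
-/

set_option linter.unusedSectionVars false

namespace Pool.Agent.HamTrans

open List

variable {Γ : Type*} [AddCommGroup Γ]

/-- adjacency relation -/
def Rel (S : Set Γ) (x y : Γ) : Prop := y - x ∈ S

open Classical in
/-- indicator of `S` -/
noncomputable def ind (S : Set Γ) (x : Γ) : ℕ := if x ∈ S then 1 else 0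

theorem ind_of_mem {S : Set Γ} {x : Γ} (h : x ∈ S) : ind S x = 1 := by simp [ind, h]
theorem ind_of_not_mem {S : Set Γ} {x : Γ} (h : x ∉ S) : ind S x = 0 := by simp [ind, h]
theorem ind_le_one (S : Set Γ) (x : Γ) : ind S x ≤ 1 := by unfold ind; split <;> omega
theorem mem_of_ind {S : Set Γ} {x : Γ} (h : ind S x = 1) : x ∈ S := by
  by_contra hx; simp [ind, hx] at h
theorem mem_of_ind_pos {S : Set Γ} {x : Γ} (h : 1 ≤ ind S x) : x ∈ S := by
  by_contra hx; simp [ind, hx] at h

/-- number of windows of length four in a list with adjacent ends -/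
noncomputable def lin3 (S : Set Γ) : List Γ → ℕ
  | a :: b :: c :: d :: l => ind S (d - a) + lin3 S (b :: c :: d :: l)
  | _ => 0

@[simp] theorem lin3_nil (S : Set Γ) : lin3 S [] = 0 := rfl
@[simp] theorem lin3_one (S : Set Γ) (a : Γ) : lin3 S [a] = 0 := rfl
@[simp] theorem lin3_two (S : Set Γ) (a b : Γ) : lin3 S [a, b] = 0 := rfl
@[simp] theorem lin3_three (S : Set Γ) (a b c : Γ) : lin3 S [a, b, c] = 0 := rfl
theorem lin3_cons4 (S : Set Γ) (a b c d : Γ) (l : List Γ) :
    lin3 S (a :: b :: c :: d :: l) = ind S (d - a) + lin3 S (b :: c :: d :: l) := rfl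

/-- splitting at three consecutive entries -/
theorem lin3_append (S : Set Γ) (l₁ : List Γ) (x y z : Γ) (l₂ : List Γ) :
    lin3 S (l₁ ++ x :: y :: z :: l₂) = lin3 S (l₁ ++ [x, y, z]) + lin3 S (x :: y :: z :: l₂) := by
  induction l₁ with
  | nil => simp
  | cons a l ih =>
    match l, ih with
    | [], _ => simp [lin3_cons4]
    | [b], _ => simp [lin3_cons4]; ring
    | [b, c], _ => simp [lin3_cons4]; ring
    | b :: c :: d :: l', ih =>
      simp only [List.cons_append, lin3_cons4] at ih ⊢
      omega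

theorem ind_neg {S : Set Γ} (hS : ∀ s ∈ S, -s ∈ S) (x : Γ) : ind S (-x) = ind S x := by
  by_cases hx : x ∈ S
  · rw [ind_of_mem hx, ind_of_mem (hS _ hx)]
  · rw [ind_of_not_mem hx, ind_of_not_mem (fun h => hx (by simpa using hS _ h))]

theorem ind_sub_comm {S : Set Γ} (hS : ∀ s ∈ S, -s ∈ S) (x y : Γ) :
    ind S (x - y) = ind S (y - x) := by
  have := ind_neg hS (y - x)
  rwa [neg_sub] at this

theorem lin3_reverse {S : Set Γ} (hS : ∀ s ∈ S, -s ∈ S) (l : List Γ) :
    lin3 S l.reverse = lin3 S l := by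
  induction l with
  | nil => rfl
  | cons a l ih =>
    match l, ih with
    | [], _ => rfl
    | [b], _ => rfl
    | [b, c], _ => rfl
    | b :: c :: d :: l', ih =>
      have h1 : (a :: b :: c :: d :: l').reverse = l'.reverse ++ d :: c :: b :: [a] := by simp
      have h2 : (b :: c :: d :: l').reverse = l'.reverse ++ [d, c, b] := by simp
      rw [h1, lin3_append, ← h2, ih]
      simp [lin3_cons4, ind_sub_comm hS a d, add_comm]

theorem lin3_map_of (S : Set Γ) (f : Γ → Γ) (hf : ∀ x y, ind S (f x - f y) = ind S (x - y))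
    (l : List Γ) : lin3 S (l.map f) = lin3 S l := by
  induction l with
  | nil => rfl
  | cons a l ih =>
    match l, ih with
    | [], _ => rfl
    | [b], _ => rfl
    | [b, c], _ => rfl
    | b :: c :: d :: l', ih =>
      simp only [List.map_cons, lin3_cons4] at ih ⊢
      rw [ih, hf]

theorem lin3_map_add (S : Set Γ) (t : Γ) (l : List Γ) :
    lin3 S (l.map (fun x => t + x)) = lin3 S l :=
  lin3_map_of S _ (fun x y => by congr 1; abel) l

theorem lin3_map_sub {S : Set Γ} (hS : ∀ s ∈ S, -s ∈ S) (t : Γ) (l : List Γ) :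
    lin3 S (l.map (fun x => t - x)) = lin3 S l :=
  lin3_map_of S _ (fun x y => by rw [ind_sub_comm hS x y]; congr 1; abel) l

/-- cyclic count -/
noncomputable def cyc3 (S : Set Γ) (l : List Γ) : ℕ := lin3 S (l ++ l.take 3)

/-- a path list: consecutive entries adjacent, no repetition, with prescribed set of vertices -/
structure HP (S : Set Γ) (A : Set Γ) (l : List Γ) : Prop where
  chain : l.IsChain (Rel S)
  nodup : l.Nodup
  mem : ∀ x, x ∈ l ↔ x ∈ A

/-- a Hamiltonian cycle as a list of vertices -/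
structure HC (S : Set Γ) (l : List Γ) : Prop where
  chain : l.IsChain (Rel S)
  nodup : l.Nodup
  mem : ∀ x, x ∈ l
  closed : ∀ u ∈ l.head?, ∀ v ∈ l.getLast?, Rel S v u

/-- the number of cyclic windows is the same for all Hamiltonian cycles -/
def N3const (S : Set Γ) : Prop := ∀ l l', HC S l → HC S l' → cyc3 S l = cyc3 S l'

theorem Rel.symm {S : Set Γ} (hS : ∀ s ∈ S, -s ∈ S) {x y : Γ} (h : Rel S x y) : Rel S y x := by
  unfold Rel at *; simpa using hS _ h

theorem Rel.add_left {S : Set Γ} (t : Γ) {x y : Γ} (h : Rel S x y) : Rel S (t + x) (t + y) := by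
  unfold Rel at *; simpa using h

theorem Rel.sub_left {S : Set Γ} (hS : ∀ s ∈ S, -s ∈ S) (t : Γ) {x y : Γ} (h : Rel S x y) :
    Rel S (t - x) (t - y) := by
  unfold Rel at *
  have := hS _ h
  have e : t - y - (t - x) = -(y - x) := by abel
  rwa [e]

theorem chain_map_add {S : Set Γ} (t : Γ) {l : List Γ} (h : l.IsChain (Rel S)) :
    (l.map (fun x => t + x)).IsChain (Rel S) := by
  rw [List.isChain_map]
  exact h.imp (fun a b hab => hab.add_left t)

theorem chain_map_sub {S : Set Γ} (hS : ∀ s ∈ S, -s ∈ S) (t : Γ) {l : List Γ}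
    (h : l.IsChain (Rel S)) : (l.map (fun x => t - x)).IsChain (Rel S) := by
  rw [List.isChain_map]
  exact h.imp (fun a b hab => hab.sub_left hS t)

theorem chain_reverse {S : Set Γ} (hS : ∀ s ∈ S, -s ∈ S) {l : List Γ}
    (h : l.IsChain (Rel S)) : l.reverse.IsChain (Rel S) := by
  rw [List.isChain_reverse]
  exact h.imp (fun a b hab => hab.symm hS)

theorem HP.translate {S : Set Γ} {A : Set Γ} {l : List Γ} (h : HP S A l) (t : Γ) :
    HP S {x | x - t ∈ A} (l.map (fun x => t + x)) where
  chain := chain_map_add t h.chain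
  nodup := h.nodup.map (fun a b hab => by simpa using hab)
  mem := by
    intro x
    simp only [List.mem_map, Set.mem_ofPred_eq]
    constructor
    · rintro ⟨a, ha, rfl⟩
      simpa using (h.mem a).1 ha
    · intro hx
      exact ⟨x - t, (h.mem _).2 hx, by abel⟩

theorem HP.reflect {S : Set Γ} (hS : ∀ s ∈ S, -s ∈ S) {A : Set Γ} {l : List Γ} (h : HP S A l)
    (t : Γ) : HP S {x | t - x ∈ A} (l.map (fun x => t - x)) where
  chain := chain_map_sub hS t h.chain
  nodup := h.nodup.map (fun a b hab => by simpa using hab)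
  mem := by
    intro x
    simp only [List.mem_map, Set.mem_ofPred_eq]
    constructor
    · rintro ⟨a, ha, rfl⟩
      simpa using (h.mem a).1 ha
    · intro hx
      exact ⟨t - x, (h.mem _).2 hx, by abel⟩

theorem HP.reverse {S : Set Γ} (hS : ∀ s ∈ S, -s ∈ S) {A : Set Γ} {l : List Γ} (h : HP S A l) :
    HP S A l.reverse where
  chain := chain_reverse hS h.chain
  nodup := List.nodup_reverse.2 h.nodup
  mem := by intro x; rw [List.mem_reverse]; exact h.mem x

theorem HP.congr {S : Set Γ} {A B : Set Γ} {l : List Γ} (h : HP S A l) (hAB : ∀ x, x ∈ A ↔ x ∈ B) :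
    HP S B l := ⟨h.chain, h.nodup, fun x => (h.mem x).trans (hAB x)⟩

theorem HP.append {S : Set Γ} {A B : Set Γ} {l l' : List Γ} (h : HP S A l) (h' : HP S B l')
    (hd : ∀ x ∈ A, x ∉ B) (hj : ∀ u ∈ l.getLast?, ∀ v ∈ l'.head?, Rel S u v) :
    HP S {x | x ∈ A ∨ x ∈ B} (l ++ l') where
  chain := List.isChain_append.2 ⟨h.chain, h'.chain, hj⟩
  nodup := List.nodup_append.2 ⟨h.nodup, h'.nodup, by
    intro a ha b hb hab
    subst hab
    exact hd a ((h.mem a).1 ha) ((h'.mem a).1 hb)⟩
  mem := by
    intro x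
    rw [List.mem_append, h.mem, h'.mem]; rfl

end Pool.Agent.HamTrans
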