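import Pool.Agent.HamTrans.AlphaTwo

set_option linter.unusedSectionVars false

namespace Pool.Agent.HamTrans

open List

variable {Γ : Type*} [AddCommGroup Γ]

/-- `k` pairs `y, y + u` -/
def pr (u y : Γ) : ℕ → List Γ
  | 0 => []
  | k + 1 => y :: (y + u) :: pr u y k

def ff (u : Γ) (l : ℕ) : List Γ → List Γ
  | [] => []
  | y :: ys => y :: (ff u l ys ++ (y + u) :: pr u y (l - 1))

def gg (u : Γ) (l : ℕ) : List Γ → List Γ
  | [] => []
  | y :: ys => y :: (y + u) :: y :: (gg u l ys ++ (y + u) :: pr u y (l - 2))

section counts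

variable [DecidableEq Γ]

theorem count_pr (u y z : Γ) (k : ℕ) :
    (pr u y k).count z = k * ([y].count z + [y + u].count z) := by
  induction k with
  | zero => simp [pr]
  | succ k ih =>
    rw [pr]
    simp only [List.count_cons, List.count_nil, ih]
    ring

theorem count_shift {u : Γ} (hu : u + u = 0) (y z : Γ) : [y + u].count z = [y].count (z + u) := by
  simp only [List.count_cons, List.count_nil]
  have h : y + u = z ↔ y = z + u := by
    constructor
    · rintro rfl; rw [add_assoc, hu, add_zero]
    · rintro rfl; rw [add_assoc, hu, add_zero]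
  by_cases h1 : y + u = z
  · have h2 := h.1 h1
    have e1 : (y + u == z) = true := by simpa using h1
    have e2 : (y == z + u) = true := by simpa using h2
    rw [e1, e2]
  · have h2 : ¬ y = z + u := fun h' => h1 (h.2 h')
    have e1 : (y + u == z) = false := by simpa using h1
    have e2 : (y == z + u) = false := by simpa using h2
    rw [e1, e2]

theorem count_ff {u : Γ} (hu : u + u = 0) {l : ℕ} (hl : 1 ≤ l) (z : Γ) (ys : List Γ) :
    (ff u l ys).count z = l * (ys.count z + ys.count (z + u)) := by
  induction ys with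
  | nil => simp [ff]
  | cons y ys ih =>
    obtain ⟨k, rfl⟩ : ∃ k, l = k + 1 := ⟨l - 1, by omega⟩
    have h1 := count_pr u y z k
    have h2 := count_shift hu y z
    rw [ff]
    simp only [List.count_cons, List.count_append, List.count_nil, Nat.add_sub_cancel] at h1 h2 ih ⊢
    rw [ih, h1, zero_add] at *
    rw [zero_add] at h2
    rw [h2]
    ring

theorem count_gg {u : Γ} (hu : u + u = 0) {l : ℕ} (hl : 2 ≤ l) (z : Γ) (ys : List Γ) :
    (gg u l ys).count z = l * (ys.count z + ys.count (z + u)) := by
  induction ys with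
  | nil => simp [gg]
  | cons y ys ih =>
    obtain ⟨k, rfl⟩ : ∃ k, l = k + 2 := ⟨l - 2, by omega⟩
    have h1 := count_pr u y z k
    have h2 := count_shift hu y z
    rw [gg]
    simp only [List.count_cons, List.count_append, List.count_nil, Nat.add_sub_cancel] at h1 h2 ih ⊢
    rw [zero_add] at h2
    rw [ih, h1, h2]
    ring

theorem count_map_shift {u : Γ} (hu : u + u = 0) (z : Γ) (ys : List Γ) :
    (ys.map (fun x => u + x)).count z = ys.count (z + u) := by
  induction ys with
  | nil => simp
  | cons y ys ih =>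
    rw [List.map_cons, List.count_cons, ih, List.count_cons]
    have h2 := count_shift hu y z
    simp only [List.count_cons, List.count_nil, zero_add] at h2
    rw [add_comm u y, h2]

end counts

section chains

variable {T : Set Γ} {u : Γ}

theorem pr_chain (hu : u + u = 0) (huT : u ∈ T) (y : Γ) (k : ℕ) {rest : List Γ}
    (h : ((y + u) :: rest).IsChain (Rel T)) : ((y + u) :: (pr u y k ++ rest)).IsChain (Rel T) := by
  have e : y - (y + u) = u := by
    have : y - (y + u) = -u := by abel
    rw [this]; exact neg_eq_of_add_eq_zero_right hu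
  induction k with
  | zero => simpa [pr] using h
  | succ k ih =>
    rw [pr]
    simp only [List.cons_append, List.isChain_cons_cons]
    refine ⟨?_, ?_, ih⟩
    · unfold Rel; rw [e]; exact huT
    · unfold Rel; simpa using huT

theorem ff_chain (hT : ∀ s ∈ T, -s ∈ T) (hu : u + u = 0) (huT : u ∈ T) (l : ℕ) :
    ∀ (ys : List Γ) (x : Γ) (rest : List Γ), (x :: ys).IsChain (Rel T) →
      ((x + u) :: rest).IsChain (Rel T) →
      (x :: (ff u l ys ++ (x + u) :: rest)).IsChain (Rel T) := by
  intro ys
  induction ys with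
  | nil =>
    intro x rest _ h2
    simp only [ff, List.nil_append, List.isChain_cons_cons]
    exact ⟨by unfold Rel; simpa using huT, h2⟩
  | cons y ys ih =>
    intro x rest h1 h2
    rw [List.isChain_cons_cons] at h1
    rw [ff]
    simp only [List.cons_append, List.append_assoc, List.isChain_cons_cons]
    refine ⟨h1.1, ih y _ h1.2 (pr_chain hu huT y _ ?_)⟩
    rw [List.isChain_cons_cons]
    refine ⟨?_, h2⟩
    have := h1.1.symm hT
    unfold Rel at *
    have e : x + u - (y + u) = x - y := by abel
    rwa [e]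

theorem gg_chain (hT : ∀ s ∈ T, -s ∈ T) (hu : u + u = 0) (huT : u ∈ T) (l : ℕ) :
    ∀ (ys : List Γ) (x : Γ) (rest : List Γ), (x :: ys).IsChain (Rel T) →
      ((x + u) :: rest).IsChain (Rel T) →
      (x :: (gg u l ys ++ (x + u) :: rest)).IsChain (Rel T) := by
  intro ys
  induction ys with
  | nil =>
    intro x rest _ h2
    simp only [gg, List.nil_append, List.isChain_cons_cons]
    exact ⟨by unfold Rel; simpa using huT, h2⟩
  | cons y ys ih =>
    intro x rest h1 h2
    rw [List.isChain_cons_cons] at h1
    rw [gg]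
    simp only [List.cons_append, List.append_assoc, List.isChain_cons_cons]
    refine ⟨h1.1, ?_, ?_, ih y _ h1.2 (pr_chain hu huT y _ ?_)⟩
    · unfold Rel; simpa using huT
    · unfold Rel
      have : y - (y + u) = -u := by abel
      rw [this]; exact hT u huT
    rw [List.isChain_cons_cons]
    refine ⟨?_, h2⟩
    have := h1.1.symm hT
    unfold Rel at *
    have e : x + u - (y + u) = x - y := by abel
    rwa [e]

theorem pr_AG (hT : ∀ s ∈ T, -s ∈ T) (huT : u ∈ T) (y : Γ) (k : ℕ) {rest : List Γ}
    (h : AG T ((y + u) :: y :: (y + u) :: rest)) :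
    AG T ((y + u) :: y :: (y + u) :: (pr u y k ++ rest)) := by
  induction k with
  | zero => simpa [pr] using h
  | succ k ih =>
    rw [pr]
    simp only [List.cons_append, AG_cons4]
    refine ⟨?_, ?_, ih⟩
    · have : y - (y + u) = -u := by abel
      rw [this]; exact hT u huT
    · simpa using huT

theorem gg_AG (hT : ∀ s ∈ T, -s ∈ T) (huT : u ∈ T) {l : ℕ} (hl : 3 ≤ l) :
    ∀ (ys : List Γ) (x : Γ) (rest : List Γ), (x :: ys).IsChain (Rel T) →
      AG T ((x + u) :: x :: (x + u) :: rest) →
      AG T (x :: (x + u) :: x :: (gg u l ys ++ (x + u) :: x :: (x + u) :: rest)) := by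
  obtain ⟨k, rfl⟩ : ∃ k, l = k + 3 := ⟨l - 3, by omega⟩
  intro ys
  have hnu := hT u huT
  induction ys with
  | nil =>
    intro x rest _ h2
    simp only [gg, List.nil_append, AG_cons4]
    refine ⟨by simpa using huT, ?_, by simpa using huT, h2⟩
    have : x - (x + u) = -u := by abel
    rw [this]; exact hnu
  | cons y ys ih =>
    intro x rest h1 h2
    rw [List.isChain_cons_cons] at h1
    have hxy : y - x ∈ T := h1.1
    have hyx : x - y ∈ T := h1.1.symm hT
    have e1 : gg u (k + 3) (y :: ys) ++ (x + u) :: x :: (x + u) :: rest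
        = y :: (y + u) :: y :: (gg u (k + 3) ys ++ (y + u) :: y :: (y + u) ::
          (pr u y k ++ (x + u) :: x :: (x + u) :: rest)) := by
      have : k + 3 - 2 = k + 1 := by omega
      rw [gg, this, pr]; simp
    rw [e1]
    simp only [AG_cons4]
    refine ⟨hxy, ?_, hxy, ih y _ h1.2 (pr_AG hT huT y k ?_)⟩
    · have : y + u - (x + u) = y - x := by abel
      rw [this]; exact hxy
    · simp only [AG_cons4]
      refine ⟨?_, hyx, ?_, h2⟩
      · have : x + u - (y + u) = x - y := by abel
        rw [this]; exact hyx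
      · have : x + u - (y + u) = x - y := by abel
        rw [this]; exact hyx

end chains

/-- a path of representatives of the cosets of `{0, u}`, starting with `0, s` -/
theorem coset_path [Finite Γ] [DecidableEq Γ] {T : Set Γ} (hT : ∀ s ∈ T, -s ∈ T)
    (hgen : AddSubgroup.closure T = ⊤) {u : Γ} (hu : u + u = 0) (hu0 : u ≠ 0)
    {s : Γ} (hs : s ∈ T) (hs0 : s ≠ 0) (hsu : s ≠ u) :
    ∃ ys : List Γ, (0 :: s :: ys).IsChain (Rel T) ∧
      ∀ z, (0 :: s :: ys).count z + (0 :: s :: ys).count (z + u) = 1 := by
  classical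
  set U := AddSubgroup.zmultiples u with hU
  have hUmem : ∀ x, x ∈ U ↔ (x = 0 ∨ x = u) := by
    intro x
    constructor
    · intro hx
      obtain ⟨n, rfl⟩ := AddSubgroup.mem_zmultiples_iff.1 hx
      rcases Int.even_or_odd n with ⟨k, rfl⟩ | ⟨k, rfl⟩
      · left; rw [add_smul, ← smul_add, hu, smul_zero]
      · right; rw [add_smul, two_mul, add_smul, ← smul_add, hu, smul_zero, zero_add, one_smul]
    · rintro (rfl | rfl)
      · exact U.zero_mem
      · exact AddSubgroup.mem_zmultiples _
  have hsU : s ∉ U := by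
    rw [hUmem]; tauto
  have hs0' : (s : Γ ⧸ U) ≠ 0 := fun h => hsU ((QuotientAddGroup.eq_zero_iff _).1 h)
  have hneg := qS_neg hT U
  obtain ⟨l, hl, hhd, hv, -⟩ := gp_subgroup hneg (⊤ : AddSubgroup (Γ ⧸ U))
    (by simpa using qS_closure hgen U) (g := (s : Γ ⧸ U)) ⟨s, hs, rfl⟩
    (AddSubgroup.mem_top _) hs0'
  obtain ⟨l', rfl⟩ : ∃ l', l = 0 :: l' := by
    cases l with
    | nil => simp at hhd
    | cons a l' => simp at hhd; exact ⟨l', by rw [hhd]⟩
  obtain ⟨mid, rfl⟩ : ∃ mid, l' = mid ++ [(s : Γ ⧸ U)] := by
    rcases List.eq_nil_or_concat l' with h | ⟨mid, b, h⟩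
    · subst h; simp at hv; exact absurd hv.symm hs0'
    · refine ⟨mid, ?_⟩
      rw [h, List.concat_eq_append] at hv
      have : b = (s : Γ ⧸ U) := by
        rw [← List.cons_append, List.getLast?_append] at hv; simpa using hv
      rw [h, List.concat_eq_append, this]
  have hch : ((s : Γ ⧸ U) :: mid.reverse).IsChain (Rel (qS T U)) := by
    have h1 := chain_reverse hneg hl.chain
    have e : (0 :: (mid ++ [(s : Γ ⧸ U)])).reverse = ((s : Γ ⧸ U) :: mid.reverse) ++ [0] := by simp
    rw [e, List.isChain_append] at h1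
    exact h1.1
  obtain ⟨ys, hys, hc⟩ := lift_chain U mid.reverse s hch
  refine ⟨ys, ?_, ?_⟩
  · rw [List.isChain_cons_cons]
    exact ⟨by unfold Rel; simpa using hs, hc⟩
  · intro z
    have hcount : ∀ xs : List Γ, xs.count z + xs.count (z + u)
        = (xs.map (fun x : Γ => (x : Γ ⧸ U))).count (z : Γ ⧸ U) := by
      intro xs
      induction xs with
      | nil => simp
      | cons x xs ih =>
        rw [List.map_cons, List.count_cons, List.count_cons, List.count_cons, ← ih]
        have h1 : ((x : Γ ⧸ U) = (z : Γ ⧸ U)) ↔ (x = z ∨ x = z + u) := by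
          rw [← sub_eq_zero, ← QuotientAddGroup.mk_sub, QuotientAddGroup.eq_zero_iff, hUmem,
            sub_eq_zero, sub_eq_iff_eq_add, add_comm u z]
        have h2 : z ≠ z + u := fun h => hu0 (by simpa using h.symm)
        by_cases hx1 : x = z
        · subst hx1
          have e1 : (x == x + u) = false := by simpa using hu0
          simp only [beq_self_eq_true, if_true, e1]
          simp
          omega
        · have e0 : (x == z) = false := by simpa using hx1
          by_cases hx2 : x = z + u
          · have e1 : (x == z + u) = true := by simpa using hx2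
            have e2 : ((x : Γ ⧸ U) == (z : Γ ⧸ U)) = true := by
              simpa using h1.2 (Or.inr hx2)
            rw [e0, e1, e2]; simp; omega
          · have e1 : (x == z + u) = false := by simpa using hx2
            have e2 : ((x : Γ ⧸ U) == (z : Γ ⧸ U)) = false := by
              have : ¬ (x : Γ ⧸ U) = (z : Γ ⧸ U) := fun h => by
                rcases h1.1 h with h | h
                · exact hx1 h
                · exact hx2 h
              simpa using this
            rw [e0, e1, e2]; simp
    rw [hcount, List.map_cons, List.map_cons, hys]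
    have hperm : (((0 : Γ) : Γ ⧸ U) :: (s : Γ ⧸ U) :: mid.reverse) ~ (0 :: (mid ++ [(s : Γ ⧸ U)])) := by
      have h0 : ((0 : Γ) : Γ ⧸ U) = 0 := rfl
      rw [h0]
      apply List.Perm.cons
      refine (List.Perm.cons _ (List.reverse_perm mid)).trans ?_
      exact (List.perm_append_singleton _ _).symm
    rw [hperm.count_eq]
    exact List.count_eq_one_of_mem hl.nodup ((hl.mem _).2 (AddSubgroup.mem_top _))

section core

variable [DecidableEq Γ] {T : Set Γ} {u : Γ} {l : ℕ}

/-- the standard closed word with only good windows -/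
theorem base_word (hT : ∀ s ∈ T, -s ∈ T) (hu : u + u = 0) (huT : u ∈ T) (hl : 3 ≤ l)
    {x : Γ} {xs : List Γ} (hch : (x :: xs).IsChain (Rel T))
    (hcnt : ∀ z, (x :: xs).count z + (x :: xs).count (z + u) = 1) :
    CW T (gg u l (x :: xs)) ∧ (∀ z, (gg u l (x :: xs)).count z = l) ∧
      AG T (gg u l (x :: xs) ++ (gg u l (x :: xs)).take 3) := by
  have hnu := hT u huT
  refine ⟨?_, ?_, ?_⟩
  · rw [gg]
    apply CW_of_chain
    simp only [List.cons_append, List.append_assoc, List.isChain_cons_cons]
    refine ⟨?_, ?_, gg_chain hT hu huT l xs x _ hch (pr_chain hu huT x _ ?_)⟩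
    · unfold Rel; simpa using huT
    · unfold Rel
      have : x - (x + u) = -u := by abel
      rw [this]; exact hnu
    · simp only [List.isChain_cons_cons, List.isChain_singleton, and_true]
      unfold Rel
      have : x - (x + u) = -u := by abel
      rw [this]; exact hnu
  · intro z
    rw [count_gg hu (by omega), hcnt, mul_one]
  · obtain ⟨k, rfl⟩ : ∃ k, l = k + 3 := ⟨l - 3, by omega⟩
    have e0 : k + 3 - 2 = k + 1 := by omega
    have e1 : gg u (k + 3) (x :: xs) ++ (gg u (k + 3) (x :: xs)).take 3
        = x :: (x + u) :: x :: (gg u (k + 3) xs ++ (x + u) :: x :: (x + u) ::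
          (pr u x k ++ [x, x + u, x])) := by
      rw [gg, e0, pr]; simp
    rw [e1]
    apply gg_AG hT huT hl xs x _ hch
    apply pr_AG hT huT
    simp only [AG_cons4, AG_three, and_true]
    have : x - (x + u) = -u := by abel
    rw [this]
    refine ⟨hnu, by simpa using huT, hnu⟩

/-- step c1 -/
theorem beta_c1 [Finite Γ] (hT : ∀ s ∈ T, -s ∈ T) (hgen : AddSubgroup.closure T = ⊤)
    (hu : u + u = 0) (hu0 : u ≠ 0) (huT : u ∈ T) (hl : 3 ≤ l)
    (hwin : ∀ a b c d w, CW T (a :: b :: c :: d :: w) →
      (∀ z, (a :: b :: c :: d :: w).count z = l) → d - a ∈ T)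
    {s s' : Γ} (hs : s ∈ T) (hs0 : s ≠ 0) (hsu : s ≠ u) (hs' : s' ∈ T) (hs'0 : s' ≠ 0)
    (hs'u : s' ≠ u) (hne : s' ≠ s) (hne' : s' ≠ s + u) : u + s' - s ∈ T := by
  obtain ⟨ys, hch, hcnt⟩ := coset_path hT hgen hu hu0 hs hs0 hsu
  have hch1 := hch
  rw [List.isChain_cons_cons] at hch1
  have hnu := hT u huT
  -- locate `s'`
  obtain ⟨c, w, hc, hw, hwc⟩ : ∃ c w, (c = 0 ∨ c = u) ∧ w ∈ ys ∧ c + w = u + s' := by
    have h1 := hcnt s'
    have h2 : s' ∈ 0 :: s :: ys ∨ s' + u ∈ 0 :: s :: ys := by
      by_contra hcon
      push Not at hcon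
      rw [List.count_eq_zero_of_not_mem hcon.1, List.count_eq_zero_of_not_mem hcon.2] at h1
      omega
    rcases h2 with h2 | h2
    · simp only [List.mem_cons] at h2
      refine ⟨u, s', Or.inr rfl, ?_, rfl⟩
      rcases h2 with h2 | h2 | h2
      · exact absurd h2 hs'0
      · exact absurd h2 hne
      · exact h2
    · simp only [List.mem_cons] at h2
      refine ⟨0, s' + u, Or.inl rfl, ?_, by abel⟩
      rcases h2 with h2 | h2 | h2
      · exfalso; apply hs'u
        have := eq_neg_of_add_eq_zero_left h2
        rw [this]; exact neg_eq_of_add_eq_zero_right hu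
      · exfalso; apply hne'
        rw [← h2, add_assoc, hu, add_zero]
      · exact h2
  obtain ⟨ys1, ys2, rfl⟩ := List.append_of_mem hw
  have hch2 : ((w :: ys2).map (fun x => c + x)).IsChain (Rel T) := by
    apply chain_map_add
    have h3 := hch1.2
    rw [← List.cons_append, List.isChain_append] at h3
    exact h3.2.1
  rw [List.map_cons, hwc] at hch2
  have hchs : (s :: ys1).IsChain (Rel T) := by
    have h3 := hch1.2
    rw [← List.cons_append, List.isChain_append] at h3
    exact h3.1
  have hchu : (u :: (u + s') :: ys2.map (fun x => c + x)).IsChain (Rel T) := by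
    rw [List.isChain_cons_cons]
    exact ⟨by unfold Rel; simpa using hs', hch2⟩
  set W : List Γ := ff u l ((u + s') :: ys2.map (fun x => c + x)) ++ (u + u) :: (pr u u (l - 1) ++
    s :: (ff u l ys1 ++ (s + u) :: pr u s (l - 2))) with hW
  have hWs : ∃ W', W = (u + s') :: W' := by
    rw [hW, ff]; exact ⟨_, rfl⟩
  have hCW : CW T (s :: (s + u) :: u :: W) := by
    apply CW_of_chain
    rw [hW]
    simp only [List.cons_append, List.append_assoc, List.isChain_cons_cons]
    refine ⟨?_, ?_, ff_chain hT hu huT l _ u _ hchu (pr_chain hu huT u _ ?_)⟩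
    · unfold Rel; simpa using huT
    · unfold Rel
      have : u - (s + u) = -s := by abel
      rw [this]; exact hT s hs
    · rw [List.isChain_cons_cons]
      refine ⟨?_, ff_chain hT hu huT l _ s _ hchs (pr_chain hu huT s _ ?_)⟩
      · unfold Rel; rw [hu, sub_zero]; exact hs
      · simp only [List.isChain_cons_cons, List.isChain_singleton, and_true]
        unfold Rel
        have : s - (s + u) = -u := by abel
        rw [this]; exact hnu
  have hcountW : ∀ z, (s :: (s + u) :: u :: W).count z = l := by
    intro z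
    have h1 := hcnt z
    have h4 : ∀ x : Γ, [x + u].count z = [x].count (z + u) := fun x => count_shift hu x z
    have h5 := h4 s
    have h6 := h4 0
    have h7 : ((w :: ys2).map (fun x => c + x)).count z + ((w :: ys2).map (fun x => c + x)).count (z + u)
        = (w :: ys2).count z + (w :: ys2).count (z + u) := by
      rcases hc with rfl | rfl
      · simp
      · rw [count_map_shift hu, count_map_shift hu]
        have : z + c + c = z := by rw [add_assoc, hu, add_zero]
        rw [this, add_comm]
    rw [List.map_cons, hwc] at h7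
    have e1 : (s :: (s + u) :: u :: W).count z = ([s].count z + [s + u].count z) + [u].count z
        + (W.count z) := by
      simp only [List.count_cons, List.count_nil]; ring
    have e2 : W.count z = (ff u l ((u + s') :: ys2.map (fun x => c + x))).count z + [u + u].count z
        + (pr u u (l - 1)).count z + [s].count z + (ff u l ys1).count z + [s + u].count z
        + (pr u s (l - 2)).count z := by
      rw [hW]
      simp only [List.count_append, List.count_cons, List.count_nil]; ring
    rw [e1, e2, count_ff hu (by omega), count_ff hu (by omega), count_pr, count_pr, h7]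
    have e3 : ∀ z', (0 :: s :: (ys1 ++ w :: ys2)).count z' = [(0 : Γ)].count z' + [s].count z'
        + ys1.count z' + (w :: ys2).count z' := by
      intro z'
      simp only [List.count_append, List.count_cons, List.count_nil]; ring
    rw [e3 z, e3 (z + u)] at h1
    rw [zero_add] at h6
    rw [hu, h5, h6]
    obtain ⟨k, rfl⟩ : ∃ k, l = k + 2 := ⟨l - 2, by omega⟩
    have e4 : k + 2 - 1 = k + 1 := by omega
    have e5 : k + 2 - 2 = k := by omega
    rw [e4, e5]
    calc _ = (k + 2) * ([(0 : Γ)].count z + [s].count z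
        + ys1.count z + (w :: ys2).count z + ([(0 : Γ)].count (z + u) + [s].count (z + u)
        + ys1.count (z + u) + (w :: ys2).count (z + u))) := by ring
      _ = k + 2 := by rw [h1, mul_one]
  obtain ⟨W', hW'⟩ := hWs
  rw [hW'] at hCW hcountW
  exact hwin _ _ _ _ _ hCW hcountW

/-- step c2 -/
theorem beta_c2 [Finite Γ] (hT : ∀ s ∈ T, -s ∈ T) (h0T : (0 : Γ) ∉ T)
    (hgen : AddSubgroup.closure T = ⊤)
    (hu : u + u = 0) (hu0 : u ≠ 0) (huT : u ∈ T) (hl : 3 ≤ l)
    (hwin : ∀ a b c d w, CW T (a :: b :: c :: d :: w) →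
      (∀ z, (a :: b :: c :: d :: w).count z = l) → d - a ∈ T)
    {s : Γ} (hs : s ∈ T) (hs0 : s ≠ 0) (hsu : s ≠ u) (hsu' : s + u ∈ T) : False := by
  obtain ⟨ys, hch, hcnt⟩ := coset_path hT hgen hu hu0 hs hs0 hsu
  rw [List.isChain_cons_cons] at hch
  have hnu := hT u huT
  have hneg : -u = u := neg_eq_of_add_eq_zero_right hu
  -- the repeated part
  set P : ℕ → List Γ := fun k => (List.replicate k [0, s, s + u, u]).flatten with hP
  have hPsucc : ∀ k, P (k + 1) = 0 :: s :: (s + u) :: u :: P k := by
    intro k
    simp only [hP]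
    rw [List.replicate_succ, List.flatten_cons]; rfl
  have hPcount : ∀ k z, (P k).count z = k * ([(0 : Γ)].count z + [s].count z + [s + u].count z
      + [u].count z) := by
    intro k z
    induction k with
    | zero => simp [hP]
    | succ k ih =>
      rw [hPsucc]
      simp only [List.count_cons, List.count_nil, ih]
      ring
  have hPchain : ∀ k, (u :: (P k ++ [0])).IsChain (Rel T) := by
    intro k
    induction k with
    | zero =>
      simp only [hP, List.replicate_zero, List.flatten_nil, List.nil_append,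
        List.isChain_cons_cons, List.isChain_singleton, and_true]
      unfold Rel; rw [zero_sub]; exact hnu
    | succ k ih =>
      rw [hPsucc]
      simp only [List.cons_append, List.isChain_cons_cons]
      refine ⟨?_, ?_, ?_, ?_, ih⟩
      · unfold Rel; rw [zero_sub]; exact hnu
      · unfold Rel; simpa using hs
      · unfold Rel; simpa using huT
      · unfold Rel
        have : u - (s + u) = -s := by abel
        rw [this]; exact hT s hs
  set W : List Γ := u :: s :: (ff u l ys ++ (s + u) :: u :: P (l - 2)) with hW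
  have hCW : CW T (0 :: s :: (s + u) :: 0 :: W) := by
    apply CW_of_chain
    rw [hW]
    simp only [List.cons_append, List.append_assoc, List.isChain_cons_cons]
    refine ⟨?_, ?_, ?_, ?_, ?_, ff_chain hT hu huT l _ s _ hch.2 ?_⟩
    · unfold Rel; simpa using hs
    · unfold Rel; simpa using huT
    · unfold Rel; rw [zero_sub]; exact hT _ hsu'
    · unfold Rel; simpa using huT
    · unfold Rel; rw [sub_eq_add_neg, hneg]; exact hsu'
    · rw [List.isChain_cons_cons]
      refine ⟨?_, hPchain _⟩
      unfold Rel
      have : u - (s + u) = -s := by abel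
      rw [this]; exact hT s hs
  have hcountW : ∀ z, (0 :: s :: (s + u) :: 0 :: W).count z = l := by
    intro z
    have h1 := hcnt z
    have h4 : ∀ x : Γ, [x + u].count z = [x].count (z + u) := fun x => count_shift hu x z
    have h5 := h4 s
    have h6 := h4 0
    rw [zero_add] at h6
    have e1 : (0 :: s :: (s + u) :: 0 :: W).count z = 2 * [(0 : Γ)].count z + 2 * [s].count z
        + 2 * [s + u].count z + 2 * [u].count z + (ff u l ys).count z + (P (l - 2)).count z := by
      rw [hW]
      simp only [List.count_append, List.count_cons, List.count_nil]; ring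
    rw [e1, count_ff hu (by omega), hPcount]
    have e3 : ∀ z', (0 :: s :: ys).count z' = [(0 : Γ)].count z' + [s].count z'
        + ys.count z' := by
      intro z'
      simp only [List.count_cons, List.count_nil]; ring
    rw [e3 z, e3 (z + u)] at h1
    rw [h5, h6]
    obtain ⟨k, rfl⟩ : ∃ k, l = k + 2 := ⟨l - 2, by omega⟩
    have e5 : k + 2 - 2 = k := by omega
    rw [e5]
    calc _ = (k + 2) * ([(0 : Γ)].count z + [s].count z
        + ys.count z + ([(0 : Γ)].count (z + u) + [s].count (z + u)
        + ys.count (z + u))) := by ring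
      _ = k + 2 := by rw [h1, mul_one]
  have := hwin _ _ _ _ _ hCW hcountW
  rw [sub_zero] at this
  exact h0T this

theorem beta_core [Finite Γ] (hT : ∀ s ∈ T, -s ∈ T) (h0T : (0 : Γ) ∉ T)
    (hgen : AddSubgroup.closure T = ⊤)
    (hu : u + u = 0) (hu0 : u ≠ 0) (huT : u ∈ T) (hl : 3 ≤ l)
    (hwin : ∀ a b c d w, CW T (a :: b :: c :: d :: w) →
      (∀ z, (a :: b :: c :: d :: w).count z = l) → d - a ∈ T)
    {x y : Γ} (hx : x + u ∈ T) (hy : y + u ∈ T) : x + y + u ∈ T := by
  have hneg : -u = u := neg_eq_of_add_eq_zero_right hu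
  by_cases hx0 : x = 0
  · rw [hx0, zero_add]; exact hy
  by_cases hy0 : y = 0
  · rw [hy0, add_zero]; exact hx
  by_cases hxu : x = u
  · exfalso; apply h0T; rw [hxu, hu] at hx; exact hx
  by_cases hyu : y = u
  · exfalso; apply h0T; rw [hyu, hu] at hy; exact hy
  have hs : -(x + u) ∈ T := hT _ hx
  have h1 : -(x + u) ≠ 0 := by
    intro h
    apply hxu
    have := neg_eq_zero.1 h
    rw [eq_neg_of_add_eq_zero_left this, hneg]
  have h2 : -(x + u) ≠ u := by
    intro h
    apply hx0
    have := congrArg (fun z => -z) h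
    simp only [neg_neg, hneg] at this
    simpa using this
  have h3 : y + u ≠ 0 := by
    intro h
    apply hyu
    rw [eq_neg_of_add_eq_zero_left h, hneg]
  have h4 : y + u ≠ u := fun h => hy0 (by simpa using h)
  by_cases h5 : y + u = -(x + u)
  · -- then `x + y = 0`
    have : x + y = 0 := by
      have h6 : x + y = (y + u) + x - u := by abel
      rw [h6, h5]
      have : -(x + u) + x - u = -(u + u) := by abel
      rw [this, hu, neg_zero]
    rw [this, zero_add]; exact huT
  by_cases h6 : y + u = -(x + u) + u
  · exfalso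
    -- `y = -x + u`
    have h7 : y + u = -x := by rw [h6]; abel
    apply beta_c2 hT h0T hgen hu hu0 huT hl hwin (s := x) ?_ hx0 hxu hx
    have := hT _ hy
    rw [h7, neg_neg] at this
    exact this
  have h7 := beta_c1 hT hgen hu hu0 huT hl hwin hs h1 h2 hy h3 h4 h5 h6
  have e : u + (y + u) - -(x + u) = (x + y + u) + (u + u) := by abel
  rw [e, hu, add_zero] at h7
  exact h7

end core

/-- **Case beta**: `S` is the complement of a subgroup of index two. -/
theorem beta_two [Finite Γ] {S : Set Γ} (hG : Good S) (L : AddSubgroup Γ)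
    (hcard : 3 ≤ Nat.card L) {a : Γ} (ha : a ∈ S) (haa : a + a ∈ L)
    (hL : ∀ x ∈ S, x ∉ L) (hper : ∀ s ∈ S, ∀ h ∈ L, s + h ∈ S) :
    ∃ J : AddSubgroup Γ, J.index = 2 ∧ ∀ x, x ∈ S ↔ x ∉ J := by
  classical
  have hP' : ∀ x : Γ, (x : Γ ⧸ L) ∈ qS S L ↔ x ∈ S := by
    intro x
    constructor
    · rintro ⟨s, hs, hsx⟩
      have h1 : x - s ∈ L := by
        rw [← QuotientAddGroup.eq_zero_iff, QuotientAddGroup.mk_sub, sub_eq_zero]
        exact hsx.symm
      have := hper s hs _ h1
      simpa using this
    · intro h; exact ⟨x, h, rfl⟩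
  have hneg := qS_neg hG.neg L
  have haL : a ∉ L := hL a ha
  have hcardΓ : 4 ≤ Nat.card Γ := by
    have h1 : (Nat.card L) ∣ Nat.card Γ := AddSubgroup.card_addSubgroup_dvd_card L
    have h2 : Nat.card L ≠ Nat.card Γ := by
      intro h
      have := AddSubgroup.eq_top_of_card_eq L h
      rw [this] at haL
      exact haL (AddSubgroup.mem_top a)
    obtain ⟨c, hc⟩ := h1
    have h3 : 0 < Nat.card Γ := Nat.card_pos
    have h4 : c ≠ 0 := by rintro rfl; omega
    have h5 : c ≠ 1 := by rintro rfl; omega
    nlinarith [Nat.pos_of_ne_zero h4, show 2 ≤ c by omega]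
  have hu : (a : Γ ⧸ L) + (a : Γ ⧸ L) = 0 := by
    rw [← QuotientAddGroup.mk_add]; exact (QuotientAddGroup.eq_zero_iff _).2 haa
  have hu0 : (a : Γ ⧸ L) ≠ 0 := fun h => haL ((QuotientAddGroup.eq_zero_iff _).1 h)
  have huT : (a : Γ ⧸ L) ∈ qS S L := ⟨a, ha, rfl⟩
  have h0T : (0 : Γ ⧸ L) ∉ qS S L := by
    intro h
    have := (hP' 0).1 h
    exact hL 0 this L.zero_mem
  -- the base word
  obtain ⟨xs, hch, hcnt⟩ : ∃ xs : List (Γ ⧸ L), (0 :: xs).IsChain (Rel (qS S L)) ∧
      ∀ z, (0 :: xs).count z + (0 :: xs).count (z + (a : Γ ⧸ L)) = 1 := by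
    by_cases hex : ∃ s ∈ qS S L, s ≠ 0 ∧ s ≠ (a : Γ ⧸ L)
    · obtain ⟨s, hs, hs0, hsu⟩ := hex
      obtain ⟨ys, h1, h2⟩ := coset_path hneg (qS_closure hG.gen L) hu hu0 hs hs0 hsu
      exact ⟨s :: ys, h1, h2⟩
    · push Not at hex
      have hall : ∀ x : Γ ⧸ L, x = 0 ∨ x = (a : Γ ⧸ L) := by
        have h1 : AddSubgroup.closure (qS S L) ≤ AddSubgroup.zmultiples (a : Γ ⧸ L) := by
          rw [AddSubgroup.closure_le]
          intro s hs
          have hs0 : s ≠ 0 := fun h => h0T (h ▸ hs)
          rw [hex s hs hs0]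
          exact AddSubgroup.mem_zmultiples _
        rw [qS_closure hG.gen L] at h1
        intro x
        obtain ⟨n, rfl⟩ := AddSubgroup.mem_zmultiples_iff.1 (h1 (AddSubgroup.mem_top x))
        rcases Int.even_or_odd n with ⟨k, rfl⟩ | ⟨k, rfl⟩
        · left; rw [add_smul, ← smul_add, hu, smul_zero]
        · right; rw [add_smul, two_mul, add_smul, ← smul_add, hu, smul_zero, zero_add, one_smul]
      refine ⟨[], by simp, ?_⟩
      intro z
      rcases hall z with rfl | rfl
      · simp [List.count_cons, hu0.symm]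
      · simp [List.count_cons, hu, hu0.symm]
  obtain ⟨hb1, hb2, hb3⟩ := base_word hneg hu huT hcard hch hcnt
  have hwin : ∀ a' b c d w, CW (qS S L) (a' :: b :: c :: d :: w) →
      (∀ z, (a' :: b :: c :: d :: w).count z = Nat.card L) → d - a' ∈ qS S L := by
    intro a' b c d w h1 h2
    exact seq_window hG.const L (fun x _ h => (hP' x).1 h) hcardΓ hb1 hb2 hb3 h1 h2
  have hadd : ∀ x y : Γ, x + a ∈ S → y + a ∈ S → x + y + a ∈ S := by
    intro x y hx hy
    rw [← hP']
    have h1 := beta_core hneg h0T (qS_closure hG.gen L) hu hu0 huT hcard hwin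
      (x := (x : Γ ⧸ L)) (y := (y : Γ ⧸ L)) ((hP' (x + a)).2 hx) ((hP' (y + a)).2 hy)
    exact h1
  have hnegJ : ∀ x : Γ, x + a ∈ S → -x + a ∈ S := by
    intro x hx
    have h1 := hper _ (hG.neg _ hx) _ haa
    have : -(x + a) + (a + a) = -x + a := by abel
    rwa [this] at h1
  let J : AddSubgroup Γ :=
    { carrier := {x | x + a ∈ S}
      zero_mem' := by simpa using ha
      add_mem' := fun {x y} hx hy => hadd x y hx hy
      neg_mem' := fun {x} hx => hnegJ x hx }
  have hJ : ∀ x, x ∈ J ↔ x + a ∈ S := fun x => Iff.rfl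
  have haaJ : a + a ∈ J := by
    rw [hJ]
    have := hper a ha _ haa
    have e : a + (a + a) = a + a + a := by abel
    rwa [e] at this
  have hSJ : ∀ x ∈ S, x + a ∈ J := by
    intro x hx
    rw [hJ]
    have := hper x hx _ haa
    rwa [← add_assoc] at this
  let K : AddSubgroup Γ :=
    { carrier := {x | x ∈ J ∨ x + a ∈ J}
      zero_mem' := Or.inl J.zero_mem
      add_mem' := by
        intro x y hx hy
        rcases hx with hx | hx <;> rcases hy with hy | hy
        · left; exact J.add_mem hx hy
        · right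
          have := J.add_mem hx hy
          rwa [← add_assoc] at this
        · right
          have := J.add_mem hx hy
          have e : x + a + y = x + y + a := by abel
          rwa [e] at this
        · left
          have := J.sub_mem (J.add_mem hx hy) haaJ
          have e : x + a + (y + a) - (a + a) = x + y := by abel
          rwa [e] at this
      neg_mem' := by
        intro x hx
        rcases hx with hx | hx
        · left; exact J.neg_mem hx
        · right
          have := J.add_mem (J.neg_mem hx) haaJ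
          have e : -(x + a) + (a + a) = -x + a := by abel
          rwa [e] at this }
  have hK : ∀ x, x ∈ J ∨ x + a ∈ J := by
    have h1 : AddSubgroup.closure S ≤ K := by
      rw [AddSubgroup.closure_le]
      intro x hx
      exact Or.inr (hSJ x hx)
    rw [hG.gen] at h1
    intro x
    exact h1 (AddSubgroup.mem_top x)
  have haJ : a ∉ J := by
    rw [hJ]
    intro h
    exact hL _ h haa
  have hxor : ∀ x, x + a ∈ J → x ∉ J := by
    intro x h h'
    apply haJ
    have := J.sub_mem h h'
    have e : x + a - x = a := by abel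
    rwa [e] at this
  refine ⟨J, ?_, ?_⟩
  · rw [AddSubgroup.index_eq_two_iff]
    refine ⟨a, fun b => ?_⟩
    rcases hK b with h | h
    · right
      exact ⟨h, fun h' => hxor b h' h⟩
    · left
      exact ⟨h, hxor b h⟩
  · intro x
    constructor
    · intro h
      exact hxor x (hSJ x h)
    · intro h
      rcases hK x with h' | h'
      · exact absurd h' h
      · rw [hJ] at h'
        have h1 := hper _ h' _ (L.neg_mem haa)
        have e : x + a + a + -(a + a) = x := by abel
        rwa [e] at h1

end Pool.Agent.HamTrans
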