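import Pool.Agent.HamTrans.Small

set_option linter.unusedSectionVars false

namespace Pool.Agent.HamTrans

open List

variable {Γ : Type*} [AddCommGroup Γ]

theorem small_four [Finite Γ] {S : Set Γ} (hG : Good S) (hn : Nat.card Γ = 4)
    (hred : ∀ s : Γ, AddSubgroup.closure (S \ {s, -s}) = ⊤) : Concl S := by
  by_cases hex : ∃ s ∈ S, addOrderOf s = 4
  · exfalso
    obtain ⟨s, hs, ho⟩ := hex
    have h4s : 4 • s = 0 := by rw [← ho]; exact addOrderOf_nsmul_eq_zero s
    have htop : AddSubgroup.zmultiples s = ⊤ := by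
      apply AddSubgroup.eq_top_of_card_eq
      rw [Nat.card_zmultiples, ho, hn]
    have h1 : AddSubgroup.closure (S \ {s, -s}) ≤ AddSubgroup.zmultiples (2 • s) := by
      rw [AddSubgroup.closure_le]
      rintro x ⟨hx, hx'⟩
      simp only [Set.mem_insert_iff, Set.mem_singleton_iff, not_or] at hx'
      have hxr : x ∈ run 0 s (addOrderOf s) := by rw [mem_run_full, htop]; trivial
      rw [mem_run, ho] at hxr
      obtain ⟨j, hj, rfl⟩ := hxr
      rw [zero_add] at hx hx' ⊢
      interval_cases j
      · rw [zero_smul]; exact AddSubgroup.zero_mem _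
      · exact absurd (one_smul ℕ s) hx'.1
      · exact AddSubgroup.mem_zmultiples _
      · exfalso
        apply hx'.2
        rw [eq_neg_iff_add_eq_zero, ← succ_nsmul]; exact h4s
    rw [hred s, top_le_iff] at h1
    have h2 : addOrderOf (2 • s) ∣ 2 := by
      apply addOrderOf_dvd_of_nsmul_eq_zero
      rw [← mul_smul]; exact h4s
    have h3 : Nat.card (AddSubgroup.zmultiples (2 • s)) = 4 := by
      rw [h1, AddSubgroup.card_top, hn]
    rw [Nat.card_zmultiples] at h3
    rw [h3] at h2
    exact absurd h2 (by decide)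
  · push Not at hex
    have h2 : ∀ s ∈ S, addOrderOf s = 2 := by
      intro s hs
      have h1 : addOrderOf s ∣ 4 := by rw [← hn]; exact addOrderOf_dvd_natCard s
      have h3 := Nat.le_of_dvd (by norm_num) h1
      have h4 := hex s hs
      have h5 : addOrderOf s ≠ 1 := fun h' => hG.ne_zero hs (AddMonoid.addOrderOf_eq_one_iff.1 h')
      have h6 : 0 < addOrderOf s := addOrderOf_pos s
      interval_cases h : addOrderOf s <;> omega
    have hnot : ∀ b ∈ S, ∀ s, ∃ x ∈ S, x ≠ s ∧ x ≠ -s ∧ x ∉ AddSubgroup.zmultiples b := by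
      intro b hb s
      by_contra hcon
      push Not at hcon
      have h1 : AddSubgroup.closure (S \ {s, -s}) ≤ AddSubgroup.zmultiples b := by
        rw [AddSubgroup.closure_le]
        rintro x ⟨hx, hx'⟩
        simp only [Set.mem_insert_iff, Set.mem_singleton_iff, not_or] at hx'
        exact hcon x hx hx'.1 hx'.2
      rw [hred s] at h1
      refine not_top_of_card (K := AddSubgroup.zmultiples b) ?_ (top_le_iff.1 h1)
      rw [Nat.card_zmultiples, h2 b hb, hn]; norm_num
    obtain ⟨a, ha⟩ : ∃ a, a ∈ S := by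
      obtain ⟨t, ht, -⟩ := exists_not_mem hG (H := ⊥) (not_top_of_card (by
        rw [AddSubgroup.card_bot, hn]; norm_num))
      exact ⟨t, ht⟩
    obtain ⟨b, hb, -, -, hba⟩ := hnot a ha 0
    obtain ⟨c, hc, hca, -, hcb⟩ := hnot b hb a
    have hba' : b ≠ a := by rintro rfl; exact hba (AddSubgroup.mem_zmultiples _)
    have hcb' : c ≠ b := by rintro rfl; exact hcb (AddSubgroup.mem_zmultiples _)
    left
    intro x hx
    by_contra hxS
    obtain ⟨l, hl1, hl2, hl3⟩ := exists_complete (Set.univ : Set Γ) [0, a, b, c, x] (by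
      simp only [List.nodup_cons, List.mem_cons, List.not_mem_nil, or_false, not_or,
        not_false_eq_true, List.nodup_nil, and_true]
      refine ⟨⟨(hG.ne_zero ha).symm, (hG.ne_zero hb).symm, (hG.ne_zero hc).symm, hx.symm⟩,
        ⟨hba'.symm, hca.symm, ?_⟩, ⟨hcb'.symm, ?_⟩, ?_⟩
      · rintro rfl; exact hxS ha
      · rintro rfl; exact hxS hb
      · rintro rfl; exact hxS hc) (fun _ _ => trivial)
    rw [Set.ncard_univ, hn] at hl3
    simp only [List.length_cons, List.length_nil] at hl3
    omega

theorem small_six [Finite Γ] {S : Set Γ} (hG : Good S) (hn : Nat.card Γ = 6)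
    (hred : ∀ s : Γ, AddSubgroup.closure (S \ {s, -s}) = ⊤) : Concl S := by
  have f2 : Fact (Nat.Prime 2) := ⟨Nat.prime_two⟩
  have f3 : Fact (Nat.Prime 3) := ⟨Nat.prime_three⟩
  obtain ⟨w, hw⟩ := exists_prime_addOrderOf_dvd_card' (G := Γ) 2 (by rw [hn]; norm_num)
  obtain ⟨c, hc⟩ := exists_prime_addOrderOf_dvd_card' (G := Γ) 3 (by rw [hn]; norm_num)
  set g := w + c with hg
  have ho : addOrderOf g = 6 := by
    rw [hg, (AddCommute.all w c).addOrderOf_add_eq_mul_addOrderOf_of_coprime (by
      rw [hw, hc]; norm_num), hw, hc]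
  have h6g : 6 • g = 0 := by rw [← ho]; exact addOrderOf_nsmul_eq_zero g
  have htop : AddSubgroup.zmultiples g = ⊤ := by
    apply AddSubgroup.eq_top_of_card_eq
    rw [Nat.card_zmultiples, ho, hn]
  have hex : ∀ x : Γ, ∃ k < 6, x = k • g := by
    intro x
    have h1 : x ∈ run 0 g (addOrderOf g) := by
      rw [mem_run_full, htop]; trivial
    rw [mem_run, ho] at h1
    obtain ⟨k, hk, hx⟩ := h1
    exact ⟨k, hk, by rw [hx, zero_add]⟩
  have hneg : ∀ k, k ≤ 6 → k • g ∈ S → (6 - k) • g ∈ S := by
    intro k hk h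
    have h1 := hG.neg _ h
    have : -(k • g) = (6 - k) • g := by
      rw [neg_eq_iff_add_eq_zero, ← add_nsmul, ← h6g]; congr 1; omega
    rwa [this] at h1
  have hn1 : -g = 5 • g := by
    rw [neg_eq_iff_add_eq_zero, add_comm, ← succ_nsmul]; exact h6g
  have hn2 : -(2 • g : Γ) = (4 • g : Γ) := by
    rw [neg_eq_iff_add_eq_zero, ← add_nsmul]; exact h6g
  have h0S : 0 • g ∉ S := by rw [zero_smul]; exact hG.zero
  have t2 : AddSubgroup.zmultiples (2 • g) ≠ ⊤ := by
    apply not_top_of_card
    rw [Nat.card_zmultiples, hn]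
    have : addOrderOf (2 • g) ∣ 3 := by
      apply addOrderOf_dvd_of_nsmul_eq_zero
      rw [← mul_smul]; exact h6g
    have := Nat.le_of_dvd (by norm_num) this
    omega
  have t3 : AddSubgroup.zmultiples (3 • g) ≠ ⊤ := by
    apply not_top_of_card
    rw [Nat.card_zmultiples, hn]
    have : addOrderOf (3 • g) ∣ 2 := by
      apply addOrderOf_dvd_of_nsmul_eq_zero
      rw [← mul_smul]; exact h6g
    have := Nat.le_of_dvd (by norm_num) this
    omega
  have h2S : 2 • g ∈ S := by
    by_contra h2
    have h4 : 4 • g ∉ S := fun h => h2 (hneg 4 (by norm_num) h)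
    apply t3
    rw [eq_top_iff, ← hred g, AddSubgroup.closure_le]
    rintro x ⟨hx, hx'⟩
    simp only [Set.mem_insert_iff, Set.mem_singleton_iff, not_or, hn1] at hx'
    obtain ⟨k, hk, rfl⟩ := hex x
    interval_cases k
    · exact absurd hx h0S
    · exact absurd (one_smul ℕ g) hx'.1
    · exact absurd hx h2
    · exact AddSubgroup.mem_zmultiples _
    · exact absurd hx h4
    · exact absurd rfl hx'.2
  have h3S : 3 • g ∈ S := by
    by_contra h3
    apply t2
    rw [eq_top_iff, ← hred g, AddSubgroup.closure_le]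
    rintro x ⟨hx, hx'⟩
    simp only [Set.mem_insert_iff, Set.mem_singleton_iff, not_or, hn1] at hx'
    obtain ⟨k, hk, rfl⟩ := hex x
    interval_cases k
    · exact absurd hx h0S
    · exact absurd (one_smul ℕ g) hx'.1
    · exact AddSubgroup.mem_zmultiples _
    · exact absurd hx h3
    · have : (4 : ℕ) • g = 2 • (2 • g) := by rw [← mul_smul]; norm_num
      rw [this]
      exact AddSubgroup.nsmul_mem _ (AddSubgroup.mem_zmultiples _) 2
    · exact absurd rfl hx'.2
  have h1S : 1 • g ∈ S := by
    by_contra h1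
    have h5 : 5 • g ∉ S := fun h => h1 (hneg 5 (by norm_num) h)
    apply t3
    rw [eq_top_iff, ← hred (2 • g), AddSubgroup.closure_le]
    rintro x ⟨hx, hx'⟩
    simp only [Set.mem_insert_iff, Set.mem_singleton_iff, not_or, hn2] at hx'
    obtain ⟨k, hk, rfl⟩ := hex x
    interval_cases k
    · exact absurd hx h0S
    · exact absurd hx h1
    · exact absurd rfl hx'.1
    · exact AddSubgroup.mem_zmultiples _
    · exact absurd rfl hx'.2
    · exact absurd hx h5
  left
  intro x hx
  obtain ⟨k, hk, rfl⟩ := hex x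
  interval_cases k
  · simp at hx
  · exact h1S
  · exact h2S
  · exact h3S
  · exact hneg 2 (by norm_num) h2S
  · exact hneg 1 (by norm_num) h1S

theorem eight_order_four [Finite Γ] {S : Set Γ} (hG : Good S) (hn : Nat.card Γ = 8)
    (hred : ∀ s : Γ, AddSubgroup.closure (S \ {s, -s}) = ⊤)
    (h8 : ∀ s ∈ S, addOrderOf s ≠ 8) {a : Γ} (ha : a ∈ S) (ho : addOrderOf a = 4) :
    Concl S := by
  set H := AddSubgroup.zmultiples a with hH
  have h4a : 4 • a = 0 := by rw [← ho]; exact addOrderOf_nsmul_eq_zero a
  have hcH : Nat.card H = 4 := by rw [hH, Nat.card_zmultiples, ho]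
  have hidx : H.index = 2 := by
    have := H.card_mul_index
    rw [hcH, hn] at this
    omega
  have hHmem : ∀ x ∈ H, ∃ k < 4, x = k • a := by
    intro x hx
    have h1 : x ∈ run 0 a (addOrderOf a) := by
      rw [mem_run_full, sub_zero]; exact hx
    rw [mem_run, ho] at h1
    obtain ⟨k, hk, hx⟩ := h1
    exact ⟨k, hk, by rw [hx, zero_add]⟩
  have h2a : 2 • a ≠ 0 := by
    intro h
    have := addOrderOf_dvd_of_nsmul_eq_zero h
    rw [ho] at this
    exact absurd this (by decide)
  have hn3 : 3 • a = -a := by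
    rw [eq_neg_iff_add_eq_zero, ← succ_nsmul]; exact h4a
  obtain ⟨c, hcS, hcH'⟩ := exists_not_mem hG (H := H) (not_top_of_card (by rw [hcH, hn]; norm_num))
  have hcc : c + c ∈ H := by
    rw [AddSubgroup.add_mem_iff_of_index_two hidx]
  have h4c : 4 • c = 0 := by
    have h1 : addOrderOf c ∣ 8 := by rw [← hn]; exact addOrderOf_dvd_natCard c
    have h2 := h8 c hcS
    have h3 : addOrderOf c ∣ 4 := by
      have h4 := Nat.le_of_dvd (by norm_num) h1
      have h5 : 0 < addOrderOf c := addOrderOf_pos c
      generalize addOrderOf c = o at h1 h2 h4 h5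
      interval_cases o <;> revert h1 h2 <;> decide
    obtain ⟨w, hw⟩ := h3
    rw [hw, mul_comm, mul_smul, addOrderOf_nsmul_eq_zero, smul_zero]
  -- an involution outside `H`
  obtain ⟨β, hβH, hββ⟩ : ∃ β, β ∉ H ∧ β + β = 0 := by
    obtain ⟨j, hj, hcj⟩ := hHmem _ hcc
    have h1 : (2 * j) • a = 0 := by
      rw [mul_comm, mul_smul, smul_comm, ← hcj, ← two_nsmul, ← mul_smul]; exact h4c
    have h2 := addOrderOf_dvd_of_nsmul_eq_zero h1
    rw [ho] at h2
    have hj' : j = 0 ∨ j = 2 := by omega
    rcases hj' with rfl | rfl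
    · exact ⟨c, hcH', by rw [hcj, zero_smul]⟩
    · refine ⟨c + a, ?_, ?_⟩
      · intro h
        apply hcH'
        have := H.sub_mem h (AddSubgroup.mem_zmultiples a)
        simpa using this
      · have : c + a + (c + a) = c + c + 2 • a := by rw [two_nsmul]; abel
        rw [this, hcj, ← add_nsmul]; exact h4a
  have hcov : ∀ β ∉ H, ∀ x, x ∈ H ∨ x - β ∈ H := by
    intro β hβ x
    by_cases hx : x ∈ H
    · left; exact hx
    · right
      rw [sub_eq_add_neg, AddSubgroup.add_mem_iff_of_index_two hidx]
      constructor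
      · intro h; exact absurd h hx
      · intro h; exact absurd (by simpa using H.neg_mem h) hβ
  have hdecomp : ∀ β ∉ H, ∀ x, ∃ k < 4, x = k • a ∨ x = β + k • a := by
    intro β hβ x
    rcases hcov β hβ x with h | h
    · obtain ⟨k, hk, hx⟩ := hHmem x h
      exact ⟨k, hk, Or.inl hx⟩
    · obtain ⟨k, hk, hx⟩ := hHmem _ h
      exact ⟨k, hk, Or.inr (by rw [← hx]; abel)⟩
  -- `β + a ∈ S`
  have hβa : β + a ∈ S := by
    by_contra hcon
    have hcon' : β + 3 • a ∉ S := by
      intro h
      apply hcon
      have h1 := hG.neg _ h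
      have : -(β + 3 • a) = β + a := by
        rw [hn3]
        have : -(β + -a) = -(β + β) + β + a := by abel
        rw [this, hββ]; abel
      rwa [this] at h1
    let K : AddSubgroup Γ :=
      { carrier := {x | x + x = 0}
        zero_mem' := by simp
        add_mem' := by
          intro x y hx hy
          have hx' : x + x = 0 := hx
          have hy' : y + y = 0 := hy
          show x + y + (x + y) = 0
          have : x + y + (x + y) = (x + x) + (y + y) := by abel
          rw [this, hx', hy', add_zero]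
        neg_mem' := by
          intro x hx
          have hx' : x + x = 0 := hx
          show -x + -x = 0
          rw [← neg_add, hx', neg_zero] }
    have h1 : AddSubgroup.closure (S \ {a, -a}) ≤ K := by
      rw [AddSubgroup.closure_le]
      rintro x ⟨hx, hx'⟩
      simp only [Set.mem_insert_iff, Set.mem_singleton_iff, not_or] at hx'
      show x + x = 0
      obtain ⟨k, hk, h | h⟩ := hdecomp β hβH x
      · subst h
        interval_cases k
        · simp
        · exact absurd (one_smul ℕ a) hx'.1
        · rw [← add_nsmul]; exact h4a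
        · exact absurd hn3 hx'.2
      · subst h
        interval_cases k
        · rw [zero_smul, add_zero]; exact hββ
        · rw [one_smul] at hx; exact absurd hx hcon
        · have : β + 2 • a + (β + 2 • a) = (β + β) + 4 • a := by
            rw [show (4 : ℕ) = 2 + 2 by rfl, add_nsmul]; abel
          rw [this, hββ, h4a, add_zero]
        · exact absurd hx hcon'
    rw [hred a] at h1
    have h2 : a ∈ K := h1 (AddSubgroup.mem_top a)
    have h3 : a + a = 0 := h2
    rw [← two_nsmul] at h3
    exact h2a h3
  -- an involution of `S` outside `H`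
  obtain ⟨γ, hγS, hγH, hγγ, hγa⟩ : ∃ γ ∈ S, γ ∉ H ∧ γ + γ = 0 ∧ γ + a ∈ S := by
    by_cases h1 : β ∈ S
    · exact ⟨β, h1, hβH, hββ, hβa⟩
    by_cases h2 : β + 2 • a ∈ S
    · refine ⟨β + 2 • a, h2, ?_, ?_, ?_⟩
      · intro h
        apply hβH
        have := H.sub_mem h (H.nsmul_mem (AddSubgroup.mem_zmultiples a) 2)
        simpa using this
      · have : β + 2 • a + (β + 2 • a) = (β + β) + 4 • a := by
          rw [show (4 : ℕ) = 2 + 2 by rfl, add_nsmul]; abel
        rw [this, hββ, h4a, add_zero]
      · have h3 := hG.neg _ hβa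
        have : -(β + a) = β + 2 • a + a := by
          rw [neg_eq_iff_add_eq_zero]
          have : β + a + (β + 2 • a + a) = (β + β) + 4 • a := by
            rw [show (4 : ℕ) = 2 + 1 + 1 by rfl, succ_nsmul, succ_nsmul]; abel
          rw [this, hββ, h4a, add_zero]
        rwa [this] at h3
    · exfalso
      have h3 : AddSubgroup.zmultiples (β + a) = ⊤ := by
        rw [eq_top_iff, ← hred a, AddSubgroup.closure_le]
        rintro x ⟨hx, hx'⟩
        simp only [Set.mem_insert_iff, Set.mem_singleton_iff, not_or] at hx'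
        obtain ⟨k, hk, h | h⟩ := hdecomp β hβH x
        · subst h
          interval_cases k
          · rw [zero_smul]; exact AddSubgroup.zero_mem _
          · exact absurd (one_smul ℕ a) hx'.1
          · have : 2 • a = 2 • (β + a) := by rw [smul_add, two_nsmul β, hββ, zero_add]
            rw [this]; exact AddSubgroup.nsmul_mem _ (AddSubgroup.mem_zmultiples _) 2
          · exact absurd hn3 hx'.2
        · subst h
          interval_cases k
          · rw [zero_smul, add_zero] at hx; exact absurd hx h1
          · rw [one_smul]; exact AddSubgroup.mem_zmultiples _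
          · exact absurd hx h2
          · have : β + 3 • a = 3 • (β + a) := by
              rw [smul_add]
              congr 1
              rw [succ_nsmul, two_nsmul, hββ, zero_add]
            rw [this]; exact AddSubgroup.nsmul_mem _ (AddSubgroup.mem_zmultiples _) 3
      have h4 : addOrderOf (β + a) ∣ 4 := by
        apply addOrderOf_dvd_of_nsmul_eq_zero
        rw [smul_add, h4a, add_zero, show (4 : ℕ) = 2 * 2 by rfl, mul_smul, two_nsmul β, hββ,
          smul_zero]
      have h5 := Nat.le_of_dvd (by norm_num) h4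
      refine not_top_of_card (K := AddSubgroup.zmultiples (β + a)) ?_ h3
      rw [Nat.card_zmultiples, hn]; omega
  have hγ0 : γ ≠ 0 := hG.ne_zero hγS
  refine eight_final hG hn (u := 2 • a) (v := γ + 2 • a) (by rw [← add_nsmul]; exact h4a) h2a ?_
    ?_ ?_ ?_
  · have : γ + 2 • a + (γ + 2 • a) = (γ + γ) + 4 • a := by
      rw [show (4 : ℕ) = 2 + 2 by rfl, add_nsmul]; abel
    rw [this, hγγ, h4a, add_zero]
  · intro h
    apply hγH
    rw [eq_neg_of_add_eq_zero_left h]
    exact H.neg_mem (H.nsmul_mem (AddSubgroup.mem_zmultiples a) 2)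
  · intro h
    apply hγ0
    simpa using h.symm
  · intro x hx0 hxu hxv
    obtain ⟨k, hk, h | h⟩ := hdecomp γ hγH x
    · subst h
      interval_cases k
      · simp at hx0
      · rw [one_smul]; exact ha
      · exact absurd rfl hxu
      · rw [hn3]; exact hG.neg a ha
    · subst h
      interval_cases k
      · rw [zero_smul, add_zero]; exact hγS
      · rw [one_smul]; exact hγa
      · exact absurd rfl hxv
      · have h3 := hG.neg _ hγa
        have : -(γ + a) = γ + 3 • a := by
          rw [neg_eq_iff_add_eq_zero]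
          have : γ + a + (γ + 3 • a) = (γ + γ) + 4 • a := by
            rw [succ_nsmul a 3]; abel
          rw [this, hγγ, h4a, add_zero]
        rwa [this] at h3

theorem eight_invol [Finite Γ] {S : Set Γ} (hG : Good S) (hn : Nat.card Γ = 8)
    (hred : ∀ s : Γ, AddSubgroup.closure (S \ {s, -s}) = ⊤)
    (h2 : ∀ s ∈ S, s + s = 0) : Concl S := by
  let K : AddSubgroup Γ :=
    { carrier := {x | x + x = 0}
      zero_mem' := by simp
      add_mem' := by
        intro x y hx hy
        have hx' : x + x = 0 := hx
        have hy' : y + y = 0 := hy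
        show x + y + (x + y) = 0
        have : x + y + (x + y) = (x + x) + (y + y) := by abel
        rw [this, hx', hy', add_zero]
      neg_mem' := by
        intro x hx
        have hx' : x + x = 0 := hx
        show -x + -x = 0
        rw [← neg_add, hx', neg_zero] }
  have h2' : ∀ x : Γ, x + x = 0 := by
    have h1 : AddSubgroup.closure S ≤ K := by
      rw [AddSubgroup.closure_le]
      exact fun x hx => h2 x hx
    rw [hG.gen] at h1
    intro x
    exact h1 (AddSubgroup.mem_top x)
  have hnegx : ∀ x : Γ, -x = x := fun x => neg_eq_of_add_eq_zero_right (h2' x)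
  have hclos : ∀ x y : Γ, ∀ z ∈ AddSubgroup.closure {x, y}, z ∈ ({0, x, y, x + y} : Set Γ) := by
    intro x y z hz
    rw [AddSubgroup.mem_closure_pair] at hz
    obtain ⟨m, n, rfl⟩ := hz
    simp only [Set.mem_insert_iff, Set.mem_singleton_iff]
    rcases zsmul_invol (h2' x) m with h | h <;> rcases zsmul_invol (h2' y) n with h' | h' <;>
      rw [h, h'] <;> simp
  have hcard4 : ∀ x y : Γ, Nat.card (AddSubgroup.closure {x, y}) ≤ 4 := by
    intro x y
    have h3 : ((AddSubgroup.closure {x, y} : AddSubgroup Γ) : Set Γ).ncard ≤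
        ({0, x, y, x + y} : Set Γ).ncard :=
      Set.ncard_le_ncard (hclos x y) (Set.toFinite _)
    have h4 : ({0, x, y, x + y} : Set Γ).ncard ≤ 4 := by
      refine (Set.ncard_insert_le _ _).trans ?_
      have := Set.ncard_insert_le x ({y, x + y} : Set Γ)
      have := Set.ncard_insert_le y ({x + y} : Set Γ)
      rw [Set.ncard_singleton] at this
      omega
    exact h3.trans h4
  have red3 : ∀ x y s : Γ, ∃ z ∈ S, z ≠ s ∧ z ∉ AddSubgroup.closure {x, y} := by
    intro x y s
    by_contra hcon
    push Not at hcon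
    have h1 : AddSubgroup.closure (S \ {s, -s}) ≤ AddSubgroup.closure {x, y} := by
      rw [AddSubgroup.closure_le]
      rintro z ⟨hz, hz'⟩
      simp only [Set.mem_insert_iff, Set.mem_singleton_iff, not_or] at hz'
      exact hcon z hz hz'.1
    rw [hred s] at h1
    refine not_top_of_card (K := AddSubgroup.closure {x, y}) ?_ (top_le_iff.1 h1)
    have := hcard4 x y
    omega
  obtain ⟨e1, he1, he10, -⟩ := red3 0 0 0
  obtain ⟨e2, he2, he20, he21⟩ := red3 e1 e1 0
  obtain ⟨e3, he3, he30, he312⟩ := red3 e1 e2 0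
  have he21' : e2 ≠ e1 := by
    rintro rfl; exact he21 (AddSubgroup.subset_closure (by simp))
  have m12 : ∀ z, z = 0 ∨ z = e1 ∨ z = e2 ∨ z = e1 + e2 → z ∈ AddSubgroup.closure {e1, e2} := by
    have a1 : e1 ∈ AddSubgroup.closure {e1, e2} := AddSubgroup.subset_closure (by simp)
    have a2 : e2 ∈ AddSubgroup.closure {e1, e2} := AddSubgroup.subset_closure (by simp)
    rintro z (rfl | rfl | rfl | rfl)
    · exact AddSubgroup.zero_mem _
    · exact a1
    · exact a2
    · exact AddSubgroup.add_mem _ a1 a2
  have hno3 : e3 ≠ 0 ∧ e3 ≠ e1 ∧ e3 ≠ e2 ∧ e3 ≠ e1 + e2 := by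
    refine ⟨he30, ?_, ?_, ?_⟩ <;> rintro h <;> exact he312 (m12 _ (by simp [h]))
  obtain ⟨-, h31, h32, h312⟩ := hno3
  have huu : ∀ x y : Γ, x + y + y = x := fun x y => by rw [add_assoc, h2', add_zero]
  have hadd : ∀ x y z : Γ, x + y = z → x = z + y := by
    rintro x y z rfl; exact (huu x y).symm
  have e12ne : e1 + e2 ≠ 0 := by
    intro h; have := hadd _ _ _ h; rw [zero_add] at this; exact he21' this.symm
  -- the eight elements
  have nL : ([0, e1, e2, e1 + e2, e3, e1 + e3, e2 + e3, e1 + e2 + e3] : List Γ).Nodup := by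
    simp only [List.nodup_cons, List.mem_cons, List.not_mem_nil, or_false, not_or,
      not_false_eq_true, List.nodup_nil, and_true]
    refine ⟨⟨?_, ?_, ?_, ?_, ?_, ?_, ?_⟩, ⟨?_, ?_, ?_, ?_, ?_, ?_⟩, ⟨?_, ?_, ?_, ?_, ?_⟩,
      ⟨?_, ?_, ?_, ?_⟩, ⟨?_, ?_, ?_⟩, ⟨?_, ?_⟩, ?_⟩ <;> intro h
    · exact he10 h.symm
    · exact he20 h.symm
    · exact e12ne h.symm
    · exact he30 h.symm
    · apply h31
      have := hadd _ _ _ h.symm; rw [zero_add] at this; exact this.symm
    · apply h32
      have := hadd _ _ _ h.symm; rw [zero_add] at this; exact this.symm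
    · apply h312
      have := hadd _ _ _ h.symm; rw [zero_add] at this; exact this.symm
    · exact he21' h.symm
    · apply he20; simpa using h.symm
    · exact h31 h.symm
    · apply he30; simpa using h.symm
    · apply h312; rw [h, add_comm e2 e3, huu]
    · apply h32
      have : e1 + e2 + e3 = e1 + (e2 + e3) := by abel
      rw [this] at h
      have h' : e2 + e3 = 0 := by simpa using h.symm
      have := hadd _ _ _ h'; rw [zero_add] at this; exact this.symm
    · apply he10; simpa using h.symm
    · exact h32 h.symm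
    · apply h312; rw [h, ← add_assoc, h2', zero_add]
    · apply he30; simpa using h.symm
    · apply h31
      have : e1 + e2 + e3 = e2 + (e1 + e3) := by abel
      rw [this] at h
      have h' : e1 + e3 = 0 := by simpa using h.symm
      have := hadd _ _ _ h'; rw [zero_add] at this; exact this.symm
    · exact h312 h.symm
    · apply h32
      have h' : e2 = e3 := by simpa using h
      exact h'.symm
    · apply h31
      have h' : e1 + e2 = e3 + e2 := by rw [h]; abel
      have h'' : e1 = e3 := by simpa using h'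
      exact h''.symm
    · apply he30; simpa using h.symm
    · apply he10; simpa using h.symm
    · apply he20; simpa using h.symm
    · apply e12ne; simpa using h.symm
    · apply he21'; symm; simpa using h
    · apply he20
      have : e1 + e2 + e3 = (e1 + e3) + e2 := by abel
      rw [this] at h
      simpa using h.symm
    · apply he10
      have : e1 + e2 + e3 = e1 + (e2 + e3) := by abel
      rw [this] at h
      simpa using h.symm
  obtain ⟨l, hl1, hl2, hl3⟩ := exists_complete (Set.univ : Set Γ) _ nL (fun _ _ => trivial)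
  rw [Set.ncard_univ, hn] at hl3
  have hl0 : l = [] := by
    apply List.eq_nil_of_length_eq_zero
    simp only [List.length_cons, List.length_nil] at hl3
    omega
  subst hl0
  have hall8 : ∀ x : Γ, x = 0 ∨ x = e1 ∨ x = e2 ∨ x = e1 + e2 ∨ x = e3 ∨ x = e1 + e3 ∨
      x = e2 + e3 ∨ x = e1 + e2 + e3 := by
    intro x
    have := (hl2 x).2 trivial
    simpa using this
  simp only [List.nodup_cons, List.mem_cons, List.not_mem_nil, or_false, not_or,
      not_false_eq_true, List.nodup_nil, and_true] at nL
  obtain ⟨⟨-, -, -, -, d13, d23, d123⟩, ⟨-, d1_12, -, d1_13, d1_23, d1_123⟩,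
    ⟨d2_12, -, d2_13, d2_23, d2_123⟩, ⟨d12_3, d12_13, d12_23, d12_123⟩,
    ⟨d3_13, d3_23, d3_123⟩, ⟨d13_23, d13_123⟩, d23_123⟩ := nL
  -- closures
  have mem_cl : ∀ x y z : Γ, z = 0 ∨ z = x ∨ z = y ∨ z = x + y → z ∈ AddSubgroup.closure {x, y} := by
    intro x y z
    have a1 : x ∈ AddSubgroup.closure {x, y} := AddSubgroup.subset_closure (by simp)
    have a2 : y ∈ AddSubgroup.closure {x, y} := AddSubgroup.subset_closure (by simp)
    rintro (rfl | rfl | rfl | rfl)
    · exact AddSubgroup.zero_mem _
    · exact a1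
    · exact a2
    · exact AddSubgroup.add_mem _ a1 a2
  have r3 : e1 + e3 ∈ S ∨ e2 + e3 ∈ S ∨ e1 + e2 + e3 ∈ S := by
    obtain ⟨z, hz, hz1, hz2⟩ := red3 e1 e2 e3
    rcases hall8 z with rfl | rfl | rfl | rfl | rfl | rfl | rfl | rfl
    · exact absurd (mem_cl _ _ _ (by simp)) hz2
    · exact absurd (mem_cl _ _ _ (by simp)) hz2
    · exact absurd (mem_cl _ _ _ (by simp)) hz2
    · exact absurd (mem_cl _ _ _ (by simp)) hz2
    · exact absurd rfl hz1
    · left; exact hz
    · right; left; exact hz
    · right; right; exact hz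
  have r1 : e1 + e2 ∈ S ∨ e1 + e3 ∈ S ∨ e1 + e2 + e3 ∈ S := by
    obtain ⟨z, hz, hz1, hz2⟩ := red3 e2 e3 e1
    rcases hall8 z with rfl | rfl | rfl | rfl | rfl | rfl | rfl | rfl
    · exact absurd (mem_cl _ _ _ (by simp)) hz2
    · exact absurd rfl hz1
    · exact absurd (mem_cl _ _ _ (by simp)) hz2
    · left; exact hz
    · exact absurd (mem_cl _ _ _ (by simp)) hz2
    · right; left; exact hz
    · exact absurd (mem_cl _ _ _ (by simp)) hz2
    · right; right; exact hz
  have r2 : e1 + e2 ∈ S ∨ e2 + e3 ∈ S ∨ e1 + e2 + e3 ∈ S := by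
    obtain ⟨z, hz, hz1, hz2⟩ := red3 e1 e3 e2
    rcases hall8 z with rfl | rfl | rfl | rfl | rfl | rfl | rfl | rfl
    · exact absurd (mem_cl _ _ _ (by simp)) hz2
    · exact absurd (mem_cl _ _ _ (by simp)) hz2
    · exact absurd rfl hz1
    · left; exact hz
    · exact absurd (mem_cl _ _ _ (by simp)) hz2
    · exact absurd (mem_cl _ _ _ (by simp)) hz2
    · right; left; exact hz
    · right; right; exact hz
  have fin : ∀ u v : Γ, u ≠ 0 → v ≠ 0 → u ≠ v →
      (∀ x, x ≠ 0 → x ≠ u → x ≠ v → x ∈ S) → Concl S := by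
    intro u v hu hv huv h
    exact eight_final hG hn (h2' u) hu (h2' v) hv huv h
  by_cases hf : e1 + e2 + e3 ∈ S
  · by_cases h12 : e1 + e2 ∈ S
    · apply fin (e1 + e3) (e2 + e3) (fun h => d13 h.symm) (fun h => d23 h.symm) d13_23
      intro x hx0 hxu hxv
      rcases hall8 x with rfl | rfl | rfl | rfl | rfl | rfl | rfl | rfl <;>
        first | assumption | (exact absurd rfl hx0) | (exact absurd rfl hxu) | (exact absurd rfl hxv)
    by_cases h13 : e1 + e3 ∈ S
    · apply fin (e1 + e2) (e2 + e3) e12ne (fun h => d23 h.symm) d12_23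
      intro x hx0 hxu hxv
      rcases hall8 x with rfl | rfl | rfl | rfl | rfl | rfl | rfl | rfl <;>
        first | assumption | (exact absurd rfl hx0) | (exact absurd rfl hxu) | (exact absurd rfl hxv)
    by_cases h23 : e2 + e3 ∈ S
    · apply fin (e1 + e2) (e1 + e3) e12ne (fun h => d13 h.symm) d12_13
      intro x hx0 hxu hxv
      rcases hall8 x with rfl | rfl | rfl | rfl | rfl | rfl | rfl | rfl <;>
        first | assumption | (exact absurd rfl hx0) | (exact absurd rfl hxu) | (exact absurd rfl hxv)
    -- complete bipartite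
    right
    have hsum : e1 + e2 + (e1 + e3) = e2 + e3 := by
      have : e1 + e2 + (e1 + e3) = (e1 + e1) + (e2 + e3) := by abel
      rw [this, h2', zero_add]
    have hJ : ∀ z, z ∈ AddSubgroup.closure {e1 + e2, e1 + e3} ↔
        (z = 0 ∨ z = e1 + e2 ∨ z = e1 + e3 ∨ z = e2 + e3) := by
      intro z
      constructor
      · intro hz
        have := hclos _ _ z hz
        simp only [Set.mem_insert_iff, Set.mem_singleton_iff, hsum] at this
        exact this
      · intro h
        apply mem_cl
        rw [hsum]; exact h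
    refine ⟨AddSubgroup.closure {e1 + e2, e1 + e3}, ?_, ?_⟩
    · have h4 : Nat.card (AddSubgroup.closure {e1 + e2, e1 + e3}) = 4 := by
        have hle := hcard4 (e1 + e2) (e1 + e3)
        have hge := length_le_card (AddSubgroup.closure {e1 + e2, e1 + e3})
          (l := [0, e1 + e2, e1 + e3, e2 + e3]) (by
            simp only [List.nodup_cons, List.mem_cons, List.not_mem_nil, or_false, not_or,
              not_false_eq_true, List.nodup_nil, and_true]
            exact ⟨⟨fun h => e12ne h.symm, d13, d23⟩, ⟨d12_13, d12_23⟩, d13_23⟩) (by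
            intro x hx
            rw [hJ]
            simpa using hx)
        simp only [List.length_cons, List.length_nil] at hge
        omega
      have := (AddSubgroup.closure {e1 + e2, e1 + e3}).card_mul_index
      rw [h4, hn] at this
      omega
    · intro x
      rw [hJ]
      rcases hall8 x with rfl | rfl | rfl | rfl | rfl | rfl | rfl | rfl
      · simp [hG.zero]
      · simp only [he1, true_iff, not_or]
        exact ⟨he10, d1_12, d1_13, d1_23⟩
      · simp only [he2, true_iff, not_or]
        exact ⟨he20, d2_12, d2_13, d2_23⟩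
      · simp [h12]
      · simp only [he3, true_iff, not_or]
        exact ⟨he30, fun h => d12_3 h.symm, d3_13, d3_23⟩
      · simp [h13]
      · simp [h23]
      · simp only [hf, true_iff, not_or]
        exact ⟨fun h => d123 h.symm, fun h => d12_123 h.symm, fun h => d13_123 h.symm,
          fun h => d23_123 h.symm⟩
  · by_cases h12 : e1 + e2 ∈ S
    · by_cases h13 : e1 + e3 ∈ S
      · apply fin (e1 + e2 + e3) (e2 + e3) (fun h => d123 h.symm) (fun h => d23 h.symm)
          (fun h => d23_123 h.symm)
        intro x hx0 hxu hxv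
        rcases hall8 x with rfl | rfl | rfl | rfl | rfl | rfl | rfl | rfl <;>
          first | assumption | (exact absurd rfl hx0) | (exact absurd rfl hxu) | (exact absurd rfl hxv)
      · have h23 : e2 + e3 ∈ S := (r3.resolve_left h13).resolve_right hf
        apply fin (e1 + e2 + e3) (e1 + e3) (fun h => d123 h.symm) (fun h => d13 h.symm)
          (fun h => d13_123 h.symm)
        intro x hx0 hxu hxv
        rcases hall8 x with rfl | rfl | rfl | rfl | rfl | rfl | rfl | rfl <;>
          first | assumption | (exact absurd rfl hx0) | (exact absurd rfl hxu) | (exact absurd rfl hxv)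
    · have h13 : e1 + e3 ∈ S := (r1.resolve_left h12).resolve_right hf
      have h23 : e2 + e3 ∈ S := (r2.resolve_left h12).resolve_right hf
      apply fin (e1 + e2 + e3) (e1 + e2) (fun h => d123 h.symm) e12ne (fun h => d12_123 h.symm)
      intro x hx0 hxu hxv
      rcases hall8 x with rfl | rfl | rfl | rfl | rfl | rfl | rfl | rfl <;>
        first | assumption | (exact absurd rfl hx0) | (exact absurd rfl hxu) | (exact absurd rfl hxv)

theorem small_eight [Finite Γ] {S : Set Γ} (hG : Good S) (hn : Nat.card Γ = 8)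
    (hred : ∀ s : Γ, AddSubgroup.closure (S \ {s, -s}) = ⊤) : Concl S := by
  by_cases h8 : ∃ s ∈ S, addOrderOf s = 8
  · obtain ⟨g, hg, ho⟩ := h8
    apply case_zero hG hg ?_ (by omega) (by rw [ho]; decide) (hred g)
    apply AddSubgroup.eq_top_of_card_eq
    rw [Nat.card_zmultiples, ho, hn]
  · push Not at h8
    by_cases h4 : ∃ s ∈ S, addOrderOf s = 4
    · obtain ⟨a, ha, ho⟩ := h4
      exact eight_order_four hG hn hred h8 ha ho
    · push Not at h4
      apply eight_invol hG hn hred
      intro s hs
      have h1 : addOrderOf s ∣ 8 := by rw [← hn]; exact addOrderOf_dvd_natCard s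
      have h2 := h8 s hs
      have h3 := h4 s hs
      have h5 : addOrderOf s ∣ 2 := by
        have h6 := Nat.le_of_dvd (by norm_num) h1
        have h7 : 0 < addOrderOf s := addOrderOf_pos s
        generalize addOrderOf s = o at h1 h2 h3 h6 h7
        interval_cases o <;> revert h1 h2 h3 <;> decide
      obtain ⟨w, hw⟩ := h5
      rw [← two_nsmul, hw, mul_comm, mul_smul, addOrderOf_nsmul_eq_zero, smul_zero]

/-- **Main group-theoretic theorem.** -/
theorem main_group [Finite Γ] {S : Set Γ} (hG : Good S) (heven : Even (Nat.card Γ))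
    (hn : 4 ≤ Nat.card Γ)
    (hred : ∀ s ∈ S, AddSubgroup.closure (S \ {s, -s}) = ⊤) : Concl S := by
  have hred' : ∀ s : Γ, AddSubgroup.closure (S \ {s, -s}) = ⊤ := by
    intro s
    by_cases hs : s ∈ S
    · exact hred s hs
    · have h1 : -s ∉ S := fun h => hs (by simpa using hG.neg _ h)
      have h2 : S \ {s, -s} = S := by
        ext x
        simp only [Set.mem_sdiff, Set.mem_insert_iff, Set.mem_singleton_iff, not_or,
          and_iff_left_iff_imp]
        intro hx
        refine ⟨?_, ?_⟩
        · rintro rfl; exact hs hx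
        · rintro rfl; exact h1 hx
      rw [h2]; exact hG.gen
  by_contra hno
  obtain ⟨k, hk⟩ := heven
  by_cases h4 : Nat.card Γ = 4
  · exact hno (small_four hG h4 hred')
  by_cases h6 : Nat.card Γ = 6
  · exact hno (small_six hG h6 hred')
  by_cases h8 : Nat.card Γ = 8
  · exact hno (small_eight hG h8 hred')
  exact Setup.false ⟨hG, hno, by omega, ⟨k, hk⟩, hred'⟩

end Pool.Agent.HamTrans
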