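import Pool.Agent.HamTrans.Defs
import Pool.Agent.HamTrans.Small2

set_option linter.unusedSectionVars false

namespace Pool.Agent.HamTrans

open SimpleGraph

variable {V : Type*} [DecidableEq V] {G : SimpleGraph V}

/-- a periodic parametrization of a Hamiltonian cycle -/
structure Param (G : SimpleGraph V) (E : Set (Sym2 V)) (n : ℕ) (g : ℕ → V) : Prop where
  three : 3 ≤ n
  per : ∀ i, g (i + n) = g i
  inj : ∀ i < n, ∀ j < n, g i = g j → i = j
  surj : ∀ v, ∃ i < n, g i = v
  adj : ∀ i, G.Adj (g i) (g (i + 1))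
  edges : ∀ e, e ∈ E ↔ ∃ i < n, e = s(g i, g (i + 1))

theorem Param.mod {E : Set (Sym2 V)} {n : ℕ} {g : ℕ → V} (h : Param G E n g) (i : ℕ) :
    g (i % n) = g i := by
  induction i using Nat.strong_induction_on with
  | _ i ih =>
    by_cases hi : i < n
    · rw [Nat.mod_eq_of_lt hi]
    · push Not at hi
      have h1 := ih (i - n) (by have := h.three; omega)
      have h2 := h.per (i - n)
      rw [Nat.sub_add_cancel hi] at h2
      rw [h2, ← h1]
      congr 1
      rw [Nat.mod_eq_sub_mod hi]

theorem mem_edges_iff_getVert {u v : V} (p : G.Walk u v) (e : Sym2 V) :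
    e ∈ p.edges ↔ ∃ i < p.length, e = s(p.getVert i, p.getVert (i + 1)) := by
  induction p with
  | nil => simp
  | cons h p ih =>
    rw [Walk.edges_cons, List.mem_cons, ih]
    constructor
    · rintro (rfl | ⟨i, hi, rfl⟩)
      · exact ⟨0, by simp, by simp⟩
      · exact ⟨i + 1, by simpa using hi, by simp⟩
    · rintro ⟨i, hi, rfl⟩
      cases i with
      | zero => left; simp
      | succ i =>
        right
        exact ⟨i, by simpa using hi, by simp⟩

theorem param_of_ham {E : Set (Sym2 V)} (h : IsHamEdgeSet G E) : ∃ n g, Param G E n g := by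
  obtain ⟨v, p, hp, rfl⟩ := h
  have h3 : 3 ≤ p.length := hp.isCycle.three_le_length
  set n := p.length with hn
  have hend : p.getVert n = p.getVert 0 := by
    rw [hn, Walk.getVert_length, Walk.getVert_zero]
  have hsucc : ∀ i, p.getVert ((i + 1) % n) = p.getVert (i % n + 1) := by
    intro i
    have h1 : i % n < n := Nat.mod_lt _ (by omega)
    by_cases h2 : i % n + 1 = n
    · have h4 : (i + 1) % n = 0 := by
        rw [Nat.add_mod, Nat.mod_eq_of_lt (show 1 < n by omega), h2, Nat.mod_self]
      rw [h4, h2, hend]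
    · have h4 : (i + 1) % n = i % n + 1 := by
        rw [Nat.add_mod, Nat.mod_eq_of_lt (show 1 < n by omega), Nat.mod_eq_of_lt (by omega)]
      rw [h4]
  refine ⟨n, fun i => p.getVert (i % n), h3, ?_, ?_, ?_, ?_, ?_⟩
  · intro i; simp
  · intro i hi j hj hij
    simp only [Nat.mod_eq_of_lt hi, Nat.mod_eq_of_lt hj] at hij
    exact hp.isCycle.getVert_injOn' (by rw [Set.mem_ofPred_eq]; omega)
      (by rw [Set.mem_ofPred_eq]; omega) hij
  · intro w
    have hw := hp.mem_support w
    rw [Walk.mem_support_iff_exists_getVert] at hw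
    obtain ⟨i, hi, hin⟩ := hw
    by_cases h4 : i = n
    · refine ⟨0, by omega, ?_⟩
      rw [Nat.zero_mod, ← hend, ← h4]; exact hi
    · exact ⟨i, by omega, by rw [Nat.mod_eq_of_lt (by omega)]; exact hi⟩
  · intro i
    rw [hsucc]
    exact p.adj_getVert_succ (Nat.mod_lt _ (by omega))
  · intro e
    rw [Set.mem_ofPred_eq, mem_edges_iff_getVert]
    constructor
    · rintro ⟨i, hi, rfl⟩
      exact ⟨i, hi, by rw [hsucc, Nat.mod_eq_of_lt hi]⟩
    · rintro ⟨i, hi, rfl⟩
      exact ⟨i, hi, by rw [hsucc, Nat.mod_eq_of_lt hi]⟩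

theorem ham_of_param {E : Set (Sym2 V)} {n : ℕ} {g : ℕ → V} (h : Param G E n g) :
    IsHamEdgeSet G E := by
  have h3 := h.three
  have key : ∀ m : ℕ, ∀ k : ℕ, ∃ p : G.Walk (g k) (g (k + m)), p.length = m ∧
      ∀ i ≤ m, p.getVert i = g (k + i) := by
    intro m
    induction m with
    | zero =>
      intro k
      refine ⟨Walk.nil, rfl, ?_⟩
      intro i hi
      have : i = 0 := by omega
      subst this; rfl
    | succ m ih =>
      intro k
      obtain ⟨p, hp1, hp2⟩ := ih (k + 1)
      have e : g (k + 1 + m) = g (k + (m + 1)) := by congr 1; ring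
      refine ⟨(Walk.cons (h.adj k) p).copy rfl e, ?_, ?_⟩
      · rw [Walk.length_copy, Walk.length_cons, hp1]
      · intro i hi
        rw [Walk.getVert_copy]
        cases i with
        | zero => simp
        | succ i =>
          rw [Walk.getVert_cons_succ, hp2 i (by omega)]
          congr 1; ring
  obtain ⟨p, hp1, hp2⟩ := key n 0
  have e0 : g (0 + n) = g 0 := h.per 0
  set q : G.Walk (g 0) (g 0) := p.copy rfl e0 with hq
  have hq1 : q.length = n := by rw [hq, Walk.length_copy, hp1]
  have hq2 : ∀ i ≤ n, q.getVert i = g i := by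
    intro i hi
    rw [hq, Walk.getVert_copy, hp2 i hi, zero_add]
  have hcyc : q.IsCycle := by
    rw [Walk.isCycle_iff_isPath_tail_and_le_length]
    refine ⟨?_, by omega⟩
    rw [← Walk.IsPath.getVert_injOn_iff]
    have hnn : ¬ q.Nil := by rw [Walk.not_nil_iff_lt_length]; omega
    have hlt : q.tail.length + 1 = q.length := Walk.length_tail_add_one hnn
    intro i hi j hj hij
    rw [Set.mem_ofPred_eq] at hi hj
    rw [Walk.getVert_tail, Walk.getVert_tail, hq2 _ (by omega), hq2 _ (by omega)] at hij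
    have h1 : g ((i + 1) % n) = g ((j + 1) % n) := by rw [h.mod, h.mod]; exact hij
    have h2 := h.inj _ (Nat.mod_lt _ (by omega)) _ (Nat.mod_lt _ (by omega)) h1
    by_cases hi' : i + 1 = n
    · by_cases hj' : j + 1 = n
      · omega
      · rw [hi', Nat.mod_self, Nat.mod_eq_of_lt (by omega)] at h2; omega
    · by_cases hj' : j + 1 = n
      · rw [hj', Nat.mod_self, Nat.mod_eq_of_lt (by omega)] at h2; omega
      · rw [Nat.mod_eq_of_lt (by omega), Nat.mod_eq_of_lt (by omega)] at h2; omega
  have hham : q.IsHamiltonianCycle := by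
    refine ⟨hcyc, ?_⟩
    have hpath : q.tail.IsPath := (Walk.isCycle_iff_isPath_tail_and_le_length.1 hcyc).1
    apply hpath.isHamiltonian_of_mem
    intro w
    obtain ⟨i, hi, rfl⟩ := h.surj w
    have hnn : ¬ q.Nil := by rw [Walk.not_nil_iff_lt_length]; omega
    have hlt : q.tail.length + 1 = q.length := Walk.length_tail_add_one hnn
    rw [Walk.mem_support_iff_exists_getVert]
    by_cases hi0 : i = 0
    · refine ⟨n - 1, ?_, by omega⟩
      rw [Walk.getVert_tail, Nat.sub_add_cancel (by omega), hq2 n le_rfl, hi0]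
      have := h.per 0
      rwa [zero_add] at this
    · refine ⟨i - 1, ?_, by omega⟩
      rw [Walk.getVert_tail, Nat.sub_add_cancel (by omega), hq2 i (by omega)]
  refine ⟨g 0, q, hham, ?_⟩
  ext e
  rw [Set.mem_ofPred_eq, mem_edges_iff_getVert, h.edges, hq1]
  constructor
  · rintro ⟨i, hi, rfl⟩
    exact ⟨i, hi, by rw [hq2 _ (by omega), hq2 _ (by omega)]⟩
  · rintro ⟨i, hi, rfl⟩
    exact ⟨i, hi, by rw [hq2 _ (by omega), hq2 _ (by omega)]⟩

/-- ordered quadruples `x a b y` along the edge set with adjacent ends -/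
def quads (G : SimpleGraph V) (E : Set (Sym2 V)) : Set (V × V × V × V) :=
  {q | s(q.1, q.2.1) ∈ E ∧ s(q.2.1, q.2.2.1) ∈ E ∧ s(q.2.2.1, q.2.2.2) ∈ E ∧
    q.1 ≠ q.2.2.1 ∧ q.2.1 ≠ q.2.2.2 ∧ G.Adj q.1 q.2.2.2}

theorem ncard_quads_map {E₁ E₂ : Set (Sym2 V)} (φ : G ≃g G) (h : Sym2.map φ '' E₁ = E₂) :
    (quads G E₁).ncard = (quads G E₂).ncard := by
  have hmem : ∀ x y : V, s(φ x, φ y) ∈ E₂ ↔ s(x, y) ∈ E₁ := by
    intro x y
    rw [← h]
    constructor
    · rintro ⟨e, he, hxy⟩
      have : Sym2.map φ e = Sym2.map φ s(x, y) := by rw [hxy]; rfl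
      rw [← Sym2.map.injective φ.injective this]; exact he
    · intro hxy
      exact ⟨s(x, y), hxy, rfl⟩
  set F : V × V × V × V → V × V × V × V := fun q => (φ q.1, φ q.2.1, φ q.2.2.1, φ q.2.2.2) with hF
  have hFinj : Function.Injective F := by
    rintro ⟨a, b, c, d⟩ ⟨a', b', c', d'⟩ hq
    simp only [hF, Prod.mk.injEq] at hq
    obtain ⟨h1, h2, h3, h4⟩ := hq
    rw [φ.injective h1, φ.injective h2, φ.injective h3, φ.injective h4]
  have himg : quads G E₂ = F '' quads G E₁ := by
    ext ⟨a, b, c, d⟩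
    constructor
    · intro hq
      refine ⟨(φ.symm a, φ.symm b, φ.symm c, φ.symm d), ?_, by simp [hF]⟩
      obtain ⟨h1, h2, h3, h4, h5, h6⟩ := hq
      simp only at h1 h2 h3 h4 h5 h6
      refine ⟨?_, ?_, ?_, ?_, ?_, ?_⟩
      · simp only; rw [← hmem]; simpa using h1
      · simp only; rw [← hmem]; simpa using h2
      · simp only; rw [← hmem]; simpa using h3
      · simpa using h4
      · simpa using h5
      · simp only; rw [← φ.map_adj_iff]; simpa using h6
    · rintro ⟨⟨a', b', c', d'⟩, ⟨h1, h2, h3, h4, h5, h6⟩, hq⟩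
      simp only [hF, Prod.mk.injEq] at hq h1 h2 h3 h4 h5 h6
      obtain ⟨rfl, rfl, rfl, rfl⟩ := hq
      refine ⟨?_, ?_, ?_, ?_, ?_, ?_⟩
      · simp only; rw [hmem]; exact h1
      · simp only; rw [hmem]; exact h2
      · simp only; rw [hmem]; exact h3
      · simpa using h4
      · simpa using h5
      · simp only; rw [φ.map_adj_iff]; exact h6
  rw [himg, Set.ncard_image_of_injective _ hFinj]

theorem Param.eq_iff {E : Set (Sym2 V)} {n : ℕ} {g : ℕ → V} (h : Param G E n g) (i j : ℕ) :
    g i = g j ↔ i % n = j % n := by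
  have h3 := h.three
  constructor
  · intro hij
    apply h.inj _ (Nat.mod_lt _ (by omega)) _ (Nat.mod_lt _ (by omega))
    rw [h.mod, h.mod]; exact hij
  · intro hij
    rw [← h.mod i, ← h.mod j, hij]

theorem Param.mem_edge {E : Set (Sym2 V)} {n : ℕ} {g : ℕ → V} (h : Param G E n g) (i : ℕ)
    (y : V) : s(g (i + 1), y) ∈ E ↔ (y = g (i + 2) ∨ y = g i) := by
  have h3 := h.three
  rw [h.edges]
  constructor
  · rintro ⟨j, hj, hij⟩
    rw [Sym2.eq_iff] at hij
    rcases hij with ⟨h1, h2⟩ | ⟨h1, h2⟩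
    · left
      rw [h2, h.eq_iff]
      have h4 := (h.eq_iff _ _).1 h1
      have h5 : (i + 1 + 1) % n = (j + 1) % n := by
        rw [Nat.add_mod (i + 1), Nat.add_mod j, h4]
      exact h5.symm
    · right
      rw [h2, h.eq_iff]
      have h4 := (h.eq_iff _ _).1 h1
      have h5 : (i + 1 + (n - 1)) % n = (j + 1 + (n - 1)) % n := by
        rw [Nat.add_mod (i + 1), Nat.add_mod (j + 1), h4]
      have e1 : i + 1 + (n - 1) = i + n := by omega
      have e2 : j + 1 + (n - 1) = j + n := by omega
      rw [e1, e2, Nat.add_mod_right, Nat.add_mod_right] at h5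
      exact h5.symm
  · rintro (rfl | rfl)
    · refine ⟨(i + 1) % n, Nat.mod_lt _ (by omega), ?_⟩
      rw [h.mod]
      congr 1
      have : g ((i + 1) % n + 1) = g (i + 2) := by
        rw [h.eq_iff, Nat.mod_add_mod]
      rw [this]
    · refine ⟨i % n, Nat.mod_lt _ (by omega), ?_⟩
      rw [h.mod]
      have : g (i % n + 1) = g (i + 1) := by
        rw [h.eq_iff, Nat.mod_add_mod]
      rw [this, Sym2.eq_swap]

theorem Param.ncard_quads {E : Set (Sym2 V)} {n : ℕ} {g : ℕ → V} (h : Param G E n g) :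
    (quads G E).ncard = 2 * {i | i < n ∧ G.Adj (g i) (g (i + 3))}.ncard := by
  have h3 := h.three
  set I : Set ℕ := {i | i < n ∧ G.Adj (g i) (g (i + 3))} with hI
  set f1 : ℕ → V × V × V × V := fun i => (g i, g (i + 1), g (i + 2), g (i + 3)) with hf1
  set f2 : ℕ → V × V × V × V := fun i => (g (i + 3), g (i + 2), g (i + 1), g i) with hf2
  have hIfin : I.Finite := (Set.finite_lt_nat n).subset (fun i hi => hi.1)
  have hne2 : ∀ i, g i ≠ g (i + 2) := by
    intro i hi
    rw [h.eq_iff] at hi
    have := Nat.sub_mod_eq_zero_of_mod_eq hi.symm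
    rw [show i + 2 - i = 2 by omega, Nat.mod_eq_of_lt (by omega)] at this
    omega
  have hdec : quads G E = f1 '' I ∪ f2 '' I := by
    ext ⟨x, a, b, y⟩
    constructor
    · rintro ⟨h1, h2, h4, h5, h6, h7⟩
      simp only at h1 h2 h4 h5 h6 h7
      obtain ⟨k, hk, rfl⟩ := h.surj a
      -- write `a = g (j + 1)`
      have hj : g k = g (k + n - 1 + 1) := by
        rw [show k + n - 1 + 1 = k + n by omega, h.per]
      rw [hj] at h1 h2 h6 ⊢
      set j := k + n - 1 with hjdef
      rw [Sym2.eq_swap, h.mem_edge] at h1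
      rw [h.mem_edge] at h2
      have hjn : n - 1 ≤ j := by omega
      rcases h1 with rfl | rfl
      · -- backwards
        have hb : b = g j := by
          rcases h2 with h2 | h2
          · exact absurd h2.symm h5
          · exact h2
        subst hb
        have hj' : g j = g (j - 1 + 1) := by rw [Nat.sub_add_cancel (by omega)]
        rw [hj', h.mem_edge] at h4
        have hy : y = g (j - 1) := by
          rcases h4 with h4 | h4
          · exfalso; apply h6
            rw [h4]; congr 1; omega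
          · exact h4
        subst hy
        right
        refine ⟨(j - 1) % n, ⟨Nat.mod_lt _ (by omega), ?_⟩, ?_⟩
        · rw [h.mod]
          have : g ((j - 1) % n + 3) = g (j + 2) := by
            rw [h.eq_iff, Nat.mod_add_mod]; congr 1; omega
          rw [this]; exact h7.symm
        · simp only [hf2, Prod.mk.injEq]
          refine ⟨?_, ?_, ?_, h.mod _⟩
          · rw [h.eq_iff, Nat.mod_add_mod]; congr 1; omega
          · rw [h.eq_iff, Nat.mod_add_mod]; congr 1; omega
          · rw [h.eq_iff, Nat.mod_add_mod]; congr 1; omega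
      · -- forwards
        have hb : b = g (j + 2) := by
          rcases h2 with h2 | h2
          · exact h2
          · exact absurd h2.symm h5
        subst hb
        rw [show j + 2 = j + 1 + 1 by ring, h.mem_edge] at h4
        have hy : y = g (j + 3) := by
          rcases h4 with h4 | h4
          · exact h4
          · exact absurd h4.symm h6
        subst hy
        left
        refine ⟨j % n, ⟨Nat.mod_lt _ (by omega), ?_⟩, ?_⟩
        · rw [h.mod]
          have : g (j % n + 3) = g (j + 3) := by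
            rw [h.eq_iff, Nat.mod_add_mod]
          rw [this]; exact h7
        · simp only [hf1, Prod.mk.injEq]
          refine ⟨h.mod _, ?_, ?_, ?_⟩
          · rw [h.eq_iff, Nat.mod_add_mod]
          · rw [h.eq_iff, Nat.mod_add_mod]
          · rw [h.eq_iff, Nat.mod_add_mod]
    · have hE : ∀ i, s(g i, g (i + 1)) ∈ E := by
        intro i
        rw [h.edges]
        refine ⟨i % n, Nat.mod_lt _ (by omega), ?_⟩
        rw [h.mod]
        have : g (i % n + 1) = g (i + 1) := by
          rw [h.eq_iff, Nat.mod_add_mod]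
        rw [this]
      rintro (⟨i, ⟨hi, hadj⟩, hq⟩ | ⟨i, ⟨hi, hadj⟩, hq⟩)
      · simp only [hf1, Prod.mk.injEq] at hq
        obtain ⟨rfl, rfl, rfl, rfl⟩ := hq
        exact ⟨hE i, hE (i + 1), hE (i + 2), hne2 i, hne2 (i + 1), hadj⟩
      · simp only [hf2, Prod.mk.injEq] at hq
        obtain ⟨rfl, rfl, rfl, rfl⟩ := hq
        refine ⟨?_, ?_, ?_, (hne2 (i + 1)).symm, (hne2 i).symm, hadj.symm⟩
        · simp only; rw [Sym2.eq_swap]; exact hE (i + 2)
        · simp only; rw [Sym2.eq_swap]; exact hE (i + 1)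
        · simp only; rw [Sym2.eq_swap]; exact hE i
  have hinj1 : Set.InjOn f1 I := by
    intro i hi j hj hij
    simp only [hf1, Prod.mk.injEq] at hij
    exact h.inj _ hi.1 _ hj.1 hij.1
  have hinj2 : Set.InjOn f2 I := by
    intro i hi j hj hij
    simp only [hf2, Prod.mk.injEq] at hij
    exact h.inj _ hi.1 _ hj.1 hij.2.2.2
  have hdisj : Disjoint (f1 '' I) (f2 '' I) := by
    rw [Set.disjoint_left]
    rintro q ⟨i, hi, rfl⟩ ⟨j, hj, hij⟩
    simp only [hf1, hf2, Prod.mk.injEq] at hij
    obtain ⟨h1, h2, -, -⟩ := hij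
    rw [h.eq_iff] at h1 h2
    -- `j + 3 ≡ i`, `j + 2 ≡ i + 1`
    have h4 : (j + 3 + 1) % n = (j + 2) % n := by
      rw [Nat.add_mod, h1, h2]
      rw [← Nat.add_mod]
    have := Nat.sub_mod_eq_zero_of_mod_eq h4
    rw [show j + 3 + 1 - (j + 2) = 2 by omega, Nat.mod_eq_of_lt (by omega)] at this
    omega
  rw [hdec, Set.ncard_union_eq hdisj (hIfin.image _) (hIfin.image _),
    hinj1.ncard_image, hinj2.ncard_image]
  ring

end Pool.Agent.HamTrans
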