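import Pool.Agent.HamTrans.Bridge

set_option linter.unusedSectionVars false

namespace Pool.Agent.HamTrans

open SimpleGraph

variable {Γ : Type*} [AddCommGroup Γ]

theorem cay_adj {S : Set Γ} (hneg : ∀ s ∈ S, -s ∈ S) (h0 : (0 : Γ) ∉ S) (u v : Γ) :
    (addCayley S).Adj u v ↔ v - u ∈ S := by
  rw [addCayley_adj]
  constructor
  · rintro ⟨-, h | h⟩
    · have : v - u = -u + v := by abel
      rwa [this]
    · have := hneg _ h
      have e : -(-v + u) = v - u := by abel
      rwa [e] at this
  · intro h
    refine ⟨?_, Or.inl ?_⟩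
    · rintro rfl; rw [sub_self] at h; exact h0 h
    · have : v - u = -u + v := by abel
      rwa [← this]

theorem lin3_eq_sum (S : Set Γ) (L : List Γ) :
    lin3 S L = ∑ i ∈ Finset.range (L.length - 3), ind S (L.getD (i + 3) 0 - L.getD i 0) := by
  induction L with
  | nil => simp
  | cons a l ih =>
    match l, ih with
    | [], _ => simp
    | [b], _ => simp
    | [b, c], _ => simp
    | b :: c :: d :: l', ih =>
      rw [lin3_cons4, ih]
      have e1 : (a :: b :: c :: d :: l').length - 3 = ((b :: c :: d :: l').length - 3) + 1 := by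
        simp only [List.length_cons]; omega
      rw [e1, Finset.sum_range_succ']
      rw [add_comm]
      congr 1

/-- the periodic function of a list -/
def perFun (l : List Γ) (i : ℕ) : Γ := l.getD (i % l.length) 0

theorem perFun_lt {l : List Γ} {i : ℕ} (h : i < l.length) : perFun l i = l[i] := by
  unfold perFun
  rw [Nat.mod_eq_of_lt h, List.getD_eq_getElem _ _ h]

theorem param_of_HC [DecidableEq Γ] {S : Set Γ} (hneg : ∀ s ∈ S, -s ∈ S) (h0 : (0 : Γ) ∉ S)
    {l : List Γ} (h : HC S l) (h3 : 3 ≤ l.length) :
    Param (addCayley S) {e | ∃ i < l.length, e = s(perFun l i, perFun l (i + 1))} l.length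
      (perFun l) := by
  refine ⟨h3, ?_, ?_, ?_, ?_, fun e => Iff.rfl⟩
  · intro i; unfold perFun; rw [Nat.add_mod_right]
  · intro i hi j hj hij
    rw [perFun_lt hi, perFun_lt hj] at hij
    exact (List.Nodup.getElem_inj_iff h.nodup).1 hij
  · intro v
    obtain ⟨i, hi, hv⟩ := List.mem_iff_getElem.1 (h.mem v)
    exact ⟨i, hi, by rw [perFun_lt hi]; exact hv⟩
  · intro i
    rw [cay_adj hneg h0]
    have hmod : i % l.length < l.length := Nat.mod_lt _ (by omega)
    have e1 : perFun l i = l[i % l.length] := by
      unfold perFun; rw [List.getD_eq_getElem _ _ hmod]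
    by_cases h2 : i % l.length + 1 = l.length
    · have h4 : (i + 1) % l.length = 0 := by
        rw [Nat.add_mod, Nat.mod_eq_of_lt (show 1 < l.length by omega), h2, Nat.mod_self]
      have e2 : perFun l (i + 1) = l[0] := by
        unfold perFun; simp only [h4]; rw [List.getD_eq_getElem _ _ (by omega)]
      rw [e1, e2]
      apply h.closed
      · rw [List.head?_eq_getElem?]; simp
      · rw [List.getLast?_eq_getElem?]
        have : l.length - 1 = i % l.length := by omega
        simp only [this]
        simp
    · have h4 : (i + 1) % l.length = i % l.length + 1 := by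
        rw [Nat.add_mod, Nat.mod_eq_of_lt (show 1 < l.length by omega), Nat.mod_eq_of_lt (by omega)]
      have e2 : perFun l (i + 1) = l[i % l.length + 1] := by
        unfold perFun; simp only [h4]; rw [List.getD_eq_getElem _ _ (by omega)]
      rw [e1, e2]
      exact List.isChain_iff_getElem.1 h.chain (i % l.length) (by omega)

theorem cyc3_eq_ncard {S : Set Γ} (hneg : ∀ s ∈ S, -s ∈ S) (h0 : (0 : Γ) ∉ S)
    {l : List Γ} (h3 : 3 ≤ l.length) :
    cyc3 S l = {i | i < l.length ∧ (addCayley S).Adj (perFun l i) (perFun l (i + 3))}.ncard := by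
  classical
  have e1 : (l ++ l.take 3).length - 3 = l.length := by
    rw [List.length_append, List.length_take]; omega
  rw [cyc3, lin3_eq_sum, e1]
  have e2 : ∀ i ∈ Finset.range l.length,
      ind S ((l ++ l.take 3).getD (i + 3) 0 - (l ++ l.take 3).getD i 0)
        = if (addCayley S).Adj (perFun l i) (perFun l (i + 3)) then 1 else 0 := by
    intro i hi
    rw [Finset.mem_range] at hi
    have e3 : (l ++ l.take 3).getD i 0 = perFun l i := by
      rw [perFun_lt hi, List.getD_eq_getElem _ _ (by rw [List.length_append]; omega),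
        List.getElem_append_left hi]
    have e4 : (l ++ l.take 3).getD (i + 3) 0 = perFun l (i + 3) := by
      unfold perFun
      by_cases h4 : i + 3 < l.length
      · rw [Nat.mod_eq_of_lt h4, List.getD_eq_getElem _ _ (by rw [List.length_append]; omega),
          List.getElem_append_left h4, List.getD_eq_getElem _ _ h4]
      · have h5 : (i + 3) % l.length = i + 3 - l.length := by
          rw [Nat.mod_eq_sub_mod (by omega), Nat.mod_eq_of_lt (by omega)]
        rw [h5, List.getD_eq_getElem _ _ (by rw [List.length_append, List.length_take]; omega),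
          List.getElem_append_right (by omega), List.getElem_take,
          List.getD_eq_getElem _ _ (by omega)]
    rw [e3, e4]
    simp only [cay_adj hneg h0]
    rfl
  rw [Finset.sum_congr rfl e2, Finset.sum_boole, Nat.cast_id, ← Set.ncard_coe_finset]
  congr 1
  ext i
  simp

theorem N3const_of_transitive [Finite Γ] [DecidableEq Γ] {S : Set Γ} (hneg : ∀ s ∈ S, -s ∈ S)
    (h0 : (0 : Γ) ∉ S) (hn : 3 ≤ Nat.card Γ) (h : HamTransitive (addCayley S)) : N3const S := by
  intro l l' hl hl'
  have e1 := hl.length
  have e2 := hl'.length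
  have p1 := param_of_HC hneg h0 hl (by omega)
  have p2 := param_of_HC hneg h0 hl' (by omega)
  obtain ⟨φ, hφ⟩ := h.2 _ _ (ham_of_param p1) (ham_of_param p2)
  have h1 := ncard_quads_map φ hφ
  rw [p1.ncard_quads, p2.ncard_quads, ← cyc3_eq_ncard hneg h0 (by omega),
    ← cyc3_eq_ncard hneg h0 (by omega)] at h1
  omega

end Pool.Agent.HamTrans
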