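import Pool.Agent.HamTrans.BetaTwo

set_option linter.unusedSectionVars false

namespace Pool.Agent.HamTrans

open List

variable {Γ : Type*} [AddCommGroup Γ]

/-- the two possible conclusions: complete or complete bipartite -/
def Concl (S : Set Γ) : Prop :=
  (∀ x : Γ, x ≠ 0 → x ∈ S) ∨ ∃ J : AddSubgroup Γ, J.index = 2 ∧ ∀ x, x ∈ S ↔ x ∉ J

theorem exists_not_mem {S : Set Γ} (hG : Good S) {H : AddSubgroup Γ} (hH : H ≠ ⊤) :
    ∃ t ∈ S, t ∉ H := by
  by_contra hcon
  push Not at hcon
  have h1 : AddSubgroup.closure S ≤ H := by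
    rw [AddSubgroup.closure_le]; exact hcon
  rw [hG.gen] at h1
  exact hH (top_le_iff.1 h1)

theorem exists_third {k1 k2 k3 : Γ} (h12 : k1 ≠ k2) (h13 : k1 ≠ k3) (h23 : k2 ≠ k3)
    {P : Γ → Prop} (h1 : P k1) (h2 : P k2) (h3 : P k3) (x y : Γ) :
    ∃ k, P k ∧ k ≠ x ∧ k ≠ y := by
  by_cases hx1 : k1 = x
  · by_cases hy2 : k2 = y
    · exact ⟨k3, h3, fun h => h13 (hx1.trans h.symm), fun h => h23 (hy2.trans h.symm)⟩
    · exact ⟨k2, h2, fun h => h12 (hx1.trans h.symm), hy2⟩
  · by_cases hy1 : k1 = y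
    · by_cases hx2 : k2 = x
      · exact ⟨k3, h3, fun h => h23 (hx2.trans h.symm), fun h => h13 (hy1.trans h.symm)⟩
      · exact ⟨k2, h2, hx2, fun h => h12 (hy1.trans h.symm)⟩
    · exact ⟨k1, h1, hx1, hy1⟩

theorem degree_three [Finite Γ] {S : Set Γ} (hG : Good S) (H : AddSubgroup Γ)
    (hH : AddSubgroup.closure (S ∩ H) = H) (hcard : 5 ≤ Nat.card H)
    (hthin : ∀ a ∈ S, a ∈ H → ∃ b ∈ S, b ∈ H ∧ b ≠ a ∧ b ≠ -a) :
    ∀ x y, ∃ k ∈ S, k ∈ H ∧ k ≠ x ∧ k ≠ y := by
  intro x y
  obtain ⟨a, haS, haH, -⟩ := exists_outside hH (V := ⊥) (by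
    rw [AddSubgroup.card_bot]; omega)
  obtain ⟨b, hbS, hbH, hba, hba'⟩ := hthin a haS haH
  have hnaS := hG.neg a haS
  have hnbS := hG.neg b hbS
  have key : ∀ k1 k2 k3 : Γ, k1 ≠ k2 → k1 ≠ k3 → k2 ≠ k3 → k1 ∈ S ∧ k1 ∈ H → k2 ∈ S ∧ k2 ∈ H →
      k3 ∈ S ∧ k3 ∈ H → ∃ k ∈ S, k ∈ H ∧ k ≠ x ∧ k ≠ y := by
    intro k1 k2 k3 h12 h13 h23 h1 h2 h3
    obtain ⟨k, ⟨hk1, hk2⟩, hk3, hk4⟩ := exists_third (P := fun k => k ∈ S ∧ k ∈ H) h12 h13 h23
      h1 h2 h3 x y
    exact ⟨k, hk1, hk2, hk3, hk4⟩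
  by_cases h1 : -a = a
  · by_cases h2 : -b = b
    · -- `⟨a, b⟩` has at most four elements
      have haa : a + a = 0 := by nth_rw 1 [← h1]; simp
      have hbb : b + b = 0 := by nth_rw 1 [← h2]; simp
      have hsub : ∀ z ∈ AddSubgroup.closure {a, b}, z ∈ ({0, a, b, a + b} : Set Γ) := by
        intro z hz
        rw [AddSubgroup.mem_closure_pair] at hz
        obtain ⟨m, n, rfl⟩ := hz
        have e1 : ∀ (c : Γ) (n : ℤ), c + c = 0 → n • c = 0 ∨ n • c = c := by
          intro c n hc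
          rcases Int.even_or_odd n with ⟨k, rfl⟩ | ⟨k, rfl⟩
          · left; rw [add_smul, ← smul_add, hc, smul_zero]
          · right; rw [add_smul, two_mul, add_smul, ← smul_add, hc, smul_zero, zero_add, one_smul]
        simp only [Set.mem_insert_iff, Set.mem_singleton_iff]
        rcases e1 a m haa with h | h <;> rcases e1 b n hbb with h' | h' <;> rw [h, h'] <;> simp
      have hc4 : Nat.card (AddSubgroup.closure {a, b}) ≤ 4 := by
        have h3 : ((AddSubgroup.closure {a, b} : AddSubgroup Γ) : Set Γ).ncard ≤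
            ({0, a, b, a + b} : Set Γ).ncard :=
          Set.ncard_le_ncard hsub (Set.toFinite _)
        have h4 : ({0, a, b, a + b} : Set Γ).ncard ≤ 4 := by
          refine (Set.ncard_insert_le _ _).trans ?_
          have := Set.ncard_insert_le a ({b, a + b} : Set Γ)
          have := Set.ncard_insert_le b ({a + b} : Set Γ)
          rw [Set.ncard_singleton] at this
          omega
        exact h3.trans h4
      obtain ⟨c, hcS, hcH, hcV⟩ := exists_outside hH (V := AddSubgroup.closure {a, b}) (by omega)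
      refine key a b c hba.symm ?_ ?_ ⟨haS, haH⟩ ⟨hbS, hbH⟩ ⟨hcS, hcH⟩
      · rintro rfl; exact hcV (AddSubgroup.subset_closure (by simp))
      · rintro rfl; exact hcV (AddSubgroup.subset_closure (by simp))
    · refine key a b (-b) hba.symm ?_ (fun h => h2 h.symm) ⟨haS, haH⟩ ⟨hbS, hbH⟩
        ⟨hnbS, H.neg_mem hbH⟩
      intro h; apply hba'; rw [h, neg_neg]
  · exact key a (-a) b (fun h => h1 h.symm) hba.symm hba'.symm ⟨haS, haH⟩ ⟨hnaS, H.neg_mem haH⟩
      ⟨hbS, hbH⟩

/-- **Case III.** -/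
theorem case_three [Finite Γ] {S : Set Γ} (hG : Good S) (H : AddSubgroup Γ)
    (hH : AddSubgroup.closure (S ∩ H) = H) (hHtop : H ≠ ⊤) (hcard : 5 ≤ Nat.card H)
    (hthin : ∀ a ∈ S, a ∈ H → ∃ b ∈ S, b ∈ H ∧ b ≠ a ∧ b ≠ -a) : Concl S := by
  obtain ⟨t, htS, htH⟩ := exists_not_mem hG hHtop
  have hdeg := degree_three hG H hH hcard hthin
  obtain ⟨a₀, ha₀S, ha₀H, -, -⟩ := hdeg 0 0
  set L := AddSubgroup.closure {x | ∃ a ∈ S, a ∈ H ∧ ∃ b ∈ S, b ∈ H ∧ x = a + b} with hL
  have hmemL : ∀ a ∈ S, a ∈ H → ∀ b ∈ S, b ∈ H → a + b ∈ L := by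
    intro a ha haH b hb hbH
    exact AddSubgroup.subset_closure ⟨a, ha, haH, b, hb, hbH, rfl⟩
  let P : AddSubgroup Γ :=
    { carrier := {x | x ∈ H ∧ ∀ t ∈ S, t ∉ H → t + x ∈ S}
      zero_mem' := ⟨H.zero_mem, fun t ht _ => by rw [add_zero]; exact ht⟩
      add_mem' := by
        rintro x y ⟨hx1, hx2⟩ ⟨hy1, hy2⟩
        refine ⟨H.add_mem hx1 hy1, fun t ht htH => ?_⟩
        rw [← add_assoc]
        apply hy2 _ (hx2 t ht htH)
        intro h
        apply htH
        have := H.sub_mem h hx1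
        simpa using this
      neg_mem' := by
        rintro x ⟨hx1, hx2⟩
        refine ⟨H.neg_mem hx1, fun t ht htH => ?_⟩
        have h1 := hx2 (-t) (hG.neg t ht) (fun h => htH (by simpa using H.neg_mem h))
        have h2 := hG.neg _ h1
        have e : -(-t + x) = t + -x := by abel
        rwa [e] at h2 }
  have hLP : L ≤ P := by
    rw [hL, AddSubgroup.closure_le]
    rintro x ⟨a, ha, haH, b, hb, hbH, rfl⟩
    refine ⟨H.add_mem haH hbH, fun t ht htH => ?_⟩
    rw [← add_assoc]
    exact lemmaG hG H hH hcard hthin ht htH ha haH hb hbH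
  have hLH : L ≤ H := fun x hx => (hLP hx).1
  have hper : ∀ t ∈ S, t ∉ H → ∀ h ∈ L, t + h ∈ S := fun t ht htH h hh => (hLP hh).2 t ht htH
  by_cases hex : ∃ a ∈ S, a ∈ H ∧ a ∈ L
  · -- case alpha
    obtain ⟨a, ha, haH, haL⟩ := hex
    have hHL : H ≤ L := by
      rw [← hH, AddSubgroup.closure_le]
      rintro b ⟨hb, hbH⟩
      have := L.sub_mem (hmemL a ha haH b hb hbH) haL
      simpa using this
    have hper' : ∀ t ∈ S, t ∉ H → ∀ h ∈ H, t + h ∈ S :=
      fun t ht htH h hh => hper t ht htH h (hHL hh)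
    left
    exact alpha_two hG H (by omega) (alpha_one hG H hH hcard hdeg hper' htS htH) hper'
  · push Not at hex
    right
    have h2a : a₀ + a₀ ∈ L := hmemL a₀ ha₀S ha₀H a₀ ha₀S ha₀H
    let K : AddSubgroup Γ :=
      { carrier := {x | x ∈ L ∨ x - a₀ ∈ L}
        zero_mem' := Or.inl L.zero_mem
        add_mem' := by
          intro x y hx hy
          rcases hx with hx | hx <;> rcases hy with hy | hy
          · left; exact L.add_mem hx hy
          · right
            have := L.add_mem hx hy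
            have e : x + (y - a₀) = x + y - a₀ := by abel
            rwa [e] at this
          · right
            have := L.add_mem hx hy
            have e : x - a₀ + y = x + y - a₀ := by abel
            rwa [e] at this
          · left
            have := L.add_mem (L.add_mem hx hy) h2a
            have e : x - a₀ + (y - a₀) + (a₀ + a₀) = x + y := by abel
            rwa [e] at this
        neg_mem' := by
          intro x hx
          rcases hx with hx | hx
          · left; exact L.neg_mem hx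
          · right
            have := L.sub_mem (L.neg_mem hx) h2a
            have e : -(x - a₀) - (a₀ + a₀) = -x - a₀ := by abel
            rwa [e] at this }
    have hHK : ∀ x ∈ H, x ∈ L ∨ x - a₀ ∈ L := by
      have h1 : H ≤ K := by
        rw [← hH, AddSubgroup.closure_le]
        rintro b ⟨hb, hbH⟩
        right
        have := hmemL b hb hbH (-a₀) (hG.neg _ ha₀S) (H.neg_mem ha₀H)
        rwa [← sub_eq_add_neg] at this
      exact fun x hx => h1 hx
    have hcos : ∀ a ∈ H, a ∉ L → ∀ b ∈ H, b ∉ L → b - a ∈ L := by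
      intro a ha haL b hb hbL
      have h1 := (hHK a ha).resolve_left haL
      have h2 := (hHK b hb).resolve_left hbL
      have := L.sub_mem h2 h1
      have e : b - a₀ - (a - a₀) = b - a := by abel
      rwa [e] at this
    have hone := beta_one hG H hH hdeg L hLH (fun a ha haH haL => hex a ha haH haL) hcos
      hper htS htH
    have hcardL : 3 ≤ Nat.card L := by
      have h1 : (H : Set Γ) ⊆ (L : Set Γ) ∪ {z | z - a₀ ∈ L} := by
        intro x hx
        exact hHK x hx
      have h2 := Set.ncard_le_ncard h1 (Set.toFinite _)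
      have h3 := Set.ncard_union_le (L : Set Γ) {z | z - a₀ ∈ L}
      rw [ncard_coset] at h3
      have h4 : Set.ncard (H : Set Γ) = Nat.card H := rfl
      have h5 : Set.ncard (L : Set Γ) = Nat.card L := rfl
      omega
    apply beta_two hG L hcardL ha₀S h2a
    · intro x hx hxL
      exact hex x hx (hLH hxL) hxL
    · intro s hs h hh
      by_cases hsH : s ∈ H
      · apply hone _ (H.add_mem hsH (hLH hh))
        intro h1
        apply hex s hs hsH
        have := L.sub_mem h1 hh
        simpa using this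
      · exact hper s hs hsH h hh

end Pool.Agent.HamTrans
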