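import Pool.Agent.HamTrans.FourFour

set_option linter.unusedSectionVars false

namespace Pool.Agent.HamTrans

open List

variable {Γ : Type*} [AddCommGroup Γ]

theorem not_thin {S : Set Γ} {H : AddSubgroup Γ} {a b : Γ} (ha : a ∈ S) (haH : a ∈ H)
    (hb : b ∈ S) (hbH : b ∈ H) (hba : b ≠ a) (hba' : b ≠ -a) :
    ∀ x ∈ S, x ∈ H → ∃ y ∈ S, y ∈ H ∧ y ≠ x ∧ y ≠ -x := by
  intro x _ _
  by_cases h : a ≠ x ∧ a ≠ -x
  · exact ⟨a, ha, haH, h.1, h.2⟩
  · refine ⟨b, hb, hbH, ?_⟩
    by_cases h1 : a = x
    · subst h1; exact ⟨hba, hba'⟩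
    · have h2 : a = -x := by
        by_contra h2; exact h ⟨h1, h2⟩
      subst h2
      rw [neg_neg] at hba'
      exact ⟨hba', hba⟩

/-- two elements generate the group, or a subgroup of order four -/
theorem pair_or_four [Finite Γ] {S : Set Γ} (hG : Good S) (hno : ¬ Concl S) {a b : Γ}
    (ha : a ∈ S) (hb : b ∈ S) (hba : b ≠ a) (hba' : b ≠ -a) :
    AddSubgroup.closure {a, b} = ⊤ ∨ Nat.card (AddSubgroup.closure {a, b}) = 4 := by
  by_contra hcon
  push Not at hcon
  have h4 := four_le_card (hG.ne_zero ha) (hG.ne_zero hb) hba hba'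
  apply hno
  refine case_three hG (AddSubgroup.closure {a, b}) (closure_gen ?_) hcon.1 (by omega)
    (not_thin ha (AddSubgroup.subset_closure (by simp)) hb
      (AddSubgroup.subset_closure (by simp)) hba hba')
  intro x hx
  rcases hx with rfl | rfl <;> assumption

/-- `{a, 3a}` in a proper cyclic subgroup -/
theorem no_triple [Finite Γ] {S : Set Γ} (hG : Good S) (hno : ¬ Concl S) {a : Γ} (ha : a ∈ S)
    (h3 : 3 • a ∈ S) (hord : 5 ≤ addOrderOf a) (htop : AddSubgroup.zmultiples a ≠ ⊤) : False := by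
  have ne : ∀ k : ℕ, 0 < k → k < 5 → k • a ≠ 0 := by
    intro k h1 h2 h
    have := addOrderOf_dvd_of_nsmul_eq_zero h
    have := Nat.le_of_dvd h1 this
    omega
  have h1 : 3 • a ≠ a := by
    intro h
    apply ne 2 (by omega) (by omega)
    rw [succ_nsmul a 2] at h
    simpa using h
  have h2 : 3 • a ≠ -a := by
    intro h
    apply ne 4 (by omega) (by omega)
    rw [succ_nsmul a 3, h]; abel
  apply hno
  refine case_three hG (AddSubgroup.zmultiples a) ?_ htop (by rw [Nat.card_zmultiples]; exact hord)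
    (not_thin ha (AddSubgroup.mem_zmultiples a) h3
      (AddSubgroup.nsmul_mem _ (AddSubgroup.mem_zmultiples a) 3) h1 h2)
  rw [AddSubgroup.zmultiples_eq_closure]
  apply closure_gen
  simpa using ha

theorem zsmul_invol {e : Γ} (he : e + e = 0) (n : ℤ) : n • e = 0 ∨ n • e = e := by
  rcases Int.even_or_odd n with ⟨k, rfl⟩ | ⟨k, rfl⟩
  · left; rw [add_smul, ← smul_add, he, smul_zero]
  · right; rw [add_smul, two_mul, add_smul, ← smul_add, he, smul_zero, zero_add, one_smul]

/-- index two if an involution together with `c` generates -/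
theorem cover_of_invol {e c : Γ} (he : e + e = 0) (h : AddSubgroup.closure {e, c} = ⊤) :
    ∀ x, x ∈ AddSubgroup.zmultiples c ∨ x - e ∈ AddSubgroup.zmultiples c := by
  intro x
  have hx : x ∈ AddSubgroup.closure {e, c} := by rw [h]; trivial
  rw [AddSubgroup.mem_closure_pair] at hx
  obtain ⟨m, n, rfl⟩ := hx
  rcases zsmul_invol he m with h1 | h1
  · left; rw [h1, zero_add]; exact AddSubgroup.zsmul_mem_zmultiples c n
  · right
    rw [h1]
    have : e + n • c - e = n • c := by abel
    rw [this]; exact AddSubgroup.zsmul_mem_zmultiples c n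

theorem card_of_cover [Finite Γ] {e c : Γ} (heH : e ∉ AddSubgroup.zmultiples c)
    (h : ∀ x, x ∈ AddSubgroup.zmultiples c ∨ x - e ∈ AddSubgroup.zmultiples c) :
    Nat.card Γ = 2 * addOrderOf c := by
  have h1 : (Set.univ : Set Γ) = (AddSubgroup.zmultiples c : Set Γ) ∪
      {x | x - e ∈ AddSubgroup.zmultiples c} := by
    ext x; simp only [Set.mem_univ, true_iff]; exact h x
  have h2 : Disjoint (AddSubgroup.zmultiples c : Set Γ) {x | x - e ∈ AddSubgroup.zmultiples c} := by
    rw [Set.disjoint_left]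
    intro x hx hx'
    apply heH
    have := (AddSubgroup.zmultiples c).sub_mem hx hx'
    simpa using this
  have h3 : Set.ncard (Set.univ : Set Γ) = Nat.card Γ := Set.ncard_univ Γ
  rw [← h3, h1, Set.ncard_union_eq h2 (Set.toFinite _) (Set.toFinite _), ncard_coset]
  have h4 : Set.ncard (AddSubgroup.zmultiples c : Set Γ) = Nat.card (AddSubgroup.zmultiples c) := rfl
  rw [h4, Nat.card_zmultiples]; ring

/-- Assumptions of the final case -/
structure Setup (S : Set Γ) : Prop where
  good : Good S
  no : ¬ Concl S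
  card : 10 ≤ Nat.card Γ
  even : Even (Nat.card Γ)
  red : ∀ s : Γ, AddSubgroup.closure (S \ {s, -s}) = ⊤

theorem Setup.no_gen [Finite Γ] {S : Set Γ} (h : Setup S) {g : Γ} (hg : g ∈ S) :
    AddSubgroup.zmultiples g ≠ ⊤ := by
  intro htop
  have h1 : addOrderOf g = Nat.card Γ := by
    rw [← Nat.card_zmultiples, htop]; exact AddSubgroup.card_top
  have h2 := h.card
  have h3 := h.even
  exact h.no (case_zero h.good hg htop (by omega) (by rw [h1]; exact h3) (h.red g))

/-- all pairs generate -/
theorem Setup.pair [Finite Γ] {S : Set Γ} (h : Setup S) {a b : Γ} (ha : a ∈ S) (hb : b ∈ S)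
    (hba : b ≠ a) (hba' : b ≠ -a) : AddSubgroup.closure {a, b} = ⊤ := by
  have hG := h.good
  rcases pair_or_four hG h.no ha hb hba hba' with h1 | h4
  · exact h1
  exfalso
  have hcard := h.card
  set V := AddSubgroup.closure {a, b} with hV
  have haV : a ∈ V := AddSubgroup.subset_closure (by simp)
  have hbV : b ∈ V := AddSubgroup.subset_closure (by simp)
  have hVtop : V ≠ ⊤ := by
    intro h1
    rw [h1, AddSubgroup.card_top] at h4
    omega
  obtain ⟨c, hcS, hcV⟩ := exists_not_mem hG hVtop
  -- `⟨a, b, c⟩` is everything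
  have hHeq : V ⊔ AddSubgroup.zmultiples c = AddSubgroup.closure ({a, b} ∪ {c}) := by
    rw [AddSubgroup.closure_union, hV, AddSubgroup.zmultiples_eq_closure]
  have hVc : V ⊔ AddSubgroup.zmultiples c = ⊤ := by
    by_contra hne
    have hlt : 4 < Nat.card (V ⊔ AddSubgroup.zmultiples c : AddSubgroup Γ) := by
      by_contra hle
      have h2 : V = V ⊔ AddSubgroup.zmultiples c := by
        apply AddSubgroup.eq_of_le_of_card_ge le_sup_left
        rw [h4]; omega
      apply hcV
      rw [h2]
      exact AddSubgroup.mem_sup_right (AddSubgroup.mem_zmultiples c)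
    apply h.no
    refine case_three hG (V ⊔ AddSubgroup.zmultiples c) ?_ hne (by omega)
      (not_thin ha (AddSubgroup.mem_sup_left haV) hb (AddSubgroup.mem_sup_left hbV) hba hba')
    rw [hHeq]
    apply closure_gen
    intro x hx
    simp only [Set.union_singleton, Set.mem_insert_iff, Set.mem_singleton_iff] at hx
    rcases hx with rfl | rfl | rfl <;> assumption
  -- order of `c` modulo `V`
  set q := addOrderOf (c : Γ ⧸ V) with hq
  have hq2 : 2 ≤ q := quot_order_ge_two hcV
  have hq3 : 3 ≤ q := by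
    by_contra hlt
    have hq' : q = 2 := by omega
    have h1 : (Set.univ : Set Γ) ⊆ (V : Set Γ) ∪ {x | x - c ∈ V} := by
      intro x _
      have hx : x ∈ V ⊔ AddSubgroup.zmultiples c := by rw [hVc]; trivial
      rw [mem_sup_zmultiples, ← hq, hq'] at hx
      obtain ⟨i, hi, hx⟩ := hx
      interval_cases i
      · left; simpa using hx
      · right; simpa using hx
    have h2 := Set.ncard_le_ncard h1 (Set.toFinite _)
    have h3 := Set.ncard_union_le (V : Set Γ) {x | x - c ∈ V}
    rw [ncard_coset] at h3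
    rw [Set.ncard_univ] at h2
    have h5 : Set.ncard (V : Set Γ) = Nat.card V := rfl
    omega
  have hcm : ∀ i, 0 < i → i < 3 → i • c ∉ V := fun i h1 h2 => not_mem_of_lt V c h1 (by omega)
  -- the involution
  obtain ⟨e, heS, heV, hee⟩ : ∃ e ∈ S, e ∈ V ∧ e + e = 0 := by
    rcases two_or_two (hG.ne_zero ha) (hG.ne_zero hb) hba hba' h4 with h1 | h1
    · exact ⟨a, ha, haV, h1⟩
    · exact ⟨b, hb, hbV, h1⟩
  have hce : c ≠ e := by rintro rfl; exact hcV heV
  have hce' : c ≠ -e := by rintro rfl; exact hcV (V.neg_mem heV)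
  have he0 := hG.ne_zero heS
  have hgen : AddSubgroup.closure {e, c} = ⊤ := by
    rcases pair_or_four hG h.no heS hcS hce hce' with h1 | h5
    · exact h1
    exfalso
    have hle : AddSubgroup.zmultiples c ≤ AddSubgroup.closure {e, c} := by
      rw [AddSubgroup.zmultiples_le]; exact AddSubgroup.subset_closure (by simp)
    have hd : addOrderOf c ∣ 4 := by
      rw [← h5]
      exact (AddSubgroup.closure {e, c}).addOrderOf_dvd_natCard
        (AddSubgroup.subset_closure (by simp))
    have h6 : addOrderOf c ≠ 1 := fun h' =>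
      hG.ne_zero hcS (AddMonoid.addOrderOf_eq_one_iff.1 h')
    have h7 : addOrderOf c ≠ 2 := by
      intro h'
      apply hcm 2 (by omega) (by omega)
      rw [← h', addOrderOf_nsmul_eq_zero]; exact V.zero_mem
    have h8 : addOrderOf c = 4 := by
      have := Nat.le_of_dvd (by norm_num) hd
      interval_cases h' : addOrderOf c <;> omega
    have h9 : AddSubgroup.zmultiples c = AddSubgroup.closure {e, c} := by
      apply AddSubgroup.eq_of_le_of_card_ge hle
      rw [h5, Nat.card_zmultiples, h8]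
    have h10 : e ∈ run 0 c (addOrderOf c) := by
      rw [mem_run_full, h9, sub_zero]; exact AddSubgroup.subset_closure (by simp)
    rw [mem_run, h8] at h10
    obtain ⟨j, hj, hej⟩ := h10
    rw [zero_add] at hej
    interval_cases j
    · apply he0; rw [hej]; simp
    · apply hcm 1 (by omega) (by omega); rw [← hej]; exact heV
    · apply hcm 2 (by omega) (by omega); rw [← hej]; exact heV
    · apply hcm 1 (by omega) (by omega)
      have h11 : 1 • c = -e := by
        rw [eq_neg_iff_add_eq_zero, hej, ← add_nsmul]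
        have : 1 + 3 = addOrderOf c := by rw [h8]
        rw [this]; exact addOrderOf_nsmul_eq_zero c
      rw [h11]; exact V.neg_mem heV
  have hcov := cover_of_invol hee hgen
  have heH : e ∉ AddSubgroup.zmultiples c := by
    intro h1
    apply h.no_gen hcS
    rw [eq_top_iff, ← hgen, AddSubgroup.closure_le]
    intro x hx
    rcases hx with rfl | rfl
    · exact h1
    · exact AddSubgroup.mem_zmultiples _
  have hcardc := card_of_cover heH hcov
  have h4d : 4 ∣ Nat.card Γ := by
    rw [← h4]; exact AddSubgroup.card_addSubgroup_dvd_card V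
  obtain ⟨k, hk⟩ : ∃ k, addOrderOf c = 2 * (k + 3) := by
    obtain ⟨w, hw⟩ := h4d
    exact ⟨w - 3, by omega⟩
  have h3c := prism hG hcS heS heH hcov hk
  exact no_triple hG h.no hcS h3c (by omega) (h.no_gen hcS)

theorem Setup.not_mem [Finite Γ] {S : Set Γ} (h : Setup S) {a b : Γ} (ha : a ∈ S) (hb : b ∈ S)
    (hba : b ≠ a) (hba' : b ≠ -a) : b ∉ AddSubgroup.zmultiples a := by
  intro h1
  apply h.no_gen ha
  rw [eq_top_iff, ← h.pair ha hb hba hba', AddSubgroup.closure_le]
  intro x hx
  rcases hx with rfl | rfl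
  · exact AddSubgroup.mem_zmultiples _
  · exact h1

theorem Setup.triple [Finite Γ] {S : Set Γ} (h : Setup S) {a : Γ} (ha : a ∈ S)
    (hord : 5 ≤ addOrderOf a) : 3 • a ∉ S :=
  fun h3 => no_triple h.good h.no ha h3 hord (h.no_gen ha)

/-- another class -/
theorem Setup.second [Finite Γ] {S : Set Γ} (h : Setup S) (a : Γ) :
    ∃ b ∈ S, b ≠ a ∧ b ≠ -a := by
  by_contra hcon
  push Not at hcon
  have h1 := h.red a
  have h2 : S \ {a, -a} = ∅ := by
    ext x
    simp only [Set.mem_sdiff, Set.mem_insert_iff, Set.mem_singleton_iff, not_or,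
      Set.mem_empty_iff_false, iff_false, not_and]
    intro hx h3 h4
    exact h4 (hcon x hx h3)
  rw [h2, AddSubgroup.closure_empty] at h1
  have h3 : Nat.card (⊥ : AddSubgroup Γ) = Nat.card Γ := by rw [h1]; exact AddSubgroup.card_top
  rw [AddSubgroup.card_bot] at h3
  have := h.card
  omega

/-- a third class -/
theorem Setup.third [Finite Γ] {S : Set Γ} (h : Setup S) (a : Γ) {b : Γ} (hb : b ∈ S) :
    ∃ c ∈ S, c ≠ a ∧ c ≠ -a ∧ c ≠ b ∧ c ≠ -b := by
  by_contra hcon
  push Not at hcon
  apply h.no_gen hb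
  rw [eq_top_iff, ← h.red a, AddSubgroup.closure_le]
  rintro x ⟨hx, hx'⟩
  simp only [Set.mem_insert_iff, Set.mem_singleton_iff, not_or] at hx'
  by_cases h1 : x = b
  · rw [h1]; exact AddSubgroup.mem_zmultiples b
  · have h2 := hcon x hx hx'.1 hx'.2 h1
    rw [h2]; exact AddSubgroup.neg_mem _ (AddSubgroup.mem_zmultiples b)

/-- no involutions -/
theorem Setup.no_invol [Finite Γ] {S : Set Γ} (h : Setup S) {e : Γ} (he : e ∈ S) :
    e + e ≠ 0 := by
  intro hee
  have hG := h.good
  have hcard := h.card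
  have key : ∀ a ∈ S, a ≠ e → a ≠ -e → Odd (addOrderOf a) ∧ e ∉ AddSubgroup.zmultiples a ∧
      (∀ x, x ∈ AddSubgroup.zmultiples a ∨ x - e ∈ AddSubgroup.zmultiples a) := by
    intro a ha h1 h2
    have hgen := h.pair he ha h1 h2
    have hcov := cover_of_invol hee hgen
    have heH : e ∉ AddSubgroup.zmultiples a := by
      apply h.not_mem ha he h1.symm
      intro h3; apply h2; rw [h3, neg_neg]
    have hc := card_of_cover heH hcov
    refine ⟨?_, heH, hcov⟩
    by_contra hodd
    rw [Nat.not_odd_iff_even] at hodd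
    obtain ⟨w, hw⟩ := hodd
    have h3 := prism hG ha he heH hcov (k := w - 3) (by omega)
    exact h.triple ha (by omega) h3
  obtain ⟨a, ha, hae, hae'⟩ := h.second e
  obtain ⟨c, hc, hca, hca', hce, hce'⟩ := h.third a he
  obtain ⟨oa, heHa, hcova⟩ := key a ha hae hae'
  obtain ⟨oc, heHc, hcovc⟩ := key c hc hce hce'
  have hcarda := card_of_cover heHa hcova
  have hcardc := card_of_cover heHc hcovc
  have hord : addOrderOf c = addOrderOf a := by omega
  apply h.not_mem ha hc hca hca'
  rcases hcova c with h1 | h1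
  · exact h1
  · exfalso
    have h2 : addOrderOf a • (c - e) = 0 := by
      have h3 : addOrderOf (c - e) ∣ addOrderOf a := by
        have := (AddSubgroup.zmultiples a).addOrderOf_dvd_natCard h1
        rwa [Nat.card_zmultiples] at this
      obtain ⟨w, hw⟩ := h3
      rw [hw, mul_comm, mul_smul, addOrderOf_nsmul_eq_zero, smul_zero]
    rw [smul_sub, ← hord, addOrderOf_nsmul_eq_zero, zero_sub, neg_eq_zero, hord] at h2
    obtain ⟨w, hw⟩ := oa
    rw [hw, add_nsmul, mul_comm, mul_smul, two_nsmul, hee, smul_zero, one_smul, zero_add] at h2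
    exact hG.ne_zero he h2

/-- consequences of formula F -/
theorem Setup.six [Finite Γ] {S : Set Γ} (h : Setup S) {a t : Γ} (ha : a ∈ S) (ht : t ∈ S)
    (hta : t ≠ a) (hta' : t ≠ -a) (heven : Even (addOrderOf a)) (h6 : 6 ≤ addOrderOf a) :
    addOrderOf a = 6 ∧ ind S (t + 2 • a) + ind S (t - 2 • a) = 1 ∧
      ind S (a + 2 • t) + ind S (a - 2 • t) = 0 := by
  have hG := h.good
  obtain ⟨k, hk⟩ : ∃ k, addOrderOf a = 2 * (k + 3) := by
    obtain ⟨w, hw⟩ := heven
    exact ⟨w - 3, by omega⟩
  have h3 := h.triple ha (by omega)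
  have htH := h.not_mem ha ht hta hta'
  have hgen : AddSubgroup.zmultiples a ⊔ AddSubgroup.zmultiples t = ⊤ := by
    rw [← closure_pair_eq]; exact h.pair ha ht hta hta'
  have hr2 : 2 ≤ addOrderOf (t : Γ ⧸ AddSubgroup.zmultiples a) := quot_order_ge_two htH
  have hr3 : 3 ≤ addOrderOf (t : Γ ⧸ AddSubgroup.zmultiples a) := by
    by_contra hlt
    have hr : addOrderOf (t : Γ ⧸ AddSubgroup.zmultiples a) = 2 := by omega
    apply h3
    refine prism hG ha ht htH ?_ hk
    intro x
    have hx : x ∈ AddSubgroup.zmultiples a ⊔ AddSubgroup.zmultiples t := by rw [hgen]; trivial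
    rw [mem_sup_zmultiples, hr] at hx
    obtain ⟨i, hi, hx⟩ := hx
    interval_cases i
    · left; simpa using hx
    · right; simpa using hx
  have hF := formulaF hG ha ht hgen hk hr3 h3
  have b1 := ind_le_one S (t + 2 • a)
  have b2 := ind_le_one S (t - 2 • a)
  set s := ind S (t + 2 • a) + ind S (t - 2 • a) with hs
  set s' := ind S (a + 2 • t) + ind S (a - 2 • t) with hs'
  have hk0 : k = 0 := by
    by_contra hk0
    have hk1 : 1 ≤ k := by omega
    have : 4 * s ≤ (k + 3) * s := Nat.mul_le_mul_right s (by omega)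
    omega
  subst hk0
  refine ⟨by omega, ?_, ?_⟩ <;> omega

/-- at most one class of odd order -/
theorem Setup.even_or [Finite Γ] {S : Set Γ} (h : Setup S) {a b : Γ} (ha : a ∈ S) (hb : b ∈ S)
    (hba : b ≠ a) (hba' : b ≠ -a) : Even (addOrderOf a) ∨ Even (addOrderOf b) := by
  by_contra hcon
  push Not at hcon
  rw [Nat.not_even_iff_odd, Nat.not_even_iff_odd] at hcon
  have hodd : Odd (addOrderOf a * addOrderOf b) := hcon.1.mul hcon.2
  have hkill : ∀ x : Γ, (addOrderOf a * addOrderOf b) • x = 0 := by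
    intro x
    have hx : x ∈ AddSubgroup.closure {a, b} := by rw [h.pair ha hb hba hba']; trivial
    rw [AddSubgroup.mem_closure_pair] at hx
    obtain ⟨m, n, rfl⟩ := hx
    rw [smul_add, smul_comm _ m a, smul_comm _ n b]
    have e1 : (addOrderOf a * addOrderOf b) • a = 0 := by
      rw [mul_comm, mul_smul, addOrderOf_nsmul_eq_zero, smul_zero]
    have e2 : (addOrderOf a * addOrderOf b) • b = 0 := by
      rw [mul_smul, addOrderOf_nsmul_eq_zero, smul_zero]
    rw [e1, e2, smul_zero, smul_zero, add_zero]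
  have : Fact (Nat.Prime 2) := ⟨Nat.prime_two⟩
  obtain ⟨w, hw⟩ := exists_prime_addOrderOf_dvd_card' (G := Γ) 2 h.even.two_dvd
  have h1 := addOrderOf_dvd_of_nsmul_eq_zero (hkill w)
  rw [hw] at h1
  rw [Nat.odd_iff] at hodd
  omega

theorem Setup.two_even [Finite Γ] {S : Set Γ} (h : Setup S) :
    ∃ a ∈ S, ∃ b ∈ S, b ≠ a ∧ b ≠ -a ∧ Even (addOrderOf a) ∧ Even (addOrderOf b) := by
  obtain ⟨s1, h1, -, -⟩ := h.second 0
  obtain ⟨s2, h2, h21, h21'⟩ := h.second s1
  obtain ⟨s3, h3, h31, h31', h32, h32'⟩ := h.third s1 h2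
  rcases h.even_or h1 h2 h21 h21' with e | e
  · rcases h.even_or h2 h3 h32 h32' with e' | e'
    · exact ⟨s1, h1, s2, h2, h21, h21', e, e'⟩
    · exact ⟨s1, h1, s3, h3, h31, h31', e, e'⟩
  · rcases h.even_or h1 h3 h31 h31' with e' | e'
    · exact ⟨s1, h1, s2, h2, h21, h21', e', e⟩
    · exact ⟨s2, h2, s3, h3, h32, h32', e, e'⟩

theorem Setup.order_four [Finite Γ] {S : Set Γ} (h : Setup S) {a b : Γ} (ha : a ∈ S)
    (hb : b ∈ S) (hba : b ≠ a) (hba' : b ≠ -a) (ea : Even (addOrderOf a))
    (eb : Even (addOrderOf b)) : addOrderOf a = 4 := by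
  have hG := h.good
  have ha4 : ∀ x ∈ S, Even (addOrderOf x) → 4 ≤ addOrderOf x := by
    intro x hx hev
    have h1 : 0 < addOrderOf x := addOrderOf_pos x
    have h2 : addOrderOf x ≠ 2 := by
      intro h2
      apply h.no_invol hx
      rw [← two_nsmul, ← h2]; exact addOrderOf_nsmul_eq_zero x
    obtain ⟨w, hw⟩ := hev
    omega
  by_contra hne
  have h6 : 6 ≤ addOrderOf a := by
    have := ha4 a ha ea
    obtain ⟨w, hw⟩ := ea
    omega
  have hab : a ≠ b := hba.symm
  have hab' : a ≠ -b := by intro h'; apply hba'; rw [h', neg_neg]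
  obtain ⟨ho, hs, hs'⟩ := h.six ha hb hba hba' ea h6
  by_cases hb6 : 6 ≤ addOrderOf b
  · obtain ⟨-, hs2, -⟩ := h.six hb ha hab hab' eb hb6
    omega
  · have hb4 : addOrderOf b = 4 := by
      have := ha4 b hb eb
      obtain ⟨w, hw⟩ := eb
      omega
    have h6a : 6 • a = 0 := by rw [← ho]; exact addOrderOf_nsmul_eq_zero a
    have h4b : 4 • b = 0 := by rw [← hb4]; exact addOrderOf_nsmul_eq_zero b
    have hbH := h.not_mem ha hb hba hba'
    -- the key contradiction
    have key : ∀ x : Γ, 6 • x = 0 → 2 • x ≠ 0 → x ∈ AddSubgroup.zmultiples a →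
        b + 2 • x ∈ S → False := by
      intro x hx6 hx2 hxa hc
      have h12 : 12 • (b + 2 • x) = 0 := by
        have e1 : 12 • (b + 2 • x) = 3 • (4 • b) + 4 • (6 • x) := by
          rw [smul_add, ← mul_smul, ← mul_smul, ← mul_smul]
          norm_num
        rw [e1, h4b, hx6, smul_zero, smul_zero, add_zero]
      have h6c : 6 • (b + 2 • x) ≠ 0 := by
        have e1 : 6 • (b + 2 • x) = 2 • b + 4 • b + 2 • (6 • x) := by
          rw [smul_add, ← mul_smul, ← mul_smul, ← add_nsmul]
          norm_num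
        rw [e1, h4b, hx6, smul_zero, add_zero, add_zero, two_nsmul]
        exact h.no_invol hb
      have h4c : 4 • (b + 2 • x) ≠ 0 := by
        have e1 : 4 • (b + 2 • x) = 4 • b + (6 • x + 2 • x) := by
          rw [smul_add, ← mul_smul, ← add_nsmul]
          norm_num
        rw [e1, h4b, hx6, zero_add, zero_add]
        exact hx2
      have hd := addOrderOf_dvd_of_nsmul_eq_zero h12
      have hn6 : ¬ addOrderOf (b + 2 • x) ∣ 6 := fun h' =>
        h6c (by
          obtain ⟨w, hw⟩ := h'
          rw [hw, mul_comm, mul_smul, addOrderOf_nsmul_eq_zero, smul_zero])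
      have hn4 : ¬ addOrderOf (b + 2 • x) ∣ 4 := fun h' =>
        h4c (by
          obtain ⟨w, hw⟩ := h'
          rw [hw, mul_comm, mul_smul, addOrderOf_nsmul_eq_zero, smul_zero])
      have h12' : addOrderOf (b + 2 • x) = 12 := by
        have hle := Nat.le_of_dvd (by norm_num) hd
        have hpos : 0 < addOrderOf (b + 2 • x) := addOrderOf_pos _
        generalize addOrderOf (b + 2 • x) = o at hd hn6 hn4 hle hpos
        interval_cases o <;> revert hd hn6 hn4 <;> decide
      have h2x : 2 • x ∈ AddSubgroup.zmultiples a := AddSubgroup.nsmul_mem _ hxa 2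
      have hac : a ≠ b + 2 • x := by
        intro h'
        apply hbH
        have : b = a - 2 • x := by rw [h']; abel
        rw [this]; exact AddSubgroup.sub_mem _ (AddSubgroup.mem_zmultiples a) h2x
      have hac' : a ≠ -(b + 2 • x) := by
        intro h'
        apply hbH
        have : b = -a - 2 • x := by rw [h']; abel
        rw [this]
        exact AddSubgroup.sub_mem _ (AddSubgroup.neg_mem _ (AddSubgroup.mem_zmultiples a)) h2x
      obtain ⟨h7, -, -⟩ := h.six hc ha hac hac' (by rw [h12']; decide) (by omega)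
      omega
    have h2a : 2 • a ≠ 0 := by rw [two_nsmul]; exact h.no_invol ha
    by_cases hc : b + 2 • a ∈ S
    · exact key a h6a h2a (AddSubgroup.mem_zmultiples a) hc
    · rw [ind_of_not_mem hc, zero_add] at hs
      apply key (-a) (by rw [smul_neg, h6a, neg_zero]) (by
        rw [smul_neg, neg_ne_zero]; exact h2a) (AddSubgroup.neg_mem _ (AddSubgroup.mem_zmultiples a))
      have e : b + 2 • -a = b - 2 • a := by rw [smul_neg]; abel
      rw [e]; exact mem_of_ind hs

/-- **Case II** is impossible. -/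
theorem Setup.false [Finite Γ] {S : Set Γ} (h : Setup S) : False := by
  obtain ⟨a, ha, b, hb, hba, hba', ea, eb⟩ := h.two_even
  have oa := h.order_four ha hb hba hba' ea eb
  have ob := h.order_four hb ha hba.symm (by intro h'; apply hba'; rw [h', neg_neg]) eb ea
  obtain ⟨c, hc, hca, hca', hcb, hcb'⟩ := h.third a hb
  exact four_four h.good ha hb hc hca hca' hcb hcb'
    (by rw [← oa]; exact addOrderOf_nsmul_eq_zero a)
    (by rw [← ob]; exact addOrderOf_nsmul_eq_zero b) h.card hba hba'
    (fun x hx y hy h1 h2 => h.pair hx hy h1 h2)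

end Pool.Agent.HamTrans
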