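import Pool.Agent.HamTrans.CaseThree

set_option linter.unusedSectionVars false

namespace Pool.Agent.HamTrans

open List

variable {Γ : Type*} [AddCommGroup Γ]

theorem lin3_run (S : Set Γ) (x a : Γ) (k : ℕ) :
    lin3 S (run x a k) = (k - 3) * ind S (3 • a) := by
  induction k generalizing x with
  | zero => simp
  | succ k ih =>
    match k, ih with
    | 0, _ => simp [run_succ]
    | 1, _ => simp [run_succ]
    | 2, _ => simp [run_succ]
    | k + 3, ih =>
      have h := ih (x + a)
      rw [run_succ, run_succ, run_succ] at h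
      rw [run_succ, run_succ, run_succ, run_succ, lin3_cons4, h]
      have e1 : x + a + a + a - x = 3 • a := by
        rw [show 3 • a = a + a + a by rw [succ_nsmul, two_nsmul]]; abel
      rw [e1]
      have e2 : k + 3 + 1 - 3 = (k + 3 - 3) + 1 := by omega
      rw [e2]; ring

theorem HC.of_perm {S : Set Γ} {l l' : List Γ} (h : HC S l) (hp : l' ~ l) (hc : CW S l') :
    HC S l' := ⟨hc.chain, hp.nodup_iff.2 h.nodup, fun x => hp.mem_iff.2 (h.mem x), hc.closed⟩

theorem run_HC [Finite Γ] {S : Set Γ} {g : Γ} (hg : g ∈ S) (x : Γ)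
    (hgen : AddSubgroup.zmultiples g = ⊤) : HC S (run x g (addOrderOf g)) := by
  have h := run_HP (S := S) hg x
  refine ⟨h.chain, h.nodup, fun y => (h.mem y).2 (by rw [Set.mem_ofPred_eq, hgen]; trivial), ?_⟩
  intro u hu v hv
  rw [run_last_full] at hv
  rw [run_head _ _ (addOrderOf_pos g)] at hu
  simp only [Option.mem_def, Option.some.injEq] at hu hv
  subst hu; subst hv
  unfold Rel
  have : x - (x - g) = g := by abel
  rw [this]; exact hg

theorem cyc3_run [Finite Γ] (S : Set Γ) (x g : Γ) (h3 : 3 ≤ addOrderOf g) :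
    cyc3 S (run x g (addOrderOf g)) = addOrderOf g * ind S (3 • g) := by
  obtain ⟨k, hk⟩ : ∃ k, addOrderOf g = k + 3 := ⟨addOrderOf g - 3, by omega⟩
  have e : run x g (addOrderOf g) ++ (run x g (addOrderOf g)).take 3
      = run x g (addOrderOf g + 3) := by
    rw [run_append, addOrderOf_nsmul_eq_zero, add_zero]
    congr 1
    rw [hk, run_succ, run_succ, run_succ]
    simp [run_succ]
  rw [cyc3, e, lin3_run]
  congr 1

theorem run_three (x a : Γ) : run x a 3 = [x, x + a, x + a + a] := by
  simp [run_succ]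

/-- the reflected prefix -/
theorem flip_prefix [Finite Γ] {S : Set Γ} (hG : Good S) {g : Γ} (hg : g ∈ S)
    (hgen : AddSubgroup.zmultiples g = ⊤) {a : ℕ} (ha : 3 ≤ a) (ha' : a + 4 ≤ addOrderOf g)
    (haS : a • g ∈ S) :
    3 * ind S (3 • g) = 1 + ind S ((a + 2) • g) + ind S ((a - 2) • g) := by
  obtain ⟨b, rfl⟩ : ∃ b, a = b + 3 := ⟨a - 3, by omega⟩
  set n := addOrderOf g with hn
  obtain ⟨c, hc⟩ : ∃ c, n = (b + 3) + (c + 4) := ⟨n - (b + 3) - 4, by omega⟩
  have hng : n • g = 0 := addOrderOf_nsmul_eq_zero g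
  set Q := run ((b + 3) • g) (-g) (b + 3) with hQ
  set R := run ((b + 4) • g) g (c + 4) with hR
  have hrun := run_HC hg g hgen
  rw [← hn, hc, run_append] at hrun
  have hrev : (run g g (b + 3)).reverse = Q := by
    rw [show b + 3 = (b + 2) + 1 by ring, run_reverse, hQ]
    congr 1
    rw [show b + 3 = (b + 2) + 1 by ring, succ_nsmul g (b + 2)]; abel
  have hR' : run (g + (b + 3) • g) g (c + 4) = R := by
    rw [hR]; congr 1
    rw [show b + 4 = (b + 3) + 1 by ring, succ_nsmul g (b + 3)]; abel
  rw [hR'] at hrun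
  have hlast : (b + 4) • g + (c + 3) • g = 0 := by
    rw [← add_nsmul, ← hng]; congr 1; omega
  have hbS : (b + 3) • g ∈ S := haS
  have hHC : HC S (Q ++ R) := by
    refine hrun.of_perm ?_ ⟨?_, ?_⟩
    · rw [← hrev]; exact (List.reverse_perm _).append_right _
    · rw [List.isChain_append]
      refine ⟨run_chain (hG.neg g hg) _ _, run_chain hg _ _, ?_⟩
      intro u hu v hv
      rw [hQ, show b + 3 = (b + 2) + 1 by ring, run_last] at hu
      rw [hR, run_head _ _ (by omega)] at hv
      simp only [Option.mem_def, Option.some.injEq] at hu hv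
      subst hu; subst hv
      unfold Rel
      have : (b + 4) • g - ((b + 2 + 1) • g + (b + 2) • -g) = (b + 3) • g := by
        rw [smul_neg, show b + 4 = (b + 2) + 1 + 1 by ring, succ_nsmul g (b + 2 + 1),
          show b + 3 = b + 2 + 1 by ring, succ_nsmul g (b + 2)]
        abel
      rw [this]; exact hbS
    · intro u hu v hv
      rw [hQ, List.head?_append, run_head _ _ (by omega)] at hu
      rw [hR, List.getLast?_append, show c + 4 = (c + 3) + 1 by ring, run_last, hlast] at hv
      simp only [Option.some_or, Option.mem_def, Option.some.injEq] at hu hv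
      subst hu; subst hv
      unfold Rel
      rw [sub_zero]; exact hbS
  have h1 := hG.const _ _ hHC (run_HC hg 0 hgen)
  rw [cyc3_run S 0 g (by omega)] at h1
  have hQ1 : Q = (b + 3) • g :: (b + 2) • g :: (b + 1) • g :: run (b • g) (-g) b := by
    rw [hQ, run_succ, run_succ, run_succ]
    congr 1
    have e1 : (b + 3) • g + -g = (b + 2) • g := by
      rw [show b + 3 = (b + 2) + 1 by ring, succ_nsmul g (b + 2)]; abel
    have e2 : (b + 2) • g + -g = (b + 1) • g := by
      rw [show b + 2 = (b + 1) + 1 by ring, succ_nsmul g (b + 1)]; abel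
    have e3 : (b + 1) • g + -g = b • g := by
      rw [succ_nsmul g b]; abel
    rw [e1, e2, e3]
  have hQ2 : Q = run ((b + 3) • g) (-g) b ++ [3 • g, 2 • g, g] := by
    rw [hQ, run_append]
    have e0 : (b + 3) • g + b • -g = 3 • g := by
      rw [smul_neg, add_nsmul]; abel
    rw [e0, run_three]
    have e1 : 3 • g + -g = 2 • g := by
      rw [show (3 : ℕ) = 2 + 1 by rfl, succ_nsmul g 2]; abel
    have e2 : 2 • g + -g = g := by
      rw [two_nsmul]; abel
    rw [e1, e2]
  have hR1 : R = (b + 4) • g :: (b + 5) • g :: (b + 6) • g :: run ((b + 7) • g) g (c + 1) := by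
    rw [hR, show c + 4 = (c + 1) + 1 + 1 + 1 by ring, run_succ, run_succ, run_succ]
    rw [← succ_nsmul, ← succ_nsmul, ← succ_nsmul]
  have hR2 : R = run ((b + 4) • g) g (c + 1) ++ [-(2 • g), -g, 0] := by
    rw [hR, show c + 4 = (c + 1) + 3 by ring, run_append]
    have e0 : (b + 4) • g + (c + 1) • g = -(2 • g) := by
      rw [eq_neg_iff_add_eq_zero, ← hlast, show c + 3 = (c + 1) + 2 by ring, add_nsmul g (c + 1) 2]
      abel
    rw [e0, run_three]
    have e1 : -(2 • g) + g = -g := by rw [two_nsmul]; abel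
    have e2 : -g + g = 0 := by abel
    rw [e1, e2]
  rw [cyc3_append S hQ1 hQ2 hR1 hR2, hQ, hR, lin3_run, lin3_run, ← hn, hc] at h1
  have i0 : ind S (3 • -g) = ind S (3 • g) := by rw [smul_neg]; exact ind_neg hG.neg _
  have i1 : (b + 4) • g - 3 • g = (b + 3 - 2) • g := by
    rw [sub_eq_iff_eq_add, ← add_nsmul]; congr 1
  have i2 : (b + 5) • g - 2 • g = (b + 3) • g := by
    rw [sub_eq_iff_eq_add, ← add_nsmul]
  have i3 : (b + 6) • g - g = (b + 3 + 2) • g := by
    rw [sub_eq_iff_eq_add, ← succ_nsmul]
  have i4 : (b + 3) • g - -(2 • g) = (b + 3 + 2) • g := by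
    rw [sub_neg_eq_add, ← add_nsmul]
  have i5 : (b + 2) • g - -g = (b + 3) • g := by
    rw [sub_neg_eq_add, ← succ_nsmul]
  have i6 : (b + 1) • g - 0 = (b + 3 - 2) • g := by
    rw [sub_zero]; rfl
  rw [i0, i1, i2, i3, i4, i5, i6, ind_of_mem hbS] at h1
  have e1 : b + 3 - 3 = b := by omega
  have e2 : c + 4 - 3 = c + 1 := by omega
  rw [e1, e2] at h1
  have e3 : (b + 3 + (c + 4)) * ind S (3 • g)
      = b * ind S (3 • g) + (c + 1) * ind S (3 • g) + 6 * ind S (3 • g) := by ring
  rw [e3] at h1
  omega

theorem flip_two [Finite Γ] {S : Set Γ} (hG : Good S) {g : Γ} (hg : g ∈ S)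
    (hgen : AddSubgroup.zmultiples g = ⊤) (hn8 : 6 ≤ addOrderOf g)
    (h2S : 2 • g ∈ S) :
    2 * ind S (3 • g) = 1 + ind S (4 • g) := by
  set n := addOrderOf g with hn
  obtain ⟨c, hc⟩ : ∃ c, n = c + 6 := ⟨n - 6, by omega⟩
  have hng : n • g = 0 := addOrderOf_nsmul_eq_zero g
  set Q : List Γ := [2 • g, g, 3 • g] with hQ
  set R := run (4 • g) g (c + 3) with hR
  have hrun := run_HC hg g hgen
  have hsplit : run g g n = g :: 2 • g :: 3 • g :: R := by
    rw [hc, show c + 6 = (c + 3) + 1 + 1 + 1 by ring, run_succ, run_succ, run_succ, hR]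
    have e1 : g + g = 2 • g := (two_nsmul g).symm
    have e2 : 2 • g + g = 3 • g := (succ_nsmul g 2).symm
    have e3 : 3 • g + g = 4 • g := (succ_nsmul g 3).symm
    rw [e1, e2, e3]
  rw [← hn, hsplit] at hrun
  have hlast : 4 • g + (c + 2) • g = 0 := by
    rw [← add_nsmul, ← hng]; congr 1; omega
  have hHC : HC S (Q ++ R) := by
    refine hrun.of_perm ?_ ⟨?_, ?_⟩
    · rw [hQ]; exact List.Perm.swap _ _ _
    · rw [hQ]
      have hRc : (3 • g :: R).IsChain (Rel S) := by
        have h := hrun.chain
        rw [List.isChain_cons_cons, List.isChain_cons_cons] at h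
        exact h.2.2
      simp only [List.cons_append, List.nil_append, List.isChain_cons_cons]
      refine ⟨?_, ?_, hRc⟩
      · unfold Rel
        have : g - 2 • g = -g := by rw [two_nsmul]; abel
        rw [this]; exact hG.neg g hg
      · unfold Rel
        have : 3 • g - g = 2 • g := by
          rw [show (3 : ℕ) = 2 + 1 by rfl, succ_nsmul g 2]; abel
        rw [this]; exact h2S
    · intro u hu v hv
      rw [hQ] at hu
      rw [hR, List.getLast?_append, show c + 3 = (c + 2) + 1 by ring, run_last, hlast] at hv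
      simp only [List.cons_append, List.head?_cons, Option.some_or, Option.mem_def,
        Option.some.injEq] at hu hv
      subst hu; subst hv
      unfold Rel
      rw [sub_zero]; exact h2S
  have h1 := hG.const _ _ hHC (run_HC hg 0 hgen)
  rw [cyc3_run S 0 g (by omega)] at h1
  have hR1 : R = 4 • g :: 5 • g :: 6 • g :: run (7 • g) g c := by
    rw [hR, show c + 3 = c + 1 + 1 + 1 by ring, run_succ, run_succ, run_succ]
    rw [← succ_nsmul, ← succ_nsmul, ← succ_nsmul]
  have hR2 : R = run (4 • g) g c ++ [-(2 • g), -g, 0] := by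
    rw [hR, run_append]
    have e0 : 4 • g + c • g = -(2 • g) := by
      rw [eq_neg_iff_add_eq_zero, ← hlast, add_nsmul g c 2]
      abel
    rw [e0, run_three]
    have e1 : -(2 • g) + g = -g := by rw [two_nsmul]; abel
    have e2 : -g + g = 0 := by abel
    rw [e1, e2]
  rw [cyc3_append S (Q := Q) (Q' := []) (Q'' := []) (q0 := 2 • g) (q1 := g) (q2 := 3 • g)
    (a := 2 • g) (b := g) (c := 3 • g) hQ (by rw [hQ]; rfl) hR1 hR2, hQ, hR, lin3_run, ← hn, hc] at h1
  have i1 : 4 • g - 2 • g = 2 • g := by
    rw [sub_eq_iff_eq_add, ← add_nsmul]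
  have i2 : 5 • g - g = 4 • g := by
    rw [sub_eq_iff_eq_add, ← succ_nsmul]
  have i3 : 6 • g - 3 • g = 3 • g := by
    rw [sub_eq_iff_eq_add, ← add_nsmul]
  have i4 : (2 • g : Γ) - -(2 • g : Γ) = (4 • g : Γ) := by
    rw [sub_neg_eq_add, ← add_nsmul]
  have i5 : g - -g = 2 • g := by
    rw [sub_neg_eq_add, two_nsmul]
  rw [i1, i2, i3, i4, i5, sub_zero, ind_of_mem h2S, lin3_three] at h1
  have e2 : c + 3 - 3 = c := by omega
  rw [e2] at h1
  have e3 : (c + 6) * ind S (3 • g) = c * ind S (3 • g) + 6 * ind S (3 • g) := by ring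
  rw [e3] at h1
  omega

/-- **Case 0**: `S` contains a generator of the group. -/
theorem case_zero [Finite Γ] {S : Set Γ} (hG : Good S) {g : Γ} (hg : g ∈ S)
    (hgen : AddSubgroup.zmultiples g = ⊤) (hn8 : 8 ≤ addOrderOf g) (heven : Even (addOrderOf g))
    (hred : AddSubgroup.closure (S \ {g, -g}) = ⊤) : Concl S := by
  set n := addOrderOf g with hn
  have hng : n • g = 0 := addOrderOf_nsmul_eq_zero g
  have hneg : ∀ k, k ≤ n → k • g ∈ S → (n - k) • g ∈ S := by
    intro k hk h
    have h1 := hG.neg _ h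
    have : -(k • g) = (n - k) • g := by
      rw [neg_eq_iff_add_eq_zero, ← add_nsmul, ← hng]; congr 1; omega
    rwa [this] at h1
  have hex : ∀ x : Γ, ∃ k < n, x = k • g := by
    intro x
    have h1 : x ∈ run 0 g (addOrderOf g) := by
      rw [mem_run_full, hgen]; trivial
    rw [mem_run] at h1
    obtain ⟨k, hk, hx⟩ := h1
    exact ⟨k, hk, by rw [hx, zero_add]⟩
  -- an element different from `±g`
  obtain ⟨a, ha2, han, haS⟩ : ∃ a, 2 ≤ a ∧ a + 2 ≤ n ∧ a • g ∈ S := by
    have h1 : ∃ s ∈ S, s ≠ g ∧ s ≠ -g := by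
      by_contra hcon
      push Not at hcon
      have h2 : S \ {g, -g} = ∅ := by
        ext x
        simp only [Set.mem_sdiff, Set.mem_insert_iff, Set.mem_singleton_iff, not_or,
          Set.mem_empty_iff_false, iff_false, not_and]
        intro hx h3 h4
        exact h4 (hcon x hx h3)
      rw [h2, AddSubgroup.closure_empty] at hred
      have h3 : g ∈ (⊥ : AddSubgroup Γ) := by rw [hred]; trivial
      exact hG.ne_zero hg (AddSubgroup.mem_bot.1 h3)
    obtain ⟨s, hs, hs1, hs2⟩ := h1
    obtain ⟨k, hk, rfl⟩ := hex s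
    have h0 : k ≠ 0 := by rintro rfl; rw [zero_smul] at hs; exact hG.zero hs
    have h1 : k ≠ 1 := by rintro rfl; rw [one_smul] at hs1; exact hs1 rfl
    have h2 : k ≠ n - 1 := by
      rintro rfl
      exact hs2 (order_smul_last g)
    exact ⟨k, by omega, by omega, hs⟩
  have h3S : 3 • g ∈ S := by
    by_cases h1 : 3 ≤ a ∧ a + 4 ≤ n
    · have := flip_prefix hG hg hgen h1.1 h1.2 haS
      apply mem_of_ind_pos; omega
    · by_cases h2 : a = 2
      · subst h2
        have := flip_two hG hg hgen (by omega) haS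
        apply mem_of_ind_pos; omega
      · by_cases h3 : a + 3 = n
        · have := hneg a (by omega) haS
          have e : n - a = 3 := by omega
          rwa [e] at this
        · have h4 : a + 2 = n := by omega
          have := hneg a (by omega) haS
          have e : n - a = 2 := by omega
          rw [e] at this
          have := flip_two hG hg hgen (by omega) this
          apply mem_of_ind_pos; omega
  have hi3 := ind_of_mem h3S
  have hup : ∀ b, 2 ≤ b → b + 4 ≤ n → b • g ∈ S → (b + 2) • g ∈ S := by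
    intro b hb hb' hbS
    by_cases h2 : b = 2
    · subst h2
      have := flip_two hG hg hgen (by omega) hbS
      rw [hi3] at this
      have h4 : ind S (4 • g) = 1 := by omega
      exact mem_of_ind h4
    · have := flip_prefix hG hg hgen (a := b) (by omega) hb' hbS
      rw [hi3] at this
      have h4 := ind_le_one S ((b + 2) • g)
      have h5 := ind_le_one S ((b - 2) • g)
      apply mem_of_ind; omega
  have hdown : ∀ b, 4 ≤ b → b + 2 ≤ n → b • g ∈ S → (b - 2) • g ∈ S := by
    intro b hb hb' hbS
    have h1 := hneg b (by omega) hbS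
    have h2 := hup (n - b) (by omega) (by omega) h1
    have h3 := hneg _ (by omega) h2
    have e : n - (n - b + 2) = b - 2 := by omega
    rwa [e] at h3
  have hodd : ∀ k, 2 * k + 1 < n → (2 * k + 1) • g ∈ S := by
    intro k
    induction k with
    | zero => intro _; simpa using hg
    | succ k ih =>
      intro hk
      by_cases h1 : k = 0
      · subst h1; exact h3S
      by_cases h2 : 2 * k + 4 = n
      · have h3 := hneg 1 (by omega) (by rw [one_smul]; exact hg)
        have e : n - 1 = 2 * (k + 1) + 1 := by omega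
        rwa [e] at h3
      · have h3 := hup (2 * k + 1) (by omega) (by
          obtain ⟨m, hm⟩ := heven; omega) (ih (by omega))
        have e : 2 * (k + 1) + 1 = 2 * k + 1 + 2 := by ring
        rwa [e]
  by_cases hexev : ∃ c, 2 * (c + 1) + 2 ≤ n ∧ (2 * (c + 1)) • g ∈ S
  · left
    obtain ⟨c, hc1, hc2⟩ := hexev
    have h2S : 2 • g ∈ S := by
      induction c with
      | zero => exact hc2
      | succ c ih =>
        apply ih (by omega)
        have := hdown _ (by omega) hc1 hc2
        have e : 2 * (c + 1 + 1) - 2 = 2 * (c + 1) := by omega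
        rwa [e] at this
    have hev : ∀ c, 2 * (c + 1) + 2 ≤ n → (2 * (c + 1)) • g ∈ S := by
      intro c
      induction c with
      | zero => intro _; exact h2S
      | succ c ih =>
        intro hc
        have := hup _ (by omega) (by omega) (ih (by omega))
        exact this
    intro x hx
    obtain ⟨k, hk, rfl⟩ := hex x
    have hk0 : k ≠ 0 := by rintro rfl; simp at hx
    rcases Nat.even_or_odd k with ⟨m, hm⟩ | ⟨m, hm⟩
    · have := hev (m - 1) (by obtain ⟨m', hm'⟩ := heven; omega)
      have e : 2 * (m - 1 + 1) = k := by omega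
      rwa [e] at this
    · have := hodd m (by omega)
      have e : 2 * m + 1 = k := by omega
      rwa [e] at this
  · right
    push Not at hexev
    have hJ : ∀ k : ℕ, k • g ∈ AddSubgroup.zmultiples (2 • g) ↔ Even k := by
      intro k
      constructor
      · intro h
        obtain ⟨j, hj⟩ := AddSubgroup.mem_zmultiples_iff.1 h
        have h1 : ((k : ℤ) - 2 * j) • g = 0 := by
          rw [sub_smul, mul_comm, mul_smul]
          have e1 : (2 : ℤ) • g = 2 • g := by norm_cast
          rw [e1, hj, natCast_zsmul, sub_self]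
        have h2 := addOrderOf_dvd_iff_zsmul_eq_zero.2 h1
        rw [← hn] at h2
        obtain ⟨m, hm⟩ := heven
        obtain ⟨c, hc⟩ := h2
        have h3 : (k : ℤ) = 2 * (j + m * c) := by
          rw [hm] at hc
          push_cast at hc
          linarith
        have h4 : Even (k : ℤ) := ⟨j + m * c, by rw [h3]; ring⟩
        exact_mod_cast h4
      · rintro ⟨m, hm⟩
        rw [AddSubgroup.mem_zmultiples_iff]
        refine ⟨m, ?_⟩
        rw [natCast_zsmul, ← mul_smul]
        congr 1; omega
    refine ⟨AddSubgroup.zmultiples (2 • g), ?_, ?_⟩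
    · rw [AddSubgroup.index_eq_two_iff]
      refine ⟨g, fun b => ?_⟩
      obtain ⟨k, hk, rfl⟩ := hex b
      have e : k • g + g = (k + 1) • g := (succ_nsmul g k).symm
      rw [e, hJ, hJ]
      rcases Nat.even_or_odd k with h | h
      · right
        exact ⟨h, by rw [Nat.not_even_iff_odd]; exact h.add_one⟩
      · left
        exact ⟨h.add_one, by rwa [Nat.not_even_iff_odd]⟩
    · intro x
      obtain ⟨k, hk, rfl⟩ := hex x
      rw [hJ]
      constructor
      · rintro h ⟨m, hm⟩
        have hk0 : k ≠ 0 := by rintro rfl; rw [zero_smul] at h; exact hG.zero h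
        apply hexev (m - 1) (by obtain ⟨m', hm'⟩ := heven; omega)
        have e : 2 * (m - 1 + 1) = k := by omega
        rwa [e]
      · intro h
        rw [Nat.not_even_iff_odd] at h
        obtain ⟨m, hm⟩ := h
        have := hodd m (by omega)
        rwa [← hm] at this

end Pool.Agent.HamTrans
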