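import Mathlib

/-!
# Hamiltonian-transitive graphs

`IsHamEdgeSet G E` : `E` is the edge set of a Hamiltonian cycle of `G`.
`HamTransitive G` : `G` has a Hamiltonian cycle, and any two edge sets of Hamiltonian cycles are
exchanged by an automorphism of `G`.
`InFamily G` : `G` is isomorphic to a cycle, a complete graph, a balanced complete bipartite
graph, the cube `C₄ □ K₂` or an odd prism `C_k □ K₂`.
-/

namespace Pool.Agent.HamTrans

open SimpleGraph

/-- `E` is the edge set of a Hamiltonian cycle of `G` -/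
def IsHamEdgeSet {V : Type*} [DecidableEq V] (G : SimpleGraph V) (E : Set (Sym2 V)) : Prop :=
  ∃ (v : V) (p : G.Walk v v), p.IsHamiltonianCycle ∧ E = {e | e ∈ p.edges}

/-- `G` is Hamiltonian-transitive -/
def HamTransitive {V : Type*} [DecidableEq V] (G : SimpleGraph V) : Prop :=
  (∃ E, IsHamEdgeSet G E) ∧
    ∀ E₁ E₂, IsHamEdgeSet G E₁ → IsHamEdgeSet G E₂ →
      ∃ φ : G ≃g G, Sym2.map φ '' E₁ = E₂

/-- the family `F` of the problem: `C_n` and `K_n` with `n ≥ 3`, `K_{n,n}` with `n ≥ 2`,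
`C₄ □ K₂`, and `C_k □ K₂` with `k ≥ 3` odd, up to isomorphism -/
def InFamily {V : Type*} (G : SimpleGraph V) : Prop :=
  (∃ n, 3 ≤ n ∧ Nonempty (G ≃g cycleGraph n)) ∨
  (∃ n, 3 ≤ n ∧ Nonempty (G ≃g completeGraph (Fin n))) ∨
  (∃ n, 2 ≤ n ∧ Nonempty (G ≃g completeBipartiteGraph (Fin n) (Fin n))) ∨
  Nonempty (G ≃g (cycleGraph 4 □ completeGraph (Fin 2))) ∨
  (∃ k, 3 ≤ k ∧ Odd k ∧ Nonempty (G ≃g (cycleGraph k □ completeGraph (Fin 2))))

end Pool.Agent.HamTrans
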