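import Pool.Agent.HamTrans.Bridge2

set_option linter.unusedSectionVars false

namespace Pool.Agent.HamTrans

open SimpleGraph

variable {Γ : Type*} [AddCommGroup Γ]

theorem exists_HC [Finite Γ] {S : Set Γ} (hneg : ∀ s ∈ S, -s ∈ S) (h0 : (0 : Γ) ∉ S)
    (hgen : AddSubgroup.closure S = ⊤) (hn : 3 ≤ Nat.card Γ) : ∃ l, HC S l := by
  obtain ⟨g, hg⟩ : ∃ g, g ∈ S := by
    by_contra hcon
    push Not at hcon
    have : S = ∅ := Set.eq_empty_of_forall_notMem hcon
    rw [this, AddSubgroup.closure_empty] at hgen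
    have h1 : Nat.card (⊥ : AddSubgroup Γ) = Nat.card Γ := by
      rw [hgen]; exact AddSubgroup.card_top
    rw [AddSubgroup.card_bot] at h1
    omega
  obtain ⟨l, hl, hu, hv, -⟩ := gp_subgroup hneg (⊤ : AddSubgroup Γ)
    (by simpa using hgen) hg (AddSubgroup.mem_top _) (fun h => h0 (h ▸ hg))
  refine ⟨l, hl.chain, hl.nodup, fun x => (hl.mem x).2 (AddSubgroup.mem_top x), ?_⟩
  intro u hu' v hv'
  rw [hu] at hu'; rw [hv] at hv'
  simp only [Option.mem_def, Option.some.injEq] at hu' hv'
  subst hu'; subst hv'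
  unfold Rel
  rw [zero_sub]; exact hneg _ hg

theorem Param.card {V : Type*} [DecidableEq V] {G : SimpleGraph V} {E : Set (Sym2 V)} {n : ℕ}
    {g : ℕ → V} (h : Param G E n g) : n = Nat.card V := by
  have hb : Function.Bijective (fun i : Fin n => g i) := by
    constructor
    · intro i j hij
      exact Fin.ext (h.inj _ i.2 _ j.2 hij)
    · intro v
      obtain ⟨i, hi, hv⟩ := h.surj v
      exact ⟨⟨i, hi⟩, hv⟩
  have := Nat.card_eq_of_bijective _ hb
  rwa [Nat.card_eq_fintype_card, Fintype.card_fin] at this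

theorem trans_of_param {V : Type*} [DecidableEq V] {G : SimpleGraph V}
    (hadj : ∀ (n : ℕ) (g₁ g₂ : ℕ → V) (E₁ E₂ : Set (Sym2 V)), Param G E₁ n g₁ →
      Param G E₂ n g₂ → ∀ i j, G.Adj (g₁ i) (g₁ j) ↔ G.Adj (g₂ i) (g₂ j))
    (E₁ E₂ : Set (Sym2 V)) (h₁ : IsHamEdgeSet G E₁) (h₂ : IsHamEdgeSet G E₂) :
    ∃ φ : G ≃g G, Sym2.map φ '' E₁ = E₂ := by
  obtain ⟨n, g₁, p₁⟩ := param_of_ham h₁
  obtain ⟨n', g₂, p₂⟩ := param_of_ham h₂
  have hn : n' = n := by rw [p₁.card, p₂.card]
  subst hn
  have mk : ∀ (g : ℕ → V) (E : Set (Sym2 V)), Param G E n' g →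
      Function.Bijective (fun i : Fin n' => g i) := by
    intro g E h
    constructor
    · intro i j hij
      exact Fin.ext (h.inj _ i.2 _ j.2 hij)
    · intro v
      obtain ⟨i, hi, hv⟩ := h.surj v
      exact ⟨⟨i, hi⟩, hv⟩
  set e₁ : Fin n' ≃ V := Equiv.ofBijective _ (mk g₁ E₁ p₁) with he₁
  set e₂ : Fin n' ≃ V := Equiv.ofBijective _ (mk g₂ E₂ p₂) with he₂
  have hφ0 : ∀ i, (e₁.symm.trans e₂) (g₁ i) = g₂ i := by
    intro i
    have h3 := p₁.three
    have hi : i % n' < n' := Nat.mod_lt _ (by omega)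
    have h1 : g₁ i = e₁ ⟨i % n', hi⟩ := by
      show g₁ i = g₁ (i % n')
      exact (p₁.mod i).symm
    rw [h1, Equiv.trans_apply, Equiv.symm_apply_apply]
    show g₂ (i % n') = g₂ i
    exact p₂.mod i
  let φ : G ≃g G :=
    { toEquiv := e₁.symm.trans e₂
      map_rel_iff' := by
        intro x y
        obtain ⟨i, -, rfl⟩ := p₁.surj x
        obtain ⟨j, -, rfl⟩ := p₁.surj y
        rw [hφ0, hφ0]
        exact (hadj n' g₁ g₂ E₁ E₂ p₁ p₂ i j).symm }
  have hφ : ∀ i, φ (g₁ i) = g₂ i := hφ0
  refine ⟨φ, ?_⟩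
  ext e
  constructor
  · rintro ⟨e', he', rfl⟩
    rw [p₁.edges] at he'
    obtain ⟨i, hi, rfl⟩ := he'
    rw [p₂.edges]
    exact ⟨i, hi, by rw [Sym2.map_mk, hφ, hφ]⟩
  · intro he
    rw [p₂.edges] at he
    obtain ⟨i, hi, rfl⟩ := he
    refine ⟨s(g₁ i, g₁ (i + 1)), (p₁.edges _).2 ⟨i, hi, rfl⟩, ?_⟩
    rw [Sym2.map_mk, hφ, hφ]

theorem Concl.adj_iff {S : Set Γ} (hneg : ∀ s ∈ S, -s ∈ S) (h0 : (0 : Γ) ∉ S)
    {J : AddSubgroup Γ} (hJ : J.index = 2) (hS : ∀ x, x ∈ S ↔ x ∉ J) (x y : Γ) :
    (addCayley S).Adj x y ↔ ¬ (x ∈ J ↔ y ∈ J) := by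
  rw [cay_adj hneg h0, hS, sub_eq_add_neg, AddSubgroup.add_mem_iff_of_index_two hJ,
    AddSubgroup.neg_mem_iff]
  tauto

theorem transitive_of_concl [Finite Γ] [DecidableEq Γ] {S : Set Γ} (hneg : ∀ s ∈ S, -s ∈ S)
    (h0 : (0 : Γ) ∉ S) (hgen : AddSubgroup.closure S = ⊤) (hn : 3 ≤ Nat.card Γ)
    (h : Concl S) : HamTransitive (addCayley S) := by
  refine ⟨?_, ?_⟩
  · obtain ⟨l, hl⟩ := exists_HC hneg h0 hgen hn
    exact ⟨_, ham_of_param (param_of_HC hneg h0 hl (by rw [hl.length]; exact hn))⟩
  · apply trans_of_param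
    intro n g₁ g₂ E₁ E₂ p₁ p₂ i j
    rcases h with h | ⟨J, hJ, hS⟩
    · rw [cay_adj hneg h0, cay_adj hneg h0]
      have key : ∀ (g : ℕ → Γ) (E : Set (Sym2 Γ)), Param (addCayley S) E n g →
          (g j - g i ∈ S ↔ j % n ≠ i % n) := by
        intro g E p
        constructor
        · intro h1 h2
          rw [(p.eq_iff j i).2 h2, sub_self] at h1
          exact h0 h1
        · intro h1
          apply h
          intro h2
          exact h1 ((p.eq_iff j i).1 (sub_eq_zero.1 h2))
      rw [key g₁ E₁ p₁, key g₂ E₂ p₂]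
    · have key : ∀ (g : ℕ → Γ) (E : Set (Sym2 Γ)), Param (addCayley S) E n g →
          ((addCayley S).Adj (g i) (g j) ↔ ¬ (Even i ↔ Even j)) := by
        intro g E p
        have hpar : ∀ k, g k ∈ J ↔ (g 0 ∈ J ↔ Even k) := by
          intro k
          induction k with
          | zero => simp
          | succ k ih =>
            have h1 := (Concl.adj_iff hneg h0 hJ hS _ _).1 (p.adj k)
            rw [Nat.even_add_one]
            tauto
        rw [Concl.adj_iff hneg h0 hJ hS, hpar i, hpar j]
        tauto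
      rw [key g₁ E₁ p₁, key g₂ E₂ p₂]

theorem family_of_concl [Finite Γ] {S : Set Γ} (hneg : ∀ s ∈ S, -s ∈ S)
    (h0 : (0 : Γ) ∉ S) (hn : 4 ≤ Nat.card Γ) (h : Concl S) : InFamily (addCayley S) := by
  classical
  have := Fintype.ofFinite Γ
  rcases h with h | ⟨J, hJ, hS⟩
  · right; left
    refine ⟨Fintype.card Γ, by rw [← Nat.card_eq_fintype_card]; omega, ?_⟩
    have htop : addCayley S = completeGraph Γ := by
      ext x y
      rw [cay_adj hneg h0]
      show y - x ∈ S ↔ x ≠ y
      constructor
      · rintro h1 rfl; rw [sub_self] at h1; exact h0 h1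
      · intro h1; exact h _ (sub_ne_zero.2 h1.symm)
    rw [htop]
    exact ⟨Iso.completeGraph (Fintype.equivFin Γ)⟩
  · right; right; left
    have hc : Nat.card J * 2 = Nat.card Γ := by rw [← hJ]; exact J.card_mul_index
    have hc' : Nat.card {x : Γ // x ∉ J} = Nat.card J := by
      have h1 : Nat.card Γ = Nat.card ({x : Γ // x ∈ J} ⊕ {x : Γ // x ∉ J}) :=
        Nat.card_congr (Equiv.sumCompl (fun x => x ∈ J)).symm
      rw [Nat.card_sum] at h1
      have h2 : Nat.card {x : Γ // x ∈ J} = Nat.card J := rfl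
      omega
    refine ⟨Nat.card J, by omega, ?_⟩
    have e1 : {x : Γ // x ∈ J} ≃ Fin (Nat.card J) := Finite.equivFin _
    have e2 : {x : Γ // x ∉ J} ≃ Fin (Nat.card J) := (Finite.equivFin _).trans (finCongr hc')
    let e : Γ ≃ Fin (Nat.card J) ⊕ Fin (Nat.card J) :=
      (Equiv.sumCompl (fun x => x ∈ J)).symm.trans (Equiv.sumCongr e1 e2)
    have hleft : ∀ x (hx : x ∈ J), e x = Sum.inl (e1 ⟨x, hx⟩) := by
      intro x hx
      show (Equiv.sumCongr e1 e2) ((Equiv.sumCompl (fun x => x ∈ J)).symm x) = _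
      rw [Equiv.sumCompl_symm_apply_of_pos hx]; rfl
    have hright : ∀ x (hx : x ∉ J), e x = Sum.inr (e2 ⟨x, hx⟩) := by
      intro x hx
      show (Equiv.sumCongr e1 e2) ((Equiv.sumCompl (fun x => x ∈ J)).symm x) = _
      rw [Equiv.sumCompl_symm_apply_of_neg hx]; rfl
    refine ⟨{ toEquiv := e, map_rel_iff' := ?_ }⟩
    intro x y
    rw [Concl.adj_iff hneg h0 hJ hS]
    by_cases hx : x ∈ J <;> by_cases hy : y ∈ J
    · rw [hleft x hx, hleft y hy]; simp [hx, hy]
    · rw [hleft x hx, hright y hy]; simp [hx, hy]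
    · rw [hright x hx, hleft y hy]; simp [hx, hy]
    · rw [hright x hx, hright y hy]; simp [hx, hy]

theorem ncard_of_iso [Finite Γ] {S : Set Γ} (hneg : ∀ s ∈ S, -s ∈ S) (h0 : (0 : Γ) ∉ S)
    {W : Type*} {K : SimpleGraph W} (e : addCayley S ≃g K) :
    S.ncard = (K.neighborSet (e 0)).ncard := by
  have h1 : K.neighborSet (e 0) = e '' S := by
    ext y
    rw [mem_neighborSet]
    constructor
    · intro h
      refine ⟨e.symm y, ?_, by simp⟩
      have h2 : (addCayley S).Adj 0 (e.symm y) := by
        rw [← e.map_adj_iff]; simpa using h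
      rw [cay_adj hneg h0, sub_zero] at h2
      exact h2
    · rintro ⟨x, hx, rfl⟩
      rw [e.map_adj_iff, cay_adj hneg h0, sub_zero]
      exact hx
  rw [h1, Set.ncard_image_of_injective _ e.injective]

theorem ncard_cycle {n : ℕ} (hn : 3 ≤ n) (v : Fin n) :
    ((cycleGraph n).neighborSet v).ncard = 2 := by
  obtain ⟨m, rfl⟩ : ∃ m, n = m + 3 := ⟨n - 3, by omega⟩
  have h1 : (cycleGraph (m + 3)).degree v = 2 := cycleGraph_degree_three_le
  rw [← Nat.card_coe_set_eq, Nat.card_eq_fintype_card, card_neighborSet_eq_degree, h1]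

theorem ncard_prism {n : ℕ} (hn : 3 ≤ n) (v : Fin n × Fin 2) :
    ((cycleGraph n □ completeGraph (Fin 2)).neighborSet v).ncard = 3 := by
  classical
  obtain ⟨m, rfl⟩ : ∃ m, n = m + 3 := ⟨n - 3, by omega⟩
  have h1 : (cycleGraph (m + 3)).degree v.1 = 2 := cycleGraph_degree_three_le
  have h2 : (completeGraph (Fin 2)).degree v.2 = 1 := by simp
  rw [← Nat.card_coe_set_eq, Nat.card_eq_fintype_card, card_neighborSet_eq_degree,
    degree_boxProd, h1, h2]

theorem invol_card [Finite Γ] {z : Γ} (hz : -z = z) (h : AddSubgroup.closure {z} = ⊤) :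
    Nat.card Γ ≤ 2 := by
  have h1 : AddSubgroup.zmultiples z = ⊤ := by rw [AddSubgroup.zmultiples_eq_closure]; exact h
  have h2 : addOrderOf z ∣ 2 := by
    apply addOrderOf_dvd_of_nsmul_eq_zero
    rw [two_nsmul]
    nth_rw 1 [← hz]; simp
  have h3 := Nat.le_of_dvd (by norm_num) h2
  rw [← Nat.card_zmultiples, h1, AddSubgroup.card_top] at h3
  exact h3

theorem not_two [Finite Γ] {S : Set Γ} (hneg : ∀ s ∈ S, -s ∈ S) (hn : 4 ≤ Nat.card Γ)
    (hred : ∀ s ∈ S, AddSubgroup.closure (S \ {s, -s}) = ⊤) (h2 : S.ncard = 2) : False := by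
  obtain ⟨x, y, hxy, rfl⟩ := Set.ncard_eq_two.1 h2
  have hx := hred x (by simp)
  have hny := hneg y (by simp)
  simp only [Set.mem_insert_iff, Set.mem_singleton_iff] at hny
  rcases hny with hny | hny
  · have h3 : ({x, y} : Set Γ) \ {x, -x} = ∅ := by
      ext z
      simp only [Set.mem_sdiff, Set.mem_insert_iff, Set.mem_singleton_iff,
        Set.mem_empty_iff_false, iff_false, not_and, not_not]
      rintro (rfl | rfl)
      · left; rfl
      · right; rw [← hny, neg_neg]
    rw [h3, AddSubgroup.closure_empty] at hx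
    have h4 : Nat.card (⊥ : AddSubgroup Γ) = Nat.card Γ := by rw [hx]; exact AddSubgroup.card_top
    rw [AddSubgroup.card_bot] at h4
    omega
  · have h3 : AddSubgroup.closure {y} = ⊤ := by
      rw [eq_top_iff, ← hx]
      apply AddSubgroup.closure_mono
      intro z
      simp only [Set.mem_sdiff, Set.mem_insert_iff, Set.mem_singleton_iff, not_or, and_imp]
      rintro (rfl | rfl) h4 _
      · exact absurd rfl h4
      · rfl
    have := invol_card hny h3
    omega

theorem not_three [Finite Γ] {S : Set Γ} (hneg : ∀ s ∈ S, -s ∈ S) (hn : 5 ≤ Nat.card Γ)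
    (hred : ∀ s ∈ S, AddSubgroup.closure (S \ {s, -s}) = ⊤) (h3 : S.ncard = 3) : False := by
  obtain ⟨x, y, z, hxy, hxz, hyz, rfl⟩ := Set.ncard_eq_three.1 h3
  -- a pair `{a, -a}` with a third element `b`
  have key : ∀ a b : Γ, b ∈ ({x, y, z} : Set Γ) → a ∈ ({x, y, z} : Set Γ) → -b = b →
      (({x, y, z} : Set Γ) \ {a, -a} ⊆ {b}) → False := by
    intro a b hb ha hbb hsub
    have h4 : AddSubgroup.closure {b} = ⊤ := by
      rw [eq_top_iff, ← hred a ha]
      exact AddSubgroup.closure_mono hsub
    have := invol_card hbb h4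
    omega
  have hx := hneg x (by simp)
  have hy := hneg y (by simp)
  have hz := hneg z (by simp)
  simp only [Set.mem_insert_iff, Set.mem_singleton_iff] at hx hy hz
  rcases hx with hx | hx | hx
  · -- `-x = x`
    rcases hy with hy | hy | hy
    · exact hxy (by rw [← hx, ← hy]; simp)
    · rcases hz with hz | hz | hz
      · exact hxz (by rw [← hx, ← hz]; simp)
      · exact hyz (by rw [← hy, ← hz]; simp)
      · -- all involutions
        have h4 : AddSubgroup.closure {y, z} = ⊤ := by
          rw [eq_top_iff, ← hred x (by simp)]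
          apply AddSubgroup.closure_mono
          intro w
          simp only [Set.mem_sdiff, Set.mem_insert_iff, Set.mem_singleton_iff, not_or, and_imp]
          rintro (rfl | rfl | rfl) h5 _
          · exact absurd rfl h5
          · left; rfl
          · right; rfl
        have hyy : y + y = 0 := by nth_rw 1 [← hy]; simp
        have hzz : z + z = 0 := by nth_rw 1 [← hz]; simp
        have hsub : (Set.univ : Set Γ) ⊆ ({0, y, z, y + z} : Set Γ) := by
          intro w _
          have hw : w ∈ AddSubgroup.closure {y, z} := by rw [h4]; trivial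
          rw [AddSubgroup.mem_closure_pair] at hw
          obtain ⟨m, n, rfl⟩ := hw
          simp only [Set.mem_insert_iff, Set.mem_singleton_iff]
          rcases zsmul_invol hyy m with h | h <;> rcases zsmul_invol hzz n with h' | h' <;>
            rw [h, h'] <;> simp
        have h5 := Set.ncard_le_ncard hsub (Set.toFinite _)
        have h6 : ({0, y, z, y + z} : Set Γ).ncard ≤ 4 := by
          refine (Set.ncard_insert_le _ _).trans ?_
          have := Set.ncard_insert_le y ({z, y + z} : Set Γ)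
          have := Set.ncard_insert_le z ({y + z} : Set Γ)
          rw [Set.ncard_singleton] at this
          omega
        rw [Set.ncard_univ] at h5
        omega
    · -- `-y = z`
      apply key y x (by simp) (by simp) hx
      intro w
      simp only [Set.mem_sdiff, Set.mem_insert_iff, Set.mem_singleton_iff, not_or, and_imp, hy]
      rintro (rfl | rfl | rfl) h5 h6
      · rfl
      · exact absurd rfl h5
      · exact absurd rfl h6
  · -- `-x = y`
    have hzz : -z = z := by
      rcases hz with hz | hz | hz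
      · exact absurd (by rw [← hx, ← hz, neg_neg]) hyz
      · exact absurd (by rw [← neg_neg z, hz, ← hx, neg_neg]) hxz
      · exact hz
    apply key x z (by simp) (by simp) hzz
    intro w
    simp only [Set.mem_sdiff, Set.mem_insert_iff, Set.mem_singleton_iff, not_or, and_imp, hx]
    rintro (rfl | rfl | rfl) h5 h6
    · exact absurd rfl h5
    · exact absurd rfl h6
    · rfl
  · -- `-x = z`
    have hyy : -y = y := by
      rcases hy with hy | hy | hy
      · exact absurd (by rw [← neg_neg y, hy, hx]) hyz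
      · exact hy
      · exact absurd (by rw [← neg_neg x, hx, ← hy, neg_neg]) hxy
    apply key x y (by simp) (by simp) hyy
    intro w
    simp only [Set.mem_sdiff, Set.mem_insert_iff, Set.mem_singleton_iff, not_or, and_imp, hx]
    rintro (rfl | rfl | rfl) h5 h6
    · exact absurd rfl h5
    · rfl
    · exact absurd rfl h6

theorem concl_of_family [Finite Γ] {S : Set Γ} (hneg : ∀ s ∈ S, -s ∈ S)
    (h0 : (0 : Γ) ∉ S) (hn : 4 ≤ Nat.card Γ)
    (hred : ∀ s ∈ S, AddSubgroup.closure (S \ {s, -s}) = ⊤)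
    (h : InFamily (addCayley S)) : Concl S := by
  rcases h with ⟨n, hn3, ⟨e⟩⟩ | ⟨n, -, ⟨e⟩⟩ | ⟨n, -, ⟨e⟩⟩ | he4 | ⟨k, hk, -, ⟨e⟩⟩
  · exfalso
    apply not_two hneg hn hred
    rw [ncard_of_iso hneg h0 e, ncard_cycle hn3]
  · left
    intro x hx
    have h1 : (addCayley S).Adj 0 x := by
      rw [← e.map_adj_iff]
      show e 0 ≠ e x
      intro h; exact hx (e.injective h).symm
    rw [cay_adj hneg h0, sub_zero] at h1
    exact h1
  · right
    -- sides of the bipartition
    have hadj : ∀ x y, y - x ∈ S ↔ ¬ ((e x).isLeft = (e y).isLeft) := by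
      intro x y
      rw [← cay_adj hneg h0, ← e.map_adj_iff, completeBipartiteGraph_adj]
      rcases e x with u | u <;> rcases e y with v | v <;> simp
    let J : AddSubgroup Γ :=
      { carrier := {x | x ∉ S}
        zero_mem' := h0
        add_mem' := by
          intro x y hx hy
          have hx' : x ∉ S := hx
          have hy' : y ∉ S := hy
          show x + y ∉ S
          have h1 := (hadj 0 x).not
          have h2 := (hadj x (x + y)).not
          have h3 := (hadj 0 (x + y)).not
          rw [sub_zero] at h1 h3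
          rw [add_sub_cancel_left] at h2
          rw [h3]
          rw [not_not]
          have h4 := h1.1 hx'
          have h5 := h2.1 hy'
          rw [not_not] at h4 h5
          rw [h4, h5]
        neg_mem' := by
          intro x hx hx'
          exact hx (by simpa using hneg _ hx') }
    have hJ : ∀ x, x ∈ J ↔ x ∉ S := fun x => Iff.rfl
    refine ⟨J, ?_, ?_⟩
    · -- `S` is nonempty
      obtain ⟨a, ha⟩ : ∃ a, a ∈ S := by
        by_contra hcon
        push Not at hcon
        have hpos : 0 < Nat.card Γ := by omega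
        -- all vertices on one side
        have hall : ∀ x y : Γ, (e x).isLeft = (e y).isLeft := by
          intro x y
          by_contra h1
          exact hcon _ ((hadj x y).2 h1)
        -- but the other side has vertices
        rcases Nat.eq_zero_or_pos n with hn0 | hn0
        · subst hn0
          have : IsEmpty Γ := by
            refine ⟨fun x => ?_⟩
            rcases e x with u | u <;> exact u.elim0
          simp at hpos
        · have h1 := hall (e.symm (Sum.inl ⟨0, hn0⟩)) (e.symm (Sum.inr ⟨0, hn0⟩))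
          simp at h1
      rw [AddSubgroup.index_eq_two_iff]
      refine ⟨a, fun b => ?_⟩
      rw [hJ, hJ]
      have h1 := hadj 0 b
      have h2 := hadj b (b + a)
      have h3 := hadj 0 (b + a)
      rw [sub_zero] at h1 h3
      rw [add_sub_cancel_left] at h2
      have h4 := h2.1 ha
      by_cases hb : b ∈ S
      · left
        refine ⟨?_, fun h => h hb⟩
        rw [h3, not_not]
        have h5 := h1.1 hb
        revert h4 h5
        generalize (e 0).isLeft = p
        generalize (e b).isLeft = q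
        generalize (e (b + a)).isLeft = r
        revert p q r; decide
      · right
        refine ⟨hb, ?_⟩
        rw [not_not, h3]
        have h5 := mt h1.2 hb
        rw [not_not] at h5
        rw [h5]; exact h4
    · intro x
      rw [hJ, not_not]
  · exfalso
    obtain ⟨e⟩ := he4
    have h3 : S.ncard = 3 := by rw [ncard_of_iso hneg h0 e, ncard_prism (by norm_num)]
    have hc : Nat.card Γ = 8 := by
      rw [Nat.card_congr e.toEquiv, Nat.card_prod]; simp
    exact not_three hneg (by omega) hred h3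
  · exfalso
    have h3 : S.ncard = 3 := by rw [ncard_of_iso hneg h0 e, ncard_prism hk]
    have hc : Nat.card Γ = k * 2 := by
      rw [Nat.card_congr e.toEquiv, Nat.card_prod]; simp
    exact not_three hneg (by omega) hred h3

/-- **Main theorem**, even order with every class of generators redundant. -/
theorem main_graph [Finite Γ] [DecidableEq Γ] {S : Set Γ} (heven : Even (Nat.card Γ))
    (hn : 4 ≤ Nat.card Γ) (hneg : ∀ s ∈ S, -s ∈ S) (h0 : (0 : Γ) ∉ S)
    (hgen : AddSubgroup.closure S = ⊤)
    (hred : ∀ s ∈ S, AddSubgroup.closure (S \ {s, -s}) = ⊤) :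
    HamTransitive (addCayley S) ↔ InFamily (addCayley S) := by
  constructor
  · intro h
    apply family_of_concl hneg h0 hn
    exact main_group ⟨hneg, h0, hgen, N3const_of_transitive hneg h0 (by omega) h⟩ heven hn hred
  · intro h
    exact transitive_of_concl hneg h0 hgen (by omega) (concl_of_family hneg h0 hn hred h)

end Pool.Agent.HamTrans
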