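import Pool.Agent.HamTrans.Prism

set_option linter.unusedSectionVars false

namespace Pool.Agent.HamTrans

open List

variable {Γ : Type*} [AddCommGroup Γ]

/-- a detour through the rows `3, 4, …, r - 1` -/
theorem detour [Finite Γ] {S : Set Γ} (hG : Good S) {a t : Γ} (ha : a ∈ S) (ht : t ∈ S)
    (hr : 3 ≤ addOrderOf (t : Γ ⧸ AddSubgroup.zmultiples a)) :
    ∃ D : List Γ, (2 • t :: (D ++ [2 • t - a])).IsChain (Rel S) ∧ D.Nodup ∧
      ∀ y, y ∈ D ↔ ∃ j, 3 ≤ j ∧ j < addOrderOf (t : Γ ⧸ AddSubgroup.zmultiples a) ∧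
        y - j • t ∈ AddSubgroup.zmultiples a := by
  set r := addOrderOf (t : Γ ⧸ AddSubgroup.zmultiples a) with hrdef
  by_cases hr3 : r = 3
  · refine ⟨[], ?_, by simp, ?_⟩
    · simp only [List.nil_append, List.isChain_cons_cons, List.isChain_singleton, and_true]
      unfold Rel
      have : 2 • t - a - 2 • t = -a := by abel
      rw [this]; exact hG.neg a ha
    · intro y
      simp only [List.not_mem_nil, false_iff]
      rintro ⟨j, h1, h2, -⟩
      omega
  · obtain ⟨q, hq⟩ : ∃ q, r = q + 4 := ⟨r - 4, by omega⟩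
    have hB : GP S ((AddSubgroup.zmultiples a : AddSubgroup Γ) : Set Γ) 0 (-a) (-a) := by
      have h1 := gp_zmultiples hG.neg (hG.neg a ha) (neg_ne_zero.2 (hG.ne_zero ha))
      rwa [AddSubgroup.zmultiples_neg] at h1
    have hrun : run (3 • t) t (q + 1) = 3 • t :: run (3 • t + t) t q := run_succ _ _ _
    have hpw : (3 • t :: run (3 • t + t) t q).Pairwise
        (fun x y => y - x ∉ AddSubgroup.zmultiples a) := by
      rw [← hrun, run, List.pairwise_map]
      refine (List.pairwise_lt_range (n := q + 1)).imp_of_mem ?_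
      intro i j hi hj hij hmem
      simp only [List.mem_range] at hi hj
      have h2 : 3 • t + j • t - (3 • t + i • t) = (j - i) • t := by
        have : j • t = (j - i) • t + i • t := by
          rw [← add_nsmul]; congr 1; omega
        rw [this]; abel
      rw [h2] at hmem
      exact not_mem_of_lt _ t (by omega) (by omega) hmem
    obtain ⟨D, hD, hDh, hDl, -⟩ := stack hG.neg _ hB (3 • t) (run (3 • t + t) t q)
      (by rw [← hrun]; exact run_chain ht _ _) hpw
    refine ⟨D, ?_, hD.nodup, ?_⟩
    · rw [List.isChain_cons, List.isChain_append]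
      have hne : D ≠ [] := by intro h; rw [h] at hDh; simp at hDh
      refine ⟨?_, hD.chain, by simp, ?_⟩
      · intro y hy
        rw [List.head?_append, hDh] at hy
        simp only [Option.some_or, Option.mem_def, Option.some.injEq] at hy
        subst hy
        unfold Rel
        have : 3 • t - 2 • t = t := by
          rw [show (3 : ℕ) = 2 + 1 by rfl, succ_nsmul t 2]; abel
        rw [this]; exact ht
      · intro u hu v hv
        rw [hDl] at hu
        simp only [List.head?_cons, Option.mem_def, Option.some.injEq] at hu hv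
        subst hu; subst hv
        unfold Rel
        have : 2 • t - a - (3 • t + -a) = -t := by
          rw [show (3 : ℕ) = 2 + 1 by rfl, succ_nsmul t 2]; abel
        rw [this]; exact hG.neg t ht
    · intro y
      rw [hD.mem, ← hrun]
      simp only [Set.mem_ofPred_eq]
      constructor
      · rintro ⟨w, hw, hyw⟩
        rw [mem_run] at hw
        obtain ⟨i, hi, rfl⟩ := hw
        refine ⟨i + 3, by omega, by omega, ?_⟩
        have : y - (i + 3) • t = y - (3 • t + i • t) := by rw [add_nsmul]; abel
        rw [this]; exact hyw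
      · rintro ⟨j, h1, h2, h3⟩
        refine ⟨j • t, ?_, h3⟩
        rw [mem_run]
        refine ⟨j - 3, by omega, ?_⟩
        rw [← add_nsmul]; congr 1; omega

/-- **Formula F**. -/
theorem formulaF [Finite Γ] {S : Set Γ} (hG : Good S) {a t : Γ} (ha : a ∈ S) (ht : t ∈ S)
    (hgenat : AddSubgroup.zmultiples a ⊔ AddSubgroup.zmultiples t = ⊤) {k : ℕ}
    (hk : addOrderOf a = 2 * (k + 3))
    (hr : 3 ≤ addOrderOf (t : Γ ⧸ AddSubgroup.zmultiples a)) (h3 : 3 • a ∉ S) :
    2 * (k + 3) + (k + 3) * (ind S (t + 2 • a) + ind S (t - 2 • a))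
      + 2 * (ind S (a + 2 • t) + ind S (a - 2 • t))
    = 5 + 4 * (ind S (t + 2 • a) + ind S (t - 2 • a)) := by
  set H := AddSubgroup.zmultiples a with hH
  set r := addOrderOf (t : Γ ⧸ H) with hrdef
  set m := addOrderOf a with hm
  have hma : m • a = 0 := addOrderOf_nsmul_eq_zero a
  have hma' : (2 * (k + 3)) • a = 0 := by rw [← hk]; exact hma
  have haH : a ∈ H := AddSubgroup.mem_zmultiples a
  have htH : t ∉ H := by
    have := not_mem_of_lt H t (i := 1) (by omega) (by omega)
    rwa [one_smul] at this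
  have h2tH : 2 • t ∉ H := not_mem_of_lt H t (by omega) (by omega)
  obtain ⟨D, hDc, hDn, hDm⟩ := detour hG ha ht hr
  -- the detour list
  set M : List Γ := (2 • t + 2 • a) :: (2 • t + a) :: 2 • t ::
    (D ++ run (2 • t - a) (-a) (2 * k + 3)) with hM
  set E := run (2 • t - a) (-a) (2 * k + 3) with hE
  have hElast : 2 • t + 3 • a = 2 • t - a + (2 * k + 2) • -a := by
    have h1 : (2 * k + 2) • a + 4 • a = 0 := by
      rw [← add_nsmul, ← hma']; congr 1
    have h2 : (2 * k + 2) • a = -(4 • a) := eq_neg_of_add_eq_zero_left h1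
    rw [smul_neg, h2, show (4 : ℕ) = 3 + 1 by rfl, succ_nsmul a 3]; abel
  have hE2 : E = run (2 • t - a) (-a) (2 * k) ++ [2 • t + 5 • a, 2 • t + 4 • a, 2 • t + 3 • a] := by
    rw [hE, run_split_last hElast]
    have e1 : 2 • t + 3 • a - 2 • -a = 2 • t + 5 • a := by
      rw [smul_neg, show (5 : ℕ) = 3 + 2 by rfl, add_nsmul a 3 2]; abel
    have e2 : 2 • t + 3 • a - -a = 2 • t + 4 • a := by
      rw [show (4 : ℕ) = 3 + 1 by rfl, succ_nsmul a 3]; abel
    rw [e1, e2]
  have hMlast : M = ((2 • t + 2 • a) :: (2 • t + a) :: 2 • t :: (D ++ run (2 • t - a) (-a) (2 * k)))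
      ++ [2 • t + 5 • a, 2 • t + 4 • a, 2 • t + 3 • a] := by
    rw [hM, hE2]; simp
  -- chain of `M`
  have hMc : M.IsChain (Rel S) := by
    rw [hM]
    simp only [List.isChain_cons_cons]
    refine ⟨?_, ?_, ?_⟩
    · unfold Rel
      have : 2 • t + a - (2 • t + 2 • a) = -a := by rw [two_nsmul a]; abel
      rw [this]; exact hG.neg a ha
    · unfold Rel
      have : 2 • t - (2 • t + a) = -a := by abel
      rw [this]; exact hG.neg a ha
    · have hEc : E = (2 • t - a) :: run (2 • t - a + -a) (-a) (2 * k + 2) := by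
        rw [hE, show 2 * k + 3 = (2 * k + 2) + 1 by ring, run_succ]
      have e : 2 • t :: (D ++ E) = (2 • t :: D) ++ (2 • t - a) ::
          run (2 • t - a + -a) (-a) (2 * k + 2) := by rw [hEc]; simp
      rw [e, List.isChain_split]
      refine ⟨by simpa using hDc, ?_⟩
      rw [← hEc, hE]; exact run_chain (hG.neg a ha) _ _
  have hrow2 : (2 • t + 2 • a) :: (2 • t + a) :: 2 • t :: E = run (2 • t + 2 • a) (-a) m := by
    rw [hk, show 2 * (k + 3) = (2 * k + 3) + 3 by ring, run_split_first, hE]
    have e1 : 2 • t + 2 • a + -a = 2 • t + a := by rw [two_nsmul a]; abel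
    have e2 : 2 • t + 2 • a + 2 • -a = 2 • t := by rw [smul_neg]; abel
    have e3 : 2 • t + 2 • a + 3 • -a = 2 • t - a := by
      rw [smul_neg, show (3 : ℕ) = 2 + 1 by rfl, succ_nsmul a 2]; abel
    rw [e1, e2, e3]
  have hMperm : M ~ D ++ run (2 • t + 2 • a) (-a) m := by
    rw [← hrow2, hM]
    exact (List.perm_append_comm_assoc [2 • t + 2 • a, 2 • t + a, 2 • t] D E)
  have hrow2m : ∀ y, y ∈ run (2 • t + 2 • a) (-a) m ↔ y - 2 • t ∈ H := by
    intro y
    rw [hm, ← addOrderOf_neg a, mem_run_full, AddSubgroup.zmultiples_neg, ← hH]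
    constructor
    · intro h
      have := H.add_mem h (H.nsmul_mem haH 2)
      have e : y - (2 • t + 2 • a) + 2 • a = y - 2 • t := by abel
      rwa [e] at this
    · intro h
      have := H.sub_mem h (H.nsmul_mem haH 2)
      have e : y - 2 • t - 2 • a = y - (2 • t + 2 • a) := by abel
      rwa [e] at this
  have hMm : ∀ y, y ∈ M ↔ (y ∉ H ∧ y - t ∉ H) := by
    intro y
    rw [hMperm.mem_iff, List.mem_append, hDm, hrow2m]
    have hy : y ∈ H ⊔ AddSubgroup.zmultiples t := by rw [hgenat]; trivial
    rw [mem_sup_zmultiples] at hy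
    obtain ⟨i, hi, hyi⟩ := hy
    have huniq : ∀ i' j' : ℕ, i' < j' → j' < r → y - i' • t ∈ H → y - j' • t ∈ H → False := by
      intro i' j' hlt hjr h1 h2
      apply not_mem_of_lt H t (i := j' - i') (by omega) (by omega)
      have := H.sub_mem h1 h2
      have e : y - i' • t - (y - j' • t) = (j' - i') • t := by
        have : j' • t = (j' - i') • t + i' • t := by rw [← add_nsmul]; congr 1; omega
        rw [this]; abel
      rwa [e] at this
    constructor
    · rintro (⟨j, h1, h2, h3⟩ | h)
      · constructor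
        · intro h
          exact huniq 0 j (by omega) h2 (by simpa using h) h3
        · intro h
          exact huniq 1 j (by omega) h2 (by simpa using h) h3
      · constructor
        · intro h'
          exact huniq 0 2 (by omega) (by omega) (by simpa using h') h
        · intro h'
          exact huniq 1 2 (by omega) (by omega) (by simpa using h') h
    · rintro ⟨h1, h2⟩
      have hi0 : i ≠ 0 := by rintro rfl; apply h1; simpa using hyi
      have hi1 : i ≠ 1 := by rintro rfl; apply h2; simpa using hyi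
      by_cases hi2 : i = 2
      · right; subst hi2; exact hyi
      · left; exact ⟨i, by omega, hi, hyi⟩
  have hMn : M.Nodup := by
    rw [hMperm.nodup_iff, List.nodup_append]
    refine ⟨hDn, run_nodup _ _ (by rw [addOrderOf_neg]), ?_⟩
    intro x hx y hy hxy
    subst hxy
    obtain ⟨j, h1, h2, h3⟩ := (hDm x).1 hx
    have h4 := (hrow2m x).1 hy
    apply not_mem_of_lt H t (i := j - 2) (by omega) (by omega)
    have := H.sub_mem h4 h3
    have e : x - 2 • t - (x - j • t) = (j - 2) • t := by
      have : j • t = (j - 2) • t + 2 • t := by rw [← add_nsmul]; congr 1; omega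
      rw [this]; abel
    rwa [e] at this
  -- assembling the cycles
  have hrowm : ∀ x y, y ∈ run x a m ↔ y - x ∈ H := fun x y => mem_run_full
  have hasm : ∀ (l : List Γ) (x : Γ), x ∈ H → l ~ M ++ (run x a m ++ run (x + t) a m) →
      l.Nodup ∧ ∀ y, y ∈ l := by
    intro l x hx hl
    constructor
    · rw [hl.nodup_iff]
      refine nodup2 hMn (nodup2 (run_nodup _ _ le_rfl) (run_nodup _ _ le_rfl) ?_) ?_
      · intro y hy hy'
        rw [hrowm] at hy hy'
        apply htH
        have := H.sub_mem hy hy'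
        have e : y - x - (y - (x + t)) = t := by abel
        rwa [e] at this
      · intro y hy hy'
        obtain ⟨h1, h2⟩ := (hMm y).1 hy
        rcases List.mem_append.1 hy' with h | h
        · rw [hrowm] at h
          apply h1
          have := H.add_mem h hx
          simpa using this
        · rw [hrowm] at h
          apply h2
          have := H.add_mem h hx
          have e : y - (x + t) + x = y - t := by abel
          rwa [e] at this
    · intro y
      rw [hl.mem_iff, List.mem_append, List.mem_append, hMm, hrowm, hrowm]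
      by_cases h1 : y ∈ H
      · right; left; exact H.sub_mem h1 hx
      · by_cases h2 : y - t ∈ H
        · right; right
          have := H.sub_mem h2 hx
          have e : y - t - x = y - (x + t) := by abel
          rwa [e] at this
        · left; exact ⟨h1, h2⟩
  have hMhead : ∀ R : List Γ, ∃ tl, M ++ R = (2 • t + 2 • a) :: tl ∧
      (M ++ R) ++ [2 • t + 2 • a] = (2 • t + 2 • a) :: (tl ++ [2 • t + 2 • a]) := by
    intro R
    refine ⟨(2 • t + a) :: 2 • t :: (D ++ E) ++ R, ?_, ?_⟩
    · rw [hM]; simp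
    · rw [hM]; simp
  have hmkHC : ∀ (R : List Γ) (x : Γ), x ∈ H → R ~ run x a m ++ run (x + t) a m →
      (M ++ R ++ [2 • t + 2 • a]).IsChain (Rel S) → HC S (M ++ R) := by
    intro R x hx hp hc
    obtain ⟨h1, h2⟩ := hasm (M ++ R) x hx (hp.append_left _)
    obtain ⟨tl, h3, h4⟩ := hMhead R
    rw [h4] at hc
    have hcw := CW_of_chain hc
    rw [← h3] at hcw
    exact ⟨hcw.chain, h1, h2, hcw.closed⟩
  have hMlast' : M.getLast? = some (2 • t + 3 • a) := by
    rw [hMlast, List.getLast?_append]; simp
  -- first cycle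
  set U := run (t + 3 • a) a (2 * k + 3) with hU
  set V := run (-a) (-a) m with hV
  set W := run t a 3 with hW
  have hUlast : t - a = t + 3 • a + (2 * k + 2) • a := by
    have h1 : (2 * k + 2) • a + 4 • a = 0 := by
      rw [← add_nsmul, ← hma']; congr 1
    have h2 : (2 * k + 2) • a = -(4 • a) := eq_neg_of_add_eq_zero_left h1
    rw [h2, show (4 : ℕ) = 3 + 1 by rfl, succ_nsmul a 3]; abel
  have hVlast : (0 : Γ) = -a + (2 * k + 3 + 2) • -a := by
    have h1 : (2 * k + 3 + 2) • a + a = 0 := by
      rw [← succ_nsmul, ← hma']; congr 1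
    have h2 : (2 * k + 3 + 2) • a = -a := eq_neg_of_add_eq_zero_left h1
    rw [smul_neg, h2]; abel
  have hU1 : U = (t + 3 • a) :: (t + 3 • a + a) :: (t + 3 • a + 2 • a) ::
      run (t + 3 • a + 3 • a) a (2 * k) := by
    rw [hU, run_split_first]
  have hU2 : U = run (t + 3 • a) a (2 * k) ++ [t - a - 2 • a, t - a - a, t - a] := by
    rw [hU, run_split_last hUlast]
  have hV1 : V = -a :: (-a + -a) :: (-a + 2 • -a) :: run (-a + 3 • -a) (-a) (2 * k + 3) := by
    rw [hV, hk, show 2 * (k + 3) = (2 * k + 3) + 3 by ring, run_split_first]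
  have hV2 : V = run (-a) (-a) (2 * k + 3) ++ [0 - 2 • -a, 0 - -a, 0] := by
    rw [hV, hk, show 2 * (k + 3) = (2 * k + 3) + 3 by ring, run_split_last hVlast]
  have hW1 : W = [t, t + a, t + a + a] := by rw [hW, run_three]
  have hR1perm : U ++ (V ++ W) ~ run 0 a m ++ run (0 + t) a m := by
    have h1 : V = (run 0 a m).reverse := by
      rw [hV, hk, show 2 * (k + 3) = (2 * k + 5) + 1 by ring, run_reverse]
      congr 1
      have := order_smul_last a
      rw [← hm, hk] at this
      have h2 : (2 * k + 5) • a = -a := this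
      rw [h2, zero_add]
    have h2 : run (0 + t) a m = W ++ U := by
      rw [hk, show 2 * (k + 3) = 3 + (2 * k + 3) by ring, run_append, zero_add]
    rw [h1, h2]
    have p1 : U ++ ((run 0 a m).reverse ++ W) ~ (run 0 a m).reverse ++ (U ++ W) :=
      List.perm_append_comm_assoc _ _ _
    refine p1.trans ?_
    exact (List.reverse_perm _).append List.perm_append_comm
  have hC1 : HC S (M ++ (U ++ (V ++ W))) := by
    apply hmkHC _ 0 H.zero_mem hR1perm
    rw [List.append_assoc, List.isChain_append]
    refine ⟨hMc, ?_, ?_⟩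
    · rw [List.append_assoc, List.isChain_append]
      refine ⟨run_chain ha _ _, ?_, ?_⟩
      · rw [List.append_assoc, List.isChain_append]
        refine ⟨run_chain (hG.neg a ha) _ _, ?_, ?_⟩
        · rw [hW1]
          simp only [List.cons_append, List.nil_append, List.isChain_cons_cons,
            List.isChain_singleton, and_true]
          refine ⟨?_, ?_, ?_⟩
          · unfold Rel; simpa using ha
          · unfold Rel; simpa using ha
          · unfold Rel
            have : 2 • t + 2 • a - (t + a + a) = t := by rw [two_nsmul, two_nsmul]; abel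
            rw [this]; exact ht
        · intro u hu v hv
          rw [hV2, List.getLast?_append] at hu
          rw [hW1] at hv
          simp only [List.getLast?_cons_cons, List.getLast?_singleton, Option.some_or,
            List.cons_append, List.head?_cons, Option.mem_def, Option.some.injEq] at hu hv
          subst hu; subst hv
          unfold Rel; rw [sub_zero]; exact ht
      · intro u hu v hv
        rw [hU2, List.getLast?_append] at hu
        rw [hV1] at hv
        simp only [List.getLast?_cons_cons, List.getLast?_singleton, Option.some_or,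
            List.cons_append, List.head?_cons, Option.mem_def, Option.some.injEq] at hu hv
        subst hu; subst hv
        unfold Rel
        have : -a - (t - a) = -t := by abel
        rw [this]; exact hG.neg t ht
    · intro u hu v hv
      rw [hMlast'] at hu
      rw [hU1] at hv
      simp only [List.cons_append, List.head?_cons, Option.mem_def, Option.some.injEq] at hu hv
      subst hu; subst hv
      unfold Rel
      have : t + 3 • a - (2 • t + 3 • a) = -t := by rw [two_nsmul]; abel
      rw [this]; exact hG.neg t ht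
  -- second cycle
  set Z := zig a t (k + 2) (2 • a + 2 • a) with hZ
  have hR2perm : (2 • a + t + a) :: (2 • a + a) :: (Z ++ [2 • a, 2 • a + t]) ~
      run (2 • a) a m ++ run (2 • a + t) a m := by
    have h1 := zig_perm a t (k + 3) (2 • a)
    rw [hk]
    refine List.Perm.trans ?_ h1
    have e1 : zig a t (k + 3) (2 • a) = [2 • a, 2 • a + t] ++
        ((2 • a + t + a) :: (2 • a + a) :: Z) := rfl
    rw [e1]
    have e2 : (2 • a + t + a) :: (2 • a + a) :: (Z ++ [2 • a, 2 • a + t])
        = ((2 • a + t + a) :: (2 • a + a) :: Z) ++ [2 • a, 2 • a + t] := by simp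
    rw [e2]
    exact List.perm_append_comm
  have hzend : 2 • a + 2 • a + (2 * (k + 2)) • a = 2 • a := by
    have h1 : (2 * (k + 2)) • a + 2 • a = 0 := by
      rw [← add_nsmul, ← hma']; congr 1
    have h2 : (2 * (k + 2)) • a = -(2 • a) := eq_neg_of_add_eq_zero_left h1
    rw [h2]; abel
  have hZh : Z = (2 • a + 2 • a) :: (2 • a + 2 • a + t) :: (2 • a + 2 • a + t + a) ::
      (2 • a + 2 • a + a) :: zig a t (k + 1) (2 • a + 2 • a + 2 • a) := rfl
  have hC2 : HC S (M ++ ((2 • a + t + a) :: (2 • a + a) :: (Z ++ [2 • a, 2 • a + t]))) := by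
    apply hmkHC _ (2 • a) (H.nsmul_mem haH 2) hR2perm
    rw [List.append_assoc, List.isChain_append]
    refine ⟨hMc, ?_, ?_⟩
    · have hz := zig_chain hG.neg ha ht (k + 2) (2 • a + 2 • a)
        [2 • a + t, 2 • t + 2 • a] (by
        rw [hzend]
        simp only [List.isChain_cons_cons, List.isChain_singleton, and_true]
        refine ⟨?_, ?_⟩
        · unfold Rel; simpa using ht
        · unfold Rel
          have : 2 • t + 2 • a - (2 • a + t) = t := by rw [two_nsmul t]; abel
          rw [this]; exact ht)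
      rw [hzend, ← hZ] at hz
      have e : (2 • a + t + a) :: (2 • a + a) :: (Z ++ [2 • a, 2 • a + t]) ++ [2 • t + 2 • a]
          = (2 • a + t + a) :: (2 • a + a) :: (Z ++ [2 • a, 2 • a + t, 2 • t + 2 • a]) := by simp
      rw [e]
      rw [List.isChain_cons_cons, List.isChain_cons]
      refine ⟨?_, ?_, hz⟩
      · unfold Rel
        have : 2 • a + a - (2 • a + t + a) = -t := by abel
        rw [this]; exact hG.neg t ht
      · intro y hy
        rw [hZh] at hy
        simp only [List.cons_append, List.head?_cons, Option.mem_def, Option.some.injEq] at hy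
        subst hy
        unfold Rel
        have : 2 • a + 2 • a - (2 • a + a) = a := by rw [two_nsmul]; abel
        rw [this]; exact ha
    · intro u hu v hv
      rw [hMlast'] at hu
      simp only [List.cons_append, List.head?_cons, Option.mem_def, Option.some.injEq] at hu hv
      subst hu; subst hv
      unfold Rel
      have : 2 • a + t + a - (2 • t + 3 • a) = -t := by
        rw [show (3 : ℕ) = 2 + 1 by rfl, succ_nsmul a 2, two_nsmul t]; abel
      rw [this]; exact hG.neg t ht
  have hconst := hG.const _ _ hC1 hC2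
  have hM1 : M = (2 • t + 2 • a) :: (2 • t + a) :: 2 • t :: (D ++ E) := hM
  rw [cyc3_prefix S hM1 hMlast, cyc3_prefix S hM1 hMlast] at hconst
  have L1 : lin3 S ((2 • t + 5 • a) :: (2 • t + 4 • a) :: (2 • t + 3 • a) ::
      ((U ++ (V ++ W)) ++ [2 • t + 2 • a, 2 • t + a, 2 • t]))
      = 4 + 4 * (ind S (t + 2 • a) + ind S (t - 2 • a)) := by
    have e0 : (2 • t + 5 • a) :: (2 • t + 4 • a) :: (2 • t + 3 • a) ::
        ((U ++ (V ++ W)) ++ [2 • t + 2 • a, 2 • t + a, 2 • t])
        = [2 • t + 5 • a, 2 • t + 4 • a, 2 • t + 3 • a] ++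
          (U ++ (V ++ (W ++ [2 • t + 2 • a, 2 • t + a, 2 • t]))) := by simp
    have f1 := lin3_append3 S (Q := [2 • t + 5 • a, 2 • t + 4 • a, 2 • t + 3 • a])
      (R := U ++ (V ++ (W ++ [2 • t + 2 • a, 2 • t + a, 2 • t]))) (Q'' := [])
      (a := 2 • t + 5 • a) (b := 2 • t + 4 • a) (c := 2 • t + 3 • a)
      (r0 := t + 3 • a) (r1 := t + 3 • a + a) (r2 := t + 3 • a + 2 • a)
      (R' := run (t + 3 • a + 3 • a) a (2 * k) ++
        (V ++ (W ++ [2 • t + 2 • a, 2 • t + a, 2 • t]))) rfl (by rw [hU1]; simp)
    have f2 := lin3_append3 S (R := V ++ (W ++ [2 • t + 2 • a, 2 • t + a, 2 • t])) hU2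
      (r0 := -a) (r1 := -a + -a) (r2 := -a + 2 • -a)
      (R' := run (-a + 3 • -a) (-a) (2 * k + 3) ++ (W ++ [2 • t + 2 • a, 2 • t + a, 2 • t]))
      (by rw [hV1]; simp)
    have f3 := lin3_append3 S (R := W ++ [2 • t + 2 • a, 2 • t + a, 2 • t]) hV2
      (r0 := t) (r1 := t + a) (r2 := t + a + a) (R' := [2 • t + 2 • a, 2 • t + a, 2 • t])
      (by rw [hW1]; simp)
    have f4 := lin3_append3 S (R := [2 • t + 2 • a, 2 • t + a, 2 • t]) (Q'' := []) hW1 rfl
    have z3 : ind S (3 • a) = 0 := ind_of_not_mem h3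
    have z3' : ind S (3 • -a) = 0 := by rw [smul_neg, ind_neg hG.neg]; exact z3
    rw [e0, f1, f2, f3, f4, lin3_three, lin3_three, hU, hV, hW1, lin3_three, lin3_run, lin3_run,
      z3, z3']
    have a5 : (5 : ℕ) • a = 3 • a + 2 • a := by rw [← add_nsmul]
    have a4 : (4 : ℕ) • a = 3 • a + a := by rw [← succ_nsmul]
    have i1 : t + 3 • a - (2 • t + 5 • a) = -(t + 2 • a) := by rw [a5, two_nsmul t]; abel
    have i2 : t + 3 • a + a - (2 • t + 4 • a) = -t := by rw [a4, two_nsmul t]; abel
    have i3 : t + 3 • a + 2 • a - (2 • t + 3 • a) = -(t - 2 • a) := by rw [two_nsmul t]; abel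
    have i4 : -a - (t - a - 2 • a) = -(t - 2 • a) := by abel
    have i5 : -a + -a - (t - a - a) = -t := by abel
    have i6 : -a + 2 • -a - (t - a) = -(t + 2 • a) := by rw [smul_neg]; abel
    have i7 : t - (0 - 2 • -a) = t - 2 • a := by rw [smul_neg]; abel
    have i8 : t + a - (0 - -a) = t := by abel
    have i9 : t + a + a - 0 = t + 2 • a := by rw [two_nsmul]; abel
    have i10 : 2 • t + 2 • a - t = t + 2 • a := by rw [two_nsmul t]; abel
    have i11 : 2 • t + a - (t + a) = t := by rw [two_nsmul]; abel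
    have i12 : 2 • t - (t + a + a) = t - 2 • a := by rw [two_nsmul, two_nsmul]; abel
    rw [i1, i2, i3, i4, i5, i6, i7, i8, i9, i10, i11, i12, ind_neg hG.neg, ind_neg hG.neg,
      ind_neg hG.neg, ind_of_mem ht]
    ring
  have L2 : lin3 S ((2 • t + 5 • a) :: (2 • t + 4 • a) :: (2 • t + 3 • a) ::
      (((2 • a + t + a) :: (2 • a + a) :: (Z ++ [2 • a, 2 • a + t])) ++
        [2 • t + 2 • a, 2 • t + a, 2 • t]))
      = 2 * (k + 3) + (k + 3) * (ind S (t + 2 • a) + ind S (t - 2 • a))
      + 2 * (ind S (a + 2 • t) + ind S (a - 2 • t)) - 1 := by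
    have hz := lin3_zig hG.neg ha (t := t) (k + 1) (2 • a + 2 • a) (2 • a) (2 • a + t)
      (2 • t + 2 • a) [2 • t + a, 2 • t] (by rw [show k + 1 + 1 = k + 2 by ring, hzend]) rfl
    rw [show k + 1 + 1 = k + 2 by ring, ← hZ] at hz
    have e0 : (2 • t + 5 • a) :: (2 • t + 4 • a) :: (2 • t + 3 • a) ::
      (((2 • a + t + a) :: (2 • a + a) :: (Z ++ [2 • a, 2 • a + t])) ++
        [2 • t + 2 • a, 2 • t + a, 2 • t])
        = (2 • t + 5 • a) :: (2 • t + 4 • a) :: (2 • t + 3 • a) :: (2 • a + t + a) ::
          (2 • a + a) :: (Z ++ [2 • a, 2 • a + t, 2 • t + 2 • a, 2 • t + a, 2 • t]) := by simp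
    rw [e0]
    have e1 : lin3 S ((2 • t + 5 • a) :: (2 • t + 4 • a) :: (2 • t + 3 • a) :: (2 • a + t + a) ::
          (2 • a + a) :: (Z ++ [2 • a, 2 • a + t, 2 • t + 2 • a, 2 • t + a, 2 • t]))
        = ind S (2 • a + t + a - (2 • t + 5 • a)) + ind S (2 • a + a - (2 • t + 4 • a))
          + ind S (2 • a + 2 • a - (2 • t + 3 • a)) + ind S (2 • a + 2 • a + t - (2 • a + t + a))
          + ind S (2 • a + 2 • a + t + a - (2 • a + a))
          + lin3 S (Z ++ [2 • a, 2 • a + t, 2 • t + 2 • a, 2 • t + a, 2 • t]) := by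
      rw [hZh]
      simp only [List.cons_append, lin3_cons4]
      ring
    rw [e1, hz]
    simp only [lin3_cons4, lin3_three]
    have a5 : (5 : ℕ) • a = 2 • a + 2 • a + a := by rw [← add_nsmul, ← succ_nsmul]
    have a4 : (4 : ℕ) • a = 2 • a + 2 • a := by rw [← add_nsmul]
    have a3 : (3 : ℕ) • a = 2 • a + a := by rw [← succ_nsmul]
    have i1 : 2 • a + t + a - (2 • t + 5 • a) = -(t + 2 • a) := by rw [a5, two_nsmul t]; abel
    have i2 : 2 • a + a - (2 • t + 4 • a) = -(a + 2 • t) := by
      rw [a4, two_nsmul a]; abel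
    have i3 : 2 • a + 2 • a - (2 • t + 3 • a) = a - 2 • t := by rw [a3, two_nsmul a]; abel
    have i4 : 2 • a + 2 • a + t - (2 • a + t + a) = a := by rw [two_nsmul a]; abel
    have i5 : 2 • a + 2 • a + t + a - (2 • a + a) = t + 2 • a := by abel
    have i6 : 2 • t + 2 • a - (2 • a - a) = a + 2 • t := by rw [two_nsmul a]; abel
    have i7 : 2 • t + a - 2 • a = -(a - 2 • t) := by rw [two_nsmul a]; abel
    have i8 : 2 • t - (2 • a + t) = t - 2 • a := by rw [two_nsmul t]; abel
    rw [i1, i2, i3, i4, i5, i6, i7, i8, ind_neg hG.neg, ind_neg hG.neg, ind_neg hG.neg,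
      ind_of_mem ha]
    have e9 : 2 * (k + 3) + (k + 3) * (ind S (t + 2 • a) + ind S (t - 2 • a))
      + 2 * (ind S (a + 2 • t) + ind S (a - 2 • t)) - 1
      = (2 * k + 5) + (k + 3) * (ind S (t + 2 • a) + ind S (t - 2 • a))
      + 2 * (ind S (a + 2 • t) + ind S (a - 2 • t)) := by omega
    rw [e9]
    ring
  rw [L1, L2] at hconst
  omega

end Pool.Agent.HamTrans
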