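import Pool.Agent.HamTrans.Pair

set_option linter.unusedSectionVars false

namespace Pool.Agent.HamTrans

open List

variable {Γ : Type*} [AddCommGroup Γ]

theorem order_four [Finite Γ] {a b : Γ} (ha0 : a ≠ 0) (h2a : a + a ≠ 0)
    (hcard : Nat.card (AddSubgroup.closure {a, b}) = 4) : addOrderOf a = 4 := by
  have h3 := order_ge_three ha0 h2a
  have haV : a ∈ AddSubgroup.closure {a, b} := AddSubgroup.subset_closure (by simp)
  have hdvd : addOrderOf a ∣ 4 := by
    rw [← hcard]
    exact (AddSubgroup.closure {a, b}).addOrderOf_dvd_natCard haV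
  have hle := Nat.le_of_dvd (by norm_num) hdvd
  interval_cases h : addOrderOf a
  · omega
  · rfl

theorem four_path [Finite Γ] {S : Set Γ} (hG : Good S) {a b : Γ} (ha : a ∈ S) (hb : b ∈ S)
    (hab : b ≠ a) (hab' : b ≠ -a) (hcard : Nat.card (AddSubgroup.closure {a, b}) = 4) :
    ∃ x y, HP S ((AddSubgroup.closure {a, b} : AddSubgroup Γ) : Set Γ) [0, a, x, y] := by
  have ha0 := hG.ne_zero ha
  have hb0 := hG.ne_zero hb
  have haV : a ∈ AddSubgroup.closure {a, b} := AddSubgroup.subset_closure (by simp)
  have hbV : b ∈ AddSubgroup.closure {a, b} := AddSubgroup.subset_closure (by simp)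
  by_cases h2a : a + a = 0
  · refine ⟨a + b, b, HP.of_length ?_ ?_ ?_ (by rw [hcard]; simp)⟩
    · simp only [List.isChain_cons_cons, List.isChain_singleton, and_true]
      refine ⟨by simpa [Rel] using ha, by simpa [Rel] using hb, ?_⟩
      unfold Rel
      have : b - (a + b) = -a := by abel
      rw [this]; exact hG.neg a ha
    · have h1 : a + b ≠ 0 := fun h => hab' (eq_neg_of_add_eq_zero_right h)
      simp only [List.nodup_cons, List.mem_cons, List.not_mem_nil, or_false, not_or,
        not_false_eq_true, List.nodup_nil, and_true]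
      refine ⟨⟨ha0.symm, h1.symm, hb0.symm⟩, ⟨?_, hab.symm⟩, ?_⟩
      · intro h; apply hb0; simpa using h.symm
      · intro h; apply ha0; simpa using h
    · intro x hx
      simp only [List.mem_cons, List.not_mem_nil, or_false] at hx
      rcases hx with rfl | rfl | rfl | rfl
      · exact AddSubgroup.zero_mem _
      · exact haV
      · exact AddSubgroup.add_mem _ haV hbV
      · exact hbV
  · have hord := order_four ha0 h2a hcard
    have hrun : run 0 a 4 = [0, a, 2 • a, 3 • a] := by
      simp [run, List.range_succ]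
    refine ⟨2 • a, 3 • a, ?_⟩
    rw [← hrun]
    refine HP.of_length (run_chain ha _ _) (run_nodup _ _ (by rw [hord])) ?_ (by rw [hcard]; simp)
    intro x hx
    rw [mem_run] at hx
    obtain ⟨i, _, rfl⟩ := hx
    rw [zero_add]
    exact AddSubgroup.nsmul_mem _ haV i

theorem two_or_two [Finite Γ] {a b : Γ} (ha0 : a ≠ 0) (hb0 : b ≠ 0)
    (hab : b ≠ a) (hab' : b ≠ -a) (hcard : Nat.card (AddSubgroup.closure {a, b}) = 4) :
    a + a = 0 ∨ b + b = 0 := by
  by_contra hcon
  push Not at hcon
  obtain ⟨h2a, h2b⟩ := hcon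
  have hord := order_four ha0 h2a hcard
  have haV : a ∈ AddSubgroup.closure {a, b} := AddSubgroup.subset_closure (by simp)
  have hbV : b ∈ AddSubgroup.closure {a, b} := AddSubgroup.subset_closure (by simp)
  have hle : AddSubgroup.zmultiples a ≤ AddSubgroup.closure {a, b} := by
    rw [AddSubgroup.zmultiples_le]; exact haV
  have heq : AddSubgroup.zmultiples a = AddSubgroup.closure {a, b} := by
    apply AddSubgroup.eq_of_le_of_card_ge hle
    rw [hcard, Nat.card_zmultiples, hord]
  have hb1 : b ∈ run 0 a (addOrderOf a) := by rw [mem_run_full, heq]; simpa using hbV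
  rw [mem_run, hord] at hb1
  obtain ⟨j, hj, hbj⟩ := hb1
  rw [zero_add] at hbj
  have h4 : 4 • a = 0 := by rw [← hord]; exact addOrderOf_nsmul_eq_zero a
  interval_cases j
  · simp at hbj; exact hb0 hbj
  · simp at hbj; exact hab hbj
  · apply h2b; rw [hbj, ← add_nsmul]; exact h4
  · apply hab'
    rw [hbj]
    apply eq_neg_of_add_eq_zero_left
    rw [← succ_nsmul]; exact h4

/-- `t + a + b ∈ S` when `a, b` generate a group of order four -/
theorem pair_four [Finite Γ] {S : Set Γ} (hG : Good S) {a b c t : Γ} (ha : a ∈ S) (hb : b ∈ S)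
    (hc : c ∈ S) (ht : t ∈ S) (hab : b ≠ a) (hab' : b ≠ -a)
    (hcard : Nat.card (AddSubgroup.closure {a, b}) = 4)
    (hcV : c ∉ AddSubgroup.closure {a, b})
    (htH : t ∉ AddSubgroup.closure {a, b} ⊔ AddSubgroup.zmultiples c) : t + a + b ∈ S := by
  have ha0 := hG.ne_zero ha
  have hb0 := hG.ne_zero hb
  set V := AddSubgroup.closure {a, b} with hV
  obtain ⟨xa, ya, hPa⟩ := four_path hG ha hb hab hab' hcard
  have hpair : ({b, a} : Set Γ) = {a, b} := Set.pair_comm b a
  obtain ⟨xb, yb, hPb⟩ := four_path hG hb ha hab.symm (by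
    intro h; apply hab'; rw [h, neg_neg]) (by rw [hpair]; exact hcard)
  rw [hpair] at hPb
  rw [← hV] at hPa hPb
  have hyb : yb ∈ V := (hPb.mem yb).1 (by simp)
  have hya : ya ∈ V := (hPa.mem ya).1 (by simp)
  -- the path ending with the step `b`
  have hZ : HP S (V : Set Γ) [0, yb - xb, yb - b, yb] := by
    have h1 := (hPb.reflect hG.neg yb).reverse hG.neg
    simp only [List.map_cons, List.map_nil, sub_self, sub_zero, List.reverse_cons,
      List.reverse_nil, List.nil_append, List.cons_append] at h1
    refine h1.congr (fun x => ?_)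
    simp only [Set.mem_ofPred_eq, SetLike.mem_coe]
    exact ⟨fun h => by have := V.sub_mem hyb h; simpa using this, fun h => V.sub_mem hyb h⟩
  set Z : List Γ := [0, yb - xb, yb - b, yb] with hZdef
  set q := addOrderOf (c : Γ ⧸ V) with hq
  have hq2 : 2 ≤ q := quot_order_ge_two hcV
  obtain ⟨q', hq'⟩ : ∃ q', q = q' + 2 := ⟨q - 2, by omega⟩
  have hR := rows_HP V hZ (by simp [hZdef]) (e := yb) (by simp [hZdef]) hc (q' + 1) (by omega)
    (ya + c)
  have hHP : HP S ((V ⊔ AddSubgroup.zmultiples c : AddSubgroup Γ) : Set Γ)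
      ([0, a, xa, ya] ++ rows Z (yb + c) (q' + 1) (ya + c)) := by
    refine (hPa.append hR ?_ ?_).congr (fun y => ?_)
    · rintro y hy ⟨j, hj, h⟩
      have h1 : (j + 1) • c ∈ V := by
        have : (j + 1) • c = y - (y - (ya + c + j • c)) - ya := by rw [succ_nsmul]; abel
        rw [this]; exact V.sub_mem (V.sub_mem hy h) hya
      exact not_mem_of_lt V c (by omega) (by omega) h1
    · intro u hu v hv
      rw [rows_head _ _ _ _ (by simp [hZdef])] at hv
      simp only [List.getLast?_cons_cons, List.getLast?_singleton, Option.mem_def,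
        Option.some.injEq] at hu hv
      subst hu; subst hv
      unfold Rel
      simpa using hc
    · rw [SetLike.mem_coe, mem_sup_zmultiples, ← hq, hq']
      simp only [Set.mem_ofPred_eq, SetLike.mem_coe]
      constructor
      · rintro (h | ⟨j, hj, h⟩)
        · exact ⟨0, by omega, by simpa using h⟩
        · refine ⟨j + 1, by omega, ?_⟩
          have : y - (j + 1) • c = (y - (ya + c + j • c)) + ya := by rw [succ_nsmul]; abel
          rw [this]; exact V.add_mem h hya
      · rintro ⟨j, hj, h⟩
        cases j with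
        | zero => left; simpa using h
        | succ j =>
          right
          refine ⟨j, by omega, ?_⟩
          have : y - (ya + c + j • c) = (y - (j + 1) • c) - ya := by rw [succ_nsmul]; abel
          rw [this]; exact V.sub_mem h hya
  have hHeq : V ⊔ AddSubgroup.zmultiples c = AddSubgroup.closure ({a, b} ∪ {c}) := by
    rw [AddSubgroup.closure_union, hV, AddSubgroup.zmultiples_eq_closure]
  have hgenH : AddSubgroup.closure (S ∩ ((V ⊔ AddSubgroup.zmultiples c : AddSubgroup Γ) : Set Γ))
      = V ⊔ AddSubgroup.zmultiples c := by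
    rw [hHeq]
    apply closure_gen
    intro x hx
    simp only [Set.union_singleton, Set.mem_insert_iff, Set.mem_singleton_iff] at hx
    rcases hx with rfl | rfl | rfl <;> assumption
  have hcardH : 4 ≤ Nat.card (V ⊔ AddSubgroup.zmultiples c : AddSubgroup Γ) := by
    rw [← hcard]
    exact AddSubgroup.card_le_of_le le_sup_left
  have h2 := lemmaB' hG.neg hG.zero hG.const hG.gen _ hgenH ht htH hcardH
    (α := a) (β := b) (d := ya + c + q' • (yb + c) + yb)
    (T := [xa, ya] ++ rows Z (yb + c) (q' + 1) (ya + c))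
    (U := [0, a, xa, ya] ++ rows Z (yb + c) q' (ya + c) ++
      [ya + c + q' • (yb + c), ya + c + q' • (yb + c) + (yb - xb)]) hHP (by simp) (by
        rw [rows_succ', hZdef]
        simp
        abel)
  rcases two_or_two ha0 hb0 hab hab' hcard with h | h
  · have e : -a = a := neg_eq_of_add_eq_zero_right h
    have h3 := h2.2
    rwa [sub_eq_add_neg, e] at h3
  · have e : -b = b := neg_eq_of_add_eq_zero_right h
    have h3 := h2.1
    rwa [sub_eq_add_neg, e] at h3

end Pool.Agent.HamTrans
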