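import Pool.Agent.HamTrans.FormulaF

set_option linter.unusedSectionVars false

namespace Pool.Agent.HamTrans

open List

variable {Γ : Type*} [AddCommGroup Γ]

theorem lin3_map_hom {G : Type*} [AddCommGroup G] (φ : G →+ Γ) (S : Set Γ) (l : List G) :
    lin3 S (l.map φ) = lin3 (φ ⁻¹' S) l := by
  induction l with
  | nil => rfl
  | cons a l ih =>
    match l, ih with
    | [], _ => rfl
    | [b], _ => rfl
    | [b, c], _ => rfl
    | b :: c :: d :: l', ih =>
      simp only [List.map_cons, lin3_cons4] at ih ⊢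
      rw [ih]
      congr 1
      rw [← map_sub]
      by_cases h : φ (d - a) ∈ S
      · rw [ind_of_mem h, ind_of_mem (show d - a ∈ φ ⁻¹' S from h)]
      · rw [ind_of_not_mem h, ind_of_not_mem (show d - a ∉ φ ⁻¹' S from h)]

theorem cyc3_map_hom {G : Type*} [AddCommGroup G] (φ : G →+ Γ) (S : Set Γ) (l : List G) :
    cyc3 S (l.map φ) = cyc3 (φ ⁻¹' S) l := by
  rw [cyc3, cyc3, ← List.map_take, ← List.map_append, lin3_map_hom]

theorem HC.map_hom {G : Type*} [AddCommGroup G] (φ : G →+ Γ) (hφ : Function.Bijective φ)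
    {S : Set Γ} {l : List G} (h : HC (φ ⁻¹' S) l) : HC S (l.map φ) := by
  refine ⟨?_, h.nodup.map hφ.1, ?_, ?_⟩
  · rw [List.isChain_map]
    refine h.chain.imp ?_
    intro x y hxy
    have h1 : φ (y - x) ∈ S := hxy
    rwa [map_sub] at h1
  · intro y
    obtain ⟨x, rfl⟩ := hφ.2 y
    exact List.mem_map_of_mem (h.mem x)
  · intro u hu v hv
    rw [List.head?_map] at hu
    rw [List.getLast?_map] at hv
    cases hh : l.head? with
    | none => rw [hh] at hu; simp at hu
    | some u' =>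
      cases hl : l.getLast? with
      | none => rw [hl] at hv; simp at hv
      | some v' =>
        rw [hh] at hu; rw [hl] at hv
        simp only [Option.map_some, Option.mem_def, Option.some.injEq] at hu hv
        subst hu; subst hv
        have h1 : φ (u' - v') ∈ S := h.closed u' (by simp [hh]) v' (by simp [hl])
        rwa [map_sub] at h1

theorem N3const.pull {G : Type*} [AddCommGroup G] (φ : G →+ Γ) (hφ : Function.Bijective φ)
    {S : Set Γ} (h : N3const S) : N3const (φ ⁻¹' S) := by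
  intro l l' hl hl'
  have := h _ _ (hl.map_hom φ hφ) (hl'.map_hom φ hφ)
  rwa [cyc3_map_hom, cyc3_map_hom] at this

/-- computable version of `lin3` -/
def lin3b {G : Type*} [AddCommGroup G] (m : G → Bool) : List G → ℕ
  | a :: b :: c :: d :: l => (if m (d - a) then 1 else 0) + lin3b m (b :: c :: d :: l)
  | _ => 0

theorem lin3_eq_lin3b {G : Type*} [AddCommGroup G] (m : G → Bool) (T : Set G)
    (hT : ∀ x, x ∈ T ↔ m x = true) (l : List G) : lin3 T l = lin3b m l := by
  induction l with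
  | nil => rfl
  | cons a l ih =>
    match l, ih with
    | [], _ => rfl
    | [b], _ => rfl
    | [b, c], _ => rfl
    | b :: c :: d :: l', ih =>
      rw [lin3_cons4, ih, lin3b]
      congr 1
      by_cases h : d - a ∈ T
      · rw [ind_of_mem h, (hT _).1 h]; rfl
      · rw [ind_of_not_mem h]
        have : m (d - a) = false := by
          rcases Bool.eq_false_or_eq_true (m (d - a)) with h' | h'
          · exact absurd ((hT _).2 h') h
          · exact h'
        rw [this]; rfl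

theorem HC_of_bool {G : Type*} [AddCommGroup G] (m : G → Bool) (T : Set G)
    (hT : ∀ x, x ∈ T ↔ m x = true) (x : G) (l : List G)
    (h1 : (x :: (l ++ [x])).IsChain (fun a b => m (b - a) = true)) (h2 : (x :: l).Nodup)
    (h3 : ∀ y, y ∈ x :: l) : HC T (x :: l) := by
  have h4 : (x :: (l ++ [x])).IsChain (Rel T) := h1.imp (fun a b hab => (hT _).2 hab)
  have h5 := CW_of_chain h4
  exact ⟨h5.chain, h2, h3, h5.closed⟩

def tail0 : List (ZMod 4 × ZMod 4) :=
  [(0, 1), (0, 2), (1, 3), (1, 0), (1, 1), (2, 2), (1, 2), (2, 3), (3, 0), (2, 0),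
    (3, 1), (2, 1), (3, 2), (0, 3), (3, 3)]

def tail4 : List (ZMod 4 × ZMod 4) :=
  [(0, 1), (0, 2), (0, 3), (1, 0), (1, 1), (1, 2), (1, 3), (2, 0), (2, 1), (2, 2), (2, 3),
    (3, 0), (3, 1), (3, 2), (3, 3)]

def memA (p : ZMod 4 × ZMod 4) : Bool :=
  p ∈ [((1, 0) : ZMod 4 × ZMod 4), (3, 0), (0, 1), (0, 3), (1, 1), (3, 3)]

set_option maxRecDepth 10000 in
theorem not_const_A {T : Set (ZMod 4 × ZMod 4)} (hT : ∀ x, x ∈ T ↔ memA x = true) :
    ¬ N3const T := by
  intro h
  have h1 : HC T ((0, 0) :: tail0) := by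
    apply HC_of_bool memA T hT <;> decide
  have h2 : HC T ((0, 0) :: tail4) := by
    apply HC_of_bool memA T hT <;> decide
  have h3 := h _ _ h1 h2
  rw [cyc3, cyc3, lin3_eq_lin3b memA T hT, lin3_eq_lin3b memA T hT] at h3
  revert h3
  decide

/-- the homomorphism `(x, y) ↦ x a + y b` -/
noncomputable def hom44 (a b : Γ) (ha : 4 • a = 0) (hb : 4 • b = 0) : ZMod 4 × ZMod 4 →+ Γ :=
  AddMonoidHom.coprod
    (ZMod.lift 4 ⟨zmultiplesHom Γ a, by
      rw [zmultiplesHom_apply, natCast_zsmul]; exact ha⟩)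
    (ZMod.lift 4 ⟨zmultiplesHom Γ b, by
      rw [zmultiplesHom_apply, natCast_zsmul]; exact hb⟩)

theorem hom44_one_zero (a b : Γ) (ha : 4 • a = 0) (hb : 4 • b = 0) :
    hom44 a b ha hb (1, 0) = a := by
  have h1 : (1 : ZMod 4) = ((1 : ℤ) : ZMod 4) := by simp
  unfold hom44
  rw [AddMonoidHom.coprod_apply, map_zero, add_zero]
  show (ZMod.lift 4 _) (1 : ZMod 4) = a
  rw [h1, ZMod.lift_coe]; simp

theorem hom44_zero_one (a b : Γ) (ha : 4 • a = 0) (hb : 4 • b = 0) :
    hom44 a b ha hb (0, 1) = b := by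
  have h1 : (1 : ZMod 4) = ((1 : ℤ) : ZMod 4) := by simp
  unfold hom44
  rw [AddMonoidHom.coprod_apply, map_zero, zero_add]
  show (ZMod.lift 4 _) (1 : ZMod 4) = b
  rw [h1, ZMod.lift_coe]; simp

theorem hom44_surj (a b : Γ) (ha : 4 • a = 0) (hb : 4 • b = 0)
    (hgen : AddSubgroup.closure {a, b} = ⊤) : Function.Surjective (hom44 a b ha hb) := by
  intro x
  have h1 : AddSubgroup.closure {a, b} ≤ (hom44 a b ha hb).range := by
    rw [AddSubgroup.closure_le]
    intro y hy
    rcases hy with rfl | rfl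
    · exact ⟨(1, 0), hom44_one_zero _ _ _ _⟩
    · exact ⟨(0, 1), hom44_zero_one _ _ _ _⟩
  rw [hgen] at h1
  exact h1 (AddSubgroup.mem_top x)

/-- determinant -/
def det44 (x y : ZMod 4 × ZMod 4) : ZMod 4 := x.1 * y.2 - x.2 * y.1

theorem det_of_gen {x y : ZMod 4 × ZMod 4} (h : AddSubgroup.closure {x, y} = ⊤) :
    2 * det44 x y ≠ 0 := by
  intro h0
  have h1 : ((1, 0) : ZMod 4 × ZMod 4) ∈ AddSubgroup.closure {x, y} := by rw [h]; trivial
  have h2 : ((0, 1) : ZMod 4 × ZMod 4) ∈ AddSubgroup.closure {x, y} := by rw [h]; trivial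
  rw [AddSubgroup.mem_closure_pair] at h1 h2
  obtain ⟨m, n, h1⟩ := h1
  obtain ⟨m', n', h2⟩ := h2
  have e1 := congrArg Prod.fst h1
  have e2 := congrArg Prod.snd h1
  have e3 := congrArg Prod.fst h2
  have e4 := congrArg Prod.snd h2
  rw [Prod.fst_add, Prod.smul_fst, Prod.smul_fst, zsmul_eq_mul, zsmul_eq_mul] at e1 e3
  rw [Prod.snd_add, Prod.smul_snd, Prod.smul_snd, zsmul_eq_mul, zsmul_eq_mul] at e2 e4
  have e5 : (2 : ZMod 4) = ((m : ZMod 4) * n' - n * m') * (2 * det44 x y) := by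
    unfold det44
    have : ((m : ZMod 4) * n' - n * m') * (2 * (x.1 * y.2 - x.2 * y.1))
        = 2 * ((m * x.1 + n * y.1) * (m' * x.2 + n' * y.2)
          - (m * x.2 + n * y.2) * (m' * x.1 + n' * y.1)) := by ring
    rw [this, e1, e2, e3, e4]; ring
  rw [h0, mul_zero] at e5
  exact absurd e5 (by decide)

theorem closure_pull {G : Type*} [AddCommGroup G] (φ : G →+ Γ) (hφ : Function.Bijective φ)
    {x y : G} (h : AddSubgroup.closure {φ x, φ y} = ⊤) : AddSubgroup.closure {x, y} = ⊤ := by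
  rw [eq_top_iff]
  intro z _
  have h1 : φ z ∈ AddSubgroup.closure {φ x, φ y} := by rw [h]; trivial
  rw [AddSubgroup.mem_closure_pair] at h1 ⊢
  obtain ⟨m, n, h1⟩ := h1
  refine ⟨m, n, hφ.1 ?_⟩
  rw [map_add, map_zsmul, map_zsmul]; exact h1

theorem det_facts : ∀ x : ZMod 4 × ZMod 4, x ≠ 0 →
    (x = (1, 0) ∨ x = -(1, 0) ∨ 2 * det44 (1, 0) x ≠ 0) →
    (x = (0, 1) ∨ x = -(0, 1) ∨ 2 * det44 (0, 1) x ≠ 0) →
    (x = (1, 1) ∨ x = -(1, 1) ∨ 2 * det44 (1, 1) x ≠ 0) → memA x = true := by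
  unfold det44
  decide

theorem memA_cases : ∀ x : ZMod 4 × ZMod 4, memA x = true →
    x = (1, 0) ∨ x = -(1, 0) ∨ x = (0, 1) ∨ x = -(0, 1) ∨ x = (1, 1) ∨ x = -(1, 1) := by
  decide

theorem det_facts2 : ∀ x : ZMod 4 × ZMod 4, 2 * det44 (1, 0) x ≠ 0 → 2 * det44 (0, 1) x ≠ 0 →
    x = (1, 1) ∨ x = -(1, 1) ∨ x = (1, -1) ∨ x = -(1, -1) := by
  unfold det44
  decide

/-- the case `ℤ₄ × ℤ₄` -/
theorem four_four_aux [Finite Γ] {S : Set Γ} (hG : Good S) {a b : Γ} (ha : a ∈ S) (hb : b ∈ S)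
    (hab : a + b ∈ S) (ha4 : 4 • a = 0) (hb4 : 4 • b = 0) (hcard : 10 ≤ Nat.card Γ)
    (hgen : AddSubgroup.closure {a, b} = ⊤)
    (hpair : ∀ x ∈ S, ∀ y ∈ S, y ≠ x → y ≠ -x → AddSubgroup.closure {x, y} = ⊤) : False := by
  have hsurj := hom44_surj a b ha4 hb4 hgen
  have h16 : Nat.card (ZMod 4 × ZMod 4) = 16 := by
    rw [Nat.card_prod, Nat.card_zmod]
  have hdvd : Nat.card Γ ∣ 16 := by
    have := AddSubgroup.card_dvd_of_surjective (hom44 a b ha4 hb4) hsurj
    rwa [h16] at this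
  have hc16 : Nat.card Γ = 16 := by
    have h1 := Nat.le_of_dvd (by norm_num) hdvd
    interval_cases h : Nat.card Γ <;> omega
  have hbij : Function.Bijective (hom44 a b ha4 hb4) := by
    rw [Nat.bijective_iff_surjective_and_card]
    exact ⟨hsurj, by rw [h16, hc16]⟩
  set φ := hom44 a b ha4 hb4 with hφ
  have f10 : φ (1, 0) = a := hom44_one_zero _ _ _ _
  have f01 : φ (0, 1) = b := hom44_zero_one _ _ _ _
  have f11 : φ (1, 1) = a + b := by
    have : ((1, 1) : ZMod 4 × ZMod 4) = (1, 0) + (0, 1) := by decide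
    rw [this, map_add, f10, f01]
  have hdet : ∀ x y, φ x ∈ S → φ y ∈ S → y ≠ x → y ≠ -x → 2 * det44 x y ≠ 0 := by
    intro x y hx hy h1 h2
    apply det_of_gen
    apply closure_pull φ hbij
    apply hpair _ hx _ hy
    · exact fun h => h1 (hbij.1 h)
    · exact fun h => h2 (hbij.1 (by rw [h, map_neg]))
  have hT : ∀ x, x ∈ φ ⁻¹' S ↔ memA x = true := by
    intro x
    constructor
    · intro hx
      have hx' : φ x ∈ S := hx
      apply det_facts x
      · rintro rfl; rw [map_zero] at hx'; exact hG.zero hx'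
      · by_cases h1 : x = (1, 0)
        · left; exact h1
        by_cases h2 : x = -(1, 0)
        · right; left; exact h2
        right; right
        exact hdet _ _ (by rw [f10]; exact ha) hx' h1 h2
      · by_cases h1 : x = (0, 1)
        · left; exact h1
        by_cases h2 : x = -(0, 1)
        · right; left; exact h2
        right; right
        exact hdet _ _ (by rw [f01]; exact hb) hx' h1 h2
      · by_cases h1 : x = (1, 1)
        · left; exact h1
        by_cases h2 : x = -(1, 1)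
        · right; left; exact h2
        right; right
        exact hdet _ _ (by rw [f11]; exact hab) hx' h1 h2
    · intro hx
      show φ x ∈ S
      rcases memA_cases x hx with rfl | rfl | rfl | rfl | rfl | rfl
      · rw [f10]; exact ha
      · rw [map_neg, f10]; exact hG.neg a ha
      · rw [f01]; exact hb
      · rw [map_neg, f01]; exact hG.neg b hb
      · rw [f11]; exact hab
      · rw [map_neg, f11]; exact hG.neg _ hab
  exact not_const_A hT (hG.const.pull φ hbij)

theorem four_four [Finite Γ] {S : Set Γ} (hG : Good S) {a b c : Γ} (ha : a ∈ S) (hb : b ∈ S)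
    (hc : c ∈ S) (hca : c ≠ a) (hca' : c ≠ -a) (hcb : c ≠ b) (hcb' : c ≠ -b)
    (ha4 : 4 • a = 0) (hb4 : 4 • b = 0) (hcard : 10 ≤ Nat.card Γ)
    (hba : b ≠ a) (hba' : b ≠ -a)
    (hpair : ∀ x ∈ S, ∀ y ∈ S, y ≠ x → y ≠ -x → AddSubgroup.closure {x, y} = ⊤) : False := by
  have hgen := hpair a ha b hb hba hba'
  have hsurj := hom44_surj a b ha4 hb4 hgen
  have h16 : Nat.card (ZMod 4 × ZMod 4) = 16 := by
    rw [Nat.card_prod, Nat.card_zmod]
  have hdvd : Nat.card Γ ∣ 16 := by
    have := AddSubgroup.card_dvd_of_surjective (hom44 a b ha4 hb4) hsurj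
    rwa [h16] at this
  have hc16 : Nat.card Γ = 16 := by
    have h1 := Nat.le_of_dvd (by norm_num) hdvd
    interval_cases h : Nat.card Γ <;> omega
  have hbij : Function.Bijective (hom44 a b ha4 hb4) := by
    rw [Nat.bijective_iff_surjective_and_card]
    exact ⟨hsurj, by rw [h16, hc16]⟩
  set φ := hom44 a b ha4 hb4 with hφ
  have f10 : φ (1, 0) = a := hom44_one_zero _ _ _ _
  have f01 : φ (0, 1) = b := hom44_zero_one _ _ _ _
  have f11 : φ (1, 1) = a + b := by
    have : ((1, 1) : ZMod 4 × ZMod 4) = (1, 0) + (0, 1) := by decide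
    rw [this, map_add, f10, f01]
  have f1m : φ (1, -1) = a - b := by
    have : ((1, -1) : ZMod 4 × ZMod 4) = (1, 0) - (0, 1) := by decide
    rw [this, map_sub, f10, f01]
  obtain ⟨x, rfl⟩ := hbij.2 c
  have h1 : 2 * det44 (1, 0) x ≠ 0 := by
    apply det_of_gen
    apply closure_pull φ hbij
    rw [f10]
    exact hpair _ ha _ hc hca hca'
  have h2 : 2 * det44 (0, 1) x ≠ 0 := by
    apply det_of_gen
    apply closure_pull φ hbij
    rw [f01]
    exact hpair _ hb _ hc hcb hcb'
  have hor : a + b ∈ S ∨ a - b ∈ S := by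
    rcases det_facts2 x h1 h2 with rfl | rfl | rfl | rfl
    · left; rwa [f11] at hc
    · left; rw [map_neg, f11] at hc; simpa using hG.neg _ hc
    · right; rwa [f1m] at hc
    · right; rw [map_neg, f1m] at hc; simpa using hG.neg _ hc
  rcases hor with h | h
  · exact four_four_aux hG ha hb h ha4 hb4 hcard hgen hpair
  · have hb' := hG.neg b hb
    refine four_four_aux hG ha hb' (by rwa [← sub_eq_add_neg]) ha4
      (by rw [smul_neg, hb4, neg_zero]) hcard ?_ hpair
    apply hpair a ha _ hb'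
    · intro h'; apply hba'; rw [← h', neg_neg]
    · intro h'; apply hba; exact neg_inj.1 h'

end Pool.Agent.HamTrans
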