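import Pool.Agent.HamTrans.Paths

set_option linter.unusedSectionVars false

namespace Pool.Agent.HamTrans

open List

variable {Γ : Type*} [AddCommGroup Γ]

/-- arithmetic progression `x, x+a, …` with `k` terms -/
def run (x a : Γ) (k : ℕ) : List Γ := (List.range k).map (fun i => x + i • a)

@[simp] theorem run_zero (x a : Γ) : run x a 0 = [] := rfl

theorem run_succ (x a : Γ) (k : ℕ) : run x a (k + 1) = x :: run (x + a) a k := by
  simp only [run, List.range_succ_eq_map, List.map_cons, List.map_map, zero_smul, add_zero]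
  congr 1
  apply List.map_congr_left
  intro i _
  simp [succ_nsmul]; abel

theorem run_succ' (x a : Γ) (k : ℕ) : run x a (k + 1) = run x a k ++ [x + k • a] := by
  simp [run, List.range_succ]

@[simp] theorem run_length (x a : Γ) (k : ℕ) : (run x a k).length = k := by simp [run]

theorem run_head (x a : Γ) {k : ℕ} (hk : 1 ≤ k) : (run x a k).head? = some x := by
  obtain ⟨k, rfl⟩ := Nat.exists_eq_add_of_le' hk
  rw [run_succ]; rfl

theorem run_last (x a : Γ) (k : ℕ) : (run x a (k + 1)).getLast? = some (x + k • a) := by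
  rw [run_succ']; simp

theorem run_chain {S : Set Γ} {a : Γ} (ha : a ∈ S) (x : Γ) (k : ℕ) :
    (run x a k).IsChain (Rel S) := by
  induction k generalizing x with
  | zero => simp
  | succ k ih =>
    rw [run_succ, List.isChain_cons]
    refine ⟨?_, ih _⟩
    intro y hy
    cases k with
    | zero => simp at hy
    | succ k =>
      rw [run_succ] at hy
      simp at hy; subst hy
      unfold Rel; simpa using ha

theorem mem_run {x a y : Γ} {k : ℕ} : y ∈ run x a k ↔ ∃ i < k, y = x + i • a := by
  simp [run, eq_comm]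

theorem run_nodup [Finite Γ] (x a : Γ) {k : ℕ} (hk : k ≤ addOrderOf a) : (run x a k).Nodup := by
  rw [run, List.nodup_map_iff_inj_on List.nodup_range]
  intro i hi j hj hij
  simp only [List.mem_range] at hi hj
  have h1 : i • a = j • a := by simpa using hij
  exact nsmul_injOn_Iio_addOrderOf (Set.mem_Iio.2 (by omega)) (Set.mem_Iio.2 (by omega)) h1

theorem mem_run_full [Finite Γ] {x a y : Γ} :
    y ∈ run x a (addOrderOf a) ↔ y - x ∈ AddSubgroup.zmultiples a := by
  classical
  rw [mem_run]
  constructor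
  · rintro ⟨i, _, rfl⟩
    simp [AddSubgroup.nsmul_mem_zmultiples]
  · intro h
    have := (mem_zmultiples_iff_mem_range_addOrderOf (x := a) (y := y - x)).1 h
    simp only [Finset.mem_image, Finset.mem_range] at this
    obtain ⟨i, hi, h2⟩ := this
    exact ⟨i, hi, by rw [h2]; abel⟩

theorem run_reverse (x a : Γ) (k : ℕ) :
    (run x a (k + 1)).reverse = run (x + k • a) (-a) (k + 1) := by
  induction k generalizing x with
  | zero => simp [run]
  | succ k ih =>
    rw [run_succ, List.reverse_cons, ih, run_succ' (x + (k + 1) • a)]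
    congr 1
    · congr 1
      rw [succ_nsmul]; abel
    · simp

theorem gp_zmultiples [Finite Γ] {S : Set Γ} (hS : ∀ s ∈ S, -s ∈ S) {g : Γ} (hg : g ∈ S)
    (h0 : g ≠ 0) : GP S (AddSubgroup.zmultiples g : Set Γ) 0 g g := by
  set m := addOrderOf g with hm
  have hm2 : 2 ≤ m := by
    have h1 : m ≠ 1 := by
      intro h; exact h0 (AddMonoid.addOrderOf_eq_one_iff.1 h)
    have h2 : 0 < m := addOrderOf_pos g
    omega
  obtain ⟨k, hk⟩ := Nat.exists_eq_add_of_le' hm2
  have hord : addOrderOf (-g) = m := addOrderOf_neg g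
  refine ⟨run 0 (-g) m, ⟨run_chain (hS _ hg) _ _, run_nodup _ _ (by rw [hord]), ?_⟩,
    run_head _ _ (by omega), ?_, [], 0, -g, run (-g - g) (-g) k, ?_, ?_⟩
  · intro x
    rw [← hord, mem_run_full, sub_zero, AddSubgroup.zmultiples_neg]
    rfl
  · rw [hk, show k + 2 = (k + 1) + 1 by ring, run_last, zero_add]
    congr 1
    have h1 : (k + 1 + 1) • g = 0 := by
      rw [show k + 1 + 1 = m by omega]; exact addOrderOf_nsmul_eq_zero g
    rw [succ_nsmul] at h1
    rw [smul_neg]
    exact neg_eq_of_add_eq_zero_right h1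
  · rw [hk, show k + 2 = (k + 1) + 1 by ring, run_succ, run_succ]
    simp [sub_eq_add_neg]
  · right; simp

theorem gp_step [Finite Γ] {S : Set Γ} (hS : ∀ s ∈ S, -s ∈ S) {g x : Γ} (B : AddSubgroup Γ)
    (hB : GP S (B : Set Γ) 0 g g) (hx : x ∈ S) :
    GP S ((B ⊔ AddSubgroup.zmultiples x : AddSubgroup Γ) : Set Γ) 0 g g := by
  set q := addOrderOf (x : Γ ⧸ B) with hq
  have hq0 : 0 < q := addOrderOf_pos _
  obtain ⟨k, hk⟩ := Nat.exists_eq_add_of_le' hq0
  have hrun : run 0 x q = 0 :: run x x k := by
    have := run_succ 0 x k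
    rw [zero_add] at this
    rw [hk]; exact this
  have hpw : (0 :: run x x k).Pairwise (fun a b => b - a ∉ B) := by
    rw [← hrun, run, List.pairwise_map]
    refine (List.pairwise_lt_range (n := q)).imp_of_mem ?_
    intro i j hi hj hij hmem
    simp only [List.mem_range] at hi hj
    have h1 : ((0 + j • x - (0 + i • x) : Γ) : Γ ⧸ B) = 0 := (QuotientAddGroup.eq_zero_iff _).2 hmem
    have h2 : (j - i) • (x : Γ ⧸ B) = 0 := by
      have : (j - i) • x = 0 + j • x - (0 + i • x) := by
        rw [zero_add, zero_add, eq_sub_iff_add_eq, ← add_nsmul]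
        congr 1; omega
      rw [← this] at h1
      exact_mod_cast h1
    have h3 := addOrderOf_dvd_of_nsmul_eq_zero h2
    have h4 := Nat.le_of_dvd (by omega) h3
    omega
  have hch : (0 :: run x x k).IsChain (Rel S) := by rw [← hrun]; exact run_chain hx _ _
  have := stack hS B hB 0 (run x x k) hch hpw
  rw [zero_add] at this
  refine this.congr (fun y => ?_)
  simp only [Set.mem_ofPred_eq, SetLike.mem_coe]
  rw [← hrun, AddSubgroup.mem_sup]
  constructor
  · rintro ⟨w, hw, hyw⟩
    rw [mem_run] at hw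
    obtain ⟨i, _, rfl⟩ := hw
    exact ⟨_, hyw, i • x, AddSubgroup.nsmul_mem_zmultiples x i, by abel⟩
  · rintro ⟨b, hb, z, hz, rfl⟩
    obtain ⟨n, rfl⟩ := AddSubgroup.mem_zmultiples_iff.1 hz
    have hqZ : (0 : ℤ) < q := by exact_mod_cast hq0
    refine ⟨(n % q).toNat • x, ?_, ?_⟩
    · rw [mem_run]
      refine ⟨(n % q).toNat, ?_, by simp⟩
      have := Int.emod_lt_of_pos n hqZ
      have := Int.emod_nonneg n hqZ.ne'
      omega
    · have h1 : ((n % q).toNat : ℤ) = n % q := Int.toNat_of_nonneg (Int.emod_nonneg n hqZ.ne')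
      have h2 : (n % q).toNat • x = (n % q) • x := by
        conv_rhs => rw [← h1]
        exact (natCast_zsmul x _).symm
      have h3 : n • x = (n % q) • x + (n / q) • ((q : ℤ) • x) := by
        rw [← mul_smul, ← add_smul]
        congr 1
        rw [mul_comm]; exact (Int.emod_add_mul_ediv n q).symm
      have h4 : ((q : ℤ) • x) ∈ B := by
        rw [← QuotientAddGroup.eq_zero_iff]
        have : (q • x : Γ) = (q : ℤ) • x := by simp
        rw [← this]
        have h5 : q • (x : Γ ⧸ B) = 0 := addOrderOf_nsmul_eq_zero _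
        exact_mod_cast h5
      rw [h2, h3]
      have : b + ((n % q) • x + (n / q) • ((q : ℤ) • x)) - (n % q) • x
          = b + (n / q) • ((q : ℤ) • x) := by abel
      rw [this]
      exact B.add_mem hb (B.zsmul_mem h4 _)

theorem gp_closure [Finite Γ] {S : Set Γ} (hS : ∀ s ∈ S, -s ∈ S) {g : Γ} (hg : g ∈ S)
    (h0 : g ≠ 0) (X : Finset Γ) (hX : ∀ x ∈ X, x ∈ S) :
    GP S ((AddSubgroup.closure (insert g (X : Set Γ)) : AddSubgroup Γ) : Set Γ) 0 g g := by
  classical
  induction X using Finset.induction_on with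
  | empty =>
    have : AddSubgroup.closure (insert g ((∅ : Finset Γ) : Set Γ)) = AddSubgroup.zmultiples g := by
      simp [AddSubgroup.zmultiples_eq_closure]
    rw [this]
    exact gp_zmultiples hS hg h0
  | insert x X hx ih =>
    have ih' := ih (fun y hy => hX y (Finset.mem_insert_of_mem hy))
    set B := AddSubgroup.closure (insert g (X : Set Γ)) with hBdef
    have hcl : AddSubgroup.closure (insert g ((insert x X : Finset Γ) : Set Γ))
        = B ⊔ AddSubgroup.zmultiples x := by
      rw [Finset.coe_insert, Set.insert_comm, Set.insert_eq, AddSubgroup.closure_union, sup_comm,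
        AddSubgroup.zmultiples_eq_closure]
    rw [hcl]
    by_cases hxB : x ∈ B
    · have : B ⊔ AddSubgroup.zmultiples x = B := by
        rw [sup_eq_left, AddSubgroup.zmultiples_le]; exact hxB
      rw [this]; exact ih'
    · exact gp_step hS B ih' (hX x (Finset.mem_insert_self _ _))

/-- **Hamiltonian paths from `0` to `g`** in the subgroup `H` generated by `S ∩ H`. -/
theorem gp_subgroup [Finite Γ] {S : Set Γ} (hS : ∀ s ∈ S, -s ∈ S) (H : AddSubgroup Γ)
    (hH : AddSubgroup.closure (S ∩ H) = H) {g : Γ} (hg : g ∈ S) (hgH : g ∈ H) (h0 : g ≠ 0) :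
    GP S (H : Set Γ) 0 g g := by
  classical
  have hfin : (S ∩ (H : Set Γ)).Finite := Set.toFinite _
  have h1 := gp_closure hS hg h0 hfin.toFinset (fun x hx => (hfin.mem_toFinset.1 hx).1)
  have h2 : insert g (S ∩ (H : Set Γ)) = S ∩ (H : Set Γ) :=
    Set.insert_eq_of_mem (Set.mem_inter hg hgH)
  rw [hfin.coe_toFinset, h2, hH] at h1
  exact h1

end Pool.Agent.HamTrans
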