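import Pool.Agent.HamTrans.Attach

set_option linter.unusedSectionVars false

namespace Pool.Agent.HamTrans

open List

variable {Γ : Type*} [AddCommGroup Γ]

theorem exists_last (l : List Γ) (h : l ≠ []) : ∃ l' x, l = l' ++ [x] := by
  rcases List.eq_nil_or_concat l with h' | ⟨l', x, h'⟩
  · exact absurd h' h
  · exact ⟨l', x, by rw [h', List.concat_eq_append]⟩

theorem exists_head (l : List Γ) (h : l ≠ []) : ∃ x l', l = x :: l' := by
  cases l with
  | nil => exact absurd rfl h
  | cons x l' => exact ⟨x, l', rfl⟩

/-- the equation obtained by reflecting a coset segment of a Hamiltonian cycle -/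
theorem flip_eq [Finite Γ] {S : Set Γ} (hS : ∀ s ∈ S, -s ∈ S) (hN : N3const S)
    (H : AddSubgroup Γ) {t : Γ} (ht : t ∈ S)
    {Q Q' Q'' R R' R'' : List Γ} {α q2 c3 β d r1 r2 e f : Γ}
    (hQ : HP S (H : Set Γ) Q) (hQ1 : Q = 0 :: α :: q2 :: Q') (hQ2 : Q = Q'' ++ [c3, d - β, d])
    (hR : HP S {x | x - t ∉ H} R) (hR1 : R = d :: r1 :: r2 :: R') (hR2 : R = R'' ++ [e, f, 0]) :
    ind S (d - (t + c3)) + ind S (r1 - (t + (d - β))) + ind S (t + α - f) + ind S (t + q2)
    = ind S (d - (t + (d - q2))) + ind S (r1 - (t + (d - α))) + ind S (t + β - f)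
      + ind S (t + (d - c3)) := by
  have hd : d ∈ H := (hQ.mem d).1 (by rw [hQ2]; simp)
  set Qt := Q.map (fun x => t + x) with hQt
  set Qs := (Q.map (fun x => (t + d) - x)).reverse with hQs
  have hQt1 : Qt = t :: (t + α) :: (t + q2) :: Q'.map (fun x => t + x) := by
    rw [hQt, hQ1]; simp
  have hQt2 : Qt = Q''.map (fun x => t + x) ++ [t + c3, t + (d - β), t + d] := by
    rw [hQt, hQ2]; simp
  have hQs1 : Qs = t :: (t + β) :: (t + (d - c3)) ::
      (Q''.map (fun x => (t + d) - x)).reverse := by
    rw [hQs, hQ2]; simp [add_sub_assoc]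
  have hQs2 : Qs = (Q'.map (fun x => (t + d) - x)).reverse
      ++ [t + (d - q2), t + (d - α), t + d] := by
    rw [hQs, hQ1]; simp [add_sub_assoc]
  have hPt : HP S {x | x - t ∈ H} Qt := (hQ.translate t).congr (fun x => Iff.rfl)
  have hPs : HP S {x | x - t ∈ H} Qs := by
    refine ((hQ.reflect hS (t + d)).reverse hS).congr (fun x => ?_)
    simp only [Set.mem_ofPred_eq, SetLike.mem_coe]
    have : t + d - x = d - (x - t) := by abel
    rw [this]
    exact ⟨fun h => by have := H.sub_mem hd h; simpa using this, fun h => H.sub_mem hd h⟩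
  -- both lists close up to Hamiltonian cycles
  have hHC : ∀ Q₀ : List Γ, HP S {x | x - t ∈ H} Q₀ → Q₀.head? = some t →
      Q₀.getLast? = some (t + d) → HC S (Q₀ ++ R) := by
    intro Q₀ h hh hl
    refine ⟨?_, ?_, ?_, ?_⟩
    · rw [List.isChain_append]
      refine ⟨h.chain, hR.chain, ?_⟩
      intro u hu v hv
      rw [hl] at hu; rw [hR1] at hv
      simp at hu hv; subst hu; subst hv
      unfold Rel
      have : d - (t + d) = -t := by abel
      rw [this]; exact hS _ ht
    · rw [List.nodup_append]
      refine ⟨h.nodup, hR.nodup, ?_⟩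
      intro a ha b hb hab
      subst hab
      exact (hR.mem a).1 hb ((h.mem a).1 ha)
    · intro x
      rw [List.mem_append, h.mem, hR.mem]
      by_cases hx : x - t ∈ H
      · left; exact hx
      · right; exact hx
    · intro u hu v hv
      have hne : Q₀ ≠ [] := by intro h'; rw [h'] at hh; simp at hh
      have h1 : (Q₀ ++ R).head? = some t := by
        rw [List.head?_append, hh]; rfl
      have h2 : (Q₀ ++ R).getLast? = some 0 := by
        rw [hR2, ← List.append_assoc, List.getLast?_append]; simp
      rw [h1] at hu; rw [h2] at hv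
      simp at hu hv; subst hu; subst hv
      unfold Rel; simpa using ht
  have h1 := hN (Qt ++ R) (Qs ++ R)
    (hHC Qt hPt (by rw [hQt1]; rfl) (by rw [hQt2, List.getLast?_append]; simp))
    (hHC Qs hPs (by rw [hQs1]; rfl) (by rw [hQs2, List.getLast?_append]; simp))
  rw [cyc3_append S hQt1 hQt2 hR1 hR2, cyc3_append S hQs1 hQs2 hR1 hR2] at h1
  have h2 : lin3 S Qs = lin3 S Qt := by
    rw [hQs, lin3_reverse hS, lin3_map_sub hS, hQt, lin3_map_add]
  rw [h2] at h1
  simp only [sub_zero] at h1
  omega

/-- **Lemma B.** If a Hamiltonian path of the subgroup `H` starts with the step `α` and ends with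
the step `β`, then `t + α - β` and `t - α + β` belong to `S` for every `t ∈ S \ H`. -/
theorem lemmaB [Finite Γ] {S : Set Γ} (hS : ∀ s ∈ S, -s ∈ S) (h0 : (0 : Γ) ∉ S)
    (hN : N3const S) (hgen : AddSubgroup.closure S = ⊤) (H : AddSubgroup Γ)
    (hH : AddSubgroup.closure (S ∩ H) = H) {t : Γ} (ht : t ∈ S) (htH : t ∉ H)
    {Q Q' P : List Γ} {α q2 β d : Γ}
    (hQ : HP S (H : Set Γ) Q) (hQ1 : Q = 0 :: α :: q2 :: Q')
    (hQ2 : q2 :: Q' = P ++ [d - β, d]) :
    t + α - β ∈ S ∧ t - α + β ∈ S := by
  have hαH : α ∈ H := (hQ.mem α).1 (by rw [hQ1]; simp)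
  have hq2H : q2 ∈ H := (hQ.mem q2).1 (by rw [hQ1]; simp)
  have hdH : d ∈ H := (hQ.mem d).1 (by rw [hQ1, hQ2]; simp)
  have hQc := hQ.chain
  rw [hQ1, List.isChain_cons_cons, List.isChain_cons_cons] at hQc
  obtain ⟨hc1, hc2, hc3⟩ := hQc
  have hgS : α - q2 ∈ S := by
    have := hc2.symm hS
    exact this
  have hg0 : α - q2 ≠ 0 := fun h => h0 (h ▸ hgS)
  obtain ⟨M, hM1, hM2, hM3⟩ := attach hS hgen H hH ht htH hgS (H.sub_mem hαH hq2H) hg0
  -- chain for translates of `M`
  have hMt : ∀ z : Γ, (z :: (M.map (fun x => z + x) ++ [z + (α - q2)])).IsChain (Rel S) := by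
    intro z
    have := chain_map_add z hM1
    simpa using this
  obtain ⟨L0, c3, hL0⟩ := exists_last (0 :: α :: P) (by simp)
  have hQ2' : Q = L0 ++ [c3, d - β, d] := by
    have h1 : Q = (0 :: α :: P) ++ [d - β, d] := by rw [hQ1, hQ2]; simp
    rw [h1, hL0]; simp
  have hQn := hQ.nodup
  -- membership helper
  have hMz : ∀ z ∈ H, ∀ x, x ∈ M.map (fun x => z + x) ↔ (x ∉ H ∧ x - t ∉ H) := by
    intro z hz x
    rw [List.mem_map]
    constructor
    · rintro ⟨y, hy, rfl⟩
      obtain ⟨h1, h2⟩ := (hM3 y).1 hy
      refine ⟨fun h => h1 ?_, fun h => h2 ?_⟩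
      · have := H.sub_mem h hz; simpa using this
      · have := H.sub_mem h hz
        have e : z + y - t - z = y - t := by abel
        rwa [e] at this
    · rintro ⟨h1, h2⟩
      refine ⟨x - z, (hM3 _).2 ⟨fun h => h1 ?_, fun h => h2 ?_⟩, by abel⟩
      · have := H.add_mem h hz; simpa using this
      · have := H.add_mem h hz
        have e : x - z - t + z = x - t := by abel
        rwa [e] at this
  -- first path
  have e1 : q2 + (α - q2) = α := by abel
  have hRii : HP S {x | x - t ∉ H}
      ((q2 :: Q').reverse ++ (M.map (fun x => q2 + x) ++ [α, 0])) := by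
    refine ⟨?_, ?_, ?_⟩
    · rw [List.isChain_append]
      refine ⟨chain_reverse hS hc3, ?_, ?_⟩
      · have h1 := hMt q2
        rw [e1, List.isChain_cons] at h1
        rw [show M.map (fun x => q2 + x) ++ [α, 0] = (M.map (fun x => q2 + x) ++ [α]) ++ [0] by simp,
          List.isChain_append]
        refine ⟨h1.2, by simp, ?_⟩
        intro u hu v hv
        simp at hu hv; subst hu; subst hv
        exact hc1.symm hS
      · intro u hu v hv
        simp at hu; subst hu
        have h1 := hMt q2
        rw [e1, List.isChain_cons] at h1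
        apply h1.1
        cases M with
        | nil => simpa using hv
        | cons m M => simpa using hv
    · have hperm : (q2 :: Q').reverse ++ (M.map (fun x => q2 + x) ++ [α, 0]) ~
          M.map (fun x => q2 + x) ++ Q := by
        rw [hQ1]
        have h1 : ((q2 :: Q').reverse ++ [α, 0]) ~ (0 :: α :: q2 :: Q') := by
          have : (0 :: α :: q2 :: Q').reverse = (q2 :: Q').reverse ++ [α, 0] := by simp
          rw [← this]; exact List.reverse_perm _
        refine (List.perm_append_comm_assoc _ _ _).trans (h1.append_left _)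
      rw [hperm.nodup_iff, List.nodup_append]
      refine ⟨hM2.map (fun a b hab => by simpa using hab), hQn, ?_⟩
      intro a ha b hb hab
      subst hab
      exact ((hMz q2 hq2H a).1 ha).1 ((hQ.mem a).1 hb)
    · intro x
      have hQx := hQ.mem x
      rw [hQ1] at hQx
      simp only [List.mem_append, List.mem_reverse, List.mem_cons, List.not_mem_nil, or_false,
        hMz q2 hq2H x, Set.mem_ofPred_eq, SetLike.mem_coe] at hQx ⊢
      constructor
      · rintro ((h | h) | h | h)
        · intro h'
          have hx : x ∈ H := hQx.1 (by tauto)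
          exact htH (by have := H.sub_mem hx h'; simpa using this)
        · intro h'
          have hx : x ∈ H := hQx.1 (by tauto)
          exact htH (by have := H.sub_mem hx h'; simpa using this)
        · exact h.2
        · intro h'
          have hx : x ∈ H := hQx.1 (by tauto)
          exact htH (by have := H.sub_mem hx h'; simpa using this)
      · intro h
        by_cases hx : x ∈ H
        · have := hQx.2 hx
          tauto
        · tauto
  -- second path
  have e2 : d - α + (α - q2) = d - q2 := by abel
  have hRi : HP S {x | x - t ∉ H}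
      ([d, d - α] ++ (M.map (fun x => (d - α) + x) ++ (q2 :: Q').map (fun x => d - x))) := by
    refine ⟨?_, ?_, ?_⟩
    · have h1 := hMt (d - α)
      rw [e2] at h1
      have h2 : ((q2 :: Q').map (fun x => d - x)).IsChain (Rel S) := chain_map_sub hS d hc3
      rw [List.cons_append, List.cons_append, List.nil_append, List.isChain_cons_cons]
      constructor
      · have := hc1.sub_left hS d
        simpa using this
      · rw [List.map_cons] at h2 ⊢
        have h3 : (d - α) :: (M.map (fun x => (d - α) + x) ++ (d - q2) :: Q'.map (fun x => d - x))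
            = ((d - α) :: M.map (fun x => (d - α) + x)) ++ (d - q2) :: Q'.map (fun x => d - x) := by
          simp
        rw [h3, List.isChain_split]
        refine ⟨?_, h2⟩
        simpa using h1
    · have hperm : [d, d - α] ++ (M.map (fun x => (d - α) + x) ++ (q2 :: Q').map (fun x => d - x)) ~
          M.map (fun x => (d - α) + x) ++ Q.map (fun x => d - x) := by
        rw [hQ1]
        have h1 : (0 :: α :: q2 :: Q').map (fun x => d - x)
            = [d, d - α] ++ (q2 :: Q').map (fun x => d - x) := by simp
        rw [h1]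
        exact List.perm_append_comm_assoc _ _ _
      rw [hperm.nodup_iff, List.nodup_append]
      refine ⟨hM2.map (fun a b hab => by simpa using hab),
        hQn.map (fun a b hab => by simpa using hab), ?_⟩
      intro a ha b hb hab
      subst hab
      obtain ⟨y, hy, rfl⟩ := List.mem_map.1 hb
      exact ((hMz (d - α) (H.sub_mem hdH hαH) _).1 ha).1 (H.sub_mem hdH ((hQ.mem y).1 hy))
    · intro x
      have hQx : x ∈ Q.map (fun x => d - x) ↔ x ∈ H := by
        rw [List.mem_map]
        constructor
        · rintro ⟨y, hy, rfl⟩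
          exact H.sub_mem hdH ((hQ.mem y).1 hy)
        · intro h
          exact ⟨d - x, (hQ.mem _).2 (H.sub_mem hdH h), by abel⟩
      rw [hQ1, show (0 :: α :: q2 :: Q').map (fun x => d - x)
            = [d, d - α] ++ (q2 :: Q').map (fun x => d - x) by simp] at hQx
      rw [List.mem_append] at hQx
      rw [List.mem_append, List.mem_append, hMz (d - α) (H.sub_mem hdH hαH) x]
      simp only [Set.mem_ofPred_eq, SetLike.mem_coe]
      constructor
      · rintro (h | h | h)
        · intro h'
          have hx : x ∈ H := hQx.1 (by tauto)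
          exact htH (by have := H.sub_mem hx h'; simpa using this)
        · exact h.2
        · intro h'
          have hx : x ∈ H := hQx.1 (by tauto)
          exact htH (by have := H.sub_mem hx h'; simpa using this)
      · intro h
        by_cases hx : x ∈ H
        · have := hQx.2 hx
          tauto
        · tauto
  -- explicit ends
  have hii1 : ∃ r2 R', (q2 :: Q').reverse ++ (M.map (fun x => q2 + x) ++ [α, 0])
      = d :: (d - β) :: r2 :: R' := by
    obtain ⟨r2, R', h⟩ := exists_head (P.reverse ++ (M.map (fun x => q2 + x) ++ [α, 0])) (by simp)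
    refine ⟨r2, R', ?_⟩
    rw [hQ2, ← h]; simp
  have hii2 : ∃ e R'', (q2 :: Q').reverse ++ (M.map (fun x => q2 + x) ++ [α, 0])
      = R'' ++ [e, α, 0] := by
    obtain ⟨R'', e, h⟩ := exists_last ((q2 :: Q').reverse ++ M.map (fun x => q2 + x)) (by simp)
    refine ⟨e, R'', ?_⟩
    rw [← List.append_assoc, h]; simp
  have hi1 : ∃ r2 R', [d, d - α] ++ (M.map (fun x => (d - α) + x) ++ (q2 :: Q').map (fun x => d - x))
      = d :: (d - α) :: r2 :: R' := by
    obtain ⟨r2, R', h⟩ := exists_head (M.map (fun x => (d - α) + x) ++ (q2 :: Q').map (fun x => d - x))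
      (by simp)
    exact ⟨r2, R', by rw [h]; rfl⟩
  have hi2 : ∃ e R'', [d, d - α] ++ (M.map (fun x => (d - α) + x) ++ (q2 :: Q').map (fun x => d - x))
      = R'' ++ [e, β, 0] := by
    obtain ⟨R'', e, h⟩ := exists_last ([d, d - α] ++ (M.map (fun x => (d - α) + x)
      ++ P.map (fun x => d - x))) (by simp)
    refine ⟨e, R'', ?_⟩
    have h1 : (q2 :: Q').map (fun x => d - x) = P.map (fun x => d - x) ++ [β, 0] := by
      rw [hQ2]; simp
    rw [h1, ← List.append_assoc, ← List.append_assoc]
    rw [← List.append_assoc] at h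
    rw [h]; simp
  obtain ⟨r2, R1, hii1⟩ := hii1
  obtain ⟨e, R2, hii2⟩ := hii2
  obtain ⟨r2', R1', hi1⟩ := hi1
  obtain ⟨e', R2', hi2⟩ := hi2
  have E1 := flip_eq hS hN H ht hQ hQ1 hQ2' hRii hii1 hii2
  have E2 := flip_eq hS hN H ht hQ hQ1 hQ2' hRi hi1 hi2
  have i1 : ind S (d - β - (t + (d - β))) = 1 := by
    have : d - β - (t + (d - β)) = -t := by abel
    rw [this]; exact ind_of_mem (hS _ ht)
  have i2 : ind S (t + α - α) = 1 := by
    have : t + α - α = t := by abel
    rw [this]; exact ind_of_mem ht
  have i3 : ind S (d - β - (t + (d - α))) = ind S (t - α + β) := by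
    rw [ind_sub_comm hS]; congr 1; abel
  have i4 : ind S (t + β - α) = ind S (t - α + β) := by congr 1; abel
  have i5 : ind S (d - α - (t + (d - β))) = ind S (t + α - β) := by
    rw [ind_sub_comm hS]; congr 1; abel
  have i6 : ind S (d - α - (t + (d - α))) = 1 := by
    have : d - α - (t + (d - α)) = -t := by abel
    rw [this]; exact ind_of_mem (hS _ ht)
  have i7 : ind S (t + β - β) = 1 := by
    have : t + β - β = t := by abel
    rw [this]; exact ind_of_mem ht
  rw [i1, i2, i3, i4] at E1
  rw [i5, i6, i7] at E2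
  have b1 := ind_le_one S (t + α - β)
  have b2 := ind_le_one S (t - α + β)
  constructor
  · apply mem_of_ind; omega
  · apply mem_of_ind; omega

end Pool.Agent.HamTrans
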