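import Pool.Agent.HamTrans.Four

set_option linter.unusedSectionVars false

namespace Pool.Agent.HamTrans

open List

variable {Γ : Type*} [AddCommGroup Γ]

theorem length_le_card [Finite Γ] (H : AddSubgroup Γ) {l : List Γ} (hn : l.Nodup)
    (hm : ∀ x ∈ l, x ∈ H) : l.length ≤ Nat.card H := by
  classical
  have h1 : (l.toFinset : Set Γ) ⊆ (H : Set Γ) := by
    intro y hy
    rw [Finset.mem_coe, List.mem_toFinset] at hy
    exact hm y hy
  have h2 := Set.ncard_le_ncard h1 (Set.toFinite _)
  rw [Set.ncard_coe_finset, List.toFinset_card_of_nodup hn] at h2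
  exact h2

theorem four_le_card [Finite Γ] {a b : Γ} (ha0 : a ≠ 0) (hb0 : b ≠ 0) (hab : b ≠ a)
    (hab' : b ≠ -a) : 4 ≤ Nat.card (AddSubgroup.closure {a, b}) := by
  have haV : a ∈ AddSubgroup.closure {a, b} := AddSubgroup.subset_closure (by simp)
  have hbV : b ∈ AddSubgroup.closure {a, b} := AddSubgroup.subset_closure (by simp)
  by_cases h2a : a + a = 0
  · have h1 : a + b ≠ 0 := fun h => hab' (eq_neg_of_add_eq_zero_right h)
    have := length_le_card (AddSubgroup.closure {a, b}) (l := [0, a, a + b, b]) (by
      simp only [List.nodup_cons, List.mem_cons, List.not_mem_nil, or_false, not_or,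
        not_false_eq_true, List.nodup_nil, and_true]
      refine ⟨⟨ha0.symm, h1.symm, hb0.symm⟩, ⟨?_, hab.symm⟩, ?_⟩
      · intro h; apply hb0; simpa using h.symm
      · intro h; apply ha0; simpa using h) (by
      intro x hx
      simp only [List.mem_cons, List.not_mem_nil, or_false] at hx
      rcases hx with rfl | rfl | rfl | rfl
      · exact AddSubgroup.zero_mem _
      · exact haV
      · exact AddSubgroup.add_mem _ haV hbV
      · exact hbV)
    simpa using this
  · have := length_le_card (AddSubgroup.closure {a, b}) (l := [0, a, -a, b]) (by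
      simp only [List.nodup_cons, List.mem_cons, List.not_mem_nil, or_false, not_or,
        not_false_eq_true, List.nodup_nil, and_true]
      refine ⟨⟨ha0.symm, ?_, hb0.symm⟩, ⟨?_, hab.symm⟩, hab'.symm⟩
      · intro h; apply ha0; simpa using h.symm
      · intro h; apply h2a
        nth_rw 1 [h]; simp) (by
      intro x hx
      simp only [List.mem_cons, List.not_mem_nil, or_false] at hx
      rcases hx with rfl | rfl | rfl | rfl
      · exact AddSubgroup.zero_mem _
      · exact haV
      · exact AddSubgroup.neg_mem _ haV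
      · exact hbV)
    simpa using this

/-- there is an element of `S ∩ H` outside a smaller subgroup -/
theorem exists_outside [Finite Γ] {S : Set Γ} {H : AddSubgroup Γ}
    (hH : AddSubgroup.closure (S ∩ H) = H) {V : AddSubgroup Γ} (h : Nat.card V < Nat.card H) :
    ∃ c ∈ S, c ∈ H ∧ c ∉ V := by
  by_contra hcon
  push Not at hcon
  have h1 : H ≤ V := by
    rw [← hH, AddSubgroup.closure_le]
    intro x hx
    exact hcon x hx.1 hx.2
  have := AddSubgroup.card_le_of_le h1
  omega

theorem lemmaG [Finite Γ] {S : Set Γ} (hG : Good S) (H : AddSubgroup Γ)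
    (hH : AddSubgroup.closure (S ∩ H) = H) (hcard : 5 ≤ Nat.card H)
    (hthin : ∀ a ∈ S, a ∈ H → ∃ b ∈ S, b ∈ H ∧ b ≠ a ∧ b ≠ -a) {t : Γ} (ht : t ∈ S)
    (htH : t ∉ H) {a b : Γ} (ha : a ∈ S) (haH : a ∈ H) (hb : b ∈ S) (hbH : b ∈ H) :
    t + a + b ∈ S := by
  have ha0 := hG.ne_zero ha
  have hb0 := hG.ne_zero hb
  have hle : ∀ x y, x ∈ H → y ∈ H → AddSubgroup.closure {x, y} ≤ H := by
    intro x y hx hy
    rw [AddSubgroup.closure_le]
    intro z hz
    rcases hz with rfl | rfl <;> assumption
  by_cases hba : b = -a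
  · rw [hba]; simpa using ht
  by_cases hab : b = a
  · subst hab
    by_cases h2 : b + b = 0
    · rw [add_assoc, h2, add_zero]; exact ht
    obtain ⟨b', hb'S, hb'H, hb'1, hb'2⟩ := hthin b hb hbH
    have hb'0 := hG.ne_zero hb'S
    by_cases h5 : 5 ≤ Nat.card (AddSubgroup.closure {b, b'})
    · exact (pair_aa hG hb hb'S ht hb'1 hb'2 h2 h5 (fun h => htH (hle _ _ hbH hb'H h))).1
    · have h4 : Nat.card (AddSubgroup.closure {b, b'}) = 4 := by
        have := four_le_card hb0 hb'0 hb'1 hb'2
        omega
      have hord := order_four hb0 h2 h4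
      have heq : AddSubgroup.zmultiples b = AddSubgroup.closure {b, b'} := by
        apply AddSubgroup.eq_of_le_of_card_ge
        · rw [AddSubgroup.zmultiples_le]; exact AddSubgroup.subset_closure (by simp)
        · rw [h4, Nat.card_zmultiples, hord]
      obtain ⟨c, hcS, hcH, hcV⟩ := exists_outside hH (V := AddSubgroup.closure {b, b'}) (by omega)
      rw [← heq] at hcV
      have hc1 : c ≠ b := by
        rintro rfl; exact hcV (AddSubgroup.mem_zmultiples _)
      have hc2 : c ≠ -b := by
        rintro rfl; exact hcV (AddSubgroup.neg_mem _ (AddSubgroup.mem_zmultiples _))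
      have h5' : 5 ≤ Nat.card (AddSubgroup.closure {b, c}) := by
        by_contra hlt
        have h6 : AddSubgroup.zmultiples b = AddSubgroup.closure {b, c} := by
          apply AddSubgroup.eq_of_le_of_card_ge
          · rw [AddSubgroup.zmultiples_le]; exact AddSubgroup.subset_closure (by simp)
          · rw [Nat.card_zmultiples, hord]; omega
        apply hcV
        rw [h6]; exact AddSubgroup.subset_closure (by simp)
      exact (pair_aa hG hb hcS ht hc1 hc2 h2 h5' (fun h => htH (hle _ _ hbH hcH h))).1
  · by_cases h5 : 5 ≤ Nat.card (AddSubgroup.closure {a, b})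
    · exact pair_ab hG ha hb ht hab hba h5 (fun h => htH (hle _ _ haH hbH h))
    · have h4 : Nat.card (AddSubgroup.closure {a, b}) = 4 := by
        have := four_le_card ha0 hb0 hab hba
        omega
      obtain ⟨c, hcS, hcH, hcV⟩ := exists_outside hH (V := AddSubgroup.closure {a, b}) (by omega)
      refine pair_four hG ha hb hcS ht hab hba h4 hcV (fun h => htH ?_)
      refine (sup_le (hle _ _ haH hbH) ?_ : _ ≤ H) h
      rw [AddSubgroup.zmultiples_le]; exact hcH

end Pool.Agent.HamTrans
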