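import Pool.Agent.HamTrans.Words

set_option linter.unusedSectionVars false

namespace Pool.Agent.HamTrans

open List

variable {Γ : Type*} [AddCommGroup Γ]

/-- the standing assumptions -/
structure Good (S : Set Γ) : Prop where
  neg : ∀ s ∈ S, -s ∈ S
  zero : (0 : Γ) ∉ S
  gen : AddSubgroup.closure S = ⊤
  const : N3const S

theorem Good.ne_zero {S : Set Γ} (hG : Good S) {a : Γ} (ha : a ∈ S) : a ≠ 0 :=
  fun h => hG.zero (h ▸ ha)

theorem run_append (x a : Γ) (k l : ℕ) : run x a (k + l) = run x a k ++ run (x + k • a) a l := by
  induction l with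
  | zero => simp
  | succ l ih =>
    rw [← add_assoc, run_succ', ih, run_succ', List.append_assoc]
    congr 3
    rw [add_nsmul]; abel

theorem order_smul_last [Finite Γ] (a : Γ) : (addOrderOf a - 1) • a = -a := by
  have h1 : 0 < addOrderOf a := addOrderOf_pos a
  have h2 : (addOrderOf a - 1) • a + a = 0 := by
    rw [← succ_nsmul]
    have : addOrderOf a - 1 + 1 = addOrderOf a := by omega
    rw [this]; exact addOrderOf_nsmul_eq_zero a
  exact eq_neg_of_add_eq_zero_left h2

theorem run_HP [Finite Γ] {S : Set Γ} {a : Γ} (ha : a ∈ S) (x : Γ) :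
    HP S {y | y - x ∈ AddSubgroup.zmultiples a} (run x a (addOrderOf a)) :=
  ⟨run_chain ha _ _, run_nodup _ _ le_rfl, fun _ => mem_run_full⟩

theorem run_HP0 [Finite Γ] {S : Set Γ} {a : Γ} (ha : a ∈ S) :
    HP S (AddSubgroup.zmultiples a : Set Γ) (run 0 a (addOrderOf a)) :=
  (run_HP ha 0).congr (fun y => by simp)

theorem run_last_full [Finite Γ] (x a : Γ) :
    (run x a (addOrderOf a)).getLast? = some (x - a) := by
  have h1 : 0 < addOrderOf a := addOrderOf_pos a
  obtain ⟨k, hk⟩ := Nat.exists_eq_add_of_le' h1
  have h2 := order_smul_last a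
  rw [hk] at h2 ⊢
  rw [run_last]
  have : k • a = -a := by simpa using h2
  rw [this, sub_eq_add_neg]

theorem closure_pair_eq (a b : Γ) :
    AddSubgroup.closure {a, b} = AddSubgroup.zmultiples a ⊔ AddSubgroup.zmultiples b := by
  rw [Set.insert_eq, AddSubgroup.closure_union, AddSubgroup.zmultiples_eq_closure,
    AddSubgroup.zmultiples_eq_closure]

theorem closure_gen {S : Set Γ} {X : Set Γ} (hX : X ⊆ S) :
    AddSubgroup.closure (S ∩ (AddSubgroup.closure X : Set Γ)) = AddSubgroup.closure X := by
  apply le_antisymm
  · rw [AddSubgroup.closure_le]; exact Set.inter_subset_right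
  · apply AddSubgroup.closure_mono
    intro x hx
    exact ⟨hX hx, AddSubgroup.subset_closure hx⟩

theorem order_ge_two [Finite Γ] {a : Γ} (h : a ≠ 0) : 2 ≤ addOrderOf a := by
  have h1 : addOrderOf a ≠ 1 := fun h' => h (AddMonoid.addOrderOf_eq_one_iff.1 h')
  have h2 : 0 < addOrderOf a := addOrderOf_pos a
  omega

theorem quot_order_ge_two [Finite Γ] {B : AddSubgroup Γ} {b : Γ} (h : b ∉ B) :
    2 ≤ addOrderOf (b : Γ ⧸ B) := by
  apply order_ge_two
  intro h'; exact h ((QuotientAddGroup.eq_zero_iff _).1 h')

theorem order_ge_three [Finite Γ] {a : Γ} (h : a ≠ 0) (h2 : a + a ≠ 0) : 3 ≤ addOrderOf a := by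
  have h1 := order_ge_two h
  have h3 : addOrderOf a ≠ 2 := by
    intro h'
    apply h2
    have := addOrderOf_nsmul_eq_zero a
    rw [h', two_nsmul] at this
    exact this
  omega

/-- `t ± 2a ∈ S` -/
theorem pair_aa [Finite Γ] {S : Set Γ} (hG : Good S) {a b t : Γ} (ha : a ∈ S) (hb : b ∈ S)
    (ht : t ∈ S) (hab : b ≠ a) (hab' : b ≠ -a) (h2a : a + a ≠ 0)
    (hcard : 5 ≤ Nat.card (AddSubgroup.closure {a, b}))
    (htH : t ∉ AddSubgroup.closure {a, b}) : t + a + a ∈ S ∧ t - a - a ∈ S := by
  have hgenH : AddSubgroup.closure (S ∩ (AddSubgroup.closure {a, b} : Set Γ))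
      = AddSubgroup.closure {a, b} := closure_gen (by
        intro x hx; rcases hx with rfl | rfl <;> assumption)
  have ha0 := hG.ne_zero ha
  have hm := order_ge_three ha0 h2a
  set m := addOrderOf a with hmdef
  have key : ∀ Q T U : List Γ, ∀ d : Γ, HP S ((AddSubgroup.closure {a, b} : AddSubgroup Γ) : Set Γ) Q →
      Q = 0 :: a :: T → Q = U ++ [d + a, d] → t + a + a ∈ S ∧ t - a - a ∈ S := by
    intro Q T U d hQ h1 h2
    have h3 : Q = U ++ [d - -a, d] := by rw [h2, sub_neg_eq_add]
    have := lemmaB' hG.neg hG.zero hG.const hG.gen _ hgenH ht htH (by omega) hQ h1 h3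
    simpa [sub_eq_add_neg] using this
  by_cases hbB : b ∈ AddSubgroup.zmultiples a
  · -- cyclic case
    have hH : AddSubgroup.closure {a, b} = AddSubgroup.zmultiples a := by
      rw [closure_pair_eq, sup_eq_left, AddSubgroup.zmultiples_le]; exact hbB
    have hb1 : b ∈ run 0 a (addOrderOf a) := by rw [mem_run_full]; simpa using hbB
    rw [mem_run] at hb1
    obtain ⟨j, hj, hbj⟩ := hb1
    rw [zero_add] at hbj
    have hj0 : j ≠ 0 := by rintro rfl; simp at hbj; exact hG.zero (hbj ▸ hb)
    have hj1 : j ≠ 1 := by rintro rfl; simp at hbj; exact hab hbj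
    have hjm : j ≠ m - 1 := by
      rintro rfl
      rw [order_smul_last] at hbj; exact hab' hbj
    have hjm' : j + 2 ≤ m := by omega
    have hjsub : (m - j) • a + b = 0 := by
      rw [hbj, ← add_nsmul]
      have : m - j + j = m := by omega
      rw [this]; exact addOrderOf_nsmul_eq_zero a
    have hsplit : run 0 a m = run 0 a (m - j) ++ run ((m - j) • a) a j := by
      have := run_append 0 a (m - j) j
      rw [show m - j + j = m by omega, zero_add] at this
      exact this
    obtain ⟨j', rfl⟩ : ∃ j', j = j' + 2 := ⟨j - 2, by omega⟩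
    obtain ⟨k, hk⟩ : ∃ k, m - (j' + 2) = k + 2 := ⟨m - (j' + 2) - 2, by omega⟩
    have hHP : HP S (AddSubgroup.zmultiples a : Set Γ)
        (run 0 a (m - (j' + 2)) ++ (run ((m - (j' + 2)) • a) a (j' + 2)).reverse) := by
      have h1 := run_HP0 (S := S) ha
      rw [← hmdef, hsplit] at h1
      refine ⟨?_, ?_, ?_⟩
      · rw [List.isChain_append]
        refine ⟨run_chain ha _ _, chain_reverse hG.neg (run_chain ha _ _), ?_⟩
        intro u hu v hv
        rw [hk, show k + 2 = (k + 1) + 1 by ring, run_last] at hu
        rw [List.head?_reverse, show j' + 2 = (j' + 1) + 1 by ring, run_last] at hv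
        simp only [Option.mem_def, Option.some.injEq] at hu hv
        subst hu; subst hv
        unfold Rel
        have e1 : (m - (j' + 1 + 1)) • a + (j' + 1) • a - (0 + (k + 1) • a) = b := by
          have h3 : (m - (j' + 1 + 1)) • a = (k + 1) • a + a := by
            rw [show m - (j' + 1 + 1) = (k + 1) + 1 by omega, succ_nsmul]
          have h4 : b = (j' + 1) • a + a := by rw [hbj, ← succ_nsmul]
          rw [h3, h4]; abel
        rw [e1]; exact hb
      · have h2 := h1.nodup
        rw [List.nodup_append] at h2 ⊢
        refine ⟨h2.1, List.nodup_reverse.2 h2.2.1, ?_⟩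
        intro x hx y hy
        exact h2.2.2 x hx y (List.mem_reverse.1 hy)
      · intro x
        rw [← h1.mem x, List.mem_append, List.mem_append, List.mem_reverse]
    refine key _ (run (a + a) a k ++ (run ((m - (j' + 2)) • a) a (j' + 2)).reverse)
      (run 0 a (m - (j' + 2)) ++ (run ((m - (j' + 2)) • a + a + a) a j').reverse)
      ((m - (j' + 2)) • a) (by rw [hH]; exact hHP) ?_ ?_
    · rw [hk, show k + 2 = (k + 1) + 1 by ring, run_succ, run_succ]
      simp
    · rw [show j' + 2 = (j' + 1) + 1 by ring, run_succ ((m - (j' + 1 + 1)) • a),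
        run_succ ((m - (j' + 1 + 1)) • a + a)]
      simp
  · -- two generators
    set B := AddSubgroup.zmultiples a with hBdef
    set q := addOrderOf (b : Γ ⧸ B) with hq
    have hq2 : 2 ≤ q := quot_order_ge_two hbB
    have hH : AddSubgroup.closure {a, b} = B ⊔ AddSubgroup.zmultiples b := closure_pair_eq a b
    set s := -a + b with hs
    have hZ := run_HP0 (S := S) ha
    have hZ0 : (run 0 a m).head? = some 0 := run_head _ _ (by omega)
    have hZe : (run 0 a m).getLast? = some (-a) := by
      have := run_last_full 0 a
      simpa using this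
    obtain ⟨q', hq'⟩ : ∃ q', q = q' + 2 := ⟨q - 2, by omega⟩
    have hR := rows_HP B hZ hZ0 hZe hb (q' + 1) (by omega) 0
    set x := (q' + 1) • s with hx
    have hL := run_HP (S := S) (hG.neg a ha) x
    rw [addOrderOf_neg, AddSubgroup.zmultiples_neg] at hL
    have hxb : x - (q' + 1) • b ∈ B := by
      have : x - (q' + 1) • b = (q' + 1) • (-a) := by
        rw [hx, hs, nsmul_add]; abel
      rw [this]
      exact B.nsmul_mem (B.neg_mem (AddSubgroup.mem_zmultiples a)) _
    have hHP : HP S ((B ⊔ AddSubgroup.zmultiples b : AddSubgroup Γ) : Set Γ)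
        (rows (run 0 a m) s (q' + 1) 0 ++ run x (-a) m) := by
      refine (hR.append hL ?_ ?_).congr (fun y => ?_)
      · rintro y ⟨i, hi, hy⟩ hy'
        simp only [Set.mem_ofPred_eq] at hy'
        have h1 : (q' + 1 - i) • b ∈ B := by
          have e : (q' + 1 - i) • b = (y - (0 + i • b)) - (y - x) - (x - (q' + 1) • b) := by
            have : (q' + 1) • b = (q' + 1 - i) • b + i • b := by
              rw [← add_nsmul]; congr 1; omega
            rw [this]; abel
          rw [e]
          exact B.sub_mem (B.sub_mem hy hy') hxb
        exact not_mem_of_lt B b (by omega) (by omega) h1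
      · intro u hu v hv
        rw [rows_last _ _ _ _ _ hZe] at hu
        rw [run_head _ _ (by omega)] at hv
        simp only [Option.mem_def, Option.some.injEq] at hu hv
        subst hu; subst hv
        unfold Rel
        have : x - (0 + q' • s + -a) = b := by
          rw [hx, succ_nsmul, hs]; abel
        rw [this]; exact hb
      · rw [SetLike.mem_coe, mem_sup_zmultiples, ← hq, hq']
        simp only [Set.mem_ofPred_eq, zero_add]
        constructor
        · rintro (⟨i, hi, h⟩ | h)
          · exact ⟨i, by omega, h⟩
          · refine ⟨q' + 1, by omega, ?_⟩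
            have : y - (q' + 1) • b = (y - x) + (x - (q' + 1) • b) := by abel
            rw [this]; exact B.add_mem h hxb
        · rintro ⟨i, hi, h⟩
          by_cases hi' : i < q' + 1
          · left; exact ⟨i, hi', h⟩
          · right
            have hi2 : i = q' + 1 := by omega
            subst hi2
            have : y - x = (y - (q' + 1) • b) - (x - (q' + 1) • b) := by abel
            rw [this]; exact B.sub_mem h hxb
    obtain ⟨m', hm'⟩ : ∃ m', m = m' + 2 := ⟨m - 2, by omega⟩
    refine key _ (run (a + a) a m' ++ rows (run 0 a m) s q' s ++ run x (-a) m)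
      (rows (run 0 a m) s (q' + 1) 0 ++ run x (-a) m') (x - m' • a - a) (by rw [hH]; exact hHP) ?_ ?_
    · rw [rows]
      rw [hm', show m' + 2 = (m' + 1) + 1 by ring, run_succ 0 a, run_succ (0 + a) a]
      simp
    · rw [hm', show m' + 2 = (m' + 1) + 1 by ring, run_succ' x, run_succ' x]
      simp [sub_eq_add_neg, succ_nsmul]
      abel

theorem rows_length (Z : List Γ) (s : Γ) (k : ℕ) (x : Γ) :
    (rows Z s k x).length = k * Z.length := by
  induction k generalizing x with
  | zero => simp [rows]
  | succ k ih => rw [rows, List.length_append, ih, List.length_map]; ring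

theorem run_map_add (t x a : Γ) (k : ℕ) : (run x a k).map (fun z => t + z) = run (t + x) a k := by
  simp [run, add_assoc]

/-- `t + a + b ∈ S` -/
theorem pair_ab [Finite Γ] {S : Set Γ} (hG : Good S) {a b t : Γ} (ha : a ∈ S) (hb : b ∈ S)
    (ht : t ∈ S) (hab : b ≠ a) (hab' : b ≠ -a)
    (hcard : 5 ≤ Nat.card (AddSubgroup.closure {a, b}))
    (htH : t ∉ AddSubgroup.closure {a, b}) : t + a + b ∈ S := by
  have hgenH : AddSubgroup.closure (S ∩ (AddSubgroup.closure {a, b} : Set Γ))
      = AddSubgroup.closure {a, b} := closure_gen (by
        intro x hx; rcases hx with rfl | rfl <;> assumption)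
  have ha0 := hG.ne_zero ha
  have hm := order_ge_two ha0
  set m := addOrderOf a with hmdef
  have haH : a ∈ AddSubgroup.closure {a, b} := AddSubgroup.subset_closure (by simp)
  by_cases hbB : b ∈ AddSubgroup.zmultiples a
  · -- cyclic case
    have hH : AddSubgroup.closure {a, b} = AddSubgroup.zmultiples a := by
      rw [closure_pair_eq, sup_eq_left, AddSubgroup.zmultiples_le]; exact hbB
    have hm5 : 5 ≤ m := by
      rw [hH, Nat.card_zmultiples] at hcard; exact hcard
    have hb1 : b ∈ run 0 a (addOrderOf a) := by rw [mem_run_full]; simpa using hbB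
    rw [mem_run] at hb1
    obtain ⟨j, hj, hbj⟩ := hb1
    rw [zero_add] at hbj
    have hj0 : j ≠ 0 := by rintro rfl; simp at hbj; exact hG.zero (hbj ▸ hb)
    have hj1 : j ≠ 1 := by rintro rfl; simp at hbj; exact hab hbj
    have hjm : j ≠ m - 1 := by
      rintro rfl
      rw [order_smul_last] at hbj; exact hab' hbj
    have hjm' : j + 2 ≤ m := by omega
    by_cases hj2 : j = 2
    · -- `b = 2a`
      subst hj2
      have hb2 : b = a + a := by rw [hbj, two_nsmul]
      obtain ⟨k, hk⟩ : ∃ k, m = k + 5 := ⟨m - 5, by omega⟩
      have hsplit : run 0 a m = run 0 a (k + 2) ++ [(k + 2) • a, (k + 3) • a, (k + 4) • a] := by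
        rw [hk, run_succ', run_succ', run_succ']; simp
      have h1 := run_HP0 (S := S) ha
      rw [← hmdef, hsplit] at h1
      have hperm : (run 0 a (k + 2) ++ [(k + 3) • a, (k + 2) • a, (k + 4) • a]) ~
          (run 0 a (k + 2) ++ [(k + 2) • a, (k + 3) • a, (k + 4) • a]) :=
        List.Perm.append_left _ (List.Perm.swap _ _ _)
      have hHP : HP S (AddSubgroup.zmultiples a : Set Γ)
          (run 0 a (k + 2) ++ [(k + 3) • a, (k + 2) • a, (k + 4) • a]) := by
        refine ⟨?_, hperm.nodup_iff.2 h1.nodup, fun x => hperm.mem_iff.trans (h1.mem x)⟩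
        rw [List.isChain_append]
        refine ⟨run_chain ha _ _, ?_, ?_⟩
        · rw [List.isChain_cons_cons, List.isChain_cons_cons]
          refine ⟨?_, ?_, by simp⟩
          · unfold Rel
            have : (k + 2) • a - (k + 3) • a = -a := by rw [succ_nsmul a (k + 2)]; abel
            rw [this]; exact hG.neg a ha
          · unfold Rel
            have : (k + 4) • a - (k + 2) • a = b := by
              rw [hb2, succ_nsmul a (k + 3), succ_nsmul a (k + 2)]; abel
            rw [this]; exact hb
        · intro u hu v hv
          rw [show k + 2 = (k + 1) + 1 by ring, run_last] at hu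
          simp only [List.head?_cons, Option.mem_def, Option.some.injEq] at hu hv
          subst hu; subst hv
          unfold Rel
          have : (k + 3) • a - (0 + (k + 1) • a) = b := by
            rw [hb2, succ_nsmul a (k + 2), succ_nsmul a (k + 1)]; abel
          rw [this]; exact hb
      have h2 := lemmaB' hG.neg hG.zero hG.const hG.gen _ hgenH ht htH (by omega)
        (α := a) (β := b) (d := (k + 4) • a)
        (T := run (a + a) a k ++ [(k + 3) • a, (k + 2) • a, (k + 4) • a])
        (U := run 0 a (k + 2) ++ [(k + 3) • a]) (by rw [hH]; exact hHP)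
        (by rw [show k + 2 = (k + 1) + 1 by ring, run_succ, run_succ]; simp)
        (by
          have : (k + 4) • a - b = (k + 2) • a := by
            rw [hb2, succ_nsmul a (k + 3), succ_nsmul a (k + 2)]; abel
          rw [this]; simp)
      have h3 : t + a ∈ S := by
        have : t - a + b = t + a := by rw [hb2]; abel
        rw [← this]; exact h2.2
      have h4 : a + a ≠ 0 := by rw [← hb2]; exact hG.ne_zero hb
      have h5 : t + a ∉ AddSubgroup.closure {a, b} := by
        intro h; apply htH
        have := (AddSubgroup.closure {a, b}).sub_mem h haH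
        simpa using this
      have h6 := (pair_aa hG ha hb h3 hab hab' h4 hcard h5).1
      have : t + a + b = t + a + a + a := by rw [hb2]; abel
      rw [this]; exact h6
    · obtain ⟨i, rfl⟩ : ∃ i, j = i + 3 := ⟨j - 3, by omega⟩
      obtain ⟨k, hk⟩ : ∃ k, m = (k + 2) + (i + 3) := ⟨m - (i + 3) - 2, by omega⟩
      have hz : (k + 2) • a + b = 0 := by
        rw [hbj, ← add_nsmul, ← hk]; exact addOrderOf_nsmul_eq_zero a
      have hz' : -((k + 2) • a) = b := neg_eq_of_add_eq_zero_right hz
      have hsplit : run a a m = a :: (run (a + a) a (k + 2) ++ run (a + a + (k + 2) • a) a (i + 2)) := by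
        rw [hk, show (k + 2) + (i + 3) = ((k + 2) + (i + 2)) + 1 by ring, run_succ, run_append]
      have hrev : (run (a + a + (k + 2) • a) a (i + 2)).reverse = run 0 (-a) (i + 2) := by
        rw [show i + 2 = (i + 1) + 1 by ring, run_reverse]
        congr 1
        have : a + a + (k + 2) • a + (i + 1) • a = (k + 2) • a + (i + 3) • a := by
          rw [show i + 3 = (i + 1) + 1 + 1 by ring, succ_nsmul a (i + 1 + 1), succ_nsmul a (i + 1)]
          abel
        rw [this, ← hbj, hz]
      have h1 := run_HP (S := S) ha a
      rw [← hmdef, hsplit] at h1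
      have hperm : (run 0 (-a) (i + 2) ++ (run (a + a) a (k + 2) ++ [a])) ~
          (a :: (run (a + a) a (k + 2) ++ run (a + a + (k + 2) • a) a (i + 2))) := by
        rw [← hrev]
        refine ((List.reverse_perm _).append_right _).trans ?_
        refine List.perm_append_comm.trans ?_
        rw [List.append_assoc]
        refine (List.perm_append_comm_assoc _ _ _).trans ?_
        exact List.Perm.refl _
      have hHP : HP S (AddSubgroup.zmultiples a : Set Γ)
          (run 0 (-a) (i + 2) ++ (run (a + a) a (k + 2) ++ [a])) := by
        refine ⟨?_, hperm.nodup_iff.2 h1.nodup, fun x => hperm.mem_iff.trans ((h1.mem x).trans ?_)⟩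
        · rw [List.isChain_append]
          refine ⟨run_chain (hG.neg a ha) _ _, ?_, ?_⟩
          · rw [List.isChain_append]
            refine ⟨run_chain ha _ _, by simp, ?_⟩
            intro u hu v hv
            rw [show k + 2 = (k + 1) + 1 by ring, run_last] at hu
            simp only [List.head?_cons, Option.mem_def, Option.some.injEq] at hu hv
            subst hu; subst hv
            unfold Rel
            have : a - (a + a + (k + 1) • a) = -((k + 2) • a) := by
              rw [show k + 2 = (k + 1) + 1 by ring, succ_nsmul a (k + 1)]; abel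
            rw [this, hz']; exact hb
          · intro u hu v hv
            rw [show i + 2 = (i + 1) + 1 by ring, run_last] at hu
            rw [List.head?_append, run_head _ _ (by omega)] at hv
            simp only [Option.some_or, Option.mem_def, Option.some.injEq] at hu hv
            subst hu; subst hv
            unfold Rel
            have : a + a - (0 + (i + 1) • -a) = b := by
              rw [hbj, show i + 3 = (i + 1) + 1 + 1 by ring, succ_nsmul a (i + 1 + 1),
                succ_nsmul a (i + 1)]
              rw [smul_neg]; abel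
            rw [this]; exact hb
        · simp only [Set.mem_ofPred_eq, SetLike.mem_coe]
          constructor
          · intro h
            have := (AddSubgroup.zmultiples a).add_mem h (AddSubgroup.mem_zmultiples a)
            simpa using this
          · intro h
            exact (AddSubgroup.zmultiples a).sub_mem h (AddSubgroup.mem_zmultiples a)
      have h2 := lemmaB' hG.neg hG.zero hG.const hG.gen _ hgenH ht htH (by omega)
        (α := -a) (β := b) (d := a)
        (T := run (-a + -a) (-a) i ++ (run (a + a) a (k + 2) ++ [a]))
        (U := run 0 (-a) (i + 2) ++ run (a + a) a (k + 1)) (by rw [hH]; exact hHP)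
        (by rw [show i + 2 = (i + 1) + 1 by ring, run_succ, run_succ]; simp)
        (by
          have : a - b = a + a + (k + 1) • a := by
            rw [← hz', show k + 2 = (k + 1) + 1 by ring, succ_nsmul a (k + 1)]; abel
          rw [this, show k + 2 = (k + 1) + 1 by ring, run_succ' (a + a)]; simp)
      have h3 := h2.2
      have : t - -a + b = t + a + b := by abel
      rwa [this] at h3
  · -- two generators
    set B := AddSubgroup.zmultiples a with hBdef
    set q := addOrderOf (b : Γ ⧸ B) with hq
    have hq2 : 2 ≤ q := quot_order_ge_two hbB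
    have hH : AddSubgroup.closure {a, b} = B ⊔ AddSubgroup.zmultiples b := closure_pair_eq a b
    set s := -a + b with hs
    have hZ := run_HP0 (S := S) ha
    have hZ0 : (run 0 a m).head? = some 0 := run_head _ _ (by omega)
    have hZe : (run 0 a m).getLast? = some (-a) := by
      have := run_last_full 0 a
      simpa using this
    obtain ⟨q', hq'⟩ : ∃ q', q = q' + 2 := ⟨q - 2, by omega⟩
    obtain ⟨m', hm'⟩ : ∃ m', m = m' + 2 := ⟨m - 2, by omega⟩
    have hR := rows_HP B hZ hZ0 hZe hb q' (by omega) 0
    have hF := rows_HP B hZ hZ0 hZe hb (q' + 2) (by omega) 0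
    have hFH : HP S ((B ⊔ AddSubgroup.zmultiples b : AddSubgroup Γ) : Set Γ)
        (rows (run 0 a m) s (q' + 2) 0) := by
      refine hF.congr (fun y => ?_)
      rw [SetLike.mem_coe, mem_sup_zmultiples, ← hq, hq']
      simp
    have hlen : Nat.card (AddSubgroup.closure {a, b}) = (q' + 2) * m := by
      rw [hH, ← hFH.length, rows_length, run_length]
    have hqm : q' = 0 → 3 ≤ m := by
      rintro rfl
      rw [hlen] at hcard; omega
    set x := q' • s with hx
    have hrowsplit : rows (run 0 a m) s (q' + 2) 0
        = rows (run 0 a m) s q' 0 ++ (run x a m ++ run (x + s) a m) := by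
      rw [rows_succ', rows_succ', run_map_add, run_map_add, List.append_assoc]
      congr 3
      · rw [zero_add, add_zero]
      · rw [succ_nsmul]; abel
    have hrun : run x a m = run x a (m' + 1) ++ [x - a] := by
      rw [hm', show m' + 2 = (m' + 1) + 1 by ring, run_succ' x a (m' + 1)]
      congr 2
      have := order_smul_last a
      rw [← hmdef, hm'] at this
      have h2 : (m' + 1) • a = -a := by simpa using this
      rw [h2, sub_eq_add_neg]
    have hperm : (rows (run 0 a m) s q' 0 ++ (run x a (m' + 1) ++ ((run (x + s) a m).reverse ++ [x - a]))) ~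
        (rows (run 0 a m) s (q' + 2) 0) := by
      rw [hrowsplit, hrun]
      apply List.Perm.append_left
      rw [List.append_assoc]
      apply List.Perm.append_left
      refine List.perm_append_comm.trans ?_
      exact (List.reverse_perm _).append_left _
    have hHP : HP S ((B ⊔ AddSubgroup.zmultiples b : AddSubgroup Γ) : Set Γ)
        (rows (run 0 a m) s q' 0 ++ (run x a (m' + 1) ++ ((run (x + s) a m).reverse ++ [x - a]))) := by
      refine ⟨?_, hperm.nodup_iff.2 hFH.nodup, fun y => hperm.mem_iff.trans (hFH.mem y)⟩
      rw [List.isChain_append]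
      refine ⟨hR.chain, ?_, ?_⟩
      · rw [List.isChain_append]
        refine ⟨run_chain ha _ _, ?_, ?_⟩
        · rw [List.isChain_append]
          refine ⟨chain_reverse hG.neg (run_chain ha _ _), by simp, ?_⟩
          intro u hu v hv
          rw [List.getLast?_reverse, run_head _ _ (by omega)] at hu
          simp only [List.head?_cons, Option.mem_def, Option.some.injEq] at hu hv
          subst hu; subst hv
          unfold Rel
          have : x - a - (x + s) = -b := by rw [hs]; abel
          rw [this]; exact hG.neg b hb
        · intro u hu v hv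
          rw [run_last] at hu
          rw [List.head?_append, List.head?_reverse, hmdef, run_last_full] at hv
          simp only [Option.some_or, Option.mem_def, Option.some.injEq] at hu hv
          subst hu; subst hv
          unfold Rel
          have h3 : m' • a = -a - a := by
            have := order_smul_last a
            rw [← hmdef, hm'] at this
            have h2 : (m' + 1) • a = -a := by simpa using this
            rw [succ_nsmul] at h2
            exact eq_sub_of_add_eq h2
          have : x + s - a - (x + m' • a) = b := by rw [h3, hs]; abel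
          rw [this]; exact hb
      · intro u hu v hv
        cases q' with
        | zero => simp [rows] at hu
        | succ q' =>
          rw [rows_last _ _ _ _ _ hZe] at hu
          rw [List.head?_append, run_head _ _ (by omega)] at hv
          simp only [Option.some_or, Option.mem_def, Option.some.injEq] at hu hv
          subst hu; subst hv
          unfold Rel
          have : x - (0 + q' • s + -a) = b := by
            rw [hx, succ_nsmul, hs]; abel
          rw [this]; exact hb
    have h1 : ∃ T, (rows (run 0 a m) s q' 0 ++ (run x a (m' + 1) ++ ((run (x + s) a m).reverse ++ [x - a])))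
        = 0 :: a :: T := by
      cases q' with
      | zero =>
        have h3 := hqm rfl
        obtain ⟨m'', hm''⟩ : ∃ m'', m' = m'' + 1 := ⟨m' - 1, by omega⟩
        refine ⟨run (a + a) a m'' ++ ((run (x + s) a m).reverse ++ [x - a]), ?_⟩
        have hx0 : x = 0 := by rw [hx, zero_smul]
        rw [rows, hm'', hx0, run_succ 0 a, run_succ (0 + a) a]
        simp
      | succ q' =>
        refine ⟨run (a + a) a m' ++ (rows (run 0 a m) s q' s ++
          (run x a (m' + 1) ++ ((run (x + s) a m).reverse ++ [x - a]))), ?_⟩
        have e1 : rows (run 0 a m) s (q' + 1) 0 = 0 :: a :: run (a + a) a m' ++ rows (run 0 a m) s q' s := by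
          have e0 : run 0 a m = 0 :: a :: run (a + a) a m' := by
            rw [hm', show m' + 2 = (m' + 1) + 1 by ring, run_succ 0 a, run_succ (0 + a) a]
            simp
          rw [rows, run_map_add, zero_add, zero_add]
          exact congrArg (fun l => l ++ rows (run 0 a m) s q' s) e0
        rw [e1]; simp
    obtain ⟨T, hT⟩ := h1
    have h2 := lemmaB' hG.neg hG.zero hG.const hG.gen _ hgenH ht htH (by omega)
        (α := a) (β := -b) (d := x - a) (T := T)
        (U := rows (run 0 a m) s q' 0 ++ (run x a (m' + 1) ++ (run (x + s + a) a (m' + 1)).reverse))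
        (by rw [hH]; exact hHP) hT
        (by
          have : x - a - -b = x + s := by rw [hs]; abel
          rw [this, hm', show m' + 2 = (m' + 1) + 1 by ring, run_succ (x + s) a (m' + 1)]
          simp)
    have h3 := h2.1
    rwa [sub_neg_eq_add] at h3

end Pool.Agent.HamTrans
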