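import Pool.Agent.HamTrans.Basic

set_option linter.unusedSectionVars false

namespace Pool.Agent.HamTrans

open List

variable {Γ : Type*} [AddCommGroup Γ]

theorem lin3_six (S : Set Γ) (a b c d e f : Γ) :
    lin3 S [a, b, c, d, e, f] = ind S (d - a) + ind S (e - b) + ind S (f - c) := by
  simp [lin3_cons4, add_assoc]

theorem cyc3_append (S : Set Γ) {Q R Q' Q'' R' R'' : List Γ} {q0 q1 q2 a b c r0 r1 r2 e f g : Γ}
    (hQ1 : Q = q0 :: q1 :: q2 :: Q') (hQ2 : Q = Q'' ++ [a, b, c])
    (hR1 : R = r0 :: r1 :: r2 :: R') (hR2 : R = R'' ++ [e, f, g]) :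
    cyc3 S (Q ++ R) = lin3 S Q + lin3 S R + (ind S (r0 - a) + ind S (r1 - b) + ind S (r2 - c))
      + (ind S (q0 - e) + ind S (q1 - f) + ind S (q2 - g)) := by
  have h0 : cyc3 S (Q ++ R) = lin3 S (Q ++ R ++ [q0, q1, q2]) := by
    rw [cyc3, hQ1]; simp
  have h1 : Q ++ R ++ [q0, q1, q2] = Q'' ++ a :: b :: c :: (R ++ [q0, q1, q2]) := by
    rw [hQ2]; simp
  have h2 : a :: b :: c :: (R ++ [q0, q1, q2]) = [a, b, c] ++ r0 :: r1 :: r2 :: (R' ++ [q0, q1, q2]) := by
    rw [hR1]; simp
  have h3 : r0 :: r1 :: r2 :: (R' ++ [q0, q1, q2]) = R'' ++ e :: f :: g :: [q0, q1, q2] := by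
    have : r0 :: r1 :: r2 :: (R' ++ [q0, q1, q2]) = R ++ [q0, q1, q2] := by rw [hR1]; simp
    rw [this, hR2]; simp
  rw [h0, h1, lin3_append, ← hQ2, h2, lin3_append, h3, lin3_append S R'' e f g [q0, q1, q2],
    ← hR2]
  have h4 : [a, b, c] ++ [r0, r1, r2] = [a, b, c, r0, r1, r2] := rfl
  rw [h4, lin3_six, lin3_six]
  ring

theorem cyc3_prefix (S : Set Γ) {X X' X'' Y : List Γ} {x0 x1 x2 a b c : Γ}
    (hX1 : X = x0 :: x1 :: x2 :: X') (hX2 : X = X'' ++ [a, b, c]) :
    cyc3 S (X ++ Y) = lin3 S X + lin3 S (a :: b :: c :: (Y ++ [x0, x1, x2])) := by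
  have h0 : cyc3 S (X ++ Y) = lin3 S (X ++ Y ++ [x0, x1, x2]) := by
    rw [cyc3, hX1]; simp
  have h1 : X ++ Y ++ [x0, x1, x2] = X'' ++ a :: b :: c :: (Y ++ [x0, x1, x2]) := by
    rw [hX2]; simp
  rw [h0, h1, lin3_append, ← hX2]

/-- general insertion of a path in an edge -/
theorem insert_chain {R : Γ → Γ → Prop} {l₁ l₂ M : List Γ} {z z' : Γ}
    (h : (l₁ ++ z :: z' :: l₂).IsChain R) (hM : M.IsChain R) (hne : M ≠ [])
    (h1 : ∀ u ∈ M.head?, R z u) (h2 : ∀ v ∈ M.getLast?, R v z') :
    (l₁ ++ z :: (M ++ z' :: l₂)).IsChain R := by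
  rw [List.isChain_append] at h ⊢
  obtain ⟨ha, hb, hc⟩ := h
  refine ⟨ha, ?_, by simpa using hc⟩
  rw [List.isChain_cons] at hb ⊢
  refine ⟨?_, ?_⟩
  · intro y hy
    cases M with
    | nil => exact absurd rfl hne
    | cons m M => simp at hy; subst hy; exact h1 _ (by simp)
  · rw [List.isChain_append]
    refine ⟨hM, hb.2, ?_⟩
    intro x hx y hy
    simp at hy; subst hy
    exact h2 x hx

theorem insert_perm {l₁ l₂ M : List Γ} {z z' : Γ} :
    (l₁ ++ z :: (M ++ z' :: l₂)).Perm (M ++ (l₁ ++ z :: z' :: l₂)) := by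
  have : (z :: (M ++ z' :: l₂)).Perm (M ++ z :: z' :: l₂) := by
    exact (List.perm_middle).symm
  refine (this.append_left l₁).trans ?_
  exact (List.perm_append_comm_assoc _ _ _)

theorem insert_nodup {l₁ l₂ M : List Γ} {z z' : Γ}
    (h : (l₁ ++ z :: z' :: l₂).Nodup) (hM : M.Nodup)
    (hd : ∀ x ∈ M, x ∉ l₁ ++ z :: z' :: l₂) :
    (l₁ ++ z :: (M ++ z' :: l₂)).Nodup := by
  rw [insert_perm.nodup_iff, List.nodup_append]
  refine ⟨hM, h, ?_⟩
  intro a ha b hb hab
  subst hab
  exact hd a ha hb

theorem mem_insert_list {l₁ l₂ M : List Γ} {z z' x : Γ} :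
    x ∈ l₁ ++ z :: (M ++ z' :: l₂) ↔ x ∈ M ∨ x ∈ l₁ ++ z :: z' :: l₂ := by
  rw [insert_perm.mem_iff, List.mem_append]

/-- there is a path through `A` from `u` to `v` that contains an edge of type `±g` -/
def GP (S : Set Γ) (A : Set Γ) (u v g : Γ) : Prop :=
  ∃ l, HP S A l ∧ l.head? = some u ∧ l.getLast? = some v ∧
    ∃ l₁ z z' l₂, l = l₁ ++ z :: z' :: l₂ ∧ (z' - z = g ∨ z' - z = -g)

theorem GP.translate {S : Set Γ} {A : Set Γ} {u v g : Γ} (h : GP S A u v g) (t : Γ) :
    GP S {x | x - t ∈ A} (t + u) (t + v) g := by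
  obtain ⟨l, hl, hu, hv, l₁, z, z', l₂, rfl, hg⟩ := h
  refine ⟨_, hl.translate t, ?_, ?_, l₁.map (fun x => t + x), t + z, t + z',
    l₂.map (fun x => t + x), by simp, ?_⟩
  · rw [List.head?_map, hu]; rfl
  · rw [List.getLast?_map, hv]; rfl
  · have : t + z' - (t + z) = z' - z := by abel
    rwa [this]

theorem GP.reverse {S : Set Γ} (hS : ∀ s ∈ S, -s ∈ S) {A : Set Γ} {u v g : Γ}
    (h : GP S A u v g) : GP S A v u g := by
  obtain ⟨l, hl, hu, hv, l₁, z, z', l₂, rfl, hg⟩ := h
  refine ⟨_, hl.reverse hS, ?_, ?_, l₂.reverse, z', z, l₁.reverse, by simp, ?_⟩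
  · rw [List.head?_reverse, hv]
  · rw [List.getLast?_reverse, hu]
  · rcases hg with hg | hg
    · right; rw [← hg]; abel
    · left
      have : z - z' = -(z' - z) := by abel
      rw [this, hg, neg_neg]

theorem GP.congr {S : Set Γ} {A B : Set Γ} {u v g : Γ} (h : GP S A u v g)
    (hAB : ∀ x, x ∈ A ↔ x ∈ B) : GP S B u v g := by
  obtain ⟨l, hl, hu, hv, w⟩ := h
  exact ⟨l, hl.congr hAB, hu, hv, w⟩

/-- stacking of cosets of `B` along a path of coset representatives -/
theorem stack {S : Set Γ} (hS : ∀ s ∈ S, -s ∈ S) (B : AddSubgroup Γ) {g : Γ}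
    (hB : GP S (B : Set Γ) 0 g g) :
    ∀ (y : Γ) (ys : List Γ), (y :: ys).IsChain (Rel S) →
      (y :: ys).Pairwise (fun a b => b - a ∉ B) →
      GP S {x | ∃ w ∈ y :: ys, x - w ∈ B} y (y + g) g := by
  intro y ys
  induction ys generalizing y with
  | nil =>
    intro _ _
    have := hB.translate y
    rw [add_zero] at this
    exact this.congr (fun x => by simp)
  | cons y' ys ih =>
    intro hc hp
    have hc' : Rel S y y' := by
      rw [List.isChain_cons_cons] at hc; exact hc.1
    have hM := ih y' (by rw [List.isChain_cons_cons] at hc; exact hc.2)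
      (List.Pairwise.of_cons hp)
    have hdis : ∀ w ∈ y' :: ys, w - y ∉ B := by
      intro w hw
      exact (List.pairwise_cons.1 hp).1 w hw
    obtain ⟨l, hl, hu, hv, l₁, z, z', l₂, hl12, hg⟩ := hB
    have hzB : z ∈ B := (hl.mem z).1 (by rw [hl12]; simp)
    have hz'B : z' ∈ B := (hl.mem z').1 (by rw [hl12]; simp)
    -- the path through the remaining cosets from `z + y'` to `z' + y'`
    have hM' : GP S {x | ∃ w ∈ y' :: ys, x - w ∈ B} (y' + z) (y' + z') g := by
      rcases hg with hg | hg
      · have h1 := hM.translate z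
        have e1 : z + y' = y' + z := by abel
        have e2 : z + (y' + g) = y' + z' := by rw [← hg]; abel
        rw [e1, e2] at h1
        refine h1.congr (fun x => ?_)
        simp only [Set.mem_ofPred_eq]
        constructor
        · rintro ⟨w, hw, hx⟩
          refine ⟨w, hw, ?_⟩
          have : x - w = (x - z - w) + z := by abel
          rw [this]; exact B.add_mem hx hzB
        · rintro ⟨w, hw, hx⟩
          refine ⟨w, hw, ?_⟩
          have : x - z - w = (x - w) - z := by abel
          rw [this]; exact B.sub_mem hx hzB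
      · have h1 := (hM.translate z').reverse hS
        have e1 : z' + y' = y' + z' := by abel
        have e2 : z' + (y' + g) = y' + z := by
          have : z = z' + g := by
            have : z' - z = -g := hg
            have h3 : z = z' - (z' - z) := by abel
            rw [h3, this]; abel
          rw [this]; abel
        rw [e1, e2] at h1
        refine h1.congr (fun x => ?_)
        simp only [Set.mem_ofPred_eq]
        constructor
        · rintro ⟨w, hw, hx⟩
          refine ⟨w, hw, ?_⟩
          have : x - w = (x - z' - w) + z' := by abel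
          rw [this]; exact B.add_mem hx hz'B
        · rintro ⟨w, hw, hx⟩
          refine ⟨w, hw, ?_⟩
          have : x - z' - w = (x - w) - z' := by abel
          rw [this]; exact B.sub_mem hx hz'B
    obtain ⟨M, hM1, hMu, hMv, m₁, w, w', m₂, hMm, hgw⟩ := hM'
    have hMne : M ≠ [] := by rw [hMm]; simp
    have hrow := hl.translate y
    rw [hl12, List.map_append, List.map_cons, List.map_cons] at hrow
    refine ⟨l₁.map (fun x => y + x) ++ (y + z) :: (M ++ (y + z') :: l₂.map (fun x => y + x)),
      ⟨?_, ?_, ?_⟩, ?_, ?_, ?_⟩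
    · apply insert_chain hrow.chain hM1.chain hMne
      · intro u hu
        rw [hMu] at hu; simp at hu; subst hu
        unfold Rel at *
        have : y' + z - (y + z) = y' - y := by abel
        rwa [this]
      · intro u hu
        rw [hMv] at hu; simp at hu; subst hu
        unfold Rel at *
        have : y + z' - (y' + z') = -(y' - y) := by abel
        rw [this]; exact hS _ hc'
    · apply insert_nodup hrow.nodup hM1.nodup
      intro x hx hx'
      obtain ⟨w, hw, hxw⟩ := (hM1.mem x).1 hx
      have h2 : x - y ∈ B := (hrow.mem x).1 hx'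
      apply hdis w hw
      have : w - y = (x - y) - (x - w) := by abel
      rw [this]; exact B.sub_mem h2 hxw
    · intro x
      rw [mem_insert_list, hM1.mem, hrow.mem]
      simp only [Set.mem_ofPred_eq, List.mem_cons, exists_eq_or_imp]
      constructor
      · rintro (h | h)
        · right; exact h
        · left; exact h
      · rintro (h | h)
        · right; exact h
        · left; exact h
    · -- head
      have : (l.map (fun x => y + x)).head? = some y := by rw [List.head?_map, hu]; simp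
      rw [hl12] at this
      cases l₁ with
      | nil => simpa using this
      | cons a l₁ => simpa using this
    · have : (l.map (fun x => y + x)).getLast? = some (y + g) := by
        rw [List.getLast?_map, hv]; rfl
      rw [hl12] at this
      simp only [List.map_append, List.map_cons] at this
      simp only [List.getLast?_append, List.getLast?_cons] at this ⊢
      simpa using this
    · refine ⟨l₁.map (fun x => y + x) ++ (y + z) :: m₁, w, w',
        m₂ ++ (y + z') :: l₂.map (fun x => y + x), ?_, hgw⟩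
      rw [hMm]; simp

end Pool.Agent.HamTrans
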