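import Pool.Agent.HamTrans.CaseZero

set_option linter.unusedSectionVars false

namespace Pool.Agent.HamTrans

open List

variable {Γ : Type*} [AddCommGroup Γ]

theorem lin3_append3 (S : Set Γ) {Q R Q'' R' : List Γ} {a b c r0 r1 r2 : Γ}
    (hQ : Q = Q'' ++ [a, b, c]) (hR : R = r0 :: r1 :: r2 :: R') :
    lin3 S (Q ++ R) = lin3 S Q + lin3 S R
      + (ind S (r0 - a) + ind S (r1 - b) + ind S (r2 - c)) := by
  have h1 : Q ++ R = Q'' ++ a :: b :: c :: R := by rw [hQ]; simp
  have h2 : a :: b :: c :: R = [a, b, c] ++ r0 :: r1 :: r2 :: R' := by rw [hR]; simp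
  rw [h1, lin3_append, ← hQ, h2, lin3_append, ← hR]
  have h4 : [a, b, c] ++ [r0, r1, r2] = [a, b, c, r0, r1, r2] := rfl
  rw [h4, lin3_six]
  ring

/-- zigzag between the rows `x + ⟨a⟩` and `x + t + ⟨a⟩` -/
def zig (a t : Γ) : ℕ → Γ → List Γ
  | 0, _ => []
  | k + 1, x => x :: (x + t) :: (x + t + a) :: (x + a) :: zig a t k (x + 2 • a)

theorem count_zig [DecidableEq Γ] (a t z : Γ) (k : ℕ) (x : Γ) :
    (zig a t k x).count z = (run x a (2 * k)).count z + (run (x + t) a (2 * k)).count z := by
  induction k generalizing x with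
  | zero => simp [zig]
  | succ k ih =>
    rw [zig, show 2 * (k + 1) = 2 * k + 1 + 1 by ring, run_succ, run_succ, run_succ, run_succ]
    have e1 : x + a + a = x + 2 • a := by rw [two_nsmul]; abel
    have e2 : x + t + a + a = x + 2 • a + t := by rw [two_nsmul]; abel
    rw [e1, e2]
    simp only [List.count_cons, ih]
    ring

theorem zig_perm (a t : Γ) (k : ℕ) (x : Γ) :
    zig a t k x ~ run x a (2 * k) ++ run (x + t) a (2 * k) := by
  classical
  rw [List.perm_iff_count]
  intro z
  rw [List.count_append, count_zig]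

theorem zig_chain {S : Set Γ} (hS : ∀ s ∈ S, -s ∈ S) {a t : Γ} (ha : a ∈ S) (ht : t ∈ S)
    (k : ℕ) : ∀ (x : Γ) (rest : List Γ), ((x + (2 * k) • a) :: rest).IsChain (Rel S) →
      (zig a t k x ++ (x + (2 * k) • a) :: rest).IsChain (Rel S) := by
  induction k with
  | zero => intro x rest h; simpa [zig] using h
  | succ k ih =>
    intro x rest h
    have e : x + (2 * (k + 1)) • a = x + 2 • a + (2 * k) • a := by
      rw [add_assoc, ← add_nsmul]; congr 2; ring
    rw [e] at h ⊢
    have h1 := ih (x + 2 • a) rest h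
    rw [zig]
    simp only [List.cons_append, List.isChain_cons_cons]
    refine ⟨?_, ?_, ?_, ?_⟩
    · unfold Rel; simpa using ht
    · unfold Rel; simpa using ha
    · unfold Rel
      have : x + a - (x + t + a) = -t := by abel
      rw [this]; exact hS t ht
    · cases k with
      | zero =>
        simp only [zig, List.nil_append] at h1 ⊢
        rw [List.isChain_cons_cons]
        refine ⟨?_, h1⟩
        unfold Rel
        have : x + 2 • a + (2 * 0) • a - (x + a) = a := by
          rw [mul_zero, zero_smul, two_nsmul]; abel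
        rw [this]; exact ha
      | succ k =>
        rw [zig] at h1 ⊢
        simp only [List.cons_append] at h1 ⊢
        rw [List.isChain_cons_cons]
        refine ⟨?_, h1⟩
        unfold Rel
        have : x + 2 • a - (x + a) = a := by rw [two_nsmul]; abel
        rw [this]; exact ha

theorem lin3_zig {S : Set Γ} (hS : ∀ s ∈ S, -s ∈ S) {a t : Γ} (ha : a ∈ S) (j : ℕ) :
    ∀ (x p q r : Γ) (rest : List Γ), p = x + (2 * (j + 1)) • a → q = p + t →
      lin3 S (zig a t (j + 1) x ++ p :: q :: r :: rest)
        = (j + 1) * (2 + ind S (t - 2 • a)) + j * ind S (t + 2 • a) + ind S (r - (p - a))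
          + lin3 S (p :: q :: r :: rest) := by
  induction j with
  | zero =>
    intro x p q r rest hp hq
    have hp' : p = x + 2 • a := by rw [hp]
    simp only [zig, List.cons_append, List.nil_append, lin3_cons4]
    have e1 : x + a - x = a := by abel
    have e2 : p - (x + t) = -(t - 2 • a) := by rw [hp']; abel
    have e3 : q - (x + t + a) = a := by rw [hq, hp', two_nsmul]; abel
    have e4 : r - (x + a) = r - (p - a) := by
      rw [hp', two_nsmul]; abel
    rw [e1, e2, e3, e4, ind_neg hS, ind_of_mem ha]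
    ring
  | succ j ih =>
    intro x p q r rest hp hq
    have h1 := ih (x + 2 • a) p q r rest (by
      rw [hp, show 2 * (j + 1 + 1) = 2 + 2 * (j + 1) by ring, add_nsmul]; abel) hq
    have hz : zig a t (j + 1 + 1) x = x :: (x + t) :: (x + t + a) :: (x + a) ::
        (x + 2 • a) :: (x + 2 • a + t) :: (x + 2 • a + t + a) :: (x + 2 • a + a) ::
          zig a t j (x + 2 • a + 2 • a) := rfl
    have hz' : zig a t (j + 1) (x + 2 • a) = (x + 2 • a) :: (x + 2 • a + t) ::
        (x + 2 • a + t + a) :: (x + 2 • a + a) :: zig a t j (x + 2 • a + 2 • a) := rfl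
    rw [hz'] at h1
    rw [hz]
    simp only [List.cons_append] at h1 ⊢
    rw [lin3_cons4, lin3_cons4, lin3_cons4, lin3_cons4, h1]
    have e1 : x + a - x = a := by abel
    have e2 : x + 2 • a - (x + t) = -(t - 2 • a) := by abel
    have e3 : x + 2 • a + t - (x + t + a) = a := by rw [two_nsmul]; abel
    have e4 : x + 2 • a + t + a - (x + a) = t + 2 • a := by abel
    rw [e1, e2, e3, e4, ind_neg hS, ind_of_mem ha]
    ring

theorem run_split_first (x a : Γ) (k : ℕ) :
    run x a (k + 3) = x :: (x + a) :: (x + 2 • a) :: run (x + 3 • a) a k := by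
  rw [run_succ, run_succ, run_succ]
  have e1 : x + a + a = x + 2 • a := by rw [two_nsmul]; abel
  have e2 : x + a + a + a = x + 3 • a := by rw [succ_nsmul, two_nsmul]; abel
  rw [e2, e1]

theorem run_split_last {x a e : Γ} {k : ℕ} (he : e = x + (k + 2) • a) :
    run x a (k + 3) = run x a k ++ [e - 2 • a, e - a, e] := by
  rw [run_append, run_three]
  have e0 : x + k • a = e - 2 • a := by rw [he, add_nsmul]; abel
  have e1 : e - 2 • a + a = e - a := by rw [two_nsmul]; abel
  have e2 : e - a + a = e := by abel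
  rw [e0, e1, e2]

/-- **Prism lemma**: for a subgroup `⟨a⟩` of index two and even order at least six, `3a ∈ S`. -/
theorem prism [Finite Γ] {S : Set Γ} (hG : Good S) {a b : Γ} (ha : a ∈ S) (hb : b ∈ S)
    (hbH : b ∉ AddSubgroup.zmultiples a)
    (hcov : ∀ x, x ∈ AddSubgroup.zmultiples a ∨ x - b ∈ AddSubgroup.zmultiples a)
    {k : ℕ} (hk : addOrderOf a = 2 * (k + 3)) : 3 • a ∈ S := by
  set m := addOrderOf a with hm
  have hma : m • a = 0 := addOrderOf_nsmul_eq_zero a
  set Q := run 0 a m with hQ
  set R := run (b - a) (-a) m with hR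
  have hn1 := run_HP0 (S := S) ha
  have hn2 := run_HP (S := S) ha b
  have hQR : ∀ l : List Γ, l ~ run 0 a m ++ run b a m → l.Nodup ∧ ∀ x, x ∈ l := by
    intro l hl
    constructor
    · rw [hl.nodup_iff, List.nodup_append]
      refine ⟨hn1.nodup, hn2.nodup, ?_⟩
      intro x hx y hy hxy
      subst hxy
      have h1 := (hn1.mem x).1 hx
      have h2 := (hn2.mem x).1 hy
      apply hbH
      have := (AddSubgroup.zmultiples a).sub_mem h1 h2
      simpa using this
    · intro x
      rw [hl.mem_iff, List.mem_append]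
      rcases hcov x with h | h
      · left; exact (hn1.mem x).2 h
      · right; exact (hn2.mem x).2 h
  have hlast : b - a + (2 * (k + 3) - 1) • -a = b := by
    have h1 : (2 * (k + 3) - 1) • a = -a := by
      rw [← hk]; exact order_smul_last a
    rw [smul_neg, h1]; abel
  have hrev : (run b a m).reverse = R := by
    rw [hk, show 2 * (k + 3) = (2 * k + 5) + 1 by ring, run_reverse, hR, hk,
      show 2 * (k + 3) = (2 * k + 5) + 1 by ring]
    congr 1
    have h1 : (2 * k + 5) • a = -a := by
      have := order_smul_last a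
      rw [← hm, hk] at this
      exact this
    rw [h1]; abel
  obtain ⟨hR1n, hR1m⟩ := hQR (Q ++ R) (by
    rw [← hrev]; exact (List.reverse_perm _).append_left _)
  have hC1 : HC S (Q ++ R) := by
    refine ⟨?_, hR1n, hR1m, ?_⟩
    · rw [List.isChain_append]
      refine ⟨run_chain ha _ _, run_chain (hG.neg a ha) _ _, ?_⟩
      intro u hu v hv
      rw [hQ, run_last_full] at hu
      rw [hR, run_head _ _ (by omega)] at hv
      simp only [Option.mem_def, Option.some.injEq] at hu hv
      subst hu; subst hv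
      unfold Rel
      have : b - a - (0 - a) = b := by abel
      rw [this]; exact hb
    · intro u hu v hv
      rw [hQ, List.head?_append, run_head _ _ (by omega)] at hu
      rw [hR, hk, List.getLast?_append, show 2 * (k + 3) = (2 * k + 5) + 1 by ring, run_last] at hv
      simp only [Option.some_or, Option.mem_def, Option.some.injEq] at hu hv
      subst hu; subst hv
      unfold Rel
      have e : b - a + (2 * k + 5) • -a = b := hlast
      rw [e, zero_sub]; exact hG.neg b hb
  obtain ⟨hR2n, hR2m⟩ := hQR (zig a b (k + 3) 0) (by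
    have := zig_perm a b (k + 3) 0
    rw [hk]
    rwa [zero_add] at this)
  have hzc : (zig a b (k + 3) 0 ++ [0]).IsChain (Rel S) := by
    have := zig_chain hG.neg ha hb (k + 3) 0 [] (by simp)
    rw [← hk, hma, add_zero] at this
    exact this
  have hz3 : zig a b (k + 3) 0 = 0 :: (0 + b) :: (0 + b + a) :: (0 + a) ::
      zig a b (k + 2) (0 + 2 • a) := rfl
  have hC2 : HC S (zig a b (k + 3) 0) := by
    rw [List.isChain_append] at hzc
    refine ⟨hzc.1, hR2n, hR2m, ?_⟩
    intro u hu v hv
    have : (zig a b (k + 3) 0).head? = some 0 := rfl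
    rw [this] at hu
    simp only [Option.mem_def, Option.some.injEq] at hu
    subst hu
    exact hzc.2.2 v hv 0 (by simp)
  have h1 := hG.const _ _ hC1 hC2
  have e2 : cyc3 S (zig a b (k + 3) 0) = lin3 S (zig a b (k + 3) 0 ++ [0, b, b + a]) := by
    rw [cyc3]
    congr 2
    simp [zig]
  have e3 : lin3 S (zig a b (k + 3) 0 ++ [0, b, b + a])
      = (k + 3) * (2 + ind S (b - 2 • a)) + (k + 2) * ind S (b + 2 • a)
        + ind S (b + a - (0 - a)) + 0 := by
    have := lin3_zig hG.neg ha (t := b) (k + 2) 0 0 b (b + a) [] (by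
      rw [zero_add, show k + 2 + 1 = k + 3 by ring, ← hk, hma]) (by abel)
    rw [lin3_three] at this
    exact this
  have hQ1 : Q = 0 :: a :: 2 • a :: run (3 • a) a (2 * k + 3) := by
    rw [hQ, hk, show 2 * (k + 3) = (2 * k + 3) + 3 by ring, run_split_first]
    simp
  have hQ2 : Q = run 0 a (2 * k + 3) ++ [-a - 2 • a, -a - a, -a] := by
    rw [hQ, hk, show 2 * (k + 3) = (2 * k + 3) + 3 by ring]
    apply run_split_last
    have := order_smul_last a
    rw [← hm, hk] at this
    have h2 : (2 * k + 3 + 2) • a = -a := this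
    rw [h2, zero_add]
  have hR1 : R = (b - a) :: (b - a + -a) :: (b - a + 2 • -a) ::
      run (b - a + 3 • -a) (-a) (2 * k + 3) := by
    rw [hR, hk, show 2 * (k + 3) = (2 * k + 3) + 3 by ring, run_split_first]
  have hR2 : R = run (b - a) (-a) (2 * k + 3) ++ [b - 2 • -a, b - -a, b] := by
    rw [hR, hk, show 2 * (k + 3) = (2 * k + 3) + 3 by ring]
    apply run_split_last
    exact hlast.symm
  rw [cyc3_append S hQ1 hQ2 hR1 hR2, e2, e3, hQ, hR, lin3_run, lin3_run, hk] at h1
  have i0 : ind S (3 • -a) = ind S (3 • a) := by rw [smul_neg]; exact ind_neg hG.neg _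
  have i1 : b - a - (-a - 2 • a) = b + 2 • a := by abel
  have i2 : b - a + -a - (-a - a) = b := by abel
  have i3 : b - a + 2 • -a - -a = b - 2 • a := by rw [smul_neg]; abel
  have i4 : 0 - (b - 2 • -a) = -(b + 2 • a) := by rw [smul_neg]; abel
  have i5 : a - (b - -a) = -b := by abel
  have i6 : 2 • a - b = -(b - 2 • a) := by abel
  have i7 : b + a - (0 - a) = b + 2 • a := by rw [two_nsmul]; abel
  rw [i0, i1, i2, i3, i4, i5, i6, i7, ind_neg hG.neg, ind_neg hG.neg, ind_neg hG.neg,
    ind_of_mem hb] at h1
  by_contra hcon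
  rw [ind_of_not_mem hcon] at h1
  have b1 := ind_le_one S (b + 2 • a)
  have b2 := ind_le_one S (b - 2 • a)
  nlinarith

end Pool.Agent.HamTrans
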