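import Pool.Agent.HamTrans.Swap2

set_option linter.unusedSectionVars false

namespace Pool.Agent.HamTrans

open List

variable {Γ : Type*} [AddCommGroup Γ]

/-- all windows of length four have adjacent ends -/
def AG (S : Set Γ) : List Γ → Prop
  | a :: b :: c :: d :: l => d - a ∈ S ∧ AG S (b :: c :: d :: l)
  | _ => True

theorem AG_cons4 (S : Set Γ) (a b c d : Γ) (l : List Γ) :
    AG S (a :: b :: c :: d :: l) ↔ d - a ∈ S ∧ AG S (b :: c :: d :: l) := Iff.rfl

theorem AG_three (S : Set Γ) (a b c : Γ) : AG S [a, b, c] := trivial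

theorem AG_append (S : Set Γ) (l₁ : List Γ) (x y z : Γ) (l₂ : List Γ) :
    AG S (l₁ ++ x :: y :: z :: l₂) ↔ AG S (l₁ ++ [x, y, z]) ∧ AG S (x :: y :: z :: l₂) := by
  induction l₁ with
  | nil => simp [AG]
  | cons a l ih =>
    match l, ih with
    | [], _ => simp [AG_cons4, AG_three]
    | [b], _ => simp [AG_cons4, AG_three, and_assoc]
    | [b, c], _ => simp [AG_cons4, AG_three, and_assoc]
    | b :: c :: d :: l', ih =>
      simp only [List.cons_append, AG_cons4] at ih ⊢
      rw [ih, and_assoc]

theorem lin3_le (S : Set Γ) (l : List Γ) : lin3 S l ≤ l.length - 3 := by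
  induction l with
  | nil => simp
  | cons a l ih =>
    match l, ih with
    | [], _ => simp
    | [b], _ => simp
    | [b, c], _ => simp
    | b :: c :: d :: l', ih =>
      rw [lin3_cons4]
      have := ind_le_one S (d - a)
      simp only [List.length_cons] at ih ⊢
      omega

theorem AG_iff (S : Set Γ) (l : List Γ) : AG S l ↔ lin3 S l = l.length - 3 := by
  induction l with
  | nil => simp [AG]
  | cons a l ih =>
    match l, ih with
    | [], _ => simp [AG]
    | [b], _ => simp [AG]
    | [b, c], _ => simp [AG]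
    | b :: c :: d :: l', ih =>
      rw [AG_cons4, lin3_cons4, ih]
      have h1 := ind_le_one S (d - a)
      have h2 := lin3_le S (b :: c :: d :: l')
      simp only [List.length_cons] at h2 ⊢
      constructor
      · rintro ⟨h3, h4⟩
        rw [ind_of_mem h3]; omega
      · intro h
        refine ⟨mem_of_ind ?_, ?_⟩ <;> omega

/-- the windows of a list all satisfy a property -/
theorem AG_of_windows {S : Set Γ} : ∀ l : List Γ,
    (∀ (i : ℕ) (h : i + 3 < l.length), l[i + 3] - l[i] ∈ S) → AG S l := by
  intro l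
  induction l with
  | nil => intro _; trivial
  | cons a l ih =>
    intro h
    match l, ih, h with
    | [], _, _ => trivial
    | [b], _, _ => trivial
    | [b, c], _, _ => trivial
    | b :: c :: d :: l', ih, h =>
      rw [AG_cons4]
      refine ⟨by simpa using h 0 (by simp), ih ?_⟩
      intro i hi
      have := h (i + 1) (by simp only [List.length_cons] at hi ⊢; omega)
      simpa using this

theorem windows_of_AG {S : Set Γ} : ∀ l : List Γ, AG S l →
    (∀ (i : ℕ) (h : i + 3 < l.length), l[i + 3] - l[i] ∈ S) := by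
  intro l
  induction l with
  | nil => intro _ i h; simp at h
  | cons a l ih =>
    intro h
    match l, ih, h with
    | [], _, _ => intro i h; simp at h
    | [b], _, _ => intro i h; simp at h
    | [b, c], _, _ => intro i h; simp at h
    | b :: c :: d :: l', ih, h =>
      rw [AG_cons4] at h
      intro i hi
      cases i with
      | zero => simpa using h.1
      | succ i =>
        have := ih h.2 i (by simp only [List.length_cons] at hi ⊢; omega)
        simpa using this

theorem HC.length [Finite Γ] {S : Set Γ} {l : List Γ} (h : HC S l) :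
    l.length = Nat.card Γ := by
  classical
  have := Fintype.ofFinite Γ
  have h1 : l.toFinset = Finset.univ := by
    ext x; simp [h.mem x]
  rw [← List.toFinset_card_of_nodup h.nodup, h1, Finset.card_univ, Nat.card_eq_fintype_card]

theorem HC.cyc3_le [Finite Γ] {S : Set Γ} {l : List Γ} (h : HC S l) (hn : 3 ≤ Nat.card Γ) :
    cyc3 S l ≤ Nat.card Γ := by
  have h1 := lin3_le S (l ++ l.take 3)
  have h2 := h.length
  rw [cyc3]
  simp only [List.length_append, List.length_take] at h1
  omega

/-- if one Hamiltonian cycle has only good windows, all of them do -/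
theorem window_good [Finite Γ] {S : Set Γ} (hN : N3const S) (hn : 3 ≤ Nat.card Γ)
    {V₀ : List Γ} (h0 : HC S V₀) (hg : AG S (V₀ ++ V₀.take 3)) {a b c d : Γ} {l : List Γ}
    (h1 : HC S (a :: b :: c :: d :: l)) : d - a ∈ S := by
  have e0 := h0.length
  have e1 := h1.length
  have h2 := hN _ _ h0 h1
  rw [cyc3, (AG_iff S _).1 hg] at h2
  have h3 : lin3 S ((a :: b :: c :: d :: l) ++ (a :: b :: c :: d :: l).take 3)
      = ((a :: b :: c :: d :: l) ++ (a :: b :: c :: d :: l).take 3).length - 3 := by
    rw [cyc3] at h2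
    rw [← h2]
    simp only [List.length_append, List.length_take, List.length_cons] at e1 ⊢
    omega
  have h4 := (AG_iff S _).2 h3
  exact h4.1

/-- lifting of sequences of cosets -/
theorem lift_list [DecidableEq Γ] {Q : Type*} [DecidableEq Q] (f : Γ → Q) :
    ∀ (W : List Q) (A : Finset Γ), (∀ z, W.count z = (A.filter (fun x => f x = z)).card) →
      ∃ V : List Γ, V.map f = W ∧ V.Nodup ∧ ∀ x, x ∈ V ↔ x ∈ A := by
  intro W
  induction W with
  | nil =>
    intro A h
    refine ⟨[], rfl, by simp, ?_⟩
    intro x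
    have := h (f x)
    simp only [List.count_nil] at this
    have h2 := Finset.card_eq_zero.1 this.symm
    simp only [List.not_mem_nil, false_iff]
    intro hx
    have : x ∈ A.filter (fun y => f y = f x) := by simp [hx]
    rw [h2] at this
    simp at this
  | cons w W ih =>
    intro A h
    have h1 := h w
    rw [List.count_cons_self] at h1
    obtain ⟨a, ha⟩ : (A.filter (fun x => f x = w)).Nonempty := by
      rw [← Finset.card_pos]; omega
    rw [Finset.mem_filter] at ha
    obtain ⟨V, hV1, hV2, hV3⟩ := ih (A.erase a) (by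
      intro z
      have hz := h z
      rw [Finset.filter_erase]
      by_cases hzw : z = w
      · subst hzw
        rw [List.count_cons_self] at hz
        rw [Finset.card_erase_of_mem (by simp [ha])]
        omega
      · rw [List.count_cons_of_ne (Ne.symm hzw)] at hz
        rw [Finset.erase_eq_of_notMem, hz]
        rw [Finset.mem_filter]
        rintro ⟨-, h3⟩
        exact hzw (h3.symm.trans ha.2))
    refine ⟨a :: V, by rw [List.map_cons, hV1, ha.2], ?_, ?_⟩
    · rw [List.nodup_cons]
      refine ⟨?_, hV2⟩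
      rw [hV3]; simp
    · intro x
      rw [List.mem_cons, hV3, Finset.mem_erase]
      by_cases hx : x = a
      · subst hx; simp [ha.1]
      · simp [hx]

/-- a closed sequence of cosets -/
structure CW (S : Set Γ) (l : List Γ) : Prop where
  chain : l.IsChain (Rel S)
  closed : ∀ u ∈ l.head?, ∀ v ∈ l.getLast?, Rel S v u

theorem card_fiber [Finite Γ] (B : AddSubgroup Γ) (A : Finset Γ) (hA : ∀ x, x ∈ A)
    [DecidableEq (Γ ⧸ B)] (z : Γ ⧸ B) :
    (A.filter (fun x : Γ => (x : Γ ⧸ B) = z)).card = Nat.card B := by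
  obtain ⟨t, rfl⟩ := QuotientAddGroup.mk_surjective z
  rw [← ncard_coset B t, ← Set.ncard_coe_finset]
  congr 1
  ext x
  simp only [Finset.coe_filter, Set.mem_ofPred_eq, hA, true_and]
  rw [← QuotientAddGroup.eq_zero_iff, QuotientAddGroup.mk_sub, sub_eq_zero]

theorem lift_HC [Finite Γ] {S : Set Γ} (B : AddSubgroup Γ)
    (hP : ∀ x : Γ, x ≠ 0 → (x : Γ ⧸ B) ∈ qS S B → x ∈ S) (hn : 2 ≤ Nat.card Γ)
    [DecidableEq (Γ ⧸ B)]
    {W : List (Γ ⧸ B)} (hW : CW (qS S B) W) (hcount : ∀ z, W.count z = Nat.card B) :
    ∃ V : List Γ, V.map (fun x : Γ => (x : Γ ⧸ B)) = W ∧ HC S V := by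
  classical
  have := Fintype.ofFinite Γ
  obtain ⟨V, h1, h2, h3⟩ := lift_list (fun x : Γ => (x : Γ ⧸ B)) W Finset.univ (by
    intro z
    rw [hcount z, card_fiber B Finset.univ (by simp) z])
  refine ⟨V, h1, ?_⟩
  have hlen : V.length = Nat.card Γ := by
    have h4 : V.toFinset = Finset.univ := by ext x; simp [h3 x]
    rw [← List.toFinset_card_of_nodup h2, h4, Finset.card_univ, Nat.card_eq_fintype_card]
  have hrel : ∀ x y : Γ, x ≠ y → Rel (qS S B) (x : Γ ⧸ B) (y : Γ ⧸ B) → Rel S x y := by
    intro x y hxy h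
    unfold Rel at *
    apply hP _ (sub_ne_zero.2 hxy.symm)
    rwa [QuotientAddGroup.mk_sub]
  refine ⟨?_, h2, fun x => (h3 x).2 (Finset.mem_univ x), ?_⟩
  · have hc := hW.chain
    rw [← h1, List.isChain_map] at hc
    have h5 := List.isChain_iff_getElem.1 hc
    rw [List.isChain_iff_getElem]
    intro i hi
    apply hrel
    · intro h6
      have := (List.Nodup.getElem_inj_iff h2).1 h6
      omega
    · exact h5 i hi
  · intro u hu v hv
    apply hrel
    · rintro rfl
      have hne : V ≠ [] := by intro h; rw [h] at hu; simp at hu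
      rw [Option.mem_def, List.head?_eq_getElem?] at hu
      rw [Option.mem_def, List.getLast?_eq_getElem?] at hv
      rw [List.getElem?_eq_some_iff] at hu hv
      obtain ⟨hu1, hu2⟩ := hu
      obtain ⟨hv1, hv2⟩ := hv
      have := (List.Nodup.getElem_inj_iff h2).1 (hu2.trans hv2.symm)
      omega
    · apply hW.closed
      · rw [← h1, List.head?_map]
        rw [Option.mem_def] at hu ⊢
        rw [hu]; rfl
      · rw [← h1, List.getLast?_map]
        rw [Option.mem_def] at hv ⊢
        rw [hv]; rfl

theorem lift_AG [Finite Γ] {S : Set Γ} (B : AddSubgroup Γ)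
    (hP : ∀ x : Γ, x ≠ 0 → (x : Γ ⧸ B) ∈ qS S B → x ∈ S) (hn : 4 ≤ Nat.card Γ)
    {V : List Γ} (hV : HC S V)
    (hAG : AG (qS S B) (V.map (fun x : Γ => (x : Γ ⧸ B)) ++
      (V.map (fun x : Γ => (x : Γ ⧸ B))).take 3)) :
    AG S (V ++ V.take 3) := by
  have hlen := hV.length
  have h1 : V.map (fun x : Γ => (x : Γ ⧸ B)) ++ (V.map (fun x : Γ => (x : Γ ⧸ B))).take 3
      = (V ++ V.take 3).map (fun x : Γ => (x : Γ ⧸ B)) := by simp
  rw [h1] at hAG
  have h2 := windows_of_AG _ hAG
  apply AG_of_windows
  intro i hi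
  have h3 := h2 i (by simpa using hi)
  simp only [List.getElem_map] at h3
  apply hP
  · rw [sub_ne_zero]
    intro h4
    have hi' : i < V.length := by
      simp only [List.length_append, List.length_take] at hi; omega
    rw [List.getElem_append_left hi'] at h4
    by_cases h5 : i + 3 < V.length
    · rw [List.getElem_append_left h5] at h4
      have := (List.Nodup.getElem_inj_iff hV.nodup).1 h4
      omega
    · rw [List.getElem_append_right (by omega), List.getElem_take] at h4
      have := (List.Nodup.getElem_inj_iff hV.nodup).1 h4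
      omega
  · rwa [QuotientAddGroup.mk_sub]

/-- the main tool: comparison of two closed sequences of cosets -/
theorem seq_window [Finite Γ] {S : Set Γ} (hN : N3const S) (B : AddSubgroup Γ)
    (hP : ∀ x : Γ, x ≠ 0 → (x : Γ ⧸ B) ∈ qS S B → x ∈ S) (hn : 4 ≤ Nat.card Γ)
    [DecidableEq (Γ ⧸ B)] {W₀ : List (Γ ⧸ B)} (h0 : CW (qS S B) W₀)
    (hc0 : ∀ z, W₀.count z = Nat.card B) (hg : AG (qS S B) (W₀ ++ W₀.take 3))
    {a b c d : Γ ⧸ B} {l : List (Γ ⧸ B)} (h1 : CW (qS S B) (a :: b :: c :: d :: l))
    (hc1 : ∀ z, (a :: b :: c :: d :: l).count z = Nat.card B) : d - a ∈ qS S B := by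
  obtain ⟨V₀, hV1, hV2⟩ := lift_HC B hP (by omega) h0 hc0
  obtain ⟨V₁, hV3, hV4⟩ := lift_HC B hP (by omega) h1 hc1
  have hAG : AG S (V₀ ++ V₀.take 3) := by
    apply lift_AG B hP hn hV2
    rw [hV1]; exact hg
  match V₁, hV3, hV4 with
  | a' :: b' :: c' :: d' :: l', hV3, hV4 =>
    have h := window_good hN (by omega) hV2 hAG hV4
    simp only [List.map_cons, List.cons.injEq] at hV3
    rw [← hV3.1, ← hV3.2.2.2.1]
    exact ⟨d' - a', h, by simp⟩

end Pool.Agent.HamTrans
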