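import Pool.Agent.HamTrans.CaseTwo

set_option linter.unusedSectionVars false

namespace Pool.Agent.HamTrans

open List

variable {Γ : Type*} [AddCommGroup Γ]

theorem not_top_of_card [Finite Γ] {K : AddSubgroup Γ} (h : Nat.card K < Nat.card Γ) : K ≠ ⊤ := by
  rintro rfl
  rw [AddSubgroup.card_top] at h
  omega

/-- a graph on eight vertices given by a boolean matrix -/
def lin3f (m : Fin 8 → Fin 8 → Bool) : List (Fin 8) → ℕ
  | a :: b :: c :: d :: l => (if m a d then 1 else 0) + lin3f m (b :: c :: d :: l)
  | _ => 0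

theorem lin3_map_fin {S : Set Γ} (f : Fin 8 → Γ) (m : Fin 8 → Fin 8 → Bool)
    (hm : ∀ i j, f j - f i ∈ S ↔ m i j = true) (l : List (Fin 8)) :
    lin3 S (l.map f) = lin3f m l := by
  induction l with
  | nil => rfl
  | cons a l ih =>
    match l, ih with
    | [], _ => rfl
    | [b], _ => rfl
    | [b, c], _ => rfl
    | b :: c :: d :: l', ih =>
      simp only [List.map_cons, lin3_cons4] at ih ⊢
      rw [ih, lin3f]
      congr 1
      by_cases h : f d - f a ∈ S
      · rw [ind_of_mem h, (hm _ _).1 h]; rfl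
      · rw [ind_of_not_mem h]
        have : m a d = false := by
          rcases Bool.eq_false_or_eq_true (m a d) with h' | h'
          · exact absurd ((hm _ _).2 h') h
          · exact h'
        rw [this]; rfl

theorem HC_map_fin {S : Set Γ} (f : Fin 8 → Γ) (hf : Function.Bijective f)
    (m : Fin 8 → Fin 8 → Bool) (hm : ∀ i j, f j - f i ∈ S ↔ m i j = true) (x : Fin 8)
    (l : List (Fin 8)) (h1 : (x :: (l ++ [x])).IsChain (fun a b => m a b = true))
    (h2 : (x :: l).Nodup) (h3 : ∀ y, y ∈ x :: l) : HC S ((x :: l).map f) := by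
  have h4 : ((x :: (l ++ [x])).map f).IsChain (Rel S) := by
    rw [List.isChain_map]
    exact h1.imp (fun a b hab => (hm _ _).2 hab)
  have h5 : CW S ((x :: l).map f) := by
    rw [List.map_cons]
    apply CW_of_chain
    simpa using h4
  refine ⟨h5.chain, h2.map hf.1, ?_, h5.closed⟩
  intro y
  obtain ⟨i, rfl⟩ := hf.2 y
  exact List.mem_map_of_mem (h3 i)

theorem eight_false {S : Set Γ} (hN : N3const S) (f : Fin 8 → Γ) (hf : Function.Bijective f)
    (m : Fin 8 → Fin 8 → Bool) (hm : ∀ i j, f j - f i ∈ S ↔ m i j = true) (x : Fin 8)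
    (l l' : List (Fin 8))
    (h1 : (x :: (l ++ [x])).IsChain (fun a b => m a b = true))
    (h2 : (x :: l).Nodup) (h3 : ∀ y, y ∈ x :: l)
    (h1' : (x :: (l' ++ [x])).IsChain (fun a b => m a b = true))
    (h2' : (x :: l').Nodup) (h3' : ∀ y, y ∈ x :: l')
    (hne : lin3f m ((x :: l) ++ (x :: l).take 3) ≠ lin3f m ((x :: l') ++ (x :: l').take 3)) :
    False := by
  have h := hN _ _ (HC_map_fin f hf m hm x l h1 h2 h3) (HC_map_fin f hf m hm x l' h1' h2' h3')
  rw [cyc3, cyc3, ← List.map_take, ← List.map_append, ← List.map_take, ← List.map_append,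
    lin3_map_fin f m hm, lin3_map_fin f m hm] at h
  exact hne h

def m1 (i j : Fin 8) : Bool := j ≠ i && j.val ≠ i.val ^^^ 1
def m2 (i j : Fin 8) : Bool := j ≠ i && j.val ≠ i.val ^^^ 1 && j.val ≠ i.val ^^^ 2

theorem exists_not_mem_list [Finite Γ] (l : List Γ) (h : l.length < Nat.card Γ) :
    ∃ x, x ∉ l := by
  classical
  have := Fintype.ofFinite Γ
  by_contra hcon
  push Not at hcon
  have h1 : (Finset.univ : Finset Γ) ⊆ l.toFinset := by
    intro x _; rw [List.mem_toFinset]; exact hcon x
  have h2 := Finset.card_le_card h1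
  rw [Finset.card_univ, ← Nat.card_eq_fintype_card] at h2
  have h3 := List.toFinset_card_le l
  omega

/-- all but one involution -/
theorem cocktail [Finite Γ] {S : Set Γ} (hG : Good S) (hn : Nat.card Γ = 8) {z : Γ}
    (hz : z + z = 0) (hz0 : z ≠ 0) (hzS : z ∉ S) (hall : ∀ x, x ≠ 0 → x ≠ z → x ∈ S) : False := by
  have hstep : ∀ (L : List Γ), L.Nodup → (∀ y ∈ L, y + z ∈ L) → ∀ x, x ∉ L →
      (x :: (x + z) :: L).Nodup ∧ (∀ y ∈ x :: (x + z) :: L, y + z ∈ x :: (x + z) :: L) := by
    intro L hL hcl x hx
    have hxz : x + z ∉ L := by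
      intro h
      apply hx
      have := hcl _ h
      rwa [add_assoc, hz, add_zero] at this
    refine ⟨?_, ?_⟩
    · simp only [List.nodup_cons, List.mem_cons, not_or]
      exact ⟨⟨fun h => hz0 (by simpa using h.symm), hx⟩, hxz, hL⟩
    · intro y hy
      simp only [List.mem_cons] at hy ⊢
      rcases hy with rfl | rfl | hy
      · right; left; rfl
      · left; rw [add_assoc, hz, add_zero]
      · right; right; exact hcl y hy
  obtain ⟨D, hD⟩ := exists_not_mem_list ([] : List Γ) (by simp [hn])
  obtain ⟨n1, c1⟩ := hstep [] (by simp) (by simp) D hD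
  obtain ⟨C, hC⟩ := exists_not_mem_list [D, D + z] (by simp [hn])
  obtain ⟨n2, c2⟩ := hstep _ n1 c1 C hC
  obtain ⟨B, hB⟩ := exists_not_mem_list [C, C + z, D, D + z] (by simp [hn])
  obtain ⟨n3, c3⟩ := hstep _ n2 c2 B hB
  obtain ⟨A, hA⟩ := exists_not_mem_list [B, B + z, C, C + z, D, D + z] (by simp [hn])
  obtain ⟨n4, -⟩ := hstep _ n3 c3 A hA
  set L : List Γ := [A, A + z, B, B + z, C, C + z, D, D + z] with hL
  set f : Fin 8 → Γ := ![A, A + z, B, B + z, C, C + z, D, D + z] with hf
  have hfL : ∀ i : Fin 8, f i = L.get (i.cast (by simp [hL])) := by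
    intro i; fin_cases i <;> rfl
  have hinj : Function.Injective f := by
    intro i j hij
    rw [hfL, hfL] at hij
    have := (List.Nodup.get_inj_iff n4).1 hij
    exact Fin.ext (by simpa using congrArg Fin.val this)
  have hbij : Function.Bijective f := by
    rw [Nat.bijective_iff_injective_and_card]
    exact ⟨hinj, by rw [hn]; simp⟩
  have hpart : ∀ i j : Fin 8, j.val = i.val ^^^ 1 → f j = f i + z := by
    have hzz : ∀ x : Γ, x = x + z + z := fun x => by rw [add_assoc, hz, add_zero]
    intro i j hij
    fin_cases i <;> fin_cases j <;> first | (exfalso; revert hij; decide) | rfl | exact hzz _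
  apply eight_false hG.const f hbij m1 ?_ 0 [2, 1, 3, 4, 6, 5, 7] [2, 4, 1, 3, 6, 5, 7] <;>
    try decide
  intro i j
  unfold m1
  rw [Bool.and_eq_true, decide_eq_true_eq, decide_eq_true_eq]
  constructor
  · intro h
    refine ⟨?_, ?_⟩
    · rintro rfl; rw [sub_self] at h; exact hG.zero h
    · intro h1
      rw [hpart i j h1] at h
      apply hzS
      have e : f i + z - f i = z := by abel
      rwa [e] at h
  · rintro ⟨h1, h2⟩
    apply hall
    · intro h3; exact h1 (hinj (sub_eq_zero.1 h3))
    · intro h3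
      have h4 : i.val ^^^ 1 < 8 := by fin_cases i <;> decide
      have h5 := hpart i ⟨i.val ^^^ 1, h4⟩ rfl
      apply h2
      have h6 : f j = f ⟨i.val ^^^ 1, h4⟩ := by
        rw [h5, sub_eq_iff_eq_add.1 h3]; abel
      exact congrArg Fin.val (hinj h6)

/-- all but two involutions -/
theorem join8 [Finite Γ] {S : Set Γ} (hG : Good S) (hn : Nat.card Γ = 8) {u v : Γ}
    (hu : u + u = 0) (hu0 : u ≠ 0) (huS : u ∉ S) (hv : v + v = 0) (hv0 : v ≠ 0) (hvS : v ∉ S)
    (huv : u ≠ v) (hall : ∀ x, x ≠ 0 → x ≠ u → x ≠ v → x ∈ S) : False := by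
  have huu : ∀ x : Γ, x + u + u = x := fun x => by rw [add_assoc, hu, add_zero]
  have hvv : ∀ x : Γ, x + v + v = x := fun x => by rw [add_assoc, hv, add_zero]
  have huv0 : u + v ≠ 0 := by
    intro h; apply huv
    have := congrArg (fun x => x + v) h
    simp only [hvv, zero_add] at this
    exact this
  obtain ⟨w, hw⟩ := exists_not_mem_list [0, u, v, u + v] (by simp [hn])
  simp only [List.mem_cons, List.not_mem_nil, or_false, not_or] at hw
  obtain ⟨hw0, hwu, hwv, hwuv⟩ := hw
  have nV : ([0, u, v, u + v] : List Γ).Nodup := by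
    simp only [List.nodup_cons, List.mem_cons, List.not_mem_nil, or_false, not_or,
      not_false_eq_true, List.nodup_nil, and_true]
    refine ⟨⟨hu0.symm, hv0.symm, huv0.symm⟩, ⟨huv, ?_⟩, ?_⟩
    · intro h; apply hv0; simpa using h.symm
    · intro h; apply hu0; simpa using h.symm
  set L : List Γ := [0, u, v, u + v] ++ [0, u, v, u + v].map (fun x => w + x) with hL
  have n4 : L.Nodup := by
    rw [hL, List.nodup_append]
    refine ⟨nV, nV.map (fun a b hab => by simpa using hab), ?_⟩
    intro y hy y' hy' hyy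
    subst hyy
    rw [List.mem_map] at hy'
    obtain ⟨x, hx, hxy⟩ := hy'
    have hV : ∀ x ∈ ([0, u, v, u + v] : List Γ), ∀ y ∈ ([0, u, v, u + v] : List Γ),
        y + x ∈ ([0, u, v, u + v] : List Γ) := by
      intro x hx y hy
      simp only [List.mem_cons, List.not_mem_nil, or_false] at hx hy ⊢
      have c1 : v + u = u + v := add_comm v u
      have c2 : u + (u + v) = v := by rw [← add_assoc, hu, zero_add]
      have c3 : v + (u + v) = u := by rw [c1.symm, ← add_assoc, hv, zero_add]
      have c4 : u + v + u = v := by rw [add_comm u v, huu]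
      have c5 : u + v + (u + v) = 0 := by rw [← add_assoc, c4, hv]
      rcases hx with rfl | rfl | rfl | rfl <;> rcases hy with rfl | rfl | rfl | rfl <;>
        simp [hu, hv, huu, hvv, c1, c2, c3, c4, c5]
    have hxx : x + x = 0 := by
      simp only [List.mem_cons, List.not_mem_nil, or_false] at hx
      rcases hx with rfl | rfl | rfl | rfl
      · simp
      · exact hu
      · exact hv
      · have : u + v + (u + v) = (u + u) + (v + v) := by abel
        rw [this, hu, hv, add_zero]
    have hwm := hV x hx y hy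
    have hwe : y + x = w := by rw [← hxy, add_assoc, hxx, add_zero]
    rw [hwe] at hwm
    simp only [List.mem_cons, List.not_mem_nil, or_false] at hwm
    rcases hwm with h | h | h | h
    · exact hw0 h
    · exact hwu h
    · exact hwv h
    · exact hwuv h
  set f : Fin 8 → Γ := ![0, u, v, u + v, w + 0, w + u, w + v, w + (u + v)] with hf
  have hfL : ∀ i : Fin 8, f i = L.get (i.cast (by simp [hL])) := by
    intro i; fin_cases i <;> rfl
  have hinj : Function.Injective f := by
    intro i j hij
    rw [hfL, hfL] at hij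
    have := (List.Nodup.get_inj_iff n4).1 hij
    exact Fin.ext (by simpa using congrArg Fin.val this)
  have hbij : Function.Bijective f := by
    rw [Nat.bijective_iff_injective_and_card]
    exact ⟨hinj, by rw [hn]; simp⟩
  have hpu : ∀ i j : Fin 8, j.val = i.val ^^^ 1 → f j = f i + u := by
    intro i j hij
    fin_cases i <;> fin_cases j <;> first
      | (exfalso; revert hij; decide)
      | (show (0 : Γ) = u + u; exact hu.symm)
      | (show u = (0 : Γ) + u; abel)
      | (show u + v = v + u; abel)
      | (show v = u + v + u; rw [add_comm u v, huu])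
      | (show w + u = w + 0 + u; abel)
      | (show w + 0 = w + u + u; rw [huu, add_zero])
      | (show w + (u + v) = w + v + u; abel)
      | (show w + v = w + (u + v) + u; rw [add_comm u v, ← add_assoc, huu])
  have hpv : ∀ i j : Fin 8, j.val = i.val ^^^ 2 → f j = f i + v := by
    intro i j hij
    fin_cases i <;> fin_cases j <;> first
      | (exfalso; revert hij; decide)
      | (show (0 : Γ) = v + v; exact hv.symm)
      | (show v = (0 : Γ) + v; abel)
      | (show u + v = u + v; rfl)
      | (show u = u + v + v; rw [hvv])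
      | (show w + v = w + 0 + v; abel)
      | (show w + 0 = w + v + v; rw [hvv, add_zero])
      | (show w + (u + v) = w + u + v; abel)
      | (show w + u = w + (u + v) + v; rw [← add_assoc, hvv])
  apply eight_false hG.const f hbij m2 ?_ 0 [4, 1, 5, 3, 7, 2, 6] [3, 4, 1, 5, 6, 2, 7] <;>
    try decide
  intro i j
  unfold m2
  rw [Bool.and_eq_true, Bool.and_eq_true, decide_eq_true_eq, decide_eq_true_eq, decide_eq_true_eq]
  constructor
  · intro h
    refine ⟨⟨?_, ?_⟩, ?_⟩
    · rintro rfl; rw [sub_self] at h; exact hG.zero h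
    · intro h1
      rw [hpu i j h1] at h
      apply huS
      have e : f i + u - f i = u := by abel
      rwa [e] at h
    · intro h1
      rw [hpv i j h1] at h
      apply hvS
      have e : f i + v - f i = v := by abel
      rwa [e] at h
  · rintro ⟨⟨h1, h2⟩, h2'⟩
    apply hall
    · intro h3; exact h1 (hinj (sub_eq_zero.1 h3))
    · intro h3
      have h4 : i.val ^^^ 1 < 8 := by fin_cases i <;> decide
      have h5 := hpu i ⟨i.val ^^^ 1, h4⟩ rfl
      apply h2
      have h6 : f j = f ⟨i.val ^^^ 1, h4⟩ := by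
        rw [h5, sub_eq_iff_eq_add.1 h3]; abel
      exact congrArg Fin.val (hinj h6)
    · intro h3
      have h4 : i.val ^^^ 2 < 8 := by fin_cases i <;> decide
      have h5 := hpv i ⟨i.val ^^^ 2, h4⟩ rfl
      apply h2'
      have h6 : f j = f ⟨i.val ^^^ 2, h4⟩ := by
        rw [h5, sub_eq_iff_eq_add.1 h3]; abel
      exact congrArg Fin.val (hinj h6)

theorem eight_final [Finite Γ] {S : Set Γ} (hG : Good S) (hn : Nat.card Γ = 8) {u v : Γ}
    (hu : u + u = 0) (hu0 : u ≠ 0) (hv : v + v = 0) (hv0 : v ≠ 0)
    (huv : u ≠ v) (hall : ∀ x, x ≠ 0 → x ≠ u → x ≠ v → x ∈ S) : Concl S := by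
  by_cases huS : u ∈ S
  · by_cases hvS : v ∈ S
    · left
      intro x hx
      by_cases h1 : x = u
      · rw [h1]; exact huS
      by_cases h2 : x = v
      · rw [h2]; exact hvS
      exact hall x hx h1 h2
    · exfalso
      apply cocktail hG hn hv hv0 hvS
      intro x hx h2
      by_cases h1 : x = u
      · rw [h1]; exact huS
      exact hall x hx h1 h2
  · by_cases hvS : v ∈ S
    · exfalso
      apply cocktail hG hn hu hu0 huS
      intro x hx h1
      by_cases h2 : x = v
      · rw [h2]; exact hvS
      exact hall x hx h1 h2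
    · exact absurd hall (fun hall => join8 hG hn hu hu0 huS hv hv0 hvS huv hall)

end Pool.Agent.HamTrans
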