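import Pool.Agent.HamTrans.LemmaG

set_option linter.unusedSectionVars false

namespace Pool.Agent.HamTrans

open List

variable {Γ : Type*} [AddCommGroup Γ]

/-- interleaving of two lists -/
def alt : List Γ → List Γ → List Γ
  | k :: ks, q :: qs => k :: q :: alt ks qs
  | _, _ => []

theorem count_alt [DecidableEq Γ] (x : Γ) : ∀ ks qs : List Γ, ks.length = qs.length →
    (alt ks qs).count x = ks.count x + qs.count x := by
  intro ks
  induction ks with
  | nil => intro qs h; cases qs with
    | nil => simp [alt]
    | cons q qs => simp at h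
  | cons k ks ih =>
    intro qs h
    cases qs with
    | nil => simp at h
    | cons q qs =>
      simp only [alt, List.count_cons, ih qs (by simpa using h)]
      ring

theorem alt_chain {R : Γ → Γ → Prop} : ∀ (ks qs : List Γ) (q0 ke : Γ), ks.length = qs.length →
    (∀ k ∈ ks ++ [ke], ∀ q ∈ q0 :: qs, R k q ∧ R q k) →
    (q0 :: (alt ks qs ++ [ke])).IsChain R := by
  intro ks
  induction ks with
  | nil =>
    intro qs q0 ke h hR
    cases qs with
    | nil =>
      simp only [alt, List.nil_append, List.isChain_cons_cons, List.isChain_singleton, and_true]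
      exact (hR ke (by simp) q0 (by simp)).2
    | cons q qs => simp at h
  | cons k ks ih =>
    intro qs q0 ke h hR
    cases qs with
    | nil => simp at h
    | cons q qs =>
      simp only [alt, List.cons_append, List.isChain_cons_cons]
      refine ⟨(hR k (by simp) q0 (by simp)).2, (hR k (by simp) q (by simp)).1, ?_⟩
      apply ih qs q ke (by simpa using h)
      intro k' hk' q' hq'
      apply hR k' _ q' (by simp only [List.mem_cons] at hq' ⊢; tauto)
      simp only [List.cons_append, List.mem_cons]; right; exact hk'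

/-- completing a list to an enumeration of a finite set -/
theorem exists_complete [Finite Γ] (A : Set Γ) (pre : List Γ) (hn : pre.Nodup)
    (hm : ∀ x ∈ pre, x ∈ A) :
    ∃ l : List Γ, (pre ++ l).Nodup ∧ (∀ x, x ∈ pre ++ l ↔ x ∈ A) ∧
      pre.length + l.length = A.ncard := by
  classical
  have hfin : A.Finite := Set.toFinite A
  refine ⟨(hfin.toFinset \ pre.toFinset).toList, ?_, ?_, ?_⟩
  · rw [List.nodup_append]
    refine ⟨hn, Finset.nodup_toList _, ?_⟩
    intro a ha b hb hab
    subst hab
    rw [Finset.mem_toList, Finset.mem_sdiff, List.mem_toFinset] at hb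
    exact hb.2 ha
  · intro x
    rw [List.mem_append, Finset.mem_toList, Finset.mem_sdiff, List.mem_toFinset,
      Set.Finite.mem_toFinset]
    constructor
    · rintro (h | h)
      · exact hm x h
      · exact h.1
    · intro h
      by_cases hx : x ∈ pre
      · left; exact hx
      · right; exact ⟨h, hx⟩
  · rw [Finset.length_toList, Finset.card_sdiff_of_subset, List.toFinset_card_of_nodup hn]
    · have h1 : hfin.toFinset.card = A.ncard := (Set.ncard_eq_toFinset_card A hfin).symm
      have h2 : pre.length ≤ hfin.toFinset.card := by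
        rw [← List.toFinset_card_of_nodup hn]
        apply Finset.card_le_card
        intro x hx
        rw [List.mem_toFinset] at hx
        rw [Set.Finite.mem_toFinset]; exact hm x hx
      omega
    · intro x hx
      rw [List.mem_toFinset] at hx
      rw [Set.Finite.mem_toFinset]; exact hm x hx

theorem nodup2 {A B : List Γ} (hA : A.Nodup) (hB : B.Nodup) (hAB : ∀ x ∈ A, x ∉ B) :
    (A ++ B).Nodup :=
  List.nodup_append.2 ⟨hA, hB, fun a ha b hb hab => by subst hab; exact hAB a ha hb⟩

theorem nodup3 {A B C : List Γ} (hA : A.Nodup) (hB : B.Nodup) (hC : C.Nodup)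
    (hAB : ∀ x ∈ A, x ∉ B) (hAC : ∀ x ∈ A, x ∉ C) (hBC : ∀ x ∈ B, x ∉ C) :
    (A ++ (B ++ C)).Nodup := by
  refine nodup2 hA (nodup2 hB hC hBC) ?_
  intro x hx hx'
  rcases List.mem_append.1 hx' with h | h
  · exact hAB x hx h
  · exact hAC x hx h

theorem mem3 {A B C : List Γ} {x : Γ} : x ∈ A ++ (B ++ C) ↔ x ∈ A ∨ x ∈ B ∨ x ∈ C := by
  rw [List.mem_append, List.mem_append]

theorem ncard_coset [Finite Γ] (H : AddSubgroup Γ) (t : Γ) :
    Set.ncard {x | x - t ∈ H} = Nat.card H := by
  have h1 : {x | x - t ∈ H} = (fun x => x + t) '' (H : Set Γ) := by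
    ext x
    simp only [Set.mem_ofPred_eq, Set.mem_image, SetLike.mem_coe]
    constructor
    · intro h; exact ⟨x - t, h, by abel⟩
    · rintro ⟨y, hy, rfl⟩; simpa using hy
  rw [h1, Set.ncard_image_of_injective _ (add_left_injective t)]
  rfl

/-- the swapping argument -/
theorem swap_eq {S : Set Γ} (hN : N3const S)
    {p o o' u q1 u' q2 k3 q3 : Γ} {Y : List Γ}
    (h1 : HC S ([p, o, o', u, q1, u', q2, k3, q3] ++ Y))
    (h2 : HC S ([p, o, o', u', q1, u, q2, k3, q3] ++ Y))
    (e1 : u' - o' ∈ S) (e2 : q2 - u ∈ S) (e3 : q3 - u' ∈ S)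
    (e1' : u - o' ∈ S) (e2' : q2 - u' ∈ S) (e3' : q3 - u ∈ S) :
    ind S (u - p) = ind S (u' - p) := by
  have h := hN _ _ h1 h2
  rw [cyc3_prefix S (X := [p, o, o', u, q1, u', q2, k3, q3]) (X' := [u, q1, u', q2, k3, q3])
    (X'' := [p, o, o', u, q1, u']) (x0 := p) (x1 := o) (x2 := o') (a := q2) (b := k3) (c := q3)
    rfl rfl,
    cyc3_prefix S (X := [p, o, o', u', q1, u, q2, k3, q3]) (X' := [u', q1, u, q2, k3, q3])
    (X'' := [p, o, o', u', q1, u]) (x0 := p) (x1 := o) (x2 := o') (a := q2) (b := k3) (c := q3)
    rfl rfl] at h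
  simp only [lin3_cons4, lin3_three] at h
  rw [ind_of_mem e1, ind_of_mem e2, ind_of_mem e3, ind_of_mem e1', ind_of_mem e2',
    ind_of_mem e3'] at h
  omega

/-- case alpha: if `S \ H` is `H`-periodic then `S` contains all nonzero elements of `H` -/
theorem alpha_one [Finite Γ] {S : Set Γ} (hG : Good S) (H : AddSubgroup Γ)
    (hH : AddSubgroup.closure (S ∩ H) = H) (hcard : 5 ≤ Nat.card H)
    (hdeg : ∀ x y, ∃ k ∈ S, k ∈ H ∧ k ≠ x ∧ k ≠ y)
    (hper : ∀ t ∈ S, t ∉ H → ∀ h ∈ H, t + h ∈ S) {t : Γ} (ht : t ∈ S) (htH : t ∉ H) :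
    ∀ x ∈ H, x ≠ 0 → x ∈ S := by
  classical
  -- adjacency between the two cosets
  have hadj : ∀ x ∈ H, ∀ y, y - t ∈ H → y - x ∈ S ∧ x - y ∈ S := by
    intro x hx y hy
    have h1 : y - x ∈ S := by
      have : y - x = t + ((y - t) - x) := by abel
      rw [this]; exact hper t ht htH _ (H.sub_mem hy hx)
    refine ⟨h1, ?_⟩
    have : x - y = -(y - x) := by abel
    rw [this]; exact hG.neg _ h1
  have key : ∀ x ∈ H, ∀ y ∈ H, x ≠ 0 → y ≠ 0 → x ≠ y → ind S x = ind S y := by
    intro x hx y hy hx0 hy0 hxy
    obtain ⟨k', hk'S, hk'H, hk'x, hk'y⟩ := hdeg x y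
    have hk'0 := hG.ne_zero hk'S
    -- enumeration of `H`
    obtain ⟨ks, hks1, hks2, hks3⟩ := exists_complete (H : Set Γ) [0, x, y, k'] (by
      simp only [List.nodup_cons, List.mem_cons, List.not_mem_nil, or_false, not_or,
        not_false_eq_true, List.nodup_nil, and_true]
      exact ⟨⟨hx0.symm, hy0.symm, hk'0.symm⟩, ⟨hxy, hk'x.symm⟩, hk'y.symm⟩) (by
      intro z hz
      simp only [List.mem_cons, List.not_mem_nil, or_false] at hz
      rcases hz with rfl | rfl | rfl | rfl
      · exact H.zero_mem
      · exact hx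
      · exact hy
      · exact hk'H)
    have hHn : Set.ncard (H : Set Γ) = Nat.card H := rfl
    rw [hHn] at hks3
    -- enumeration of `t + H`
    obtain ⟨qs, hqs1, hqs2, hqs3⟩ := exists_complete {z | z - t ∈ H} [t, t + k'] (by
      simp only [List.nodup_cons, List.mem_cons, List.not_mem_nil, or_false,
        not_false_eq_true, List.nodup_nil, and_true]
      intro h; apply hk'0; simpa using h) (by
      intro z hz
      simp only [List.mem_cons, List.not_mem_nil, or_false] at hz
      rcases hz with rfl | rfl
      · simp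
      · simpa using hk'H)
    rw [ncard_coset] at hqs3
    simp only [List.length_cons, List.length_nil] at hks3 hqs3
    obtain ⟨k3, ks', rfl⟩ := exists_head ks (by rintro rfl; simp at hks3; omega)
    obtain ⟨q1, qs1, rfl⟩ := exists_head qs (by rintro rfl; simp at hqs3; omega)
    obtain ⟨q2, qs2, rfl⟩ := exists_head qs1 (by rintro rfl; simp at hqs3; omega)
    obtain ⟨q3, qs', rfl⟩ := exists_head qs2 (by rintro rfl; simp at hqs3; omega)
    simp only [List.length_cons] at hks3 hqs3
    have hlen : ks'.length = qs'.length := by omega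
    obtain ⟨M, hM1, hM2, hM3⟩ := attach hG.neg hG.gen H hH ht htH (hG.neg _ hk'S)
      (H.neg_mem hk'H) (by simpa using hk'0)
    set M' := M.map (fun z => k' + z) with hM'
    have hMc : (k' :: (M' ++ [0])).IsChain (Rel S) := by
      have := chain_map_add k' hM1
      simpa using this
    have hMmem : ∀ z, z ∈ M' ↔ (z ∉ H ∧ z - t ∉ H) := by
      intro z
      rw [hM', List.mem_map]
      constructor
      · rintro ⟨w, hw, rfl⟩
        obtain ⟨h1, h2⟩ := (hM3 w).1 hw
        refine ⟨fun h => h1 ?_, fun h => h2 ?_⟩
        · have := H.sub_mem h hk'H; simpa using this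
        · have := H.sub_mem h hk'H
          have e : k' + w - t - k' = w - t := by abel
          rwa [e] at this
      · rintro ⟨h1, h2⟩
        refine ⟨z - k', (hM3 _).2 ⟨fun h => h1 ?_, fun h => h2 ?_⟩, by abel⟩
        · have := H.add_mem h hk'H; simpa using this
        · have := H.add_mem h hk'H
          have e : z - k' - t + k' = z - t := by abel
          rwa [e] at this
    set Y := alt ks' qs' ++ (k' :: M') with hY
    -- members
    have hK : ∀ z, z ∈ [0, x, y, k'] ++ k3 :: ks' → z ∈ H := fun z hz => (hks2 z).1 hz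
    have hQ : ∀ z, z ∈ [t, t + k'] ++ q1 :: q2 :: q3 :: qs' → z - t ∈ H := fun z hz => (hqs2 z).1 hz
    have hHC : ∀ u u' : Γ, u ∈ H → u' ∈ H →
        (∀ w : Γ, [u, u'].count w = [x, y].count w) →
        HC S ([0, t, t + k', u, q1, u', q2, k3, q3] ++ Y) := by
      intro u u' hu hu' hcount
      have hperm : ([0, t, t + k', u, q1, u', q2, k3, q3] ++ Y) ~
          ([0, x, y, k'] ++ k3 :: ks') ++ (([t, t + k'] ++ q1 :: q2 :: q3 :: qs') ++ M') := by
        rw [List.perm_iff_count]
        intro w
        have hc := hcount w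
        simp only [hY, List.count_append, List.count_cons, List.count_nil, count_alt w _ _ hlen]
          at hc ⊢
        omega
      have hchain : ([0, t, t + k', u, q1, u', q2, k3, q3] ++ Y).IsChain (Rel S) := by
        have h1 : (q3 :: (alt ks' qs' ++ [k'])).IsChain (Rel S) := by
          apply alt_chain ks' qs' q3 k' hlen
          intro k hk q hq
          have hkH : k ∈ H := hK k (by
            simp only [List.mem_append, List.mem_cons, List.not_mem_nil, or_false] at hk ⊢
            tauto)
          have hqH : q - t ∈ H := hQ q (by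
            simp only [List.mem_append, List.mem_cons, List.not_mem_nil, or_false] at hq ⊢
            tauto)
          exact hadj k hkH q hqH
        have h2 : (q3 :: Y).IsChain (Rel S) := by
          have e : q3 :: Y = (q3 :: alt ks' qs') ++ k' :: M' := by rw [hY]; simp
          rw [e, List.isChain_split]
          refine ⟨by simpa using h1, ?_⟩
          have := hMc
          rw [← List.cons_append, List.isChain_append] at this
          exact this.1
        have e : [0, t, t + k', u, q1, u', q2, k3, q3] ++ Y
            = 0 :: t :: (t + k') :: u :: q1 :: u' :: q2 :: k3 :: (q3 :: Y) := rfl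
        rw [e]
        simp only [List.isChain_cons_cons]
        have hq1 := hQ q1 (by simp)
        have hq2 := hQ q2 (by simp)
        have hq3 := hQ q3 (by simp)
        have ho' := hQ (t + k') (by simp)
        have hk3 := hK k3 (by simp)
        refine ⟨by simpa [Rel] using ht, by simpa [Rel] using hk'S, (hadj u hu _ ho').2,
          (hadj u hu _ hq1).1, (hadj u' hu' _ hq1).2, (hadj u' hu' _ hq2).1,
          (hadj k3 hk3 _ hq2).2, (hadj k3 hk3 _ hq3).1, h2⟩
      refine ⟨hchain, ?_, ?_, ?_⟩
      · rw [hperm.nodup_iff]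
        refine nodup3 hks1 hqs1 (hM2.map (fun a b hab => by simpa using hab)) ?_ ?_ ?_
        · intro a ha hb
          have haH : a ∈ H := (hks2 a).1 ha
          have h1 : a - t ∈ H := (hqs2 a).1 hb
          apply htH
          have := H.sub_mem haH h1
          simpa using this
        · intro a ha hb
          exact ((hMmem a).1 hb).1 ((hks2 a).1 ha)
        · intro a ha hb
          exact ((hMmem a).1 hb).2 ((hqs2 a).1 ha)
      · intro z
        rw [hperm.mem_iff, mem3, hks2, hqs2, hMmem]
        simp only [SetLike.mem_coe, Set.mem_ofPred_eq]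
        tauto
      · intro v hv w hw
        simp only [List.cons_append, List.head?_cons, Option.mem_def, Option.some.injEq] at hv
        subst hv
        have h1 : ((k' :: M') ++ [0]).IsChain (Rel S) := hMc
        rw [List.isChain_append] at h1
        apply h1.2.2 w ?_ 0 (by simp)
        have e : [0, t, t + k', u, q1, u', q2, k3, q3] ++ Y
            = ([0, t, t + k', u, q1, u', q2, k3, q3] ++ alt ks' qs') ++ (k' :: M') := by
          rw [hY]; simp
        rw [e, List.getLast?_append] at hw
        simpa using hw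
    have hq1 := hQ q1 (by simp)
    have hq2 := hQ q2 (by simp)
    have hq3 := hQ q3 (by simp)
    have ho' := hQ (t + k') (by simp)
    have := swap_eq hG.const (hHC x y hx hy (fun _ => rfl))
      (hHC y x hy hx (fun w => by simp only [List.count_cons, List.count_nil]; ring))
      (hadj y hy _ ho').2 (hadj x hx _ hq2).1 (hadj y hy _ hq3).1
      (hadj x hx _ ho').2 (hadj y hy _ hq2).1 (hadj x hx _ hq3).1
    simpa using this
  obtain ⟨s, hsS, hsH, -, -⟩ := hdeg 0 0
  intro x hx hx0
  by_cases hxs : x = s
  · rw [hxs]; exact hsS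
  · apply mem_of_ind
    rw [key x hx s hsH hx0 (hG.ne_zero hsS) hxs]
    exact ind_of_mem hsS

end Pool.Agent.HamTrans
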