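import Pool.Agent.HamTrans.Swap

set_option linter.unusedSectionVars false

namespace Pool.Agent.HamTrans

open List

variable {Γ : Type*} [AddCommGroup Γ]

theorem attach_translate [Finite Γ] {S : Set Γ} (hG : Good S) (H : AddSubgroup Γ)
    (hH : AddSubgroup.closure (S ∩ H) = H) {t g z : Γ} (ht : t ∈ S) (htH : t ∉ H)
    (hg : g ∈ S) (hgH : g ∈ H) (hz : z ∈ H) :
    ∃ M : List Γ, (z :: (M ++ [z + g])).IsChain (Rel S) ∧ M.Nodup ∧
      ∀ x, x ∈ M ↔ (x ∉ H ∧ x - t ∉ H) := by
  obtain ⟨M, hM1, hM2, hM3⟩ := attach hG.neg hG.gen H hH ht htH hg hgH (hG.ne_zero hg)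
  refine ⟨M.map (fun w => z + w), ?_, hM2.map (fun a b hab => by simpa using hab), ?_⟩
  · have := chain_map_add z hM1
    simpa using this
  · intro x
    rw [List.mem_map]
    constructor
    · rintro ⟨w, hw, rfl⟩
      obtain ⟨h1, h2⟩ := (hM3 w).1 hw
      refine ⟨fun h => h1 ?_, fun h => h2 ?_⟩
      · have := H.sub_mem h hz; simpa using this
      · have := H.sub_mem h hz
        have e : z + w - t - z = w - t := by abel
        rwa [e] at this
    · rintro ⟨h1, h2⟩
      refine ⟨x - z, (hM3 _).2 ⟨fun h => h1 ?_, fun h => h2 ?_⟩, by abel⟩
      · have := H.add_mem h hz; simpa using this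
      · have := H.add_mem h hz
        have e : x - z - t + z = x - t := by abel
        rwa [e] at this

/-- case beta: `T' = H \ L` -/
theorem beta_one [Finite Γ] {S : Set Γ} (hG : Good S) (H : AddSubgroup Γ)
    (hH : AddSubgroup.closure (S ∩ H) = H)
    (hdeg : ∀ x y, ∃ k ∈ S, k ∈ H ∧ k ≠ x ∧ k ≠ y)
    (L : AddSubgroup Γ) (hLH : L ≤ H) (hSL : ∀ a ∈ S, a ∈ H → a ∉ L)
    (hcos : ∀ a ∈ H, a ∉ L → ∀ b ∈ H, b ∉ L → b - a ∈ L)
    (hper : ∀ t ∈ S, t ∉ H → ∀ h ∈ L, t + h ∈ S) {t : Γ} (ht : t ∈ S) (htH : t ∉ H) :
    ∀ x ∈ H, x ∉ L → x ∈ S := by
  classical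
  obtain ⟨g0, hg0S, hg0H, -, -⟩ := hdeg 0 0
  have hg0L := hSL g0 hg0S hg0H
  have hng0 : -g0 - g0 ∈ L := hcos g0 hg0H hg0L (-g0) (H.neg_mem hg0H)
    (fun h => hg0L (by simpa using L.neg_mem h))
  by_cases hl : Nat.card L ≤ 3
  · -- three elements
    obtain ⟨k2, hk2S, hk2H, hk2, -⟩ := hdeg g0 g0
    obtain ⟨k3, hk3S, hk3H, hk3, hk3'⟩ := hdeg g0 k2
    obtain ⟨l, hl1, hl2, hl3⟩ := exists_complete {z | z - g0 ∈ L} [g0, k2, k3] (by
      simp only [List.nodup_cons, List.mem_cons, List.not_mem_nil, or_false, not_or,
        not_false_eq_true, List.nodup_nil, and_true]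
      exact ⟨⟨hk2.symm, hk3.symm⟩, hk3'.symm⟩) (by
      intro z hz
      simp only [List.mem_cons, List.not_mem_nil, or_false] at hz
      rcases hz with rfl | rfl | rfl
      · simp
      · exact hcos g0 hg0H hg0L _ hk2H (hSL _ hk2S hk2H)
      · exact hcos g0 hg0H hg0L _ hk3H (hSL _ hk3S hk3H))
    rw [ncard_coset] at hl3
    have hl0 : l = [] := by
      apply List.eq_nil_of_length_eq_zero
      simp only [List.length_cons, List.length_nil] at hl3
      omega
    subst hl0
    intro x hx hxL
    have := (hl2 x).2 (hcos g0 hg0H hg0L x hx hxL)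
    simp only [List.cons_append, List.nil_append, List.mem_cons, List.not_mem_nil,
      or_false] at this
    rcases this with rfl | rfl | rfl <;> assumption
  · -- adjacency between cosets of `L` differing by `t`
    have hadj : ∀ x y, y - x - t ∈ L → y - x ∈ S ∧ x - y ∈ S := by
      intro x y hy
      have h1 : y - x ∈ S := by
        have : y - x = t + (y - x - t) := by abel
        rw [this]; exact hper t ht htH _ hy
      refine ⟨h1, ?_⟩
      have : x - y = -(y - x) := by abel
      rw [this]; exact hG.neg _ h1
    have key : ∀ p ∈ H, p ∉ L → ∀ x ∈ L, ∀ y ∈ L, x ≠ y → ind S (x - p) = ind S (y - p) := by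
      intro p hpH hpL x hx y hy hxy
      have hpg : p - g0 ∈ L := hcos g0 hg0H hg0L p hpH hpL
      -- choose the exit vertex
      obtain ⟨w, hwL, hwx, hwy, hwp⟩ : ∃ w ∈ L, w ≠ x ∧ w ≠ y ∧ w ≠ p - g0 := by
        obtain ⟨l, hl1, hl2, hl3⟩ := exists_complete (L : Set Γ) [x, y] (by simpa using hxy) (by
          intro z hz
          simp only [List.mem_cons, List.not_mem_nil, or_false] at hz
          rcases hz with rfl | rfl <;> assumption)
        have hLn : Set.ncard (L : Set Γ) = Nat.card L := rfl
        rw [hLn] at hl3
        simp only [List.length_cons, List.length_nil] at hl3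
        obtain ⟨w1, l1, rfl⟩ := exists_head l (by rintro rfl; simp at hl3; omega)
        obtain ⟨w2, l2, rfl⟩ := exists_head l1 (by rintro rfl; simp at hl3; omega)
        simp only [List.cons_append, List.nil_append, List.nodup_cons, List.mem_cons, not_or] at hl1
        by_cases h : w1 = p - g0
        · refine ⟨w2, (hl2 w2).1 (by simp), ?_, ?_, ?_⟩
          · exact fun h' => hl1.1.2.2.1 h'.symm
          · exact fun h' => hl1.2.1.2.1 h'.symm
          · rw [← h]; exact fun h' => hl1.2.2.1.1 h'.symm
        · refine ⟨w1, (hl2 w1).1 (by simp), ?_, ?_, h⟩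
          · exact fun h' => hl1.1.2.1 h'.symm
          · exact fun h' => hl1.2.1.1 h'.symm
      have hp1 : w + g0 ≠ p := fun h => hwp (by rw [← h]; abel)
      -- enumerations
      have hLn : Set.ncard (L : Set Γ) = Nat.card L := rfl
      obtain ⟨us0, hus1, hus2, hus3⟩ := exists_complete (L : Set Γ) [x, y, w] (by
        simp only [List.nodup_cons, List.mem_cons, List.not_mem_nil, or_false, not_or,
          not_false_eq_true, List.nodup_nil, and_true]
        exact ⟨⟨hxy, hwx.symm⟩, hwy.symm⟩) (by
        intro z hz
        simp only [List.mem_cons, List.not_mem_nil, or_false] at hz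
        rcases hz with rfl | rfl | rfl <;> assumption)
      obtain ⟨ps, hps1, hps2, hps3⟩ := exists_complete {z | z - g0 ∈ L} [p, w + g0] (by
        simp only [List.nodup_cons, List.mem_cons, List.not_mem_nil, or_false,
          not_false_eq_true, List.nodup_nil, and_true]
        exact hp1.symm) (by
        intro z hz
        simp only [List.mem_cons, List.not_mem_nil, or_false] at hz
        rcases hz with rfl | rfl
        · exact hpg
        · simpa using hwL)
      obtain ⟨os0, hos1, hos2, hos3⟩ := exists_complete {z | z - t ∈ L} [t] (by simp) (by simp)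
      obtain ⟨os, hot1, hot2, hot3⟩ := exists_complete {z | z - (t + g0) ∈ L} [t - g0] (by simp) (by
        intro z hz
        simp only [List.mem_cons, List.not_mem_nil, or_false] at hz
        subst hz
        simp only [Set.mem_ofPred_eq]
        have : t - g0 - (t + g0) = -g0 - g0 := by abel
        rw [this]; exact hng0)
      rw [hLn] at hus3
      rw [ncard_coset] at hps3 hos3 hot3
      simp only [List.length_cons, List.length_nil] at hus3 hps3 hos3 hot3
      obtain ⟨u3, us, rfl⟩ := exists_head us0 (by rintro rfl; simp at hus3; omega)
      obtain ⟨o2, os1, rfl⟩ := exists_head os0 (by rintro rfl; simp at hos3; omega)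
      obtain ⟨o3, os2, rfl⟩ := exists_head os1 (by rintro rfl; simp at hos3; omega)
      obtain ⟨o4, os', rfl⟩ := exists_head os2 (by rintro rfl; simp at hos3; omega)
      obtain ⟨e1, os3, rfl⟩ := exists_head os (by rintro rfl; simp at hot3; omega)
      simp only [List.length_cons] at hus3 hps3 hos3 hot3
      have hlen1 : us.length = os'.length := by omega
      have hlen2 : ps.length = os3.length := by omega
      obtain ⟨M, hMc, hM2, hMmem⟩ := attach_translate hG H hH ht htH hg0S hg0H (hLH hwL)
      set Y := alt us os' ++ (w :: (M ++ alt ((w + g0) :: ps) (e1 :: os3))) with hY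
      have hU : ∀ z, z ∈ [x, y, w] ++ u3 :: us → z ∈ L := fun z hz => (hus2 z).1 hz
      have hP : ∀ z, z ∈ [p, w + g0] ++ ps → z - g0 ∈ L := fun z hz => (hps2 z).1 hz
      have hO : ∀ z, z ∈ [t] ++ o2 :: o3 :: o4 :: os' → z - t ∈ L := fun z hz => (hos2 z).1 hz
      have hOT : ∀ z, z ∈ [t - g0] ++ e1 :: os3 → z - (t + g0) ∈ L := fun z hz => (hot2 z).1 hz
      have adj1 : ∀ a b, a ∈ L → b - t ∈ L → b - a ∈ S ∧ a - b ∈ S := by
        intro a b ha hb
        apply hadj
        have : b - a - t = (b - t) - a := by abel
        rw [this]; exact L.sub_mem hb ha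
      have adj2 : ∀ a b, a - g0 ∈ L → b - (t + g0) ∈ L → b - a ∈ S ∧ a - b ∈ S := by
        intro a b ha hb
        apply hadj
        have : b - a - t = (b - (t + g0)) - (a - g0) := by abel
        rw [this]; exact L.sub_mem hb ha
      -- chains
      have hch1 : (o4 :: (alt us os' ++ [w])).IsChain (Rel S) := by
        apply alt_chain us os' o4 w hlen1
        intro k hk q hq
        apply adj1 k q
        · apply hU
          simp only [List.mem_append, List.mem_cons, List.not_mem_nil, or_false] at hk ⊢
          tauto
        · apply hO
          simp only [List.mem_append, List.mem_cons, List.not_mem_nil, or_false] at hq ⊢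
          tauto
      have hch2 : ((t - g0) :: (alt ((w + g0) :: ps) (e1 :: os3) ++ [p])).IsChain (Rel S) := by
        apply alt_chain ((w + g0) :: ps) (e1 :: os3) (t - g0) p (by simp [hlen2])
        intro k hk q hq
        apply adj2 k q
        · apply hP
          simp only [List.mem_append, List.mem_cons, List.not_mem_nil, or_false] at hk ⊢
          tauto
        · apply hOT
          simp only [List.mem_append, List.mem_cons, List.not_mem_nil, or_false] at hq ⊢
          tauto
      have hch3 : (w :: (M ++ (alt ((w + g0) :: ps) (e1 :: os3) ++ [p]))).IsChain (Rel S) := by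
        have e : w :: (M ++ (alt ((w + g0) :: ps) (e1 :: os3) ++ [p]))
            = (w :: M) ++ (w + g0) :: (e1 :: (alt ps os3 ++ [p])) := by simp [alt]
        rw [e, List.isChain_split]
        refine ⟨by simpa using hMc, ?_⟩
        have h := hch2
        rw [List.isChain_cons] at h
        simpa [alt] using h.2
      have hHC : ∀ u u' : Γ, u ∈ L → u' ∈ L →
          (∀ w : Γ, [u, u'].count w = [x, y].count w) →
          HC S ([p, t - g0, t, u, o2, u', o3, u3, o4] ++ Y) := by
        intro u u' hu hu' hcount
        have hperm : ([p, t - g0, t, u, o2, u', o3, u3, o4] ++ Y) ~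
            (([x, y, w] ++ u3 :: us) ++ ([p, w + g0] ++ ps)) ++
              ((([t] ++ o2 :: o3 :: o4 :: os') ++ ([t - g0] ++ e1 :: os3)) ++ M) := by
          rw [List.perm_iff_count]
          intro z
          have hc := hcount z
          have hc1 := count_alt z us os' hlen1
          have hc2 := count_alt z ((w + g0) :: ps) (e1 :: os3) (by simp [hlen2])
          simp only [hY, List.count_append, List.count_cons, List.count_nil] at hc hc1 hc2 ⊢
          rw [hc1, hc2]
          omega
        refine ⟨?_, ?_, ?_, ?_⟩
        · have h2 : (o4 :: (Y ++ [p])).IsChain (Rel S) := by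
            have e : o4 :: (Y ++ [p]) = (o4 :: alt us os') ++
                w :: (M ++ (alt ((w + g0) :: ps) (e1 :: os3) ++ [p])) := by rw [hY]; simp
            rw [e, List.isChain_split]
            exact ⟨by simpa using hch1, hch3⟩
          have h3 : (o4 :: Y).IsChain (Rel S) := by
            rw [← List.cons_append, List.isChain_append] at h2
            exact h2.1
          have e : [p, t - g0, t, u, o2, u', o3, u3, o4] ++ Y
              = p :: (t - g0) :: t :: u :: o2 :: u' :: o3 :: u3 :: (o4 :: Y) := rfl
          rw [e]
          simp only [List.isChain_cons_cons]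
          have h_o2 := hO o2 (by simp)
          have h_o3 := hO o3 (by simp)
          have h_o4 := hO o4 (by simp)
          have h_t := hO t (by simp)
          have h_u3 := hU u3 (by simp)
          refine ⟨(adj2 p (t - g0) hpg (hOT _ (by simp))).1, ?_, (adj1 u t hu h_t).2,
            (adj1 u o2 hu h_o2).1, (adj1 u' o2 hu' h_o2).2, (adj1 u' o3 hu' h_o3).1,
            (adj1 u3 o3 h_u3 h_o3).2, (adj1 u3 o4 h_u3 h_o4).1, h3⟩
          unfold Rel
          have : t - (t - g0) = g0 := by abel
          rw [this]; exact hg0S
        · rw [hperm.nodup_iff]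
          have n1 : (([x, y, w] ++ u3 :: us) ++ ([p, w + g0] ++ ps)).Nodup := by
            refine nodup2 hus1 hps1 ?_
            intro z hz hz'
            have h1 := hU z hz
            have h2 := hP z hz'
            apply hg0L
            have := L.sub_mem h1 h2
            simpa using this
          have n2 : (([t] ++ o2 :: o3 :: o4 :: os') ++ ([t - g0] ++ e1 :: os3)).Nodup := by
            refine nodup2 hos1 hot1 ?_
            intro z hz hz'
            have h1 := hO z hz
            have h2 := hOT z hz'
            apply hg0L
            have := L.sub_mem h1 h2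
            have e : z - t - (z - (t + g0)) = g0 := by abel
            rwa [e] at this
          have m1 : ∀ z, z ∈ (([x, y, w] ++ u3 :: us) ++ ([p, w + g0] ++ ps)) → z ∈ H := by
            intro z hz
            rcases List.mem_append.1 hz with h | h
            · exact hLH (hU z h)
            · have := H.add_mem (hLH (hP z h)) hg0H
              simpa using this
          have m2 : ∀ z, z ∈ (([t] ++ o2 :: o3 :: o4 :: os') ++ ([t - g0] ++ e1 :: os3)) →
              z - t ∈ H := by
            intro z hz
            rcases List.mem_append.1 hz with h | h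
            · exact hLH (hO z h)
            · have := H.add_mem (hLH (hOT z h)) hg0H
              have e : z - (t + g0) + g0 = z - t := by abel
              rwa [e] at this
          refine nodup2 n1 (nodup2 n2 hM2 ?_) ?_
          · intro z hz hz'
            exact ((hMmem z).1 hz').2 (m2 z hz)
          · intro z hz hz'
            have hzH := m1 z hz
            rcases List.mem_append.1 hz' with h | h
            · have := m2 z h
              apply htH
              have := H.sub_mem hzH this
              simpa using this
            · exact ((hMmem z).1 h).1 hzH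
        · intro z
          rw [hperm.mem_iff]
          by_cases hzH : z ∈ H
          · apply List.mem_append_left
            by_cases hzL : z ∈ L
            · apply List.mem_append_left
              exact (hus2 z).2 hzL
            · apply List.mem_append_right
              exact (hps2 z).2 (hcos g0 hg0H hg0L z hzH hzL)
          · apply List.mem_append_right
            by_cases hzt : z - t ∈ H
            · apply List.mem_append_left
              by_cases hzL : z - t ∈ L
              · apply List.mem_append_left
                exact (hos2 z).2 hzL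
              · apply List.mem_append_right
                have := hcos g0 hg0H hg0L (z - t) hzt hzL
                refine (hot2 z).2 ?_
                simp only [Set.mem_ofPred_eq]
                have e : z - (t + g0) = z - t - g0 := by abel
                rw [e]; exact this
            · apply List.mem_append_right
              exact (hMmem z).2 ⟨hzH, hzt⟩
        · intro v hv w' hw'
          simp only [List.cons_append, List.head?_cons, Option.mem_def, Option.some.injEq] at hv
          subst hv
          have h := hch3
          have e : w :: (M ++ (alt ((w + g0) :: ps) (e1 :: os3) ++ [p]))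
            = (w :: (M ++ alt ((w + g0) :: ps) (e1 :: os3))) ++ [p] := by simp
          rw [e, List.isChain_append] at h
          apply h.2.2 w' ?_ p (by simp)
          have e : [p, t - g0, t, u, o2, u', o3, u3, o4] ++ Y
              = ([p, t - g0, t, u, o2, u', o3, u3, o4] ++ alt us os') ++
                (w :: (M ++ alt ((w + g0) :: ps) (e1 :: os3))) := by
            rw [hY]; simp
          rw [e, List.getLast?_append] at hw'
          simpa using hw'
      have h_o3 := hO o3 (by simp)
      have h_o4 := hO o4 (by simp)
      have h_t := hO t (by simp)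
      exact swap_eq hG.const (hHC x y hx hy (fun _ => rfl))
        (hHC y x hy hx (fun w => by simp only [List.count_cons, List.count_nil]; ring))
        (adj1 y t hy h_t).2 (adj1 x o3 hx h_o3).1 (adj1 y o4 hy h_o4).1
        (adj1 x t hx h_t).2 (adj1 y o3 hy h_o3).1 (adj1 x o4 hx h_o4).1
    intro x hx hxL
    by_cases hxg : x = g0
    · rw [hxg]; exact hg0S
    have h1 := key (-x) (H.neg_mem hx) (fun h => hxL (by simpa using L.neg_mem h)) 0 L.zero_mem
      (g0 - x) (hcos x hx hxL g0 hg0H hg0L) (fun h => hxg (by
        have := h.symm; rw [sub_eq_zero] at this; exact this.symm))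
    have e1 : (0 : Γ) - -x = x := by abel
    have e2 : g0 - x - -x = g0 := by abel
    rw [e1, e2, ind_of_mem hg0S] at h1
    exact mem_of_ind h1

end Pool.Agent.HamTrans
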