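import Pool.Agent.HamTrans.LemmaB

set_option linter.unusedSectionVars false

namespace Pool.Agent.HamTrans

open List

variable {Γ : Type*} [AddCommGroup Γ]

theorem HP.length [Finite Γ] {S : Set Γ} {H : AddSubgroup Γ} {l : List Γ}
    (h : HP S (H : Set Γ) l) : l.length = Nat.card H := by
  classical
  have h1 : (l.toFinset : Set Γ) = (H : Set Γ) := by
    ext x; rw [Finset.mem_coe, List.mem_toFinset]; exact h.mem x
  have h2 : Nat.card H = Set.ncard (H : Set Γ) := rfl
  rw [h2, ← h1, Set.ncard_coe_finset, List.toFinset_card_of_nodup h.nodup]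

theorem HP.of_length [Finite Γ] {S : Set Γ} {H : AddSubgroup Γ} {l : List Γ}
    (hc : l.IsChain (Rel S)) (hn : l.Nodup) (hm : ∀ x ∈ l, x ∈ H)
    (hl : Nat.card H ≤ l.length) : HP S (H : Set Γ) l := by
  classical
  refine ⟨hc, hn, fun x => ⟨fun hx => hm x hx, fun hx => ?_⟩⟩
  have h1 : (l.toFinset : Set Γ) ⊆ (H : Set Γ) := by
    intro y hy
    rw [Finset.mem_coe, List.mem_toFinset] at hy
    exact hm y hy
  have h2 : (l.toFinset : Set Γ) = (H : Set Γ) := by
    apply Set.eq_of_subset_of_ncard_le h1
    · rw [Set.ncard_coe_finset, List.toFinset_card_of_nodup hn]; exact hl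
  have h3 : x ∈ (l.toFinset : Set Γ) := by rw [h2]; exact hx
  rwa [Finset.mem_coe, List.mem_toFinset] at h3

/-- version of Lemma B with the data given through the two ends of the path -/
theorem lemmaB' [Finite Γ] {S : Set Γ} (hS : ∀ s ∈ S, -s ∈ S) (h0 : (0 : Γ) ∉ S)
    (hN : N3const S) (hgen : AddSubgroup.closure S = ⊤) (H : AddSubgroup Γ)
    (hH : AddSubgroup.closure (S ∩ H) = H) {t : Γ} (ht : t ∈ S) (htH : t ∉ H)
    (hcard : 4 ≤ Nat.card H) {Q T U : List Γ} {α β d : Γ}
    (hQ : HP S (H : Set Γ) Q) (hQ1 : Q = 0 :: α :: T) (hQ2 : Q = U ++ [d - β, d]) :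
    t + α - β ∈ S ∧ t - α + β ∈ S := by
  have hlen := hQ.length
  match T, hQ1 with
  | [], hQ1 => rw [hQ1] at hlen; simp at hlen; omega
  | [x], hQ1 => rw [hQ1] at hlen; simp at hlen; omega
  | q2 :: x :: T', hQ1 =>
    match U, hQ2 with
    | [], hQ2 => rw [hQ2] at hlen; simp at hlen; omega
    | [u], hQ2 => rw [hQ2] at hlen; simp at hlen; omega
    | u :: u' :: P, hQ2 =>
      have h1 : (0 :: α :: q2 :: x :: T') = u :: u' :: (P ++ [d - β, d]) := by
        rw [← hQ1, hQ2]; simp
      simp only [List.cons.injEq] at h1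
      obtain ⟨-, -, h3⟩ := h1
      exact lemmaB hS h0 hN hgen H hH ht htH hQ hQ1 h3

theorem mem_sup_zmultiples [Finite Γ] (B : AddSubgroup Γ) (x y : Γ) :
    y ∈ B ⊔ AddSubgroup.zmultiples x ↔ ∃ i < addOrderOf (x : Γ ⧸ B), y - i • x ∈ B := by
  set q := addOrderOf (x : Γ ⧸ B) with hq
  have hq0 : 0 < q := addOrderOf_pos _
  rw [AddSubgroup.mem_sup]
  constructor
  · rintro ⟨b, hb, z, hz, rfl⟩
    obtain ⟨n, rfl⟩ := AddSubgroup.mem_zmultiples_iff.1 hz
    have hqZ : (0 : ℤ) < q := by exact_mod_cast hq0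
    refine ⟨(n % q).toNat, ?_, ?_⟩
    · have := Int.emod_lt_of_pos n hqZ
      have := Int.emod_nonneg n hqZ.ne'
      omega
    · have h1 : ((n % q).toNat : ℤ) = n % q := Int.toNat_of_nonneg (Int.emod_nonneg n hqZ.ne')
      have h2 : (n % q).toNat • x = (n % q) • x := by
        conv_rhs => rw [← h1]
        exact (natCast_zsmul x _).symm
      have h3 : n • x = (n % q) • x + (n / q) • ((q : ℤ) • x) := by
        rw [← mul_smul, ← add_smul]
        congr 1
        rw [mul_comm]; exact (Int.emod_add_mul_ediv n q).symm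
      have h4 : ((q : ℤ) • x) ∈ B := by
        rw [← QuotientAddGroup.eq_zero_iff]
        have : (q • x : Γ) = (q : ℤ) • x := by simp
        rw [← this]
        have h5 : q • (x : Γ ⧸ B) = 0 := addOrderOf_nsmul_eq_zero _
        exact_mod_cast h5
      rw [h2, h3]
      have : b + ((n % q) • x + (n / q) • ((q : ℤ) • x)) - (n % q) • x
          = b + (n / q) • ((q : ℤ) • x) := by abel
      rw [this]
      exact B.add_mem hb (B.zsmul_mem h4 _)
  · rintro ⟨i, _, h⟩
    exact ⟨_, h, i • x, AddSubgroup.nsmul_mem_zmultiples x i, by abel⟩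

theorem not_mem_of_lt [Finite Γ] (B : AddSubgroup Γ) (x : Γ) {i : ℕ} (hi : 0 < i)
    (hi' : i < addOrderOf (x : Γ ⧸ B)) : i • x ∉ B := by
  intro h
  have h1 : i • (x : Γ ⧸ B) = 0 := by
    have := (QuotientAddGroup.eq_zero_iff (N := B) (i • x)).2 h
    exact_mod_cast this
  have h2 := Nat.le_of_dvd hi (addOrderOf_dvd_of_nsmul_eq_zero h1)
  omega

/-- stacking of translates of a list -/
def rows (Z : List Γ) (s : Γ) : ℕ → Γ → List Γ
  | 0, _ => []
  | k + 1, x => Z.map (fun z => x + z) ++ rows Z s k (x + s)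

theorem rows_succ' (Z : List Γ) (s : Γ) (k : ℕ) (x : Γ) :
    rows Z s (k + 1) x = rows Z s k x ++ Z.map (fun z => (x + k • s) + z) := by
  induction k generalizing x with
  | zero => simp [rows]
  | succ k ih =>
    rw [rows, ih, rows, List.append_assoc]
    congr 2
    apply List.map_congr_left
    intro z _
    rw [succ_nsmul]; abel

theorem rows_head (Z : List Γ) (s : Γ) (k : ℕ) (x : Γ) (hZ : Z.head? = some 0) :
    (rows Z s (k + 1) x).head? = some x := by
  rw [rows, List.head?_append, List.head?_map, hZ]; simp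

theorem rows_last (Z : List Γ) (s e : Γ) (k : ℕ) (x : Γ) (hZ : Z.getLast? = some e) :
    (rows Z s (k + 1) x).getLast? = some (x + k • s + e) := by
  rw [rows_succ', List.getLast?_append, List.getLast?_map, hZ]; simp

theorem rows_HP [Finite Γ] {S : Set Γ} (B : AddSubgroup Γ) {Z : List Γ} {e b : Γ}
    (hZ : HP S (B : Set Γ) Z) (hZ0 : Z.head? = some 0) (hZe : Z.getLast? = some e) (hb : b ∈ S) :
    ∀ k, k ≤ addOrderOf (b : Γ ⧸ B) → ∀ x,
      HP S {y | ∃ j < k, y - (x + j • b) ∈ B} (rows Z (e + b) k x) := by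
  have he : e ∈ B := (hZ.mem e).1 (List.mem_of_getLast? hZe)
  intro k
  induction k with
  | zero => intro _ x; exact ⟨by simp [rows], by simp [rows], by simp [rows]⟩
  | succ k ih =>
    intro hk x
    have h1 := ih (by omega) (x + (e + b))
    have h2 := hZ.translate x
    rw [rows]
    have h3 := h2.append h1 ?_ ?_
    · refine h3.congr (fun y => ?_)
      simp only [Set.mem_ofPred_eq, SetLike.mem_coe]
      constructor
      · rintro (h | ⟨j, hj, h⟩)
        · exact ⟨0, by omega, by simpa using h⟩
        · refine ⟨j + 1, by omega, ?_⟩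
          have : y - (x + (j + 1) • b) = (y - (x + (e + b) + j • b)) + e := by
            rw [succ_nsmul]; abel
          rw [this]; exact B.add_mem h he
      · rintro ⟨j, hj, h⟩
        cases j with
        | zero => left; simpa using h
        | succ j =>
          right
          refine ⟨j, by omega, ?_⟩
          have : y - (x + (e + b) + j • b) = (y - (x + (j + 1) • b)) - e := by
            rw [succ_nsmul]; abel
          rw [this]; exact B.sub_mem h he
    · rintro y hy ⟨j, hj, h⟩
      simp only [Set.mem_ofPred_eq, SetLike.mem_coe] at hy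
      have h4 : (j + 1) • b ∈ B := by
        have : (j + 1) • b = (y - x) - (y - (x + (e + b) + j • b)) - e := by
          rw [succ_nsmul]; abel
        rw [this]; exact B.sub_mem (B.sub_mem hy h) he
      exact not_mem_of_lt B b (by omega) (by omega) h4
    · intro u hu v hv
      rw [List.getLast?_map, hZe] at hu
      simp at hu; subst hu
      cases k with
      | zero => simp [rows] at hv
      | succ k =>
        rw [rows_head Z _ k _ hZ0] at hv
        simp at hv; subst hv
        unfold Rel
        have : x + (e + b) - (x + e) = b := by abel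
        rw [this]; exact hb

end Pool.Agent.HamTrans
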